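import Mathlib

/-!
# Weighted coefficient norms of polynomials and division by polynomials with small roots
-/

set_option autoImplicit false

open Polynomial Finset

namespace Pool.Agent.H109F.LK

/-- weighted `ℓ¹` norm of the coefficients -/
noncomputable def nrm (θ : ℝ) (p : ℂ[X]) : ℝ := p.sum fun i c => ‖c‖ * θ ^ i

theorem nrm_eq {θ : ℝ} {p : ℂ[X]} {n : ℕ} (h : p.natDegree < n) :
    nrm θ p = ∑ i ∈ range n, ‖p.coeff i‖ * θ ^ i := by
  unfold nrm
  exact p.sum_over_range' (fun i => by simp) n h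

theorem nrm_nonneg {θ : ℝ} (hθ : 0 ≤ θ) (p : ℂ[X]) : 0 ≤ nrm θ p := by
  unfold nrm Polynomial.sum
  positivity

@[simp] theorem nrm_zero (θ : ℝ) : nrm θ 0 = 0 := by
  simp [nrm]

theorem nrm_add_le {θ : ℝ} (hθ : 0 ≤ θ) (p q : ℂ[X]) : nrm θ (p + q) ≤ nrm θ p + nrm θ q := by
  have h1 : p.natDegree < max p.natDegree q.natDegree + 1 := by omega
  have h2 : q.natDegree < max p.natDegree q.natDegree + 1 := by omega
  have h3 : (p + q).natDegree < max p.natDegree q.natDegree + 1 := by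
    have := natDegree_add_le p q
    omega
  rw [nrm_eq h1, nrm_eq h2, nrm_eq h3, ← Finset.sum_add_distrib]
  refine Finset.sum_le_sum fun i _ => ?_
  rw [coeff_add, ← add_mul]
  exact mul_le_mul_of_nonneg_right (norm_add_le _ _) (by positivity)

theorem nrm_sum_le {θ : ℝ} (hθ : 0 ≤ θ) {ι : Type*} (s : Finset ι) (f : ι → ℂ[X]) :
    nrm θ (∑ i ∈ s, f i) ≤ ∑ i ∈ s, nrm θ (f i) := by
  classical
  induction s using Finset.induction_on with
  | empty => simp
  | insert a s ha ih =>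
    rw [Finset.sum_insert ha, Finset.sum_insert ha]
    exact (nrm_add_le hθ _ _).trans (add_le_add le_rfl ih)

theorem nrm_neg (θ : ℝ) (p : ℂ[X]) : nrm θ (-p) = nrm θ p := by
  have h1 : p.natDegree < p.natDegree + 1 := by omega
  have h3 : (-p).natDegree < p.natDegree + 1 := by simp
  rw [nrm_eq h1, nrm_eq h3]
  simp

theorem nrm_monomial_mul (θ : ℝ) (i : ℕ) (c : ℂ) (p : ℂ[X]) :
    nrm θ (monomial i c * p) = ‖c‖ * θ ^ i * nrm θ p := by
  have h1 : p.natDegree < p.natDegree + 1 := by omega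
  have h2 : (monomial i c * p).natDegree < i + (p.natDegree + 1) := by
    have := natDegree_mul_le (p := monomial i c) (q := p)
    have := natDegree_monomial_le c (m := i)
    omega
  rw [nrm_eq h1, nrm_eq h2, Finset.sum_range_add, Finset.mul_sum]
  have h3 : ∑ x ∈ range i, ‖(monomial i c * p).coeff x‖ * θ ^ x = 0 := by
    refine Finset.sum_eq_zero fun x hx => ?_
    rw [mem_range] at hx
    rw [← C_mul_X_pow_eq_monomial, mul_assoc, coeff_C_mul, coeff_X_pow_mul', if_neg (by omega)]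
    simp
  rw [h3, zero_add]
  refine Finset.sum_congr rfl fun x _ => ?_
  rw [← C_mul_X_pow_eq_monomial, mul_assoc, coeff_C_mul, coeff_X_pow_mul', if_pos (by omega),
    norm_mul, Nat.add_sub_cancel_left, pow_add]
  ring

theorem nrm_mul_le {θ : ℝ} (hθ : 0 ≤ θ) (p q : ℂ[X]) : nrm θ (p * q) ≤ nrm θ p * nrm θ q := by
  conv_lhs => rw [p.as_sum_support, Finset.sum_mul]
  refine (nrm_sum_le hθ _ _).trans ?_
  simp only [nrm_monomial_mul]
  rw [← Finset.sum_mul]
  exact le_rfl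

theorem nrm_C_mul (θ : ℝ) (c : ℂ) (p : ℂ[X]) : nrm θ (C c * p) = ‖c‖ * nrm θ p := by
  have := nrm_monomial_mul θ 0 c p
  rwa [monomial_zero_left, pow_zero, mul_one] at this

theorem nrm_X_pow (θ : ℝ) (n : ℕ) : nrm θ (X ^ n : ℂ[X]) = θ ^ n := by
  have h : (X ^ n : ℂ[X]).natDegree < n + 1 := by simp
  rw [nrm_eq h, Finset.sum_eq_single n]
  · simp
  · intro b _ hb
    rw [coeff_X_pow, if_neg hb]; simp
  · intro h; simp at h

theorem norm_eval_le {θ : ℝ} (p : ℂ[X]) {z : ℂ} (hz : ‖z‖ ≤ θ) : ‖p.eval z‖ ≤ nrm θ p := by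
  rw [eval_eq_sum]
  unfold nrm Polynomial.sum
  refine (norm_sum_le _ _).trans (Finset.sum_le_sum fun i _ => ?_)
  rw [norm_mul, norm_pow]
  exact mul_le_mul_of_nonneg_left (pow_le_pow_left₀ (norm_nonneg _) hz _) (norm_nonneg _)

theorem norm_coeff_le {θ : ℝ} (hθ : 0 ≤ θ) (p : ℂ[X]) (i : ℕ) : ‖p.coeff i‖ * θ ^ i ≤ nrm θ p := by
  have h : p.natDegree < max i p.natDegree + 1 := by omega
  rw [nrm_eq h]
  exact Finset.single_le_sum (f := fun i => ‖p.coeff i‖ * θ ^ i) (fun i _ => by positivity)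
    (mem_range.2 (by omega))

/-- division by a linear factor -/
theorem div_one {θ : ℝ} {z : ℂ} (hz : ‖z‖ < θ) (f : ℂ[X]) :
    ∃ (q : ℂ[X]) (c : ℂ), f = (X - C z) * q + C c ∧ nrm θ q ≤ nrm θ f / (θ - ‖z‖) ∧
      ‖c‖ ≤ nrm θ f := by
  have hθ : 0 ≤ θ := (norm_nonneg z).trans hz.le
  have hd : 0 < θ - ‖z‖ := by linarith
  let g : ℕ → ℂ[X] := fun i => ∑ a ∈ range i, X ^ a * (C z) ^ (i - 1 - a)
  have hg : ∀ i, nrm θ (g i) ≤ θ ^ i / (θ - ‖z‖) := by
    intro i
    have h1 : nrm θ (g i) ≤ ∑ a ∈ range i, θ ^ a * ‖z‖ ^ (i - 1 - a) := by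
      refine (nrm_sum_le hθ _ _).trans (Finset.sum_le_sum fun a _ => ?_)
      rw [← C_pow, mul_comm, nrm_C_mul, nrm_X_pow, norm_pow, mul_comm]
    refine h1.trans ?_
    rw [le_div_iff₀ hd]
    have h2 := geom_sum₂_mul θ ‖z‖ i
    rw [h2]
    have : 0 ≤ ‖z‖ ^ i := by positivity
    linarith
  refine ⟨∑ i ∈ f.support, C (f.coeff i) * g i, f.eval z, ?_, ?_, norm_eval_le f hz.le⟩
  · have h3 : ∀ i, (X - C z) * (C (f.coeff i) * g i) = C (f.coeff i) * (X ^ i - C z ^ i) := by
      intro i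
      have := geom_sum₂_mul (X : ℂ[X]) (C z) i
      rw [← this]
      ring
    rw [Finset.mul_sum, Finset.sum_congr rfl fun i _ => h3 i]
    simp only [mul_sub, Finset.sum_sub_distrib]
    have h4 : ∑ i ∈ f.support, C (f.coeff i) * X ^ i = f := (f.as_sum_support_C_mul_X_pow).symm
    have h5 : ∑ i ∈ f.support, C (f.coeff i) * C z ^ i = C (f.eval z) := by
      rw [eval_eq_sum, Polynomial.sum, map_sum]
      simp
    rw [h4, h5]
    ring
  · refine (nrm_sum_le hθ _ _).trans ?_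
    have : nrm θ f / (θ - ‖z‖) = ∑ i ∈ f.support, ‖f.coeff i‖ * (θ ^ i / (θ - ‖z‖)) := by
      unfold nrm Polynomial.sum
      rw [Finset.sum_div]
      refine Finset.sum_congr rfl fun i _ => by ring
    rw [this]
    refine Finset.sum_le_sum fun i _ => ?_
    rw [nrm_C_mul]
    exact mul_le_mul_of_nonneg_left (hg i) (norm_nonneg _)

/-- the monic polynomial with the given roots -/
noncomputable def rp (s : Multiset ℂ) : ℂ[X] := (s.map fun z => X - C z).prod

theorem rp_monic (s : Multiset ℂ) : (rp s).Monic := monic_multiset_prod_of_monic _ _ fun z _ => monic_X_sub_C z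

theorem rp_natDegree (s : Multiset ℂ) : (rp s).natDegree = s.card := by
  unfold rp
  exact natDegree_multiset_prod_X_sub_C_eq_card s

/-- bounded division by a polynomial with roots in a disc -/
theorem div_rp {θ : ℝ} (hθ : 0 ≤ θ) (s : Multiset ℂ) (hs : ∀ z ∈ s, ‖z‖ < θ) :
    ∃ M : ℝ, 0 ≤ M ∧ ∀ f : ℂ[X], ∃ q r : ℂ[X], f = rp s * q + r ∧ r.degree < s.card ∧
      nrm θ q ≤ M * nrm θ f ∧ nrm θ r ≤ M * nrm θ f := by
  induction s using Multiset.induction_on with
  | empty =>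
    refine ⟨1, zero_le_one, fun f => ⟨f, 0, ?_, ?_, ?_, ?_⟩⟩
    · simp [rp]
    · simp
    · simp
    · simp [nrm_nonneg hθ]
  | cons z s ih =>
    obtain ⟨M, hM, h⟩ := ih fun w hw => hs w (Multiset.mem_cons_of_mem hw)
    have hz := hs z (Multiset.mem_cons_self z s)
    have hd : 0 < θ - ‖z‖ := by linarith
    have hu := nrm_nonneg hθ (rp s)
    refine ⟨M / (θ - ‖z‖) + M * nrm θ (rp s) + M, by positivity, fun f => ?_⟩
    obtain ⟨q, r, h1, h2, h3, h4⟩ := h f
    obtain ⟨q', c, h5, h6, h7⟩ := div_one hz q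
    have hf := nrm_nonneg hθ f
    refine ⟨q', C c * rp s + r, ?_, ?_, ?_, ?_⟩
    · have h8 : rp (z ::ₘ s) = (X - C z) * rp s := by simp [rp]
      rw [h8]
      conv_lhs => rw [h1, h5]
      ring
    · rw [Multiset.card_cons]
      refine (degree_add_le _ _).trans_lt (max_lt ?_ (h2.trans ?_))
      · rw [← smul_eq_C_mul]
        refine (degree_smul_le c _).trans_lt ?_
        rw [degree_eq_natDegree (rp_monic s).ne_zero, rp_natDegree]
        exact_mod_cast Nat.lt_succ_self _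
      · exact_mod_cast Nat.lt_succ_self _
    · calc nrm θ q' ≤ nrm θ q / (θ - ‖z‖) := h6
        _ ≤ (M * nrm θ f) / (θ - ‖z‖) := by gcongr
        _ = M / (θ - ‖z‖) * nrm θ f := by ring
        _ ≤ _ := by
          apply mul_le_mul_of_nonneg_right _ hf
          have : 0 ≤ M * nrm θ (rp s) := by positivity
          linarith
    · calc nrm θ (C c * rp s + r) ≤ nrm θ (C c * rp s) + nrm θ r := nrm_add_le hθ _ _
        _ ≤ (M * nrm θ f) * nrm θ (rp s) + M * nrm θ f := by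
          rw [nrm_C_mul]
          gcongr
          exact h7.trans h3
        _ = (M * nrm θ (rp s) + M) * nrm θ f := by ring
        _ ≤ _ := by
          apply mul_le_mul_of_nonneg_right _ hf
          have : 0 ≤ M / (θ - ‖z‖) := by positivity
          linarith

/-- a multiple `z ^ N - r z` with small `r` -/
theorem small_mult {θ : ℝ} (hθ : 0 < θ) (s : Multiset ℂ) (hs : ∀ z ∈ s, ‖z‖ < θ) {ε : ℝ}
    (hε : 0 < ε) : ∃ (N : ℕ) (w r : ℂ[X]), s.card ≤ N ∧ 1 ≤ N ∧ rp s * w = X ^ N - r ∧ w.natDegree + s.card ≤ N ∧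
      r.degree < N ∧ nrm θ r ≤ ε * θ ^ N := by
  -- a smaller disc
  obtain ⟨η, hη0, hηθ, hη⟩ : ∃ η : ℝ, 0 < η ∧ η < θ ∧ ∀ z ∈ s, ‖z‖ < η := by
    by_cases h0 : s = 0
    · exact ⟨θ / 2, by positivity, by linarith, by simp [h0]⟩
    · classical
      obtain ⟨m, hm, hmax⟩ := s.toFinset.exists_max_image (fun z => ‖z‖) (by
        obtain ⟨a, ha⟩ := Multiset.exists_mem_of_ne_zero h0
        exact ⟨a, Multiset.mem_toFinset.2 ha⟩)
      have hmθ := hs m (Multiset.mem_toFinset.1 hm)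
      refine ⟨(‖m‖ + θ) / 2, by have := norm_nonneg m; linarith, by linarith, fun z hz => ?_⟩
      have := hmax z (Multiset.mem_toFinset.2 hz)
      linarith
  obtain ⟨M, hM, hdiv⟩ := div_rp hη0.le s hη
  have hr1 : 1 ≤ θ / η := by rw [one_le_div hη0]; exact hηθ.le
  -- choose N
  obtain ⟨N, hN1, hN2⟩ : ∃ N : ℕ, s.card + 1 ≤ N ∧ M * (θ / η) ^ s.card * (η / θ) ^ N ≤ ε := by
    have h1 : Filter.Tendsto (fun N : ℕ => M * (θ / η) ^ s.card * (η / θ) ^ N) Filter.atTop (nhds (M * (θ / η) ^ s.card * 0)) :=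
      (tendsto_pow_atTop_nhds_zero_of_lt_one (by positivity) (by rw [div_lt_one hθ]; exact hηθ)).const_mul _
    rw [mul_zero] at h1
    obtain ⟨N, h2, h3⟩ := ((h1.eventually (gt_mem_nhds hε)).and (Filter.eventually_ge_atTop (s.card + 1))).exists
    exact ⟨N, h3, h2.le⟩
  obtain ⟨q, r, h1, h2, -, h4⟩ := hdiv (X ^ N)
  rw [nrm_X_pow] at h4
  refine ⟨N, q, r, by omega, by omega, by rw [h1]; ring, ?_, h2.trans_le (by exact_mod_cast (by omega : s.card ≤ N)), ?_⟩
  · by_cases hq : q = 0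
    · rw [hq]; simp; omega
    · have h5 : (rp s * q).natDegree = s.card + q.natDegree := by
        rw [(rp_monic s).natDegree_mul' hq, rp_natDegree]
      have h6 : rp s * q = X ^ N - r := by rw [h1]; ring
      have h7 : (X ^ N - r).natDegree ≤ N := by
        refine natDegree_le_of_degree_le ((degree_sub_le _ _).trans (max_le ?_ ?_))
        · simp
        · exact h2.le.trans (by exact_mod_cast (by omega : s.card ≤ N))
      rw [h6] at h5
      omega
  · -- compare the two norms of r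
    have h5 : nrm θ r ≤ (θ / η) ^ s.card * nrm η r := by
      unfold nrm Polynomial.sum
      rw [Finset.mul_sum]
      refine Finset.sum_le_sum fun i hi => ?_
      have hi' : i ≤ s.card := by
        have h6 := le_degree_of_mem_supp i hi
        have h7 : (i : WithBot ℕ) < s.card := h6.trans_lt h2
        exact_mod_cast h7.le
      have h8 : θ ^ i = (θ / η) ^ i * η ^ i := by
        rw [← mul_pow, div_mul_cancel₀ _ hη0.ne']
      have h9 : (θ / η) ^ i ≤ (θ / η) ^ s.card := pow_le_pow_right₀ hr1 hi'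
      show ‖r.coeff i‖ * θ ^ i ≤ (θ / η) ^ s.card * (‖r.coeff i‖ * η ^ i)
      rw [h8]
      calc ‖r.coeff i‖ * ((θ / η) ^ i * η ^ i) = (θ / η) ^ i * (‖r.coeff i‖ * η ^ i) := by ring
        _ ≤ _ := mul_le_mul_of_nonneg_right h9 (by positivity)
    calc nrm θ r ≤ (θ / η) ^ s.card * (M * η ^ N) := h5.trans (by gcongr)
      _ = M * (θ / η) ^ s.card * (η / θ) ^ N * θ ^ N := by
        rw [div_pow η θ]
        field_simp
      _ ≤ ε * θ ^ N := by gcongr

end Pool.Agent.H109F.LK
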