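import Mathlib
import Pool.Agent.H109F.LK.Nrm

/-!
# Action of convergent power series in two variables on double sequences
-/

set_option autoImplicit false

open Polynomial Finset

namespace Pool.Agent.H109F.LK

variable {Y : Type*} [NormedAddCommGroup Y] [NormedSpace ℂ Y]

theorem sum_le_nrm {θ : ℝ} (hθ : 0 ≤ θ) (p : ℂ[X]) (n : ℕ) :
    ∑ i ∈ range n, ‖p.coeff i‖ * θ ^ i ≤ nrm θ p := by
  have h : p.natDegree < max n (p.natDegree + 1) := by omega
  rw [nrm_eq h]
  exact Finset.sum_le_sum_of_subset_of_nonneg (Finset.range_mono (le_max_left _ _))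
    fun i _ _ => by positivity

/-- the homogeneous polynomial of degree `n` with dehomogenization `p` acts by shifts -/
noncomputable def hact (n : ℕ) (p : ℂ[X]) (a : ℕ → ℕ → Y) : ℕ → ℕ → Y := fun m l =>
  ∑ ij ∈ antidiagonal n, p.coeff ij.1 • a (m + ij.1) (l + ij.2)

theorem hact_add (n : ℕ) (p q : ℂ[X]) (a : ℕ → ℕ → Y) (m l : ℕ) :
    hact n (p + q) a m l = hact n p a m l + hact n q a m l := by
  simp only [hact, coeff_add, add_smul, Finset.sum_add_distrib]

theorem hact_sub (n : ℕ) (p q : ℂ[X]) (a : ℕ → ℕ → Y) (m l : ℕ) :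
    hact n (p - q) a m l = hact n p a m l - hact n q a m l := by
  simp only [hact, coeff_sub, sub_smul, Finset.sum_sub_distrib]

@[simp] theorem hact_zero (n : ℕ) (a : ℕ → ℕ → Y) (m l : ℕ) :
    hact n 0 a m l = 0 := by
  simp [hact]

theorem hact_sum (n : ℕ) {ι : Type*} (s : Finset ι) (p : ι → ℂ[X]) (a : ℕ → ℕ → Y) (m l : ℕ) :
    hact n (∑ i ∈ s, p i) a m l = ∑ i ∈ s, hact n (p i) a m l := by
  simp only [hact, finsetSum_coeff, Finset.sum_smul]
  rw [Finset.sum_comm]

theorem hact_monomial {n i : ℕ} (hi : i ≤ n) (c : ℂ) (a : ℕ → ℕ → Y) (m l : ℕ) :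
    hact n (monomial i c) a m l = c • a (m + i) (l + (n - i)) := by
  unfold hact
  rw [Finset.sum_eq_single (i, n - i)]
  · simp
  · rintro ⟨s, t⟩ h hne
    rw [HasAntidiagonal.mem_antidiagonal] at h
    simp only at h
    rw [coeff_monomial, if_neg, zero_smul]
    intro h1
    apply hne
    simp only at h1
    rw [Prod.mk.injEq]
    omega
  · intro h
    exact absurd (HasAntidiagonal.mem_antidiagonal.2 (by simp only; omega)) h

theorem hact_X_pow (n : ℕ) (a : ℕ → ℕ → Y) (m l : ℕ) :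
    hact n (X ^ n) a m l = a (m + n) l := by
  rw [X_pow_eq_monomial, hact_monomial le_rfl]
  simp

/-- multiplicativity -/
theorem hact_mul {n n' : ℕ} {p q : ℂ[X]} (hp : p.natDegree ≤ n) (hq : q.natDegree ≤ n')
    (a : ℕ → ℕ → Y) : hact n p (hact n' q a) = hact (n + n') (p * q) a := by
  funext m l
  have hadd : ∀ (p : ℂ[X]) (a b : ℕ → ℕ → Y) (m l : ℕ), hact n p (fun m l => a m l + b m l) m l =
      hact n p a m l + hact n p b m l := by
    intro p a b m l
    simp only [hact, smul_add, Finset.sum_add_distrib]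
  refine Polynomial.induction_with_natDegree_le
    (fun p => hact n p (hact n' q a) m l = hact (n + n') (p * q) a m l) n ?_ ?_ ?_ p hp
  · simp
  · intro i r _ hi
    refine Polynomial.induction_with_natDegree_le
      (fun q => hact n (C r * X ^ i) (hact n' q a) m l = hact (n + n') (C r * X ^ i * q) a m l)
      n' ?_ ?_ ?_ q hq
    · simp [hact]
    · intro j t _ hj
      rw [C_mul_X_pow_eq_monomial, C_mul_X_pow_eq_monomial, monomial_mul_monomial, hact_monomial hi,
        hact_monomial hj, hact_monomial (by omega), smul_smul]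
      congr 2 <;> omega
    · intro f g _ _ hf hg
      have h1 : hact n' (f + g) a = fun m l => hact n' f a m l + hact n' g a m l := by
        funext m l
        exact hact_add _ _ _ _ _ _
      rw [h1, hadd, hf, hg, mul_add, hact_add]
  · intro f g _ _ hf hg
    rw [hact_add, hf, hg, add_mul, hact_add]

theorem norm_hact_le {n : ℕ} (p : ℂ[X]) {a : ℕ → ℕ → Y} {m l : ℕ} {θ M : ℝ} (hθ : 0 ≤ θ)
    (hM : 0 ≤ M) (h : ∀ i j, i + j = n → ‖a (m + i) (l + j)‖ ≤ M * θ ^ i) :
    ‖hact n p a m l‖ ≤ M * nrm θ p := by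
  unfold hact
  refine (norm_sum_le _ _).trans ?_
  have h1 : ∑ ij ∈ antidiagonal n, ‖p.coeff ij.1 • a (m + ij.1) (l + ij.2)‖ ≤
      ∑ ij ∈ antidiagonal n, M * (‖p.coeff ij.1‖ * θ ^ ij.1) := by
    refine Finset.sum_le_sum fun ij hij => ?_
    rw [HasAntidiagonal.mem_antidiagonal] at hij
    rw [norm_smul]
    calc ‖p.coeff ij.1‖ * ‖a (m + ij.1) (l + ij.2)‖ ≤ ‖p.coeff ij.1‖ * (M * θ ^ ij.1) :=
          mul_le_mul_of_nonneg_left (h _ _ hij) (norm_nonneg _)
      _ = _ := by ring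
  refine h1.trans ?_
  rw [← Finset.mul_sum, Finset.Nat.sum_antidiagonal_eq_sum_range_succ_mk]
  exact mul_le_mul_of_nonneg_left (sum_le_nrm hθ p _) hM

/-- superexponentially small double sequences -/
def SE (a : ℕ → ℕ → Y) : Prop := ∀ ε : ℝ, 0 < ε → ∃ C : ℝ, 0 ≤ C ∧ ∀ m l, ‖a m l‖ ≤ C * ε ^ (m + l)

/-- convergent power series, given by the dehomogenizations of their homogeneous parts -/
structure IsGerm (F : ℕ → ℂ[X]) : Prop where
  deg : ∀ n, (F n).natDegree ≤ n
  bd : ∃ C B : ℝ, 0 ≤ C ∧ 0 < B ∧ ∀ n, nrm 1 (F n) ≤ C * B ^ n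

theorem norm_hact_SE {a : ℕ → ℕ → Y} {C ε : ℝ} (hC : 0 ≤ C) (hε : 0 < ε)
    (h : ∀ m l, ‖a m l‖ ≤ C * ε ^ (m + l)) (n : ℕ) (p : ℂ[X]) (m l : ℕ) :
    ‖hact n p a m l‖ ≤ C * ε ^ (m + l) * (ε ^ n * nrm 1 p) := by
  have h1 := norm_hact_le p (a := a) (m := m) (l := l) (n := n) (θ := 1)
    (M := C * ε ^ (m + l) * ε ^ n) zero_le_one (by positivity) (by
      intro i j hij
      rw [one_pow, mul_one]
      refine (h _ _).trans (le_of_eq ?_)
      rw [mul_assoc, ← pow_add]
      congr 2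
      omega)
  linarith

/-- the action of a germ -/
noncomputable def act (F : ℕ → ℂ[X]) (a : ℕ → ℕ → Y) : ℕ → ℕ → Y := fun m l =>
  ∑' n, hact n (F n) a m l

theorem IsGerm.bound {F : ℕ → ℂ[X]} (hF : IsGerm F) {a : ℕ → ℕ → Y} (ha : SE a) {δ : ℝ}
    (hδ : 0 < δ) : ∃ C, 0 ≤ C ∧ ∀ n m l, ‖hact n (F n) a m l‖ ≤ C * δ ^ (m + l) * (1 / 2) ^ n := by
  obtain ⟨CF, B, hCF, hB, hFb⟩ := hF.bd
  obtain ⟨ε, hε0, hε1, hε2⟩ : ∃ ε : ℝ, 0 < ε ∧ ε ≤ δ ∧ ε * B ≤ 1 / 2 := by
    refine ⟨min δ (1 / (2 * B)), by positivity, min_le_left _ _, ?_⟩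
    calc min δ (1 / (2 * B)) * B ≤ 1 / (2 * B) * B :=
          mul_le_mul_of_nonneg_right (min_le_right _ _) hB.le
      _ = 1 / 2 := by field_simp
  obtain ⟨C, hC, h⟩ := ha ε hε0
  refine ⟨C * CF, by positivity, fun n m l => ?_⟩
  refine (norm_hact_SE hC hε0 h n (F n) m l).trans ?_
  have hFn := nrm_nonneg zero_le_one (F n)
  have hFn' := hFb n
  calc C * ε ^ (m + l) * (ε ^ n * nrm 1 (F n)) ≤ C * δ ^ (m + l) * (ε ^ n * (CF * B ^ n)) := by
        gcongr
    _ = C * CF * δ ^ (m + l) * (ε * B) ^ n := by rw [mul_pow]; ring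
    _ ≤ _ := by gcongr

theorem IsGerm.summable_norm {F : ℕ → ℂ[X]} (hF : IsGerm F) {a : ℕ → ℕ → Y} (ha : SE a) (m l : ℕ) :
    Summable fun n => ‖hact n (F n) a m l‖ := by
  obtain ⟨C, _, h⟩ := hF.bound ha one_pos
  refine Summable.of_nonneg_of_le (fun _ => norm_nonneg _) (fun n => h n m l) ?_
  exact (summable_geometric_of_lt_one (by norm_num) (by norm_num)).mul_left _

variable [CompleteSpace Y]

theorem IsGerm.summable {F : ℕ → ℂ[X]} (hF : IsGerm F) {a : ℕ → ℕ → Y} (ha : SE a) (m l : ℕ) :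
    Summable fun n => hact n (F n) a m l := (hF.summable_norm ha m l).of_norm

omit [CompleteSpace Y] in
theorem IsGerm.act_SE {F : ℕ → ℂ[X]} (hF : IsGerm F) {a : ℕ → ℕ → Y} (ha : SE a) : SE (act F a) := by
  intro ε hε
  obtain ⟨C, hC, h⟩ := hF.bound ha hε
  refine ⟨C * 2, by positivity, fun m l => ?_⟩
  have h1 : HasSum (fun n : ℕ => C * ε ^ (m + l) * (1 / 2 : ℝ) ^ n) (C * ε ^ (m + l) * 2) :=
    hasSum_geometric_two.mul_left _
  have h2 := tsum_of_norm_bounded h1 (fun n => h n m l)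
  unfold act
  linarith

/-- product of germs -/
noncomputable def gmul (F G : ℕ → ℂ[X]) : ℕ → ℂ[X] := fun n =>
  ∑ ij ∈ antidiagonal n, F ij.1 * G ij.2

theorem act_gmul {F G : ℕ → ℂ[X]} (hF : IsGerm F) (hG : IsGerm G) {a : ℕ → ℕ → Y} (ha : SE a) :
    act F (act G a) = act (gmul F G) a := by
  funext m l
  obtain ⟨CF, B, hCF, hB, hFb⟩ := hF.bd
  -- summability over pairs
  obtain ⟨CG, BG, hCG, hBG, hGb⟩ := hG.bd
  obtain ⟨ε, hε0, hε1, hε2⟩ : ∃ ε : ℝ, 0 < ε ∧ ε * B ≤ 1 / 2 ∧ ε * BG ≤ 1 / 2 := by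
    refine ⟨min (1 / (2 * B)) (1 / (2 * BG)), by positivity, ?_, ?_⟩
    · calc min (1 / (2 * B)) (1 / (2 * BG)) * B ≤ 1 / (2 * B) * B :=
            mul_le_mul_of_nonneg_right (min_le_left _ _) hB.le
        _ = 1 / 2 := by field_simp
    · calc min (1 / (2 * B)) (1 / (2 * BG)) * BG ≤ 1 / (2 * BG) * BG :=
            mul_le_mul_of_nonneg_right (min_le_right _ _) hBG.le
        _ = 1 / 2 := by field_simp
  obtain ⟨C, hC, h⟩ := ha ε hε0
  have hsum : Summable fun ij : ℕ × ℕ => hact (ij.1 + ij.2) (F ij.1 * G ij.2) a m l := by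
    refine Summable.of_norm_bounded
      (g := fun ij : ℕ × ℕ => C * ε ^ (m + l) * CF * CG * ((1 / 2 : ℝ) ^ ij.1 * (1 / 2 : ℝ) ^ ij.2)) ?_ ?_
    · refine Summable.mul_left _ ?_
      have h1 : Summable fun n : ℕ => (1 / 2 : ℝ) ^ n :=
        summable_geometric_of_lt_one (by norm_num) (by norm_num)
      exact h1.mul_of_nonneg h1 (fun _ => by positivity) (fun _ => by positivity)
    · rintro ⟨i, j⟩
      refine (norm_hact_SE hC hε0 h _ _ m l).trans ?_
      simp only
      calc C * ε ^ (m + l) * (ε ^ (i + j) * nrm 1 (F i * G j))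
          ≤ C * ε ^ (m + l) * (ε ^ (i + j) * ((CF * B ^ i) * (CG * BG ^ j))) := by
            gcongr
            exact (nrm_mul_le zero_le_one _ _).trans
              (mul_le_mul (hFb i) (hGb j) (nrm_nonneg zero_le_one _) (by positivity))
        _ = C * ε ^ (m + l) * CF * CG * ((ε * B) ^ i * (ε * BG) ^ j) := by
            rw [mul_pow, mul_pow, pow_add]; ring
        _ ≤ _ := by gcongr
  have h1 : act F (act G a) m l = ∑' i, ∑' j, hact (i + j) (F i * G j) a m l := by
    show ∑' i, hact i (F i) (act G a) m l = _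
    refine tsum_congr fun i => ?_
    have h2 : ∀ j, hact (i + j) (F i * G j) a m l =
        ∑ st ∈ antidiagonal i, (F i).coeff st.1 • hact j (G j) a (m + st.1) (l + st.2) := by
      intro j
      rw [← hact_mul (hF.deg i) (hG.deg j)]
      rfl
    simp only [h2]
    rw [Summable.tsum_finsetSum]
    · show ∑ st ∈ antidiagonal i, (F i).coeff st.1 • act G a (m + st.1) (l + st.2) = _
      refine Finset.sum_congr rfl fun st _ => ?_
      rw [tsum_const_smul'']
      rfl
    · intro st _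
      exact (hG.summable ha _ _).const_smul _
  rw [h1, ← hsum.tsum_prod]
  have h3 : ∑' ij : ℕ × ℕ, hact (ij.1 + ij.2) (F ij.1 * G ij.2) a m l =
      ∑' x : (Σ n : ℕ, antidiagonal n), hact ((x.2 : ℕ × ℕ).1 + (x.2 : ℕ × ℕ).2)
        (F (x.2 : ℕ × ℕ).1 * G (x.2 : ℕ × ℕ).2) a m l :=
    (Finset.HasAntidiagonal.sigmaAntidiagonalEquivProd.tsum_eq
      (fun ij : ℕ × ℕ => hact (ij.1 + ij.2) (F ij.1 * G ij.2) a m l)).symm
  have hsum' : Summable fun x : (Σ n : ℕ, antidiagonal n) => hact ((x.2 : ℕ × ℕ).1 + (x.2 : ℕ × ℕ).2)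
        (F (x.2 : ℕ × ℕ).1 * G (x.2 : ℕ × ℕ).2) a m l :=
    (Finset.HasAntidiagonal.sigmaAntidiagonalEquivProd.summable_iff
      (f := fun ij : ℕ × ℕ => hact (ij.1 + ij.2) (F ij.1 * G ij.2) a m l)).2 hsum
  rw [h3, hsum'.tsum_sigma]
  refine tsum_congr fun n => ?_
  rw [tsum_fintype]
  unfold gmul
  rw [hact_sum, ← Finset.sum_coe_sort (antidiagonal n)]
  refine Finset.sum_congr rfl fun x _ => ?_
  have hx : (x : ℕ × ℕ).1 + (x : ℕ × ℕ).2 = n := HasAntidiagonal.mem_antidiagonal.1 x.2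
  simp only [hx]

theorem IsGerm.gmul {F G : ℕ → ℂ[X]} (hF : IsGerm F) (hG : IsGerm G) : IsGerm (gmul F G) := by
  obtain ⟨CF, B, hCF, hB, hFb⟩ := hF.bd
  obtain ⟨CG, BG, hCG, hBG, hGb⟩ := hG.bd
  refine ⟨fun n => ?_, ?_⟩
  · unfold LK.gmul
    refine natDegree_sum_le_of_forall_le _ _ fun ij hij => ?_
    rw [HasAntidiagonal.mem_antidiagonal] at hij
    refine natDegree_mul_le.trans ?_
    have := hF.deg ij.1
    have := hG.deg ij.2
    omega
  · refine ⟨CF * CG, 2 * max B BG, by positivity, by positivity, fun n => ?_⟩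
    unfold LK.gmul
    refine (nrm_sum_le zero_le_one _ _).trans ?_
    calc ∑ ij ∈ antidiagonal n, nrm 1 (F ij.1 * G ij.2) ≤
          ∑ ij ∈ antidiagonal n, CF * CG * (max B BG) ^ n := by
          refine Finset.sum_le_sum fun ij hij => ?_
          rw [HasAntidiagonal.mem_antidiagonal] at hij
          calc nrm 1 (F ij.1 * G ij.2) ≤ (CF * B ^ ij.1) * (CG * BG ^ ij.2) :=
                (nrm_mul_le zero_le_one _ _).trans
                  (mul_le_mul (hFb _) (hGb _) (nrm_nonneg zero_le_one _) (by positivity))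
            _ ≤ (CF * (max B BG) ^ ij.1) * (CG * (max B BG) ^ ij.2) := by
                gcongr
                · exact le_max_left _ _
                · exact le_max_right _ _
            _ = CF * CG * (max B BG) ^ n := by rw [← hij, pow_add]; ring
      _ = (n + 1 : ℕ) * (CF * CG * (max B BG) ^ n) := by
          rw [Finset.sum_const, Finset.Nat.card_antidiagonal, nsmul_eq_mul]
      _ ≤ 2 ^ n * (CF * CG * (max B BG) ^ n) := by
          gcongr
          exact_mod_cast Nat.lt_two_pow_self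
      _ = _ := by rw [mul_pow]; ring

/-- continuous linear maps commute with the action -/
theorem map_act {Z : Type*} [NormedAddCommGroup Z] [NormedSpace ℂ Z] (φ : Y →L[ℂ] Z)
    {F : ℕ → ℂ[X]} (hF : IsGerm F) {a : ℕ → ℕ → Y} (ha : SE a) (b : ℕ → ℕ → Z) (m l m' l' : ℕ)
    (h : ∀ i j, φ (a (m + i) (l + j)) = b (m' + i) (l' + j)) : φ (act F a m l) = act F b m' l' := by
  unfold act
  rw [φ.map_tsum (hF.summable ha m l)]
  refine tsum_congr fun n => ?_
  unfold hact
  rw [map_sum]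
  refine Finset.sum_congr rfl fun ij _ => ?_
  rw [map_smul, h]

omit [CompleteSpace Y] in
/-- interchange of the two indices -/
theorem hact_reflect (n : ℕ) (p : ℂ[X]) (a : ℕ → ℕ → Y) (m l : ℕ) :
    hact n (p.reflect n) (fun m l => a l m) m l = hact n p a l m := by
  unfold hact
  rw [← Finset.Nat.sum_antidiagonal_swap]
  refine Finset.sum_congr rfl fun ij hij => ?_
  rw [HasAntidiagonal.mem_antidiagonal] at hij
  have h1 : (p.reflect n).coeff ij.swap.1 = p.coeff ij.1 := by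
    rw [coeff_reflect, revAt_le (by simp only [Prod.fst_swap]; omega)]
    congr 1
    simp only [Prod.fst_swap]
    omega
  rw [h1]
  rfl

theorem nrm_reflect (n : ℕ) (p : ℂ[X]) (hp : p.natDegree ≤ n) : nrm 1 (p.reflect n) = nrm 1 p := by
  have h1 : (p.reflect n).natDegree < n + 1 := by
    rw [Nat.lt_succ_iff]
    refine natDegree_le_iff_coeff_eq_zero.2 fun N hN => ?_
    rw [coeff_reflect, revAt_eq_self_of_lt hN]
    exact coeff_eq_zero_of_natDegree_lt (by omega)
  rw [nrm_eq h1, nrm_eq (Nat.lt_succ_of_le hp), ← Finset.sum_range_reflect]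
  refine Finset.sum_congr rfl fun i hi => ?_
  rw [mem_range] at hi
  rw [coeff_reflect, revAt_le (by omega)]
  simp only [one_pow, mul_one]
  congr 2
  omega

theorem IsGerm.reflect {F : ℕ → ℂ[X]} (hF : IsGerm F) : IsGerm fun n => (F n).reflect n := by
  obtain ⟨C, B, hC, hB, h⟩ := hF.bd
  refine ⟨fun n => ?_, C, B, hC, hB, fun n => ?_⟩
  · refine natDegree_le_iff_coeff_eq_zero.2 fun N hN => ?_
    rw [coeff_reflect, revAt_eq_self_of_lt hN]
    exact coeff_eq_zero_of_natDegree_lt (by have := hF.deg n; omega)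
  · rw [nrm_reflect _ _ (hF.deg n)]
    exact h n

end Pool.Agent.H109F.LK
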