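import Mathlib
import Pool.Agent.H109F.LK.Act

/-!
# Vanishing of double sequences satisfying a recurrence
-/

set_option autoImplicit false

open Polynomial Finset

namespace Pool.Agent.H109F.LK

variable {Y : Type*} [NormedAddCommGroup Y] [NormedSpace ℂ Y] [CompleteSpace Y]

theorem decay {a : ℕ → ℕ → Y} (ha : SE a) {N : ℕ} (hN : 1 ≤ N) {c : ℝ} (hc : 0 ≤ c)
    (hb : ∀ m < N, ∀ l, ‖a m l‖ ≤ c * ‖a (l + (N - 1)) 0‖)
    {Q : ℕ → ℂ[X]} (hQ : IsGerm Q) (hQ0 : ∀ n < N, Q n = 0) {r : ℂ[X]} (hQN : Q N = X ^ N - r)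
    {θ : ℝ} (hθ : 0 < θ) (hθ1 : θ < 1) (hr : nrm θ r ≤ 1 / 2 * θ ^ N)
    (h : ∀ m l, act Q a m l = 0) : ∃ W, ∀ m l, W ≤ m + l → a m l = 0 := by
  obtain ⟨C, B, hC, hB, hbd⟩ := hQ.bd
  obtain ⟨x, hx0, hx1, hxB, hxC⟩ : ∃ x : ℝ, 0 < x ∧ x ≤ 1 ∧ x * B ≤ 1 / 2 ∧
      8 * C * B ^ (N + 1) * x ≤ θ ^ N := by
    have hθN : 0 < θ ^ N := by positivity
    refine ⟨(1 + 2 * B + 8 * C * B ^ (N + 1) / θ ^ N)⁻¹, by positivity, ?_, ?_, ?_⟩
    · apply inv_le_one_of_one_le₀
      have : 0 ≤ 8 * C * B ^ (N + 1) / θ ^ N := by positivity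
      linarith
    · rw [inv_mul_le_iff₀ (by positivity)]
      have : 0 ≤ 8 * C * B ^ (N + 1) / θ ^ N := by positivity
      linarith
    · rw [mul_inv_le_iff₀ (by positivity)]
      have h1 : θ ^ N * (8 * C * B ^ (N + 1) / θ ^ N) = 8 * C * B ^ (N + 1) := by field_simp
      have h2 : 0 ≤ θ ^ N * (1 + 2 * B) := by positivity
      linarith
  obtain ⟨W0, hW0⟩ : ∃ W0 : ℕ, c * θ ^ W0 ≤ 3 / 4 := by
    have h1 : Filter.Tendsto (fun n : ℕ => c * θ ^ n) Filter.atTop (nhds (c * 0)) :=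
      (tendsto_pow_atTop_nhds_zero_of_lt_one hθ.le hθ1).const_mul _
    rw [mul_zero] at h1
    obtain ⟨n, hn⟩ := (h1.eventually (gt_mem_nhds (show (0 : ℝ) < 3 / 4 by norm_num))).exists
    exact ⟨n, hn.le⟩
  have key : ∀ Ψ : ℝ, 0 ≤ Ψ → (∀ m l, W0 + N ≤ m + l → ‖a m l‖ ≤ Ψ * (x ^ (m + l) * θ ^ m)) →
      ∀ m l, W0 + N ≤ m + l → ‖a m l‖ ≤ (3 / 4 * Ψ) * (x ^ (m + l) * θ ^ m) := by
    intro Ψ hΨ hyp m l hml
    rcases lt_or_ge m N with hm | hm
    · refine (hb m hm l).trans ?_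
      have h1 := hyp (l + (N - 1)) 0 (by omega)
      have h2 : x ^ (l + (N - 1) + 0) ≤ x ^ (m + l) := pow_le_pow_of_le_one hx0.le hx1 (by omega)
      have h3 : θ ^ (l + (N - 1)) ≤ θ ^ (m + W0) := pow_le_pow_of_le_one hθ.le hθ1.le (by omega)
      calc c * ‖a (l + (N - 1)) 0‖ ≤ c * (Ψ * (x ^ (l + (N - 1) + 0) * θ ^ (l + (N - 1)))) := by
            gcongr
        _ ≤ c * (Ψ * (x ^ (m + l) * θ ^ (m + W0))) := by gcongr
        _ = (c * θ ^ W0) * (Ψ * (x ^ (m + l) * θ ^ m)) := by rw [pow_add θ]; ring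
        _ ≤ 3 / 4 * (Ψ * (x ^ (m + l) * θ ^ m)) := by gcongr
        _ = _ := by ring
    · obtain ⟨m0, rfl⟩ : ∃ m0, m = m0 + N := ⟨m - N, by omega⟩
      have hs := hQ.summable ha m0 l
      have h1 := hs.sum_add_tsum_nat_add (N + 1)
      have h2 : ∑ i ∈ range (N + 1), hact i (Q i) a m0 l = a (m0 + N) l - hact N r a m0 l := by
        rw [Finset.sum_range_succ, Finset.sum_eq_zero, zero_add, hQN, hact_sub, hact_X_pow]
        intro i hi
        rw [mem_range] at hi
        rw [hQ0 i hi, hact_zero]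
      have h3 : ∑' i, hact i (Q i) a m0 l = 0 := h m0 l
      rw [h2, h3] at h1
      have h4 : a (m0 + N) l = hact N r a m0 l -
          ∑' i, hact (i + (N + 1)) (Q (i + (N + 1))) a m0 l := by
        have := h1
        rw [sub_add_eq_add_sub, sub_eq_zero] at this
        rw [eq_sub_iff_add_eq, this]
      rw [h4]
      have h5 : ‖hact N r a m0 l‖ ≤ 1 / 2 * Ψ * (x ^ (m0 + N + l) * θ ^ (m0 + N)) := by
        have := norm_hact_le r (a := a) (m := m0) (l := l) (n := N) (θ := θ)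
          (M := Ψ * (x ^ (m0 + N + l) * θ ^ m0)) hθ.le (by positivity) (by
            intro i j hij
            refine (hyp (m0 + i) (l + j) (by omega)).trans (le_of_eq ?_)
            rw [show m0 + i + (l + j) = m0 + N + l by omega, pow_add θ]
            ring)
        refine this.trans ?_
        calc Ψ * (x ^ (m0 + N + l) * θ ^ m0) * nrm θ r ≤
              Ψ * (x ^ (m0 + N + l) * θ ^ m0) * (1 / 2 * θ ^ N) := by gcongr
          _ = _ := by rw [pow_add θ m0 N]; ring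
      have h6 : ‖∑' i, hact (i + (N + 1)) (Q (i + (N + 1))) a m0 l‖ ≤
          Ψ * (x ^ (m0 + l) * θ ^ m0) * (C * (x * B) ^ (N + 1)) * (1 - x * B)⁻¹ := by
        have hg : HasSum (fun n : ℕ => Ψ * (x ^ (m0 + l) * θ ^ m0) * (C * (x * B) ^ (N + 1)) *
            (x * B) ^ n) (Ψ * (x ^ (m0 + l) * θ ^ m0) * (C * (x * B) ^ (N + 1)) * (1 - x * B)⁻¹) :=
          (hasSum_geometric_of_lt_one (by positivity) (by linarith)).mul_left _
        refine tsum_of_norm_bounded hg fun n => ?_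
        have := norm_hact_le (Q (n + (N + 1))) (a := a) (m := m0) (l := l) (n := n + (N + 1)) (θ := 1)
          (M := Ψ * (x ^ (m0 + l + (n + (N + 1))) * θ ^ m0)) zero_le_one (by positivity) (by
            intro i j hij
            refine (hyp (m0 + i) (l + j) (by omega)).trans ?_
            rw [show m0 + i + (l + j) = m0 + l + (n + (N + 1)) by omega, one_pow, mul_one]
            have : θ ^ (m0 + i) ≤ θ ^ m0 := pow_le_pow_of_le_one hθ.le hθ1.le (by omega)
            gcongr)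
        refine this.trans ?_
        calc Ψ * (x ^ (m0 + l + (n + (N + 1))) * θ ^ m0) * nrm 1 (Q (n + (N + 1))) ≤
              Ψ * (x ^ (m0 + l + (n + (N + 1))) * θ ^ m0) * (C * B ^ (n + (N + 1))) := by
              gcongr
              exact hbd _
          _ = _ := by
              rw [pow_add x (m0 + l), mul_pow, mul_pow, pow_add x n, pow_add B n]
              ring
      have h7 : (1 - x * B)⁻¹ ≤ 2 := by
        rw [inv_le_comm₀ (by linarith) (by norm_num)]
        linarith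
      have h8 : Ψ * (x ^ (m0 + l) * θ ^ m0) * (C * (x * B) ^ (N + 1)) * (1 - x * B)⁻¹ ≤
          1 / 4 * Ψ * (x ^ (m0 + N + l) * θ ^ (m0 + N)) := by
        calc Ψ * (x ^ (m0 + l) * θ ^ m0) * (C * (x * B) ^ (N + 1)) * (1 - x * B)⁻¹
            ≤ Ψ * (x ^ (m0 + l) * θ ^ m0) * (C * (x * B) ^ (N + 1)) * 2 := by gcongr
          _ = 1 / 4 * Ψ * (x ^ (m0 + N + l) * θ ^ m0) * (8 * C * B ^ (N + 1) * x) := by
              rw [mul_pow, show m0 + N + l = m0 + l + N by omega, pow_add x (m0 + l) N, pow_succ x N]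
              ring
          _ ≤ 1 / 4 * Ψ * (x ^ (m0 + N + l) * θ ^ m0) * θ ^ N := by gcongr
          _ = _ := by rw [pow_add θ m0 N]; ring
      calc ‖hact N r a m0 l - ∑' i, hact (i + (N + 1)) (Q (i + (N + 1))) a m0 l‖
          ≤ ‖hact N r a m0 l‖ + ‖∑' i, hact (i + (N + 1)) (Q (i + (N + 1))) a m0 l‖ := norm_sub_le _ _
        _ ≤ _ := by linarith
  obtain ⟨C0, hC0, hC0'⟩ := ha (x * θ) (by positivity)
  have hall : ∀ t : ℕ, ∀ m l, W0 + N ≤ m + l → ‖a m l‖ ≤ ((3 / 4) ^ t * C0) * (x ^ (m + l) * θ ^ m) := by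
    intro t
    induction t with
    | zero =>
      intro m l _
      refine (hC0' m l).trans ?_
      rw [pow_zero, one_mul, mul_pow]
      have : θ ^ (m + l) ≤ θ ^ m := pow_le_pow_of_le_one hθ.le hθ1.le (by omega)
      gcongr
    | succ t ih =>
      intro m l hml
      refine (key _ (by positivity) ih m l hml).trans (le_of_eq ?_)
      rw [pow_succ]
      ring
  refine ⟨W0 + N, fun m l hml => ?_⟩
  have hlim : Filter.Tendsto (fun t : ℕ => ((3 / 4 : ℝ) ^ t * C0) * (x ^ (m + l) * θ ^ m))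
      Filter.atTop (nhds ((0 * C0) * (x ^ (m + l) * θ ^ m))) :=
    ((tendsto_pow_atTop_nhds_zero_of_lt_one (by norm_num) (by norm_num)).mul_const _).mul_const _
  rw [zero_mul, zero_mul] at hlim
  have := ge_of_tendsto' hlim fun t => hall t m l hml
  exact norm_le_zero_iff.1 this

/-- recurrences whose lowest form has its roots in the unit disc: after multiplication by a
homogeneous polynomial the previous lemma applies -/
theorem prepare {P : ℕ → ℂ[X]} (hP : IsGerm P) {k : ℕ} (hP0 : ∀ n < k, P n = 0)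
    (hk : (P k).natDegree = k) (hk0 : P k ≠ 0) (hroots : ∀ z, (P k).IsRoot z → ‖z‖ < 1) :
    ∃ (N : ℕ) (Q : ℕ → ℂ[X]) (r : ℂ[X]) (θ : ℝ), 1 ≤ N ∧ IsGerm Q ∧ (∀ n < N, Q n = 0) ∧
      Q N = X ^ N - r ∧ 0 < θ ∧ θ < 1 ∧ nrm θ r ≤ 1 / 2 * θ ^ N ∧
      ∀ {Z : Type} [NormedAddCommGroup Z] [NormedSpace ℂ Z] [CompleteSpace Z] (a : ℕ → ℕ → Z),
        SE a → (∀ m l, act P a m l = 0) → ∀ m l, act Q a m l = 0 := by
  have hlc : (P k).leadingCoeff ≠ 0 := leadingCoeff_ne_zero.2 hk0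
  have hsplit : P k = C (P k).leadingCoeff * rp (P k).roots := by
    have := (IsAlgClosed.splits (P k)).eq_prod_roots
    exact this
  have hcard : (P k).roots.card = k := by
    have := (IsAlgClosed.splits (P k)).natDegree_eq_card_roots
    omega
  obtain ⟨θ, hθ0, hθ1, hθ⟩ : ∃ θ : ℝ, 0 < θ ∧ θ < 1 ∧ ∀ z ∈ (P k).roots, ‖z‖ < θ := by
    by_cases h0 : (P k).roots = 0
    · exact ⟨1 / 2, by positivity, by norm_num, by simp [h0]⟩
    · classical
      obtain ⟨m, hm, hmax⟩ := (P k).roots.toFinset.exists_max_image (fun z => ‖z‖) (by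
        obtain ⟨a, ha⟩ := Multiset.exists_mem_of_ne_zero h0
        exact ⟨a, Multiset.mem_toFinset.2 ha⟩)
      have hmθ := hroots m ((mem_roots hk0).1 (Multiset.mem_toFinset.1 hm))
      refine ⟨(‖m‖ + 1) / 2, by have := norm_nonneg m; linarith, by linarith, fun z hz => ?_⟩
      have := hmax z (Multiset.mem_toFinset.2 hz)
      linarith
  obtain ⟨N, w, r, hN1, hN2, hw, hwd, hr1, hr2⟩ := small_mult hθ0 _ hθ (show (0 : ℝ) < 1 / 2 by norm_num)
  rw [hcard] at hN1 hwd
  obtain ⟨g, hg⟩ : ∃ g : ℕ → ℂ[X], g = fun n => if n = N - k then C (P k).leadingCoeff⁻¹ * w else 0 := ⟨_, rfl⟩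
  have hgG : IsGerm g := by
    refine ⟨fun n => ?_, nrm 1 (C (P k).leadingCoeff⁻¹ * w), 1, nrm_nonneg zero_le_one _, one_pos, fun n => ?_⟩
    · rw [hg]
      simp only
      split_ifs with h
      · refine (natDegree_C_mul_le _ _).trans ?_
        omega
      · simp
    · rw [hg]
      simp only
      split_ifs with h
      · simp
      · simp [nrm_nonneg zero_le_one]
  have hgz : ∀ n, n ≠ N - k → g n = 0 := fun n hn => by rw [hg]; simp only; rw [if_neg hn]
  have hgN : g (N - k) = C (P k).leadingCoeff⁻¹ * w := by rw [hg]; simp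
  refine ⟨N, gmul g P, r, θ, hN2, hgG.gmul hP, ?_, ?_, hθ0, hθ1, hr2, ?_⟩
  · intro n hn
    unfold gmul
    refine Finset.sum_eq_zero fun ij hij => ?_
    rw [HasAntidiagonal.mem_antidiagonal] at hij
    by_cases h1 : ij.1 = N - k
    · rw [hP0 ij.2 (by omega), mul_zero]
    · rw [hgz _ h1, zero_mul]
  · unfold gmul
    rw [Finset.sum_eq_single (N - k, k)]
    · simp only
      rw [hgN]
      have h9 : C (P k).leadingCoeff⁻¹ * w * P k =
          C ((P k).leadingCoeff⁻¹ * (P k).leadingCoeff) * (rp (P k).roots * w) :=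
        (congrArg (fun z => C (P k).leadingCoeff⁻¹ * w * z) hsplit).trans (by rw [C_mul]; ring)
      rw [h9, inv_mul_cancel₀ hlc, C_1, one_mul, hw]
    · rintro ⟨i, j⟩ hij hne
      rw [HasAntidiagonal.mem_antidiagonal] at hij
      simp only at hij ⊢
      by_cases h1 : i = N - k
      · exfalso
        apply hne
        rw [Prod.mk.injEq]
        omega
      · rw [hgz _ h1, zero_mul]
    · intro hcon
      exact absurd (HasAntidiagonal.mem_antidiagonal.2 (by simp only; omega)) hcon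
  · intro Z _ _ _ a ha hPa m l
    rw [← act_gmul hgG hP ha]
    have : act P a = fun _ _ => 0 := by
      funext m l
      exact hPa m l
    rw [this]
    unfold act
    simp [hact]

end Pool.Agent.H109F.LK
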