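import Mathlib
import Pool.Agent.W143.DQ.Schauder
import Pool.Agent.H875.QN.Basic

/-!
# Lomonosov's lemma and fixed functionals of compact operators
-/

set_option autoImplicit false

open Finset Filter Topology

namespace Pool.Agent.H109F.LK

open Pool.Agent.H875.QN

variable {X : Type} [NormedAddCommGroup X] [NormedSpace ℂ X]

/-- without hyperinvariant subspaces the commutant acts transitively -/
theorem dense_orbit {S : X →L[ℂ] X} (hS : ¬ HasHyper S) {y : X} (hy : y ≠ 0) (x : X) {ε : ℝ}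
    (hε : 0 < ε) : ∃ A : X →L[ℂ] X, A * S = S * A ∧ ‖A y - x‖ < ε := by
  let 𝒜 : Submodule ℂ (X →L[ℂ] X) :=
    { carrier := {A | A * S = S * A}
      add_mem' := by
        intro a b ha hb
        simp only [Set.mem_ofPred_eq] at ha hb ⊢
        rw [add_mul, mul_add, ha, hb]
      zero_mem' := by simp
      smul_mem' := by
        intro c a ha
        simp only [Set.mem_ofPred_eq] at ha ⊢
        rw [smul_mul_assoc, mul_smul_comm, ha] }
  let W : Submodule ℂ X := 𝒜.map ((ContinuousLinearMap.apply ℂ X y : (X →L[ℂ] X) →L[ℂ] X) :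
    (X →L[ℂ] X) →ₗ[ℂ] X)
  let V : Submodule ℂ X := W.topologicalClosure
  have hyV : y ∈ V := Submodule.le_topologicalClosure _ ⟨1, by
    show (1 : X →L[ℂ] X) * S = S * 1
    simp, rfl⟩
  have hinv : ∀ Q : X →L[ℂ] X, Q * S = S * Q → ∀ v ∈ V, Q v ∈ V := by
    intro Q hQ v hv
    have hle : V ≤ V.comap (Q : X →ₗ[ℂ] X) := by
      refine Submodule.topologicalClosure_minimal _ ?_
        ((Submodule.isClosed_topologicalClosure _).preimage Q.continuous)
      rintro _ ⟨A, hA, rfl⟩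
      refine Submodule.le_topologicalClosure _ ⟨Q * A, ?_, rfl⟩
      show Q * A * S = S * (Q * A)
      have hA' : A * S = S * A := hA
      rw [mul_assoc, hA', ← mul_assoc, hQ, mul_assoc]
    exact hle hv
  have hV : V = ⊤ := by
    by_contra hne
    refine hS ⟨V, Submodule.isClosed_topologicalClosure _, ?_, hne, hinv⟩
    intro hbot
    rw [hbot, Submodule.mem_bot] at hyV
    exact hy hyV
  have hx : x ∈ V := by rw [hV]; trivial
  obtain ⟨z, ⟨A, hA, rfl⟩, hz⟩ := Metric.mem_closure_iff.1 hx ε hε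
  refine ⟨A, hA, ?_⟩
  rw [dist_comm, dist_eq_norm] at hz
  exact hz

/-- **Lomonosov's lemma** -/
theorem lomonosov {S K : X →L[ℂ] X} (hS : ¬ HasHyper S) (hK : IsCompactOperator K) (hK0 : K ≠ 0) :
    ∃ A : X →L[ℂ] X, A * S = S * A ∧ ∃ y : X, y ≠ 0 ∧ K (A y) = y := by
  classical
  obtain ⟨x₀, hx₀⟩ : ∃ x₀ : X, ‖K‖ < ‖K x₀‖ := by
    obtain ⟨x, hx⟩ : ∃ x, K x ≠ 0 := by
      by_contra hcon
      push Not at hcon
      exact hK0 (ContinuousLinearMap.ext hcon)
    obtain ⟨n, hn⟩ := exists_nat_gt (‖K‖ / ‖K x‖)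
    refine ⟨(n : ℂ) • x, ?_⟩
    rw [map_smul, norm_smul, Complex.norm_natCast]
    rwa [div_lt_iff₀ (norm_pos_iff.2 hx)] at hn
  set U : Set X := Metric.closedBall x₀ 1 with hU
  set D : Set X := closure (K '' U) with hD
  have hcomp : IsCompact D := by
    have hK' : IsCompactOperator (K : X →ₗ[ℂ] X) := hK
    exact hK'.isCompact_closure_image_of_bounded (f := (K : X →ₗ[ℂ] X)) Metric.isBounded_closedBall
  have hconv : Convex ℝ D := by
    refine Convex.closure ?_
    have h1 : Convex ℝ U := convex_closedBall x₀ 1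
    exact h1.is_linear_image ⟨fun x y => map_add K x y, fun c x => by
      rw [← Complex.coe_smul, map_smul, Complex.coe_smul]⟩
  have hne : D.Nonempty := ⟨K x₀, subset_closure ⟨x₀, by simp [hU], rfl⟩⟩
  have hnz : ∀ y ∈ D, y ≠ 0 := by
    have hlow : ∀ y ∈ K '' U, ‖K x₀‖ - ‖K‖ ≤ ‖y‖ := by
      rintro _ ⟨x, hx, rfl⟩
      have h1 : ‖x - x₀‖ ≤ 1 := mem_closedBall_iff_norm.1 hx
      have h2 : ‖K (x - x₀)‖ ≤ ‖K‖ := by
        calc ‖K (x - x₀)‖ ≤ ‖K‖ * ‖x - x₀‖ := K.le_opNorm _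
          _ ≤ ‖K‖ * 1 := by gcongr
          _ = ‖K‖ := mul_one _
      have h3 := norm_sub_norm_le (K x₀) (K x)
      rw [norm_sub_rev, ← map_sub] at h3
      linarith
    have hcl : IsClosed {y : X | ‖K x₀‖ - ‖K‖ ≤ ‖y‖} := isClosed_le continuous_const continuous_norm
    intro y hy h0
    have h4 : ‖K x₀‖ - ‖K‖ ≤ ‖y‖ := hcl.closure_subset_iff.2 hlow hy
    rw [h0, norm_zero] at h4
    linarith
  have hcyc : ∀ y : X, y ≠ 0 → ∃ A : X →L[ℂ] X, A * S = S * A ∧ ‖A y - x₀‖ < 1 := fun y hy =>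
    dense_orbit hS hy x₀ one_pos
  choose! A hA1 hA2 using hcyc
  obtain ⟨t, ht1, ht2⟩ := hcomp.elim_nhds_subcover (fun y => (A y) ⁻¹' (Metric.ball x₀ 1))
    (fun y hy => ((A y).continuous.isOpen_preimage _ Metric.isOpen_ball).mem_nhds (by
      show A y y ∈ Metric.ball x₀ 1
      rw [mem_ball_iff_norm]
      exact hA2 y (hnz y hy)))
  -- the weights
  let α : X → X → ℝ := fun i y => max 0 (1 - ‖A i y - x₀‖)
  have hα0 : ∀ i y, 0 ≤ α i y := fun i y => le_max_left _ _
  have hαc : ∀ i, Continuous (α i) := fun i => by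
    show Continuous fun y => max 0 (1 - ‖A i y - x₀‖)
    fun_prop
  let σ : X → ℝ := fun y => ∑ i ∈ t, α i y
  have hσc : Continuous σ := continuous_finsetSum _ fun i _ => hαc i
  have hσ : ∀ y ∈ D, 0 < σ y := by
    intro y hy
    obtain ⟨i, hi, hyi⟩ := Set.mem_iUnion₂.1 (ht2 hy)
    have h1 : ‖A i y - x₀‖ < 1 := by
      have : A i y ∈ Metric.ball x₀ 1 := hyi
      rwa [mem_ball_iff_norm] at this
    refine Finset.sum_pos' (fun i _ => hα0 i y) ⟨i, hi, ?_⟩
    show 0 < max 0 (1 - ‖A i y - x₀‖)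
    rw [lt_max_iff]
    right
    linarith
  let Ψ : X → X := fun y => ((σ y : ℝ) : ℂ)⁻¹ • ∑ i ∈ t, ((α i y : ℝ) : ℂ) • A i y
  have hΨc : ContinuousOn Ψ D := by
    refine ContinuousOn.smul ((Complex.continuous_ofReal.comp hσc).continuousOn.inv₀ fun y hy => ?_) ?_
    · exact Complex.ofReal_ne_zero.2 (hσ y hy).ne'
    · refine Continuous.continuousOn (continuous_finsetSum _ fun i _ => ?_)
      exact (Complex.continuous_ofReal.comp (hαc i)).smul (A i).continuous
  have hΨU : ∀ y ∈ D, Ψ y ∈ U := by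
    intro y hy
    rw [hU, mem_closedBall_iff_norm]
    have hσy := hσ y hy
    have h1 : Ψ y - x₀ = ((σ y : ℝ) : ℂ)⁻¹ • ∑ i ∈ t, ((α i y : ℝ) : ℂ) • (A i y - x₀) := by
      have h2 : x₀ = ((σ y : ℝ) : ℂ)⁻¹ • ∑ i ∈ t, ((α i y : ℝ) : ℂ) • x₀ := by
        rw [← Finset.sum_smul, ← Complex.ofReal_sum]
        show x₀ = ((σ y : ℝ) : ℂ)⁻¹ • ((σ y : ℝ) : ℂ) • x₀
        rw [smul_smul, inv_mul_cancel₀ (Complex.ofReal_ne_zero.2 hσy.ne'), one_smul]
      simp only [smul_sub, Finset.sum_sub_distrib]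
      rw [← h2]
    rw [h1, norm_smul, norm_inv, Complex.norm_real, Real.norm_eq_abs, abs_of_pos hσy,
      inv_mul_le_iff₀ hσy, mul_one]
    refine (norm_sum_le _ _).trans (Finset.sum_le_sum fun i _ => ?_)
    rw [norm_smul, Complex.norm_real, Real.norm_eq_abs, abs_of_nonneg (hα0 i y)]
    rcases lt_or_ge ‖A i y - x₀‖ 1 with h | h
    · calc α i y * ‖A i y - x₀‖ ≤ α i y * 1 := mul_le_mul_of_nonneg_left h.le (hα0 i y)
        _ = α i y := mul_one _
    · have : α i y = 0 := max_eq_left (by linarith)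
      rw [this, zero_mul]
  obtain ⟨y, hyD, hy⟩ := Pool.Agent.W143.DQ.schauder hcomp hconv hne (fun y => K (Ψ y))
    (K.continuous.comp_continuousOn hΨc) (fun y hy => subset_closure ⟨Ψ y, hΨU y hy, rfl⟩)
  refine ⟨((σ y : ℝ) : ℂ)⁻¹ • ∑ i ∈ t, ((α i y : ℝ) : ℂ) • A i, ?_, y, hnz y hyD, ?_⟩
  · rw [smul_mul_assoc, mul_smul_comm, Finset.sum_mul, Finset.mul_sum]
    congr 1
    refine Finset.sum_congr rfl fun i hi => ?_
    rw [smul_mul_assoc, mul_smul_comm, hA1 i (hnz i (ht1 i hi))]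
  · have h1 : (((σ y : ℝ) : ℂ)⁻¹ • ∑ i ∈ t, ((α i y : ℝ) : ℂ) • A i) y = Ψ y := by
      rw [_root_.smul_apply, _root_.sum_apply]
      rfl
    rw [h1]
    exact hy

variable [CompleteSpace X]

/-- a compact operator with a fixed vector has a fixed functional -/
theorem fixed_functional {C : X →L[ℂ] X} (hC : IsCompactOperator C) {y : X} (hy : y ≠ 0)
    (hCy : C y = y) : ∃ ξ : X →L[ℂ] ℂ, ξ ≠ 0 ∧ ξ ∘L C = ξ := by
  classical
  set R : X →L[ℂ] X := 1 - C with hR
  have hRx : ∀ x, R x = x - C x := fun x => rfl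
  set M : Submodule ℂ X := (LinearMap.range (R : X →ₗ[ℂ] X)).topologicalClosure with hM
  by_cases hMt : M = ⊤
  swap
  · -- a functional vanishing on the range
    have hMc : IsClosed (M : Set X) := Submodule.isClosed_topologicalClosure _
    obtain ⟨x, hx⟩ : ∃ x : X, x ∉ M := by
      by_contra hcon
      push Not at hcon
      exact hMt (eq_top_iff.2 fun x _ => hcon x)
    have hxq : (M.mkQ x) ≠ 0 := by
      rw [Submodule.mkQ_apply, Ne, Submodule.Quotient.mk_eq_zero]
      exact hx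
    have := hMc
    obtain ⟨g, -, hg⟩ := exists_dual_vector ℂ (M.mkQ x) (norm_ne_zero_iff.2 hxq)
    refine ⟨g ∘L M.mkQL, ?_, ?_⟩
    · intro h0
      have h1 : g (M.mkQ x) = 0 := congrArg (fun f : X →L[ℂ] ℂ => f x) h0
      rw [hg] at h1
      exact hxq (norm_eq_zero.1 (RCLike.ofReal_eq_zero.1 h1))
    · ext z
      show g (M.mkQ (C z)) = g (M.mkQ z)
      congr 1
      rw [Submodule.mkQ_apply, Submodule.mkQ_apply, Submodule.Quotient.eq]
      have h1 : R z ∈ M := Submodule.le_topologicalClosure _ ⟨z, rfl⟩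
      have h2 : C z - z = -(R z) := by rw [hRx]; abel
      rw [h2]
      exact M.neg_mem h1
  exfalso
  -- the kernel of `1 - C` and a projection onto it
  obtain ⟨E, hE⟩ : ∃ E : Submodule ℂ X, E = LinearMap.ker (R : X →ₗ[ℂ] X) := ⟨_, rfl⟩
  have hEm : ∀ x, x ∈ E ↔ C x = x := by
    intro x
    rw [hE, LinearMap.mem_ker]
    show R x = 0 ↔ _
    rw [hRx, sub_eq_zero, eq_comm]
  have hEc : IsClosed (E : Set X) := by
    have : (E : Set X) = R ⁻¹' {0} := by
      ext x
      rw [SetLike.mem_coe, hEm, Set.mem_preimage, Set.mem_singleton_iff, hRx, sub_eq_zero, eq_comm]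
    rw [this]
    exact isClosed_singleton.preimage R.continuous
  have hEf : FiniteDimensional ℂ E := by
    have hinv : ∀ x ∈ E, (C : X →ₗ[ℂ] X) x ∈ E := fun x hx => by
      show C x ∈ E
      rw [(hEm x).1 hx]; exact hx
    have h1 : IsCompactOperator ((C : X →ₗ[ℂ] X).restrict hinv) :=
      IsCompactOperator.restrict (f := (C : X →ₗ[ℂ] X)) hC hinv hEc
    have h3 : ((C : X →ₗ[ℂ] X).restrict hinv : E → E) = (id : E → E) := by
      funext x
      exact Subtype.ext ((hEm x).1 x.2)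
    rw [h3] at h1
    exact FiniteDimensional.of_isCompactOperator_id (𝕜 := ℂ) h1
  obtain ⟨p, hp⟩ := Submodule.ClosedComplemented.of_finiteDimensional (𝕜 := ℂ) E
  obtain ⟨Z, hZ⟩ : ∃ Z : Submodule ℂ X, Z = LinearMap.ker (p : X →ₗ[ℂ] E) := ⟨_, rfl⟩
  have hZm : ∀ x, x ∈ Z ↔ p x = 0 := by
    intro x
    rw [hZ, LinearMap.mem_ker]
    rfl
  have hZc : IsClosed (Z : Set X) := by
    have : (Z : Set X) = p ⁻¹' {0} := by
      ext x
      rw [SetLike.mem_coe, hZm, Set.mem_preimage, Set.mem_singleton_iff]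
    rw [this]
    exact isClosed_singleton.preimage p.continuous
  have hZcomp : CompleteSpace Z := hZc.completeSpace_coe
  -- bounded below
  obtain ⟨c, hc, hbelow⟩ : ∃ c : ℝ, 0 < c ∧ ∀ z ∈ Z, c * ‖z‖ ≤ ‖R z‖ := by
    by_contra hcon
    push Not at hcon
    have h1 : ∀ n : ℕ, ∃ z ∈ Z, ‖z‖ = 1 ∧ ‖R z‖ < 1 / ((n : ℝ) + 1) := by
      intro n
      obtain ⟨z, hz, hz2⟩ := hcon (1 / ((n : ℝ) + 1)) (by positivity)
      have hz0 : 0 < ‖z‖ := by
        rw [norm_pos_iff]
        rintro rfl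
        simp at hz2
      refine ⟨((‖z‖⁻¹ : ℝ) : ℂ) • z, Z.smul_mem _ hz, ?_, ?_⟩
      · rw [norm_smul, Complex.norm_real, norm_inv, norm_norm, inv_mul_cancel₀ hz0.ne']
      · rw [map_smul, norm_smul, Complex.norm_real, norm_inv, norm_norm, inv_mul_lt_iff₀ hz0]
        linarith
    choose z hz1 hz2 hz3 using h1
    have hC' : IsCompactOperator (C : X →ₗ[ℂ] X) := hC
    obtain ⟨L, hL, hL'⟩ := hC'.image_closedBall_subset_compact (f := (C : X →ₗ[ℂ] X)) 1
    obtain ⟨w, -, φ, hφ, hw⟩ := hL.tendsto_subseq (x := fun n => C (z n))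
      (fun n => hL' ⟨z n, by simp [hz2], rfl⟩)
    have hRz : Tendsto (fun n => R (z n)) atTop (𝓝 0) :=
      squeeze_zero_norm (fun n => (hz3 n).le) tendsto_one_div_add_atTop_nhds_zero_nat
    have hzw : Tendsto (fun n => z (φ n)) atTop (𝓝 w) := by
      have h2 : (fun n => z (φ n)) = fun n => R (z (φ n)) + C (z (φ n)) := by
        funext n
        rw [hRx]; abel
      rw [h2]
      have := (hRz.comp hφ.tendsto_atTop).add hw
      rw [zero_add] at this
      exact this
    have hw1 : ‖w‖ = 1 := by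
      have h3 := hzw.norm
      simp only [hz2] at h3
      exact tendsto_nhds_unique h3 tendsto_const_nhds |>.symm ▸ rfl
    have hRw : R w = 0 :=
      tendsto_nhds_unique ((R.continuous.tendsto w).comp hzw) (hRz.comp hφ.tendsto_atTop)
    have hwE : w ∈ E := by
      rw [hEm]
      rw [hRx, sub_eq_zero] at hRw
      exact hRw.symm
    have hwZ : w ∈ Z := hZc.mem_of_tendsto hzw (Eventually.of_forall fun n => hz1 _)
    have h4 := hp ⟨w, hwE⟩
    have h5 := (hZm w).1 hwZ
    rw [h5] at h4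
    have h6 : w = 0 := (congrArg Subtype.val h4).symm
    rw [h6, norm_zero] at hw1
    exact zero_ne_one hw1
  -- the restriction of `R` to `Z`
  let RZ : Z →L[ℂ] X := R ∘L Z.subtypeL
  have hRZ : ∀ z : Z, RZ z = R z := fun z => rfl
  have hRZa : AntilipschitzWith (Real.toNNReal c⁻¹) RZ := by
    refine AddMonoidHomClass.antilipschitz_of_bound RZ fun z => ?_
    rw [Real.coe_toNNReal _ (by positivity), ← div_eq_inv_mul, le_div_iff₀ hc, mul_comm]
    exact hbelow z z.2
  have hrange : ∀ x, ∃ z : Z, RZ z = R x := by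
    intro x
    refine ⟨⟨x - p x, ?_⟩, ?_⟩
    · rw [hZm, map_sub, hp (p x), sub_self]
    · rw [hRZ]
      show R (x - p x) = R x
      have : R (p x : X) = 0 := by
        rw [hRx, (hEm _).1 (p x).2, sub_self]
      rw [map_sub, this, sub_zero]
  have hsurj : Function.Surjective RZ := by
    have hcl : IsClosed (Set.range RZ) := hRZa.isClosed_range RZ.uniformContinuous
    intro x
    have hx : x ∈ M := by rw [hMt]; trivial
    have h1 : (M : Set X) ⊆ Set.range RZ := by
      rw [hM, Submodule.topologicalClosure_coe]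
      refine closure_minimal ?_ hcl
      rintro _ ⟨u, rfl⟩
      obtain ⟨z, hz⟩ := hrange u
      exact ⟨z, hz⟩
    exact h1 hx
  let e : Z ≃L[ℂ] X := ContinuousLinearEquiv.ofBijective RZ
    (LinearMap.ker_eq_bot.2 hRZa.injective) (LinearMap.range_eq_top.2 hsurj)
  let J : X →L[ℂ] X := Z.subtypeL ∘L (e.symm : X →L[ℂ] Z)
  have hJZ : ∀ x, J x ∈ Z := fun x => (e.symm x).2
  have hRJ : ∀ x, R (J x) = x := fun x => e.apply_symm_apply x
  have hJ : J = 1 - (-(C * J)) := by
    ext x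
    have := hRJ x
    rw [hRx] at this
    show J x = x - -(C (J x))
    rw [sub_neg_eq_add]
    exact (sub_eq_iff_eq_add.1 this)
  have hJc : IsCompactOperator (-(C * J) : X →L[ℂ] X) := by
    have : IsCompactOperator (C * J) := hC.comp_clm J
    exact this.neg
  rcases hJc.hasEigenvalue_or_mem_resolventSet (μ := (1 : ℂ)) one_ne_zero with h | h
  · obtain ⟨x, hx⟩ := h.exists_hasEigenvector
    have h1 : (-(C * J)) x = x := by
      have := hx.apply_eq_smul
      simpa using this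
    have h2 : J x = 0 := by
      rw [hJ]
      show x - (-(C * J)) x = 0
      rw [h1, sub_self]
    have h3 := hRJ x
    rw [h2, map_zero] at h3
    exact hx.2 h3.symm
  · rw [spectrum.mem_resolventSet_iff, map_one, ← hJ] at h
    obtain ⟨x, hx⟩ := (ContinuousLinearMap.isUnit_iff_bijective.1 h).2 y
    have h1 : y ∈ Z := hx ▸ hJZ x
    have h2 : y ∈ E := (hEm y).2 hCy
    have h4 := hp ⟨y, h2⟩
    have h5 := (hZm y).1 h1
    rw [h5] at h4
    exact hy (congrArg Subtype.val h4).symm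

end Pool.Agent.H109F.LK
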