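import Mathlib
import Pool.Agent.H109F.LK.Decay
import Pool.Agent.H109F.LK.Lom

/-!
# Relations between a quasinilpotent operator and a compact operator
-/

set_option autoImplicit false

open Polynomial Finset Filter Topology

namespace Pool.Agent.H109F.LK

open Pool.Agent.H875.QN

variable {X : Type} [NormedAddCommGroup X] [NormedSpace ℂ X]

/-- the double sequence `S ^ m K S ^ l` -/
noncomputable def seq (S K : X →L[ℂ] X) : ℕ → ℕ → (X →L[ℂ] X) := fun m l => S ^ m * K * S ^ l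

variable [CompleteSpace X]

theorem pow_bound {S : X →L[ℂ] X} (hS : spectrum ℂ S ⊆ {0}) {ε : ℝ} (hε : 0 < ε) :
    ∃ C : ℝ, 0 ≤ C ∧ ∀ m, ‖S ^ m‖ ≤ C * ε ^ m := by
  obtain ⟨M, hM⟩ := eventually_atTop.1 (pow_small hS hε)
  refine ⟨1 + ∑ i ∈ range M, ‖S ^ i‖ / ε ^ i, by positivity, fun m => ?_⟩
  have h0 : 0 ≤ ∑ i ∈ range M, ‖S ^ i‖ / ε ^ i := by positivity
  have hεm : 0 < ε ^ m := by positivity
  rcases lt_or_ge m M with h | h
  · have h1 : ‖S ^ m‖ / ε ^ m ≤ ∑ i ∈ range M, ‖S ^ i‖ / ε ^ i :=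
      Finset.single_le_sum (f := fun i => ‖S ^ i‖ / ε ^ i) (fun i _ => by positivity) (mem_range.2 h)
    rw [div_le_iff₀ hεm] at h1
    nlinarith
  · have := hM m h
    nlinarith

theorem seq_SE {S : X →L[ℂ] X} (hS : spectrum ℂ S ⊆ {0}) (K : X →L[ℂ] X) : SE (seq S K) := by
  intro ε hε
  obtain ⟨C, hC, h⟩ := pow_bound hS hε
  refine ⟨C * ‖K‖ * C, by positivity, fun m l => ?_⟩
  calc ‖S ^ m * K * S ^ l‖ ≤ ‖S ^ m‖ * ‖K‖ * ‖S ^ l‖ :=
        (norm_mul_le _ _).trans (mul_le_mul_of_nonneg_right (norm_mul_le _ _) (norm_nonneg _))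
    _ ≤ (C * ε ^ m) * ‖K‖ * (C * ε ^ l) := by
        gcongr
        · exact h m
        · exact h l
    _ = _ := by rw [pow_add]; ring

theorem map_SE {Y Z : Type} [NormedAddCommGroup Y] [NormedSpace ℂ Y] [NormedAddCommGroup Z]
    [NormedSpace ℂ Z] (φ : Y →L[ℂ] Z) {a : ℕ → ℕ → Y} (ha : SE a) : SE fun m l => φ (a m l) := by
  intro ε hε
  obtain ⟨C, hC, h⟩ := ha ε hε
  refine ⟨‖φ‖ * C, by positivity, fun m l => ?_⟩
  calc ‖φ (a m l)‖ ≤ ‖φ‖ * ‖a m l‖ := φ.le_opNorm _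
    _ ≤ ‖φ‖ * (C * ε ^ (m + l)) := by
        gcongr
        exact h m l
    _ = _ := by ring

theorem swap_SE {Y : Type} [NormedAddCommGroup Y] [NormedSpace ℂ Y] {a : ℕ → ℕ → Y} (ha : SE a) :
    SE fun m l => a l m := by
  intro ε hε
  obtain ⟨C, hC, h⟩ := ha ε hε
  refine ⟨C, hC, fun m l => ?_⟩
  rw [add_comm]
  exact h l m

theorem act_seq {S : X →L[ℂ] X} (hS : spectrum ℂ S ⊆ {0}) (K : X →L[ℂ] X) {F : ℕ → ℂ[X]}
    (hF : IsGerm F) : act F (seq S K) = seq S (act F (seq S K) 0 0) := by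
  funext m l
  have := map_act (ContinuousLinearMap.mulLeftRight ℂ (X →L[ℂ] X) (S ^ m) (S ^ l)) hF
    (seq_SE hS K) (seq S K) 0 0 m l (by
      intro i j
      rw [ContinuousLinearMap.mulLeftRight_apply]
      unfold seq
      rw [zero_add, zero_add, pow_add, add_comm l j, pow_add]
      simp only [mul_assoc])
  rw [← this, ContinuousLinearMap.mulLeftRight_apply]
  rfl

omit [CompleteSpace X] in
theorem injective_of {S : X →L[ℂ] X} (hS : ¬ HasHyper S) (hS0 : S ≠ 0) {x : X} (h : S x = 0) :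
    x = 0 := by
  by_contra hx
  refine hS (hyper_of_eigen (c := 0) hx (by rw [h, zero_smul]) (by rw [zero_smul]; exact hS0))

omit [CompleteSpace X] in
theorem pow_injective_of {S : X →L[ℂ] X} (hS : ¬ HasHyper S) (hS0 : S ≠ 0) (n : ℕ) {x : X}
    (h : (S ^ n) x = 0) : x = 0 := by
  induction n with
  | zero => simpa using h
  | succ n ih =>
    rw [pow_succ'] at h
    exact ih (injective_of hS hS0 h)

omit [CompleteSpace X] in
theorem dense_of {Z : Type} [NormedAddCommGroup Z] [NormedSpace ℂ Z] {S : X →L[ℂ] X}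
    (hS : ¬ HasHyper S) (hS0 : S ≠ 0) {ξ : X →L[ℂ] Z} (h : ξ ∘L S = 0) : ξ = 0 := by
  set V : Submodule ℂ X := (LinearMap.range (S : X →ₗ[ℂ] X)).topologicalClosure with hV
  have hVt : V = ⊤ := by
    by_contra hne
    refine hS ⟨V, Submodule.isClosed_topologicalClosure _, ?_, hne, ?_⟩
    · intro hbot
      apply hS0
      ext x
      have h1 : S x ∈ V := Submodule.le_topologicalClosure _ ⟨x, rfl⟩
      rw [hbot, Submodule.mem_bot] at h1
      simpa using h1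
    · intro Q hQ v hv
      have hle : V ≤ V.comap (Q : X →ₗ[ℂ] X) := by
        refine Submodule.topologicalClosure_minimal _ ?_
          ((Submodule.isClosed_topologicalClosure _).preimage Q.continuous)
        rintro _ ⟨x, rfl⟩
        refine Submodule.le_topologicalClosure _ ⟨Q x, ?_⟩
        exact (congrArg (fun Z : X →L[ℂ] X => Z x) hQ).symm
      exact hle hv
  ext x
  have hle : V ≤ LinearMap.ker (ξ : X →ₗ[ℂ] Z) := by
    refine Submodule.topologicalClosure_minimal _ ?_ ?_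
    · rintro _ ⟨x, rfl⟩
      rw [LinearMap.mem_ker]
      exact congrArg (fun f : X →L[ℂ] Z => f x) h
    · have : ((LinearMap.ker (ξ : X →ₗ[ℂ] Z) : Submodule ℂ X) : Set X) = ξ ⁻¹' {0} := by
        ext v; simp
      rw [this]
      exact isClosed_singleton.preimage ξ.continuous
  have hx : x ∈ V := by rw [hVt]; trivial
  simpa using hle hx

omit [CompleteSpace X] in
theorem pow_dense_of {Z : Type} [NormedAddCommGroup Z] [NormedSpace ℂ Z] {S : X →L[ℂ] X}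
    (hS : ¬ HasHyper S) (hS0 : S ≠ 0) (n : ℕ) {ξ : X →L[ℂ] Z} (h : ξ ∘L (S ^ n) = 0) : ξ = 0 := by
  induction n with
  | zero =>
    ext x
    simpa using congrArg (fun f : X →L[ℂ] Z => f x) h
  | succ n ih =>
    rw [pow_succ, ContinuousLinearMap.mul_def, ← ContinuousLinearMap.comp_assoc] at h
    exact ih (dense_of hS hS0 h)

/-- roots of modulus less than one -/
theorem typeA {S K : X →L[ℂ] X} (hS : ¬ HasHyper S) (hS0 : S ≠ 0) (hq : spectrum ℂ S ⊆ {0})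
    (hK : IsCompactOperator K) {P : ℕ → ℂ[X]} (hP : IsGerm P) {k : ℕ} (hP0 : ∀ n < k, P n = 0)
    (hk : (P k).natDegree = k) (hk0 : P k ≠ 0) (hroots : ∀ z, (P k).IsRoot z → ‖z‖ < 1)
    (h : act P (seq S K) 0 0 = 0) : K = 0 := by
  by_contra hK0
  obtain ⟨N, Q, r, θ, hN, hQ, hQ0, hQN, hθ0, hθ1, hr, hPQ⟩ := prepare hP hP0 hk hk0 hroots
  have hK1 : S ^ (N - 1) * K ≠ 0 := by
    intro h0
    apply hK0
    ext x
    have h1 : (S ^ (N - 1)) (K x) = 0 := congrArg (fun Z : X →L[ℂ] X => Z x) h0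
    simpa using pow_injective_of hS hS0 _ h1
  obtain ⟨A, hA, y, hy, hAy⟩ := lomonosov hS (K := S ^ (N - 1) * K) (hK.clm_comp (S ^ (N - 1))) hK1
  obtain ⟨v, hv⟩ : ∃ v, v = A y := ⟨_, rfl⟩
  have hAc : ∀ n, A * S ^ n = S ^ n * A := fun n => (Commute.pow_right (show Commute A S from hA) n).eq
  have hAv : A ((S ^ (N - 1)) (K v)) = v := by
    have h1 : (S ^ (N - 1)) (K (A y)) = y := hAy
    rw [hv, h1]
  have hv0 : v ≠ 0 := by
    intro h0
    have h1 : (S ^ (N - 1)) (K (A y)) = y := hAy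
    rw [← hv, h0, map_zero, map_zero] at h1
    exact hy h1.symm
  let φ : (X →L[ℂ] X) →L[ℂ] X := A ∘L (ContinuousLinearMap.apply ℂ X v)
  let a : ℕ → ℕ → X := fun m l => φ (seq S K m l)
  have ha : SE a := map_SE φ (seq_SE hq K)
  have haS : ∀ m l, a m l = (S ^ m) (A (K ((S ^ l) v))) := by
    intro m l
    show A ((S ^ m) (K ((S ^ l) v))) = _
    exact congrArg (fun Z : X →L[ℂ] X => Z (K ((S ^ l) v))) (hAc m)
  have haP : ∀ m l, act P a m l = 0 := by
    intro m l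
    rw [← map_act φ hP (seq_SE hq K) a m l m l (fun i j => rfl), act_seq hq K hP, h]
    unfold seq
    rw [mul_zero, zero_mul, map_zero]
  have haQ := hPQ a ha haP
  have hvS : ∀ l, a (l + (N - 1)) 0 = (S ^ l) v := by
    intro l
    rw [haS, pow_add, pow_zero]
    show (S ^ l) ((S ^ (N - 1)) (A (K v))) = _
    congr 1
    have : (A * S ^ (N - 1)) (K v) = (S ^ (N - 1) * A) (K v) :=
      congrArg (fun Z : X →L[ℂ] X => Z (K v)) (hAc _)
    exact this.symm.trans hAv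
  obtain ⟨W, hW⟩ := decay ha hN (c := (∑ m ∈ range N, ‖S ^ m‖) * ‖A * K‖) (by positivity) (by
    intro m hm l
    rw [hvS, haS]
    have h1 : ‖S ^ m‖ ≤ ∑ m ∈ range N, ‖S ^ m‖ :=
      Finset.single_le_sum (f := fun m => ‖S ^ m‖) (fun _ _ => norm_nonneg _) (mem_range.2 hm)
    calc ‖(S ^ m) ((A * K) ((S ^ l) v))‖ ≤ ‖S ^ m‖ * ‖(A * K) ((S ^ l) v)‖ := (S ^ m).le_opNorm _
      _ ≤ ‖S ^ m‖ * (‖A * K‖ * ‖(S ^ l) v‖) := by
          gcongr
          exact (A * K).le_opNorm _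
      _ ≤ (∑ m ∈ range N, ‖S ^ m‖) * (‖A * K‖ * ‖(S ^ l) v‖) := by gcongr
      _ = _ := by ring) hQ hQ0 hQN hθ0 hθ1 hr haQ
  have h1 := hW (W + (N - 1)) 0 (by omega)
  rw [hvS] at h1
  exact hv0 (pow_injective_of hS hS0 _ h1)

/-- roots of modulus larger than one -/
theorem typeB {S K : X →L[ℂ] X} (hS : ¬ HasHyper S) (hS0 : S ≠ 0) (hq : spectrum ℂ S ⊆ {0})
    (hK : IsCompactOperator K) {P : ℕ → ℂ[X]} (hP : IsGerm P) {k : ℕ} (hP0 : ∀ n < k, P n = 0)
    (hk : ((P k).reflect k).natDegree = k) (hk0 : P k ≠ 0)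
    (hroots : ∀ z, ((P k).reflect k).IsRoot z → ‖z‖ < 1)
    (h : act P (seq S K) 0 0 = 0) : K = 0 := by
  by_contra hK0
  have hR0 : ∀ n < k, (fun n => (P n).reflect n) n = 0 := by
    intro n hn
    simp only
    rw [hP0 n hn, reflect_zero]
  have hRk0 : (fun n => (P n).reflect n) k ≠ 0 := by
    simp only
    rwa [Ne, reflect_eq_zero_iff]
  obtain ⟨N, Q, r, θ, hN, hQ, hQ0, hQN, hθ0, hθ1, hr, hPQ⟩ :=
    prepare hP.reflect (k := k) hR0 hk hRk0 hroots
  have hK1 : K * S ^ (N - 1) ≠ 0 := by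
    intro h0
    exact hK0 (pow_dense_of hS hS0 _ h0)
  obtain ⟨A, hA, y, hy, hAy⟩ := lomonosov hS (K := K * S ^ (N - 1)) (hK.comp_clm (S ^ (N - 1))) hK1
  have hAc : ∀ n, A * S ^ n = S ^ n * A := fun n => (Commute.pow_right (show Commute A S from hA) n).eq
  obtain ⟨ξ, hξ0, hξ⟩ := fixed_functional (C := K * S ^ (N - 1) * A)
    ((hK.comp_clm (S ^ (N - 1))).comp_clm A) hy hAy
  let φ : (X →L[ℂ] X) →L[ℂ] (X →L[ℂ] ℂ) :=
    ((ContinuousLinearMap.compL ℂ X X ℂ).flip A) ∘L ((ContinuousLinearMap.compL ℂ X X ℂ) ξ)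
  have hφ : ∀ Y : X →L[ℂ] X, φ Y = (ξ ∘L Y) ∘L A := fun Y => rfl
  let a : ℕ → ℕ → (X →L[ℂ] ℂ) := fun m l => φ (seq S K l m)
  have ha : SE a := map_SE φ (swap_SE (seq_SE hq K))
  have haS : ∀ m l, a m l = (ξ ∘L (S ^ l)) ∘L (K * A) ∘L (S ^ m) := by
    intro m l
    show (ξ ∘L (S ^ l * K * S ^ m)) ∘L A = _
    ext x
    show ξ ((S ^ l) (K ((S ^ m) (A x)))) = ξ ((S ^ l) (K (A ((S ^ m) x))))
    have : (A * S ^ m) x = (S ^ m * A) x := congrArg (fun Z : X →L[ℂ] X => Z x) (hAc m)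
    have h2 : A ((S ^ m) x) = (S ^ m) (A x) := this
    rw [h2]
  have haP : ∀ m l, act (fun n => (P n).reflect n) a m l = 0 := by
    intro m l
    rw [← map_act φ hP.reflect (swap_SE (seq_SE hq K)) a m l m l (fun i j => rfl)]
    have h1 : act (fun n => (P n).reflect n) (fun m l => seq S K l m) m l = act P (seq S K) l m := by
      unfold act
      exact tsum_congr fun n => hact_reflect n (P n) (seq S K) m l
    rw [h1, act_seq hq K hP, h]
    unfold seq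
    rw [mul_zero, zero_mul, map_zero]
  have haQ := hPQ a ha haP
  have hvS : ∀ l, a (l + (N - 1)) 0 = ξ ∘L (S ^ l) := by
    intro l
    show (ξ ∘L (S ^ 0 * K * S ^ (l + (N - 1)))) ∘L A = _
    ext x
    have h1 : (ξ ∘L (K * S ^ (N - 1) * A)) ((S ^ l) x) = ξ ((S ^ l) x) :=
      congrArg (fun f : X →L[ℂ] ℂ => f ((S ^ l) x)) hξ
    have h2 : A ((S ^ l) x) = (S ^ l) (A x) :=
      congrArg (fun Z : X →L[ℂ] X => Z x) (hAc l)
    show ξ ((S ^ 0) (K ((S ^ (l + (N - 1))) (A x)))) = ξ ((S ^ l) x)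
    rw [← h1, pow_zero, add_comm, pow_add]
    show ξ (K ((S ^ (N - 1)) ((S ^ l) (A x)))) = ξ (K ((S ^ (N - 1)) (A ((S ^ l) x))))
    rw [h2]
  obtain ⟨W, hW⟩ := decay ha hN (c := ‖K * A‖ * (∑ m ∈ range N, ‖S ^ m‖)) (by positivity) (by
    intro m hm l
    rw [hvS, haS]
    have h1 : ‖S ^ m‖ ≤ ∑ m ∈ range N, ‖S ^ m‖ :=
      Finset.single_le_sum (f := fun m => ‖S ^ m‖) (fun _ _ => norm_nonneg _) (mem_range.2 hm)
    calc ‖(ξ ∘L (S ^ l)) ∘L (K * A) ∘L (S ^ m)‖ ≤ ‖ξ ∘L (S ^ l)‖ * ‖(K * A) ∘L (S ^ m)‖ :=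
          ContinuousLinearMap.opNorm_comp_le _ _
      _ ≤ ‖ξ ∘L (S ^ l)‖ * (‖K * A‖ * ‖S ^ m‖) := by
          gcongr
          exact ContinuousLinearMap.opNorm_comp_le _ _
      _ ≤ ‖ξ ∘L (S ^ l)‖ * (‖K * A‖ * (∑ m ∈ range N, ‖S ^ m‖)) := by gcongr
      _ = _ := by ring) hQ hQ0 hQN hθ0 hθ1 hr haQ
  have h1 := hW (W + (N - 1)) 0 (by omega)
  rw [hvS] at h1
  exact hξ0 (pow_dense_of hS hS0 _ h1)

/-- the action on a compact operator gives a compact operator -/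
theorem act_compact {S K : X →L[ℂ] X} (hq : spectrum ℂ S ⊆ {0}) (hK : IsCompactOperator K)
    {F : ℕ → ℂ[X]} (hF : IsGerm F) : IsCompactOperator (act F (seq S K) 0 0 : X →L[ℂ] X) := by
  have hs := (hF.summable (seq_SE hq K) 0 0).hasSum
  have hc := isClosed_setOfPred_isCompactOperator (σ₁₂ := RingHom.id ℂ) (M₁ := X) (M₂ := X)
  refine hc.mem_of_tendsto hs (Eventually.of_forall fun s => ?_)
  show IsCompactOperator (∑ n ∈ s, hact n (F n) (seq S K) 0 0 : X →L[ℂ] X)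
  have hfin : ∀ {ι : Type} (t : Finset ι) (f : ι → X →L[ℂ] X), (∀ i ∈ t, IsCompactOperator (f i)) →
      IsCompactOperator (∑ i ∈ t, f i : X →L[ℂ] X) := by
    classical
    intro ι t f
    induction t using Finset.induction_on with
    | empty =>
      intro _
      rw [Finset.sum_empty]
      exact isCompactOperator_zero
    | insert i t hi ih =>
      intro h
      rw [Finset.sum_insert hi]
      exact (h i (mem_insert_self i t)).add (ih fun j hj => h j (mem_insert_of_mem hj))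
  refine hfin _ _ fun n _ => ?_
  unfold hact
  refine hfin _ _ fun ij _ => ?_
  have h1 : IsCompactOperator (seq S K (0 + ij.1) (0 + ij.2)) := by
    unfold seq
    exact (hK.clm_comp (S ^ (0 + ij.1))).comp_clm (S ^ (0 + ij.2))
  exact h1.smul _

end Pool.Agent.H109F.LK
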