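import Mathlib

/-!
# Complex powers of unipotent operators
-/

set_option autoImplicit false

open Filter Topology Finset

namespace Pool.Agent.H109F.LK

/-- binomial coefficients -/
noncomputable def bn (t : ℂ) : ℕ → ℂ
  | 0 => 1
  | n + 1 => bn t n * ((t - n) / (n + 1))

theorem bn_shift (t : ℂ) (n : ℕ) : bn (t + 1) (n + 1) = bn t n * ((t + 1) / (n + 1)) := by
  induction n with
  | zero => simp [bn]
  | succ n ih =>
    rw [bn, ih, bn]
    have h1 : (n : ℂ) + 1 ≠ 0 := by exact_mod_cast Nat.succ_ne_zero n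
    have h2 : ((n + 1 : ℕ) : ℂ) + 1 ≠ 0 := by exact_mod_cast Nat.succ_ne_zero (n + 1)
    push_cast at h2 ⊢
    field_simp
    ring

theorem bn_pascal (t : ℂ) (n : ℕ) : bn (t + 1) (n + 1) = bn t (n + 1) + bn t n := by
  rw [bn_shift, bn]
  have h1 : (n : ℂ) + 1 ≠ 0 := by exact_mod_cast Nat.succ_ne_zero n
  field_simp
  ring

theorem bn_zero (n : ℕ) : bn 0 (n + 1) = 0 := by
  induction n with
  | zero => simp [bn]
  | succ n ih => rw [bn, ih, zero_mul]

theorem bn_le {t : ℂ} {k : ℕ} (ht : ‖t‖ ≤ k) (n : ℕ) : ‖bn t n‖ ≤ ((n + k).choose k : ℝ) := by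
  induction n with
  | zero => simp [bn]
  | succ n ih =>
    have h0 : (0 : ℝ) < (n : ℝ) + 1 := by positivity
    have h1 : ‖t - n‖ ≤ (n : ℝ) + k + 1 := by
      calc ‖t - n‖ ≤ ‖t‖ + ‖(n : ℂ)‖ := norm_sub_le _ _
        _ ≤ k + n := by rw [Complex.norm_natCast]; gcongr
        _ ≤ _ := by linarith
    have h2 : ((n + 1 + k).choose k : ℝ) * ((n : ℝ) + 1) = ((n : ℝ) + k + 1) * ((n + k).choose k : ℝ) := by
      have h3 := Nat.add_one_mul_choose_eq (n + k) n
      rw [Nat.choose_symm_add,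
        show n + k + 1 = (n + 1) + k by ring, Nat.choose_symm_add] at h3
      have h4 : (((n + 1 + k) * (n + k).choose k : ℕ) : ℝ) = (((n + 1 + k).choose k * (n + 1) : ℕ) : ℝ) := by
        rw [h3]
      push_cast at h4
      rw [← h4]
      ring
    rw [bn, norm_mul, norm_div]
    have h5 : ‖((n : ℂ) + 1)‖ = (n : ℝ) + 1 := by
      rw [show ((n : ℂ) + 1) = ((n + 1 : ℕ) : ℂ) by push_cast; ring, Complex.norm_natCast]
      push_cast; ring
    rw [h5, mul_div_assoc', div_le_iff₀ h0, h2]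
    calc ‖bn t n‖ * ‖t - n‖ ≤ ((n + k).choose k : ℝ) * ((n : ℝ) + k + 1) := by gcongr
      _ = _ := by ring

variable {A : Type*} [NormedRing A] [NormedAlgebra ℂ A] [CompleteSpace A]

/-- quasinilpotent elements -/
def QN (a : A) : Prop := ∀ ε : ℝ, 0 < ε → ∃ C : ℝ, 0 ≤ C ∧ ∀ n, ‖a ^ n‖ ≤ C * ε ^ n

/-- `(1 + a) ^ t` -/
noncomputable def pw (a : A) (t : ℂ) : A := ∑' n, bn t n • a ^ n

omit [CompleteSpace A] in
theorem pw_bound {a : A} (ha : QN a) {r : ℝ} (hr : 0 < r) :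
    ∃ C : ℝ, 0 ≤ C ∧ ∀ (k n : ℕ) (t : ℂ), ‖t‖ ≤ k → ‖bn t n • a ^ n‖ ≤ C * (((n + k).choose k : ℝ) * r ^ n) := by
  obtain ⟨C, hC, h⟩ := ha r hr
  refine ⟨C, hC, fun k n t ht => ?_⟩
  rw [norm_smul]
  calc ‖bn t n‖ * ‖a ^ n‖ ≤ ((n + k).choose k : ℝ) * (C * r ^ n) := by
        gcongr
        · exact bn_le ht n
        · exact h n
    _ = _ := by ring

theorem pw_summable {a : A} (ha : QN a) (t : ℂ) : Summable fun n => bn t n • a ^ n := by
  obtain ⟨C, hC, h⟩ := pw_bound ha (r := 1 / 2) (by norm_num)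
  obtain ⟨k, hk⟩ := exists_nat_ge ‖t‖
  refine Summable.of_norm_bounded ?_ (fun n => h k n t hk)
  exact ((hasSum_choose_mul_geometric_of_norm_lt_one k (r := (1 / 2 : ℝ)) (by norm_num)).summable).mul_left C

omit [CompleteSpace A] in
theorem pw_zero (a : A) : pw a 0 = 1 := by
  unfold pw
  rw [tsum_eq_single 0]
  · simp [bn]
  · intro n hn
    obtain ⟨m, rfl⟩ : ∃ m, n = m + 1 := ⟨n - 1, by omega⟩
    rw [bn_zero, zero_smul]

theorem pw_succ {a : A} (ha : QN a) (t : ℂ) : pw a (t + 1) = pw a t * (1 + a) := by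
  have h1 := pw_summable ha (t + 1)
  have h0 := pw_summable ha t
  have h2 : pw a (t + 1) = bn (t + 1) 0 • a ^ 0 + ∑' n, bn (t + 1) (n + 1) • a ^ (n + 1) :=
    h1.tsum_eq_zero_add
  have h3 : pw a t = bn t 0 • a ^ 0 + ∑' n, bn t (n + 1) • a ^ (n + 1) := h0.tsum_eq_zero_add
  have h4 : pw a t * a = ∑' n, bn t n • a ^ (n + 1) := by
    unfold pw
    rw [← h0.tsum_mul_right]
    refine tsum_congr fun n => ?_
    rw [smul_mul_assoc, pow_succ]
  rw [mul_add, mul_one, h4, h2]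
  conv_rhs => rw [h3]
  have hs1 : Summable fun n => bn t (n + 1) • a ^ (n + 1) := (summable_nat_add_iff 1).2 h0
  have hs2 : Summable fun n => bn t n • a ^ (n + 1) := by
    have := h0.mul_right a
    refine this.congr fun n => ?_
    rw [smul_mul_assoc, pow_succ]
  rw [add_assoc, ← hs1.tsum_add hs2]
  congr 1
  refine tsum_congr fun n => ?_
  rw [bn_pascal, add_smul]

theorem pw_commute {a b : A} (ha : QN a) (hab : a * b = b * a) (t : ℂ) : pw a t * b = b * pw a t := by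
  have h0 := pw_summable ha t
  unfold pw
  rw [← h0.tsum_mul_right, ← h0.tsum_mul_left]
  refine tsum_congr fun n => ?_
  have : Commute (a ^ n) b := (show Commute a b from hab).pow_left n
  rw [smul_mul_assoc, mul_smul_comm, this.eq]

theorem pw_differentiable {a : A} (ha : QN a) : Differentiable ℂ (pw a) := by
  obtain ⟨C, hC, h⟩ := pw_bound ha (r := 1 / 2) (by norm_num)
  have hbn : ∀ n, Differentiable ℂ fun t => bn t n := by
    intro n
    induction n with
    | zero => simp only [bn]; exact differentiable_const _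
    | succ n ih =>
      simp only [bn]
      exact ih.mul (by fun_prop)
  intro t
  obtain ⟨k, hk⟩ := exists_nat_gt ‖t‖
  have hopen : IsOpen {s : ℂ | ‖s‖ < k} := isOpen_lt continuous_norm continuous_const
  have h1 : DifferentiableOn ℂ (fun s => ∑' n, bn s n • a ^ n) {s : ℂ | ‖s‖ < k} := by
    refine Complex.differentiableOn_tsum_of_summable_norm
      (u := fun n => C * (((n + k).choose k : ℝ) * (1 / 2 : ℝ) ^ n)) ?_ ?_ hopen ?_
    · exact ((hasSum_choose_mul_geometric_of_norm_lt_one k (r := (1 / 2 : ℝ)) (by norm_num)).summable).mul_left C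
    · intro n
      exact ((hbn n).smul_const (a ^ n)).differentiableOn
    · intro n s hs
      exact h k n s (le_of_lt hs)
  exact (h1 t hk).differentiableAt (hopen.mem_nhds hk)

theorem pw_growth {a : A} (ha : QN a) {ε : ℝ} (hε : 0 < ε) :
    ∃ K : ℝ, ∀ t, ‖pw a t‖ ≤ K * Real.exp (ε * ‖t‖) := by
  obtain ⟨r, hr⟩ : ∃ r : ℝ, r = 1 - Real.exp (-ε) := ⟨_, rfl⟩
  have he1 : Real.exp (-ε) < 1 := Real.exp_lt_one_iff.2 (by linarith)
  have he0 := Real.exp_pos (-ε)
  have hr0 : 0 < r := by linarith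
  have hr1 : r < 1 := by linarith
  obtain ⟨C, hC, h⟩ := pw_bound ha hr0
  refine ⟨C * Real.exp (2 * ε), fun t => ?_⟩
  obtain ⟨k, hk⟩ : ∃ k : ℕ, k = ⌈‖t‖⌉₊ := ⟨_, rfl⟩
  have hk1 : ‖t‖ ≤ k := by rw [hk]; exact Nat.le_ceil _
  have hk2 : (k : ℝ) < ‖t‖ + 1 := by rw [hk]; exact Nat.ceil_lt_add_one (norm_nonneg _)
  have hs := (hasSum_choose_mul_geometric_of_norm_lt_one k (r := r) (by
    rw [Real.norm_eq_abs, abs_of_pos hr0]; exact hr1)).mul_left C
  have h1 := tsum_of_norm_bounded hs (fun n => h k n t hk1)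
  refine h1.trans ?_
  have h2 : 1 - r = Real.exp (-ε) := by rw [hr]; ring
  rw [h2, one_div, ← Real.exp_nat_mul, ← Real.exp_neg, mul_assoc, ← Real.exp_add]
  gcongr
  push_cast
  nlinarith

end Pool.Agent.H109F.LK
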