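import Mathlib

/-!
# The orbits of a parabolic germ
-/

set_option autoImplicit false

open Filter Topology Metric Set

namespace Pool.Agent.H109F.LK

/-- Bernoulli with remainder -/
theorem bern (n : ℕ) : ∃ C : ℝ, 0 ≤ C ∧ ∀ s : ℂ, ‖s‖ ≤ 1 → ‖(1 + s) ^ n - 1 - n * s‖ ≤ C * ‖s‖ ^ 2 := by
  induction n with
  | zero => exact ⟨0, le_rfl, fun s _ => by simp⟩
  | succ n ih =>
    obtain ⟨C, hC, h⟩ := ih
    refine ⟨2 * C + n, by positivity, fun s hs => ?_⟩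
    have h1 : (1 + s) ^ (n + 1) - 1 - ((n + 1 : ℕ) : ℂ) * s =
        (1 + s) * ((1 + s) ^ n - 1 - n * s) + n * s ^ 2 := by
      push_cast
      ring
    rw [h1]
    have h2 : ‖1 + s‖ ≤ 2 := by
      refine (norm_add_le _ _).trans ?_
      rw [norm_one]; linarith
    calc ‖(1 + s) * ((1 + s) ^ n - 1 - n * s) + n * s ^ 2‖ ≤
          ‖1 + s‖ * ‖(1 + s) ^ n - 1 - n * s‖ + n * ‖s‖ ^ 2 := by
          refine (norm_add_le _ _).trans ?_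
          rw [norm_mul, norm_mul, norm_pow, Complex.norm_natCast]
      _ ≤ 2 * (C * ‖s‖ ^ 2) + n * ‖s‖ ^ 2 := by
          gcongr
          exact h s hs
      _ = _ := by ring

/-- the data of a parabolic germ -/
structure PG (F F1 : ℂ → ℂ) (k : ℕ) (c : ℂ) (ρ A : ℝ) : Prop where
  hk : 1 ≤ k
  hc : c ≠ 0
  hρ : 0 < ρ
  hA : 0 ≤ A
  hF : ∀ y, ‖y‖ ≤ ρ → ‖F y - y - c * y ^ (k + 1)‖ ≤ A * ‖y‖ ^ (k + 2)
  hF1 : ∀ y, ‖y‖ ≤ ρ → ‖F1 y - 1 - (k + 1) * c * y ^ k‖ ≤ A * ‖y‖ ^ (k + 1)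
  hinv : ∀ z, ‖z‖ ≤ ρ → ∃ y, ‖y‖ ≤ 2 * ‖z‖ ∧ F y = z

variable {F F1 : ℂ → ℂ} {k : ℕ} {c : ℂ} {ρ A : ℝ}

theorem PG.zero (h : PG F F1 k c ρ A) : F 0 = 0 := by
  have h1 := h.hF 0 (by rw [norm_zero]; exact h.hρ.le)
  have h2 : k + 1 ≠ 0 := by omega
  have h3 : k + 2 ≠ 0 := by omega
  simpa [h2, h3] using h1

/-- `F y = y (1 + s)` -/
theorem PG.s_bound (h : PG F F1 k c ρ A) {y : ℂ} (hy : y ≠ 0) (hyρ : ‖y‖ ≤ ρ) :
    ‖(F y / y - 1) - c * y ^ k‖ ≤ A * ‖y‖ ^ (k + 1) := by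
  have h1 : (F y / y - 1) - c * y ^ k = (F y - y - c * y ^ (k + 1)) / y := by
    field_simp
    ring
  rw [h1, norm_div, div_le_iff₀ (norm_pos_iff.2 hy)]
  refine (h.hF y hyρ).trans (le_of_eq ?_)
  ring

/-- the multiplier -/
theorem PG.mult (h : PG F F1 k c ρ A) : ∃ (r C : ℝ), 0 < r ∧ r ≤ ρ ∧ 0 ≤ C ∧ ∀ y : ℂ, y ≠ 0 → ‖y‖ ≤ r →
    F y ≠ 0 ∧ F1 y ≠ 0 ∧ ‖F1 y * y ^ (k + 1) / F y ^ (k + 1) - 1‖ ≤ C * ‖y‖ ^ (k + 1) := by
  obtain ⟨B, hB, hb⟩ := bern (k + 1)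
  have hA := h.hA
  have hρ := h.hρ
  -- `|s| ≤ D |y| ^ k`
  obtain ⟨D, hD⟩ : ∃ D : ℝ, D = ‖c‖ + A := ⟨_, rfl⟩
  have hD0 : 0 ≤ D := by rw [hD]; positivity
  obtain ⟨r, hr⟩ : ∃ r : ℝ, r = min ρ (min 1 (1 / (4 * (k + 1) * (D + 1) + 4 * A + 4 * B * (D + 1) ^ 2 + 4 * (k + 1) * ‖c‖ + 4))) :=
    ⟨_, rfl⟩
  have hr0 : 0 < r := by rw [hr]; positivity
  have hrρ : r ≤ ρ := by rw [hr]; exact min_le_left _ _
  have hr1 : r ≤ 1 := by rw [hr]; exact (min_le_right _ _).trans (min_le_left _ _)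
  have hr2 : r * (4 * (k + 1) * (D + 1) + 4 * A + 4 * B * (D + 1) ^ 2 + 4 * (k + 1) * ‖c‖ + 4) ≤ 1 := by
    have h1 : r ≤ 1 / (4 * (k + 1) * (D + 1) + 4 * A + 4 * B * (D + 1) ^ 2 + 4 * (k + 1) * ‖c‖ + 4) := by
      rw [hr]; exact (min_le_right _ _).trans (min_le_right _ _)
    rwa [le_div_iff₀ (by positivity)] at h1
  refine ⟨r, 2 * (A + (k + 1) * A + B * D ^ 2), hr0, hrρ, by positivity, fun y hy hyr => ?_⟩
  have hy0 : 0 < ‖y‖ := norm_pos_iff.2 hy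
  have hyρ : ‖y‖ ≤ ρ := hyr.trans hrρ
  have hy1 : ‖y‖ ≤ 1 := hyr.trans hr1
  obtain ⟨s, hs⟩ : ∃ s, s = F y / y - 1 := ⟨_, rfl⟩
  have hFs : F y = y * (1 + s) := by rw [hs]; field_simp; ring
  have hs1 : ‖s - c * y ^ k‖ ≤ A * ‖y‖ ^ (k + 1) := by rw [hs]; exact h.s_bound hy hyρ
  have hyk : ‖y‖ ^ (k + 1) ≤ ‖y‖ ^ k := pow_le_pow_of_le_one (norm_nonneg _) hy1 (by omega)
  have hs2 : ‖s‖ ≤ D * ‖y‖ ^ k := by
    have h1 : s = (s - c * y ^ k) + c * y ^ k := by ring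
    rw [h1]
    refine (norm_add_le _ _).trans ?_
    rw [norm_mul, norm_pow, hD]
    nlinarith
  have hyk1 : ‖y‖ ^ k ≤ ‖y‖ := by
    calc ‖y‖ ^ k ≤ ‖y‖ ^ 1 := pow_le_pow_of_le_one (norm_nonneg _) hy1 h.hk
      _ = _ := pow_one _
  have hs3 : ‖s‖ ≤ D * ‖y‖ := hs2.trans (mul_le_mul_of_nonneg_left hyk1 hD0)
  have hkc : (0 : ℝ) ≤ k := Nat.cast_nonneg k
  have hcn := norm_nonneg c
  have hbig : ‖y‖ * (4 * (k + 1) * (D + 1) + 4 * A + 4 * B * (D + 1) ^ 2 + 4 * (k + 1) * ‖c‖ + 4) ≤ 1 :=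
    (mul_le_mul_of_nonneg_right hyr (by positivity)).trans hr2
  have hbig' : 4 * (k + 1) * (D * ‖y‖) + 4 * (k + 1) * ‖y‖ + 4 * (A * ‖y‖) + 4 * (B * ((D + 1) ^ 2 * ‖y‖)) +
      4 * ((k + 1) * ‖c‖ * ‖y‖) + 4 * ‖y‖ ≤ 1 := by
    calc _ = ‖y‖ * (4 * (k + 1) * (D + 1) + 4 * A + 4 * B * (D + 1) ^ 2 + 4 * (k + 1) * ‖c‖ + 4) := by ring
      _ ≤ 1 := hbig
  have g1 : 0 ≤ B * ((D + 1) ^ 2 * ‖y‖) := by positivity
  have g2 : 0 ≤ (k + 1) * (D * ‖y‖) := by positivity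
  have g2' : 0 ≤ (k + 1) * ‖y‖ := by positivity
  have g2'' : 0 ≤ k * (D * ‖y‖) := by positivity
  have g3 : 0 ≤ A * ‖y‖ := by positivity
  have g4 : 0 ≤ (k + 1) * ‖c‖ * ‖y‖ := by positivity
  have e1 : 0 ≤ ‖y‖ * (4 * B * (D + 1) ^ 2) := by positivity
  have e2 : 0 ≤ ‖y‖ * (4 * (k + 1) * (D + 1)) := by positivity
  have e3 : 0 ≤ ‖y‖ * (4 * A) := by positivity
  have e4 : 0 ≤ ‖y‖ * (4 * (k + 1) * ‖c‖) := by positivity
  have hDy : D * ‖y‖ ≤ 1 / 4 := by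
    have : 4 * (k + 1) * (D * ‖y‖) = 4 * (k * (D * ‖y‖)) + 4 * (D * ‖y‖) := by ring
    linarith
  have hs4 : ‖s‖ ≤ 1 := by linarith
  -- `u = (1 + s) ^ (k + 1)`
  obtain ⟨u, hu⟩ : ∃ u, u = (1 + s) ^ (k + 1) := ⟨_, rfl⟩
  have hub : ‖u - 1 - (k + 1) * s‖ ≤ B * ‖s‖ ^ 2 := by
    have := hb s hs4
    push_cast at this
    rw [hu]; exact this
  have hs5 : ‖s‖ ^ 2 ≤ D ^ 2 * ‖y‖ ^ (k + 1) := by
    calc ‖s‖ ^ 2 = ‖s‖ * ‖s‖ := by ring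
      _ ≤ (D * ‖y‖ ^ k) * (D * ‖y‖) := mul_le_mul hs2 hs3 (norm_nonneg _) (by positivity)
      _ = _ := by ring
  have hFu : ‖F1 y - u‖ ≤ (A + (k + 1) * A + B * D ^ 2) * ‖y‖ ^ (k + 1) := by
    have h1 : F1 y - u = (F1 y - 1 - (k + 1) * c * y ^ k) - (k + 1) * (s - c * y ^ k) -
        (u - 1 - (k + 1) * s) := by ring
    rw [h1]
    have h2 : ‖((k : ℂ) + 1) * (s - c * y ^ k)‖ ≤ (k + 1) * (A * ‖y‖ ^ (k + 1)) := by
      rw [norm_mul]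
      have h3 : ‖(k : ℂ) + 1‖ = k + 1 := by
        have := Complex.norm_natCast (k + 1)
        push_cast at this
        exact this
      rw [h3]
      gcongr
    calc ‖(F1 y - 1 - (k + 1) * c * y ^ k) - (k + 1) * (s - c * y ^ k) - (u - 1 - (k + 1) * s)‖ ≤
          ‖F1 y - 1 - (k + 1) * c * y ^ k‖ + ‖((k : ℂ) + 1) * (s - c * y ^ k)‖ +
            ‖u - 1 - (k + 1) * s‖ := (norm_sub_le _ _).trans (add_le_add (norm_sub_le _ _) le_rfl)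
      _ ≤ A * ‖y‖ ^ (k + 1) + (k + 1) * (A * ‖y‖ ^ (k + 1)) + B * (D ^ 2 * ‖y‖ ^ (k + 1)) :=
          add_le_add (add_le_add (h.hF1 y hyρ) h2) (hub.trans (mul_le_mul_of_nonneg_left hs5 hB))
      _ = _ := by ring
  have hu2 : 1 / 2 ≤ ‖u‖ := by
    have h1 : ‖u - 1‖ ≤ 1 / 2 := by
      have h2 : u - 1 = (u - 1 - (k + 1) * s) + (k + 1) * s := by ring
      rw [h2]
      refine (norm_add_le _ _).trans ?_
      have h3 : ‖(k : ℂ) + 1‖ = k + 1 := by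
        have := Complex.norm_natCast (k + 1)
        push_cast at this
        exact this
      rw [norm_mul, h3]
      have h4 : B * ‖s‖ ^ 2 ≤ 1 / 4 := by
        calc B * ‖s‖ ^ 2 ≤ B * (D ^ 2 * ‖y‖ ^ (k + 1)) := mul_le_mul_of_nonneg_left hs5 hB
          _ ≤ B * ((D + 1) ^ 2 * ‖y‖) := by
              gcongr
              · linarith
              · calc ‖y‖ ^ (k + 1) ≤ ‖y‖ ^ 1 := pow_le_pow_of_le_one (norm_nonneg _) hy1 (by omega)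
                  _ = _ := pow_one _
          _ ≤ 1 / 4 := by linarith
      have h5 : (k + 1) * ‖s‖ ≤ 1 / 4 := by
        calc (k + 1) * ‖s‖ ≤ (k + 1) * (D * ‖y‖) := by gcongr
          _ ≤ 1 / 4 := by linarith
      linarith [hub]
    have h2 : ‖(1 : ℂ)‖ ≤ ‖u‖ + ‖u - 1‖ := by
      have : (1 : ℂ) = u - (u - 1) := by ring
      calc ‖(1 : ℂ)‖ = ‖u - (u - 1)‖ := by rw [← this]
        _ ≤ _ := norm_sub_le _ _
    rw [norm_one] at h2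
    linarith
  have hu0 : u ≠ 0 := by
    rw [← norm_pos_iff]; linarith
  have hFy : F y ≠ 0 := by
    rw [hFs]
    refine mul_ne_zero hy fun h0 => hu0 ?_
    rw [hu, h0, zero_pow (by omega)]
  refine ⟨hFy, ?_, ?_⟩
  · intro h0
    have h1 := h.hF1 y hyρ
    rw [h0] at h1
    have h3 : ‖(k : ℂ) + 1‖ = k + 1 := by
      have := Complex.norm_natCast (k + 1)
      push_cast at this
      exact this
    have h2 : (1 : ℝ) ≤ ‖(0 : ℂ) - 1 - (k + 1) * c * y ^ k‖ + ‖((k : ℂ) + 1) * c * y ^ k‖ := by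
      have : (-1 : ℂ) = ((0 : ℂ) - 1 - (k + 1) * c * y ^ k) + ((k : ℂ) + 1) * c * y ^ k := by ring
      calc (1 : ℝ) = ‖(-1 : ℂ)‖ := by simp
        _ = ‖((0 : ℂ) - 1 - (k + 1) * c * y ^ k) + ((k : ℂ) + 1) * c * y ^ k‖ := by rw [← this]
        _ ≤ _ := norm_add_le _ _
    have h4 : ‖((k : ℂ) + 1) * c * y ^ k‖ ≤ (k + 1) * ‖c‖ * ‖y‖ := by
      rw [norm_mul, norm_mul, h3, norm_pow]
      gcongr
    have h5 : A * ‖y‖ ^ (k + 1) ≤ A * ‖y‖ := by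
      gcongr
      calc ‖y‖ ^ (k + 1) ≤ ‖y‖ ^ 1 := pow_le_pow_of_le_one (norm_nonneg _) hy1 (by omega)
        _ = _ := pow_one _
    linarith
  · have h1 : F1 y * y ^ (k + 1) / F y ^ (k + 1) - 1 = (F1 y - u) / u := by
      rw [hFs, mul_pow, ← hu]
      have hyk0 : y ^ (k + 1) ≠ 0 := pow_ne_zero _ hy
      field_simp
    rw [h1, norm_div, div_le_iff₀ (by linarith)]
    refine hFu.trans ?_
    have h2 : 0 ≤ (A + (k + 1) * A + B * D ^ 2) * ‖y‖ ^ (k + 1) := by positivity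
    calc (A + (k + 1) * A + B * D ^ 2) * ‖y‖ ^ (k + 1) =
          2 * ((A + (k + 1) * A + B * D ^ 2) * ‖y‖ ^ (k + 1)) * (1 / 2) := by ring
      _ ≤ 2 * ((A + (k + 1) * A + B * D ^ 2) * ‖y‖ ^ (k + 1)) * ‖u‖ := by gcongr
      _ = _ := by ring

/-- one step in the coordinate `1 / (a y ^ k)`, `a = - k c` -/
theorem PG.step (h : PG F F1 k c ρ A) {a : ℂ} (ha : a = -(k * c)) : ∃ r : ℝ, 0 < r ∧ r ≤ ρ ∧
    ∀ y : ℂ, y ≠ 0 → ‖y‖ ≤ r → F y ≠ 0 ∧ ‖F y‖ ≤ 2 * ‖y‖ ∧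
      ‖1 / (a * F y ^ k) - 1 / (a * y ^ k) - 1‖ ≤ 1 / 10 := by
  obtain ⟨B, hB, hb⟩ := bern k
  have hA := h.hA
  have hρ := h.hρ
  have hk1 := h.hk
  have hk0 : (k : ℂ) ≠ 0 := Nat.cast_ne_zero.2 (by omega)
  have ha0 : a ≠ 0 := by
    rw [ha]; exact neg_ne_zero.2 (mul_ne_zero hk0 h.hc)
  have han : 0 < ‖a‖ := norm_pos_iff.2 ha0
  obtain ⟨D, hD⟩ : ∃ D : ℝ, D = ‖c‖ + A := ⟨_, rfl⟩
  have hD0 : 0 ≤ D := by rw [hD]; positivity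
  obtain ⟨G0, hG0⟩ : ∃ G0 : ℝ, G0 = (k + B) * D + (k * A + B * D ^ 2) / ‖a‖ := ⟨_, rfl⟩
  have hG : 0 ≤ G0 := by rw [hG0]; positivity
  obtain ⟨r, hr⟩ : ∃ r : ℝ, r = min ρ (min 1 (1 / (20 * G0 + 2 * ((k + B) * D) + D + 1))) := ⟨_, rfl⟩
  have hr0 : 0 < r := by rw [hr]; positivity
  have hrρ : r ≤ ρ := by rw [hr]; exact min_le_left _ _
  have hr1 : r ≤ 1 := by rw [hr]; exact (min_le_right _ _).trans (min_le_left _ _)
  have hr2 : r * (20 * G0 + 2 * ((k + B) * D) + D + 1) ≤ 1 := by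
    have h1 : r ≤ 1 / (20 * G0 + 2 * ((k + B) * D) + D + 1) := by
      rw [hr]; exact (min_le_right _ _).trans (min_le_right _ _)
    rwa [le_div_iff₀ (by positivity)] at h1
  refine ⟨r, hr0, hrρ, fun y hy hyr => ?_⟩
  have hy0 : 0 < ‖y‖ := norm_pos_iff.2 hy
  have hyρ : ‖y‖ ≤ ρ := hyr.trans hrρ
  have hy1 : ‖y‖ ≤ 1 := hyr.trans hr1
  have hbig : 20 * (G0 * ‖y‖) + 2 * ((k + B) * D * ‖y‖) + D * ‖y‖ + ‖y‖ ≤ 1 := by
    calc _ = ‖y‖ * (20 * G0 + 2 * ((k + B) * D) + D + 1) := by ring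
      _ ≤ r * (20 * G0 + 2 * ((k + B) * D) + D + 1) := mul_le_mul_of_nonneg_right hyr (by positivity)
      _ ≤ 1 := hr2
  have g1 : 0 ≤ G0 * ‖y‖ := by positivity
  have g2 : 0 ≤ (k + B) * D * ‖y‖ := by positivity
  have g3 : 0 ≤ D * ‖y‖ := by positivity
  obtain ⟨s, hs⟩ : ∃ s, s = F y / y - 1 := ⟨_, rfl⟩
  have hFs : F y = y * (1 + s) := by rw [hs]; field_simp; ring
  have hs1 : ‖s - c * y ^ k‖ ≤ A * ‖y‖ ^ (k + 1) := by rw [hs]; exact h.s_bound hy hyρ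
  have hyk : ‖y‖ ^ (k + 1) ≤ ‖y‖ ^ k := pow_le_pow_of_le_one (norm_nonneg _) hy1 (by omega)
  have hs2 : ‖s‖ ≤ D * ‖y‖ ^ k := by
    have h1 : s = (s - c * y ^ k) + c * y ^ k := by ring
    rw [h1]
    refine (norm_add_le _ _).trans ?_
    rw [norm_mul, norm_pow, hD]
    nlinarith
  have hyk1 : ‖y‖ ^ k ≤ ‖y‖ := by
    calc ‖y‖ ^ k ≤ ‖y‖ ^ 1 := pow_le_pow_of_le_one (norm_nonneg _) hy1 hk1
      _ = _ := pow_one _
  have hs3 : ‖s‖ ≤ D * ‖y‖ := hs2.trans (mul_le_mul_of_nonneg_left hyk1 hD0)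
  have hs4 : ‖s‖ ≤ 1 := by linarith
  obtain ⟨g, hg⟩ : ∃ g, g = (1 + s) ^ k := ⟨_, rfl⟩
  have hgb : ‖g - 1 - k * s‖ ≤ B * ‖s‖ ^ 2 := by rw [hg]; exact hb s hs4
  have hg1 : ‖g - 1‖ ≤ (k + B) * D * ‖y‖ := by
    have h2 : g - 1 = (g - 1 - k * s) + k * s := by ring
    rw [h2]
    refine (norm_add_le _ _).trans ?_
    rw [norm_mul, Complex.norm_natCast]
    calc ‖g - 1 - k * s‖ + k * ‖s‖ ≤ B * ‖s‖ ^ 2 + k * ‖s‖ := by linarith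
      _ ≤ B * ‖s‖ + k * ‖s‖ := by
          have : ‖s‖ ^ 2 ≤ ‖s‖ := by nlinarith [norm_nonneg s]
          have := mul_le_mul_of_nonneg_left this hB
          linarith
      _ = (k + B) * ‖s‖ := by ring
      _ ≤ (k + B) * (D * ‖y‖) := by gcongr
      _ = _ := by ring
  have hg2 : 1 / 2 ≤ ‖g‖ := by
    have h2 : ‖(1 : ℂ)‖ ≤ ‖g‖ + ‖g - 1‖ := by
      have : (1 : ℂ) = g - (g - 1) := by ring
      calc ‖(1 : ℂ)‖ = ‖g - (g - 1)‖ := by rw [← this]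
        _ ≤ _ := norm_sub_le _ _
    rw [norm_one] at h2
    linarith
  have hg0 : g ≠ 0 := by
    rw [← norm_pos_iff]; linarith
  have hFy : F y ≠ 0 := by
    rw [hFs]
    refine mul_ne_zero hy fun h0 => hg0 ?_
    rw [hg, h0, zero_pow (by omega)]
  refine ⟨hFy, ?_, ?_⟩
  · rw [hFs, norm_mul, mul_comm]
    have : ‖1 + s‖ ≤ 2 := by
      refine (norm_add_le _ _).trans ?_
      rw [norm_one]; linarith
    gcongr
  · have hyk0 : y ^ k ≠ 0 := pow_ne_zero _ hy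
    have hykn : 0 < ‖y‖ ^ k := by positivity
    have h1 : 1 / (a * F y ^ k) - 1 / (a * y ^ k) - 1 =
        ((1 - g) - (k * (s - c * y ^ k) + (g - 1 - k * s)) / (a * y ^ k)) / g := by
      rw [hFs, mul_pow, ← hg]
      field_simp
      rw [ha]
      ring
    rw [h1, norm_div, div_le_iff₀ (by linarith)]
    have h2 : ‖(k * (s - c * y ^ k) + (g - 1 - k * s)) / (a * y ^ k)‖ ≤
        (k * A + B * D ^ 2) / ‖a‖ * ‖y‖ := by
      rw [norm_div, norm_mul, norm_pow, div_le_iff₀ (by positivity)]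
      calc ‖(k : ℂ) * (s - c * y ^ k) + (g - 1 - k * s)‖ ≤
            k * (A * ‖y‖ ^ (k + 1)) + B * (D * ‖y‖ ^ k * (D * ‖y‖)) := by
            refine (norm_add_le _ _).trans (add_le_add ?_ (hgb.trans ?_))
            · rw [norm_mul, Complex.norm_natCast]
              gcongr
            · have : ‖s‖ ^ 2 ≤ D * ‖y‖ ^ k * (D * ‖y‖) := by
                calc ‖s‖ ^ 2 = ‖s‖ * ‖s‖ := by ring
                  _ ≤ _ := mul_le_mul hs2 hs3 (norm_nonneg _) (by positivity)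
              gcongr
        _ = (k * A + B * D ^ 2) / ‖a‖ * ‖y‖ * (‖a‖ * ‖y‖ ^ k) := by
            field_simp
            ring
    have h3 : ‖1 - g‖ ≤ (k + B) * D * ‖y‖ := by rw [norm_sub_rev]; exact hg1
    have h4 : ‖(1 - g) - (k * (s - c * y ^ k) + (g - 1 - k * s)) / (a * y ^ k)‖ ≤ G0 * ‖y‖ := by
      refine (norm_sub_le _ _).trans ?_
      rw [hG0, add_mul]
      exact add_le_add h3 h2
    refine h4.trans ?_
    linarith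

theorem geo {Z0 Z : ℂ} {n : ℝ} (hn : 0 ≤ n) (h0 : 0 ≤ Z0.re) (h : ‖Z - Z0 - n‖ ≤ n / 10) :
    (‖Z0‖ + n) / 2 ≤ ‖Z‖ := by
  have h1 : 0.7 * (‖Z0‖ + n) ≤ ‖Z0 + n‖ := by
    refine le_of_sq_le_sq ?_ (norm_nonneg _)
    have e1 : ‖Z0 + n‖ ^ 2 = ‖Z0‖ ^ 2 + 2 * n * Z0.re + n ^ 2 := by
      rw [← Complex.normSq_eq_norm_sq, ← Complex.normSq_eq_norm_sq, Complex.normSq_apply,
        Complex.normSq_apply]
      simp
      ring
    rw [e1]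
    have : 0 ≤ n * Z0.re := mul_nonneg hn h0
    nlinarith [norm_nonneg Z0, sq_nonneg (‖Z0‖ - n)]
  have h2 : ‖Z0 + n‖ ≤ ‖Z‖ + n / 10 := by
    have : Z0 + n = Z - (Z - Z0 - n) := by ring
    rw [this]
    exact (norm_sub_le _ _).trans (by linarith)
  have := norm_nonneg Z0
  linarith

/-- construction of orbits -/
theorem orbit_aux {a e : ℂ} (ha : a ≠ 0) (he : ‖e‖ = 1) {k : ℕ} (hk : 1 ≤ k) {r : ℝ} (hr : 0 < r)
    {Rel : ℂ → ℂ → Prop} (hnext : ∀ y : ℂ, y ≠ 0 → ‖y‖ ≤ r / 2 → ∃ y' : ℂ, y' ≠ 0 ∧ Rel y y' ∧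
      ‖e / (a * y' ^ k) - e / (a * y ^ k) - 1‖ ≤ 1 / 10) {y₀ : ℂ} (hy₀ : y₀ ≠ 0)
    (hy₀r : ‖y₀‖ ≤ r / 4) (hre : 0 ≤ (e / (a * y₀ ^ k)).re) :
    ∃ t : ℕ → ℂ, t 0 = y₀ ∧ (∀ n, t n ≠ 0) ∧ (∀ n, ‖t n‖ ≤ r / 2) ∧ (∀ n, Rel (t n) (t (n + 1))) ∧
      ∀ n : ℕ, (‖e / (a * y₀ ^ k)‖ + n) / 2 ≤ ‖e / (a * t n ^ k)‖ := by
  obtain ⟨Z0, hZ0⟩ : ∃ Z0, Z0 = e / (a * y₀ ^ k) := ⟨_, rfl⟩
  have han : 0 < ‖a‖ := norm_pos_iff.2 ha
  let I : ℕ → ℂ → Prop := fun n y => y ≠ 0 ∧ ‖y‖ ≤ r / 2 ∧ ‖e / (a * y ^ k) - Z0 - (n : ℝ)‖ ≤ n / 10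
  have hI0 : I 0 y₀ := by
    refine ⟨hy₀, by linarith, ?_⟩
    rw [← hZ0]; simp
  have hstep : ∀ n y, I n y → ∃ y', I (n + 1) y' ∧ Rel y y' := by
    rintro n y ⟨h1, h2, h3⟩
    obtain ⟨y', hy', hrel, h4⟩ := hnext y h1 h2
    have h5 : ‖e / (a * y' ^ k) - Z0 - ((n + 1 : ℕ) : ℝ)‖ ≤ ((n + 1 : ℕ) : ℝ) / 10 := by
      have h6 : e / (a * y' ^ k) - Z0 - (((n + 1 : ℕ) : ℝ) : ℂ) =
          (e / (a * y' ^ k) - e / (a * y ^ k) - 1) + (e / (a * y ^ k) - Z0 - ((n : ℝ) : ℂ)) := by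
        push_cast
        ring
      rw [h6]
      refine (norm_add_le _ _).trans ((add_le_add h4 h3).trans (le_of_eq ?_))
      push_cast
      ring
    refine ⟨y', ⟨hy', ?_, h5⟩, hrel⟩
    have h7 := geo (Nat.cast_nonneg (n + 1)) (hZ0 ▸ hre) h5
    have h8 : ‖Z0‖ / 2 ≤ ‖e / (a * y' ^ k)‖ := by
      have : (0 : ℝ) ≤ ((n + 1 : ℕ) : ℝ) := Nat.cast_nonneg _
      linarith
    rw [hZ0, norm_div, norm_div, he, norm_mul, norm_mul, norm_pow, norm_pow, div_div,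
      div_le_div_iff₀ (by positivity) (by positivity)] at h8
    have hy₀p : 0 < ‖y₀‖ := norm_pos_iff.2 hy₀
    have h9 : ‖y'‖ ^ k ≤ (2 * ‖y₀‖) ^ k := by
      have h10 : ‖y'‖ ^ k ≤ 2 * ‖y₀‖ ^ k := by
        have : ‖a‖ * ‖y'‖ ^ k ≤ ‖a‖ * (2 * ‖y₀‖ ^ k) := by linarith
        exact le_of_mul_le_mul_left this han
      have h11 : (2 : ℝ) ≤ 2 ^ k := by
        calc (2 : ℝ) = 2 ^ 1 := (pow_one _).symm
          _ ≤ 2 ^ k := pow_le_pow_right₀ (by norm_num) hk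
      rw [mul_pow]
      refine h10.trans ?_
      gcongr
    have h12 : ‖y'‖ ≤ 2 * ‖y₀‖ := le_of_pow_le_pow_left₀ (by omega) (by positivity) h9
    linarith
  choose next hnext1 hnext2 using hstep
  let T : (n : ℕ) → {y // I n y} := fun n =>
    Nat.rec ⟨y₀, hI0⟩ (fun n y => ⟨next n y.1 y.2, hnext1 n y.1 y.2⟩) n
  refine ⟨fun n => (T n).1, rfl, fun n => (T n).2.1, fun n => (T n).2.2.1,
    fun n => hnext2 n (T n).1 (T n).2, fun n => ?_⟩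
  rw [← hZ0]
  exact geo (Nat.cast_nonneg n) (hZ0 ▸ hre) (T n).2.2.2

/-- **orbits**: every point near zero has a forward or a backward orbit which tends to zero fast -/
theorem PG.orbits (h : PG F F1 k c ρ A) {r' η : ℝ} (hr' : 0 < r') (hη : 0 < η) :
    ∃ ε : ℝ, 0 < ε ∧ ∀ y : ℂ, y ≠ 0 → ‖y‖ < ε → ∃ t : ℕ → ℂ, t 0 = y ∧ (∀ n, t n ≠ 0) ∧
      (∀ n, ‖t n‖ ≤ r') ∧ Tendsto t atTop (𝓝 0) ∧
      (∀ n, ∑ i ∈ Finset.range n, ‖t i‖ ^ (k + 1) ≤ η) ∧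
      ((∀ n, t (n + 1) = F (t n)) ∨ (∀ n, F (t (n + 1)) = t n)) := by
  obtain ⟨a, ha⟩ : ∃ a : ℂ, a = -(k * c) := ⟨_, rfl⟩
  have hk1 := h.hk
  have hkC : (k : ℂ) ≠ 0 := Nat.cast_ne_zero.2 (by omega)
  have ha0 : a ≠ 0 := by
    rw [ha]; exact neg_ne_zero.2 (mul_ne_zero hkC h.hc)
  have han : 0 < ‖a‖ := norm_pos_iff.2 ha0
  obtain ⟨r₁, hr₁, hr₁ρ, hstep⟩ := h.step ha
  obtain ⟨r, hr⟩ : ∃ r : ℝ, r = min r₁ r' := ⟨_, rfl⟩
  have hr0 : 0 < r := by rw [hr]; exact lt_min hr₁ hr'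
  have hrr₁ : r ≤ r₁ := by rw [hr]; exact min_le_left _ _
  have hrr' : r ≤ r' := by rw [hr]; exact min_le_right _ _
  -- the exponent
  obtain ⟨p, hp⟩ : ∃ p : ℝ, p = ((k + 1 : ℕ) : ℝ) / k := ⟨_, rfl⟩
  have hkR : (0 : ℝ) < k := Nat.cast_pos.2 (by omega)
  have hp1 : 1 < p := by
    rw [hp, lt_div_iff₀ hkR]; push_cast; linarith
  obtain ⟨f, hf⟩ : ∃ f : ℕ → ℝ, f = fun i : ℕ => (2 / ‖a‖) ^ p * (1 / ((i : ℕ) : ℝ) ^ p) := ⟨_, rfl⟩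
  have hfs : Summable f := by
    rw [hf]
    exact (Real.summable_one_div_nat_rpow.2 hp1).mul_left _
  have hf0 : ∀ i, 0 ≤ f i := fun i => by rw [hf]; positivity
  obtain ⟨N, hN1, hN2⟩ : ∃ N : ℕ, 1 ≤ N ∧ ∑' i, f (i + N) < η := by
    have h1 := tendsto_sum_nat_add f
    obtain ⟨N, h2, h3⟩ := ((h1.eventually (gt_mem_nhds hη)).and (eventually_ge_atTop 1)).exists
    exact ⟨N, h3, h2⟩
  have hNR : (0 : ℝ) < N := Nat.cast_pos.2 hN1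
  refine ⟨min (r / 4) (min 1 (1 / (‖a‖ * N))), by positivity, fun y hy hyε => ?_⟩
  have hy1 : ‖y‖ ≤ r / 4 := hyε.le.trans (min_le_left _ _)
  have hy2 : ‖y‖ ≤ 1 := hyε.le.trans ((min_le_right _ _).trans (min_le_left _ _))
  have hy3 : ‖y‖ ≤ 1 / (‖a‖ * N) := hyε.le.trans ((min_le_right _ _).trans (min_le_right _ _))
  have hyp : 0 < ‖y‖ := norm_pos_iff.2 hy
  have hyk : ‖y‖ ^ k ≤ ‖y‖ := by
    calc ‖y‖ ^ k ≤ ‖y‖ ^ 1 := pow_le_pow_of_le_one (norm_nonneg _) hy2 hk1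
      _ = _ := pow_one _
  have hZN : (N : ℝ) ≤ 1 / (‖a‖ * ‖y‖ ^ k) := by
    rw [le_div_iff₀ (by positivity)]
    have h1 : ‖y‖ ^ k ≤ 1 / (‖a‖ * N) := hyk.trans hy3
    rw [le_div_iff₀ (by positivity)] at h1
    linarith
  -- the two kinds of orbits
  obtain ⟨e, t, he, ht0, htn, htr, hor, htz⟩ : ∃ (e : ℂ) (t : ℕ → ℂ), ‖e‖ = 1 ∧ t 0 = y ∧
      (∀ n, t n ≠ 0) ∧ (∀ n, ‖t n‖ ≤ r / 2) ∧
      ((∀ n, t (n + 1) = F (t n)) ∨ (∀ n, F (t (n + 1)) = t n)) ∧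
      ∀ n : ℕ, (‖e / (a * y ^ k)‖ + n) / 2 ≤ ‖e / (a * t n ^ k)‖ := by
    rcases le_total 0 (1 / (a * y ^ k)).re with hre | hre
    · obtain ⟨t, h1, h2, h3, h4, h5⟩ := orbit_aux (a := a) (e := 1) ha0 (by simp) hk1 hr0
        (Rel := fun y y' => y' = F y) (fun y hy hyr => by
          obtain ⟨g1, g2, g3⟩ := hstep y hy (by linarith)
          exact ⟨F y, g1, rfl, g3⟩) hy hy1 hre
      exact ⟨1, t, by simp, h1, h2, h3, Or.inl h4, h5⟩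
    · obtain ⟨t, h1, h2, h3, h4, h5⟩ := orbit_aux (a := a) (e := -1) ha0 (by simp) hk1 hr0
        (Rel := fun y y' => F y' = y) (fun y hy hyr => by
          obtain ⟨y', g1, g2⟩ := h.hinv y (by linarith)
          have hy' : y' ≠ 0 := by
            rintro rfl
            rw [h.zero] at g2
            exact hy g2.symm
          obtain ⟨g3, g4, g5⟩ := hstep y' hy' (by linarith)
          refine ⟨y', hy', g2, ?_⟩
          rw [g2] at g5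
          have : -1 / (a * y' ^ k) - -1 / (a * y ^ k) - 1 = 1 / (a * y ^ k) - 1 / (a * y' ^ k) - 1 := by
            ring
          rw [this]
          exact g5) hy hy1 (by
            rw [neg_div, Complex.neg_re]
            linarith)
      exact ⟨-1, t, by simp, h1, h2, h3, Or.inr h4, h5⟩
  -- the size of the orbit
  have hsize : ∀ n, ‖t n‖ ^ (k + 1) ≤ f (n + N) := by
    intro n
    have htp : 0 < ‖t n‖ := norm_pos_iff.2 (htn n)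
    have h1 := htz n
    rw [norm_div, norm_div, he, norm_mul, norm_mul, norm_pow, norm_pow] at h1
    have h2 : ‖t n‖ ^ k ≤ (2 / ‖a‖) * (1 / ((n + N : ℕ) : ℝ)) := by
      have h3 : ((n + N : ℕ) : ℝ) / 2 ≤ 1 / (‖a‖ * ‖t n‖ ^ k) := by
        push_cast
        linarith
      have hnN : (0 : ℝ) < ((n + N : ℕ) : ℝ) := Nat.cast_pos.2 (by omega)
      rw [div_le_div_iff₀ (by norm_num) (by positivity)] at h3
      rw [div_mul_div_comm, mul_one, le_div_iff₀ (by positivity)]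
      linarith
    have h4 : ‖t n‖ ^ (k + 1) = (‖t n‖ ^ k) ^ p := by
      rw [← Real.rpow_natCast (‖t n‖) k, ← Real.rpow_mul htp.le, hp, mul_div_cancel₀ _ hkR.ne',
        Real.rpow_natCast]
    rw [h4, hf]
    simp only
    calc (‖t n‖ ^ k) ^ p ≤ ((2 / ‖a‖) * (1 / ((n + N : ℕ) : ℝ))) ^ p := by
          refine Real.rpow_le_rpow (by positivity) h2 (by linarith)
      _ = _ := by
          rw [Real.mul_rpow (by positivity) (by positivity), Real.div_rpow zero_le_one (by positivity),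
            Real.one_rpow]
  have hfsN : Summable fun i => f (i + N) := (summable_nat_add_iff N).2 hfs
  refine ⟨t, ht0, htn, fun n => (htr n).trans (by linarith), ?_, fun n => ?_, hor⟩
  · have h1 : Tendsto (fun n => ‖t n‖ ^ (k + 1)) atTop (𝓝 0) :=
      squeeze_zero (fun n => by positivity) hsize hfsN.tendsto_atTop_zero
    rw [Metric.tendsto_atTop]
    intro δ hδ
    obtain ⟨n₀, hn₀⟩ := (Metric.tendsto_atTop.1 h1) (δ ^ (k + 1)) (by positivity)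
    refine ⟨n₀, fun n hn => ?_⟩
    have h2 := hn₀ n hn
    rw [Real.dist_eq, sub_zero, abs_of_nonneg (by positivity)] at h2
    rw [dist_zero_right]
    exact lt_of_pow_lt_pow_left₀ (k + 1) hδ.le h2
  · calc ∑ i ∈ Finset.range n, ‖t i‖ ^ (k + 1) ≤ ∑ i ∈ Finset.range n, f (i + N) :=
          Finset.sum_le_sum fun i _ => hsize i
      _ ≤ ∑' i, f (i + N) := hfsN.sum_le_tsum _ fun i _ => hf0 _
      _ ≤ η := hN2.le

end Pool.Agent.H109F.LK
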