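import Mathlib

/-!
# Spectral radii of entire families of operators
-/

set_option autoImplicit false

open Filter Topology Metric Set

namespace Pool.Agent.H109F.LK

section Alg

variable {A : Type*} [NormedRing A] [NormedAlgebra ℂ A]

/-- the spectral radius of `a` is smaller than `η` -/
def SL (a : A) (η : ℝ) : Prop := ∃ n : ℕ, 1 ≤ n ∧ ‖a ^ n‖ < η ^ n

omit [NormedAlgebra ℂ A] in
theorem SL_pow_mul {a : A} {η : ℝ} {n : ℕ} (h : ‖a ^ n‖ < η ^ n) {k : ℕ} (hk : 1 ≤ k) :
    ‖a ^ (n * k)‖ < η ^ (n * k) := by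
  rw [pow_mul, pow_mul]
  exact (norm_pow_le' _ (by omega)).trans_lt (pow_lt_pow_left₀ h (norm_nonneg _) (by omega))

omit [NormedAlgebra ℂ A] in
theorem SL.mono {a : A} {η η' : ℝ} (h : SL a η) (h0 : 0 ≤ η) (hη : η ≤ η') : SL a η' := by
  obtain ⟨n, hn, h⟩ := h
  exact ⟨n, hn, h.trans_le (pow_le_pow_left₀ h0 hη n)⟩

theorem SL.smul {a : A} {η : ℝ} (h : SL a η) {w : ℂ} (hw : w ≠ 0) : SL (w • a) (‖w‖ * η) := by
  obtain ⟨n, hn, h⟩ := h
  refine ⟨n, hn, ?_⟩
  rw [smul_pow, norm_smul, norm_pow, mul_pow]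
  have : 0 < ‖w‖ ^ n := by positivity
  exact mul_lt_mul_of_pos_left h this

omit [NormedAlgebra ℂ A] in
theorem SL_of_norm {a : A} {η : ℝ} (h : ‖a‖ < η) : SL a η := ⟨1, le_rfl, by simpa using h⟩

omit [NormedAlgebra ℂ A] in
theorem SL_compact {F : ℂ → A} (hF : Continuous F) {K : Set ℂ} (hK : IsCompact K) {η : ℝ}
    (hη : 0 < η) (h : ∀ t ∈ K, SL (F t) η) :
    ∃ (N : ℕ) (C : ℝ), 1 ≤ N ∧ 0 ≤ C ∧ C < η ^ N ∧ ∀ t ∈ K, ‖F t ^ N‖ ≤ C := by
  obtain ⟨N, hN, h1⟩ : ∃ N : ℕ, 1 ≤ N ∧ ∀ t ∈ K, ‖F t ^ N‖ < η ^ N := by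
    refine hK.induction_on (p := fun s => ∃ N : ℕ, 1 ≤ N ∧ ∀ t ∈ s, ‖F t ^ N‖ < η ^ N) ?_ ?_ ?_ ?_
    · exact ⟨1, le_rfl, fun t ht => absurd ht (notMem_empty t)⟩
    · rintro s t hst ⟨N, hN, h⟩
      exact ⟨N, hN, fun x hx => h x (hst hx)⟩
    · rintro s t ⟨N, hN, h⟩ ⟨M, hM, h'⟩
      refine ⟨N * M, by nlinarith, fun x hx => ?_⟩
      rcases hx with hx | hx
      · exact SL_pow_mul (h x hx) hM
      · rw [mul_comm]
        exact SL_pow_mul (h' x hx) hN
    · intro x hx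
      obtain ⟨N, hN, h2⟩ := h x hx
      refine ⟨{t | ‖F t ^ N‖ < η ^ N}, mem_nhdsWithin_of_mem_nhds ?_, N, hN, fun t ht => ht⟩
      have hc : Continuous fun t => ‖F t ^ N‖ := (hF.pow N).norm
      exact hc.continuousAt.eventually (gt_mem_nhds h2)
  by_cases hne : K.Nonempty
  · have hc : Continuous fun t => ‖F t ^ N‖ := (hF.pow N).norm
    obtain ⟨x, hx, hmax⟩ := hK.exists_isMaxOn hne hc.continuousOn
    exact ⟨N, ‖F x ^ N‖, hN, norm_nonneg _, h1 x hx, fun t ht => hmax ht⟩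
  · rw [not_nonempty_iff_eq_empty] at hne
    exact ⟨N, 0, hN, le_rfl, by positivity, fun t ht => by rw [hne] at ht; exact absurd ht (notMem_empty t)⟩

omit [NormedAlgebra ℂ A] in
theorem SL_compact' {F : ℂ → A} (hF : Continuous F) {K : Set ℂ} (hK : IsCompact K) {η : ℝ}
    (hη : 0 < η) (h : ∀ t ∈ K, SL (F t) η) : ∃ η₀, 0 < η₀ ∧ η₀ < η ∧ ∀ t ∈ K, SL (F t) η₀ := by
  obtain ⟨N, C, hN, hC, hC2, h1⟩ := SL_compact hF hK hη h
  obtain ⟨c, hc1, hc2⟩ := exists_between hC2
  have hc0 : 0 < c := hC.trans_lt hc1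
  have hpow : (c ^ ((N : ℝ)⁻¹)) ^ N = c := Real.rpow_inv_natCast_pow hc0.le (by omega)
  refine ⟨c ^ ((N : ℝ)⁻¹), by positivity, ?_, fun t ht => ⟨N, hN, ?_⟩⟩
  · refine lt_of_pow_lt_pow_left₀ N hη.le ?_
    rw [hpow]
    exact hc2
  · rw [hpow]
    exact (h1 t ht).trans_lt hc1

theorem differentiable_pow' {F : ℂ → A} (hF : Differentiable ℂ F) (n : ℕ) :
    Differentiable ℂ fun t => F t ^ n := by
  induction n with
  | zero => simp only [pow_zero]; exact differentiable_const _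
  | succ n ih =>
    simp only [pow_succ]
    exact ih.mul hF

/-- **maximum principle** for the spectral radius -/
theorem SL_max {F : ℂ → A} (hF : Differentiable ℂ F) {U : Set ℂ} (hU : Bornology.IsBounded U)
    {η : ℝ} (hη : 0 < η) (h : ∀ t ∈ frontier U, SL (F t) η) {t : ℂ} (ht : t ∈ closure U) :
    SL (F t) η := by
  have hcomp : IsCompact (frontier U) :=
    Metric.isCompact_of_isClosed_isBounded isClosed_frontier
      (hU.closure.subset frontier_subset_closure)
  obtain ⟨N, C, hN, hC, hC2, h1⟩ := SL_compact hF.continuous hcomp hη h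
  exact ⟨N, hN, (Complex.norm_le_of_forall_mem_frontier_norm_le hU
    (differentiable_pow' hF N).diffContOnCl h1 ht).trans_lt hC2⟩

/-- a bound for the spectral radius of a family with a periodic spectrum -/
theorem strip {F : ℂ → A} (hF : Differentiable ℂ F)
    (hper : ∀ (t : ℂ) (η : ℝ), 0 < η → (SL (F (t + 1)) η ↔ SL (F t) η))
    (hgr : ∀ ε : ℝ, 0 < ε → ∃ K : ℝ, ∀ t, ‖F t‖ ≤ K * Real.exp (ε * ‖t‖)) {η : ℝ} (hη : 0 < η)
    (hx : ∀ x : ℝ, SL (F x) η) {t : ℂ} (ht : 0 ≤ t.im) {η' : ℝ} (hη' : η < η') : SL (F t) η' := by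
  -- integer periods
  have hperN : ∀ (n : ℕ) (t : ℂ) (η : ℝ), 0 < η → (SL (F (t + n)) η ↔ SL (F t) η) := by
    intro n
    induction n with
    | zero => intro t η _; simp
    | succ n ih =>
      intro t η hη
      rw [← ih t η hη, ← hper (t + n) η hη]
      push_cast
      rw [add_assoc]
  have hperZ : ∀ (n : ℤ) (t : ℂ) (η : ℝ), 0 < η → (SL (F (t + n)) η ↔ SL (F t) η) := by
    intro n t η hη
    obtain ⟨m, rfl | rfl⟩ := n.eq_nat_or_neg
    · exact_mod_cast hperN m t η hη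
    · rw [← hperN m (t + ((-(m : ℤ) : ℤ) : ℂ)) η hη]
      push_cast
      rw [neg_add_cancel_right]
  obtain ⟨l, hl0, hl⟩ : ∃ l : ℝ, 0 < l ∧ η * Real.exp l = η' := by
    refine ⟨Real.log (η' / η), Real.log_pos ((one_lt_div hη).2 hη'), ?_⟩
    rw [Real.exp_log (by have := hη.trans hη'; positivity), mul_div_cancel₀ _ hη.ne']
  obtain ⟨κ, hκ0, hκ⟩ : ∃ κ : ℝ, 0 < κ ∧ κ * t.im ≤ l / 2 := by
    refine ⟨l / (2 * (t.im + 1)), by positivity, ?_⟩
    rw [div_mul_eq_mul_div, div_le_div_iff₀ (by positivity) (by norm_num)]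
    nlinarith
  obtain ⟨K, hK⟩ := hgr (κ / 2) (by positivity)
  have hK0 : 0 ≤ K := by
    have h1 := hK 0
    rw [norm_zero, mul_zero, Real.exp_zero, mul_one] at h1
    exact (norm_nonneg _).trans h1
  obtain ⟨Y, hY1, hY2⟩ : ∃ Y : ℝ, t.im + 1 ≤ Y ∧
      2 * ((K + 1) * Real.exp (κ / 2 * (1 + Y))) * Real.exp (-(κ * Y)) ≤ η := by
    refine ⟨max (t.im + 1) (4 * ((K + 1) * Real.exp (κ / 2)) / (κ * η)), le_max_left _ _, ?_⟩
    set Y := max (t.im + 1) (4 * ((K + 1) * Real.exp (κ / 2)) / (κ * η)) with hY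
    have h1 : 4 * ((K + 1) * Real.exp (κ / 2)) / (κ * η) ≤ Y := le_max_right _ _
    rw [div_le_iff₀ (by positivity)] at h1
    have h2 : κ / 2 * Y ≤ Real.exp (κ / 2 * Y) := by
      have := Real.add_one_le_exp (κ / 2 * Y)
      linarith
    have h3 : 2 * ((K + 1) * Real.exp (κ / 2 * (1 + Y))) * Real.exp (-(κ * Y)) =
        2 * ((K + 1) * Real.exp (κ / 2)) * (Real.exp (κ / 2 * Y))⁻¹ := by
      have e1 : Real.exp (κ / 2 * (1 + Y)) = Real.exp (κ / 2) * Real.exp (κ / 2 * Y) := by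
        rw [← Real.exp_add]
        congr 1
        ring
      have e2 : Real.exp (-(κ * Y)) = (Real.exp (κ / 2 * Y))⁻¹ * (Real.exp (κ / 2 * Y))⁻¹ := by
        rw [← Real.exp_neg, ← Real.exp_add]
        congr 1
        ring
      rw [e1, e2]
      field_simp
    rw [h3, mul_inv_le_iff₀ (Real.exp_pos _)]
    nlinarith
  have hY0 : 0 < Y := by linarith
  obtain ⟨δ, hδ0, hδ1, hδ2⟩ : ∃ δ : ℝ, 0 < δ ∧ δ * t.re ^ 2 ≤ l / 2 ∧ Real.exp (δ * Y ^ 2) ≤ 2 := by
    refine ⟨min (l / (2 * (t.re ^ 2 + 1))) (Real.log 2 / Y ^ 2), ?_, ?_, ?_⟩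
    · have : 0 < Real.log 2 := Real.log_pos (by norm_num)
      positivity
    · calc min (l / (2 * (t.re ^ 2 + 1))) (Real.log 2 / Y ^ 2) * t.re ^ 2 ≤
            l / (2 * (t.re ^ 2 + 1)) * t.re ^ 2 :=
            mul_le_mul_of_nonneg_right (min_le_left _ _) (sq_nonneg _)
        _ ≤ l / 2 := by
            rw [div_mul_eq_mul_div, div_le_div_iff₀ (by positivity) (by norm_num)]
            nlinarith
    · calc Real.exp (min (l / (2 * (t.re ^ 2 + 1))) (Real.log 2 / Y ^ 2) * Y ^ 2) ≤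
            Real.exp (Real.log 2 / Y ^ 2 * Y ^ 2) :=
            Real.exp_le_exp.2 (mul_le_mul_of_nonneg_right (min_le_right _ _) (sq_nonneg _))
        _ = 2 := by
            rw [div_mul_cancel₀ _ (by positivity), Real.exp_log (by norm_num)]
  obtain ⟨L, hL1, hL2⟩ : ∃ L : ℝ, |t.re| + 1 ≤ L ∧
      2 * ((K + 1) * Real.exp (κ / 2 * (1 + Y))) * Real.exp (-(δ * L ^ 2)) ≤ η := by
    refine ⟨max (|t.re| + 1) (2 * ((K + 1) * Real.exp (κ / 2 * (1 + Y))) / (δ * η)), le_max_left _ _, ?_⟩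
    set L := max (|t.re| + 1) (2 * ((K + 1) * Real.exp (κ / 2 * (1 + Y))) / (δ * η)) with hL
    have h1 : 2 * ((K + 1) * Real.exp (κ / 2 * (1 + Y))) / (δ * η) ≤ L := le_max_right _ _
    have h1' : 1 ≤ L := by
      have h3 : |t.re| + 1 ≤ L := le_max_left _ _
      have := abs_nonneg t.re
      linarith
    rw [div_le_iff₀ (by positivity)] at h1
    have h2 : δ * L ^ 2 ≤ Real.exp (δ * L ^ 2) := by
      have := Real.add_one_le_exp (δ * L ^ 2)
      linarith
    rw [Real.exp_neg, mul_inv_le_iff₀ (Real.exp_pos _)]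
    have h4 : L ≤ L ^ 2 := by nlinarith
    calc 2 * ((K + 1) * Real.exp (κ / 2 * (1 + Y))) ≤ L * (δ * η) := h1
      _ ≤ L ^ 2 * (δ * η) := by gcongr
      _ = η * (δ * L ^ 2) := by ring
      _ ≤ _ := by gcongr
  -- the weight
  let w : ℂ → ℂ := fun s => Complex.exp (Complex.I * κ * s - δ * s ^ 2)
  have hw0 : ∀ s, w s ≠ 0 := fun s => Complex.exp_ne_zero _
  have hwn : ∀ s, ‖w s‖ = Real.exp (-(κ * s.im) - δ * (s.re ^ 2 - s.im ^ 2)) := by
    intro s
    show ‖Complex.exp _‖ = _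
    rw [Complex.norm_exp]
    congr 1
    simp [pow_two]
  have hG : Differentiable ℂ fun s => w s • F s := by
    have hwd : Differentiable ℂ w := Complex.differentiable_exp.comp (by fun_prop)
    exact hwd.fun_smul hF
  have hb : ∀ s : ℂ, 0 ≤ s.im → s.im ≤ Y → SL (F s) ((K + 1) * Real.exp (κ / 2 * (1 + Y))) := by
    intro s hs0 hs1
    have h1 := hperZ (-⌊s.re⌋) s ((K + 1) * Real.exp (κ / 2 * (1 + Y))) (by positivity)
    rw [← h1]
    apply SL_of_norm
    have h2 : ‖s + ((-⌊s.re⌋ : ℤ) : ℂ)‖ ≤ 1 + Y := by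
      refine (Complex.norm_le_abs_re_add_abs_im _).trans (add_le_add ?_ ?_)
      · have h3 : (s + ((-⌊s.re⌋ : ℤ) : ℂ)).re = Int.fract s.re := by
          rw [Complex.add_re, Complex.intCast_re]
          push_cast
          rw [← sub_eq_add_neg, Int.self_sub_floor]
        rw [h3, abs_of_nonneg (Int.fract_nonneg _)]
        exact (Int.fract_lt_one _).le
      · have h3 : (s + ((-⌊s.re⌋ : ℤ) : ℂ)).im = s.im := by
          rw [Complex.add_im, Complex.intCast_im, add_zero]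
        rw [h3, abs_of_nonneg hs0]
        exact hs1
    calc ‖F (s + ((-⌊s.re⌋ : ℤ) : ℂ))‖ ≤ K * Real.exp (κ / 2 * ‖s + ((-⌊s.re⌋ : ℤ) : ℂ)‖) := hK _
      _ ≤ K * Real.exp (κ / 2 * (1 + Y)) := by gcongr
      _ < (K + 1) * Real.exp (κ / 2 * (1 + Y)) :=
          mul_lt_mul_of_pos_right (by linarith) (Real.exp_pos _)
  let U : Set ℂ := {s | -L < s.re ∧ s.re < L ∧ 0 < s.im ∧ s.im < Y}
  have hUb : Bornology.IsBounded U := by
    refine (Metric.isBounded_closedBall (x := (0 : ℂ)) (r := L + Y)).subset ?_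
    rintro s ⟨h1, h2, h3, h4⟩
    rw [mem_closedBall_zero_iff]
    refine (Complex.norm_le_abs_re_add_abs_im _).trans (add_le_add ?_ ?_)
    · exact abs_le.2 ⟨h1.le, h2.le⟩
    · rw [abs_of_pos h3]; exact h4.le
  have hUo : IsOpen U := by
    refine IsOpen.inter ?_ (IsOpen.inter ?_ (IsOpen.inter ?_ ?_))
    · exact isOpen_lt continuous_const Complex.continuous_re
    · exact isOpen_lt Complex.continuous_re continuous_const
    · exact isOpen_lt continuous_const Complex.continuous_im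
    · exact isOpen_lt Complex.continuous_im continuous_const
  have hUc : closure U ⊆ {s | -L ≤ s.re ∧ s.re ≤ L ∧ 0 ≤ s.im ∧ s.im ≤ Y} := by
    refine closure_minimal (fun s hs => ⟨hs.1.le, hs.2.1.le, hs.2.2.1.le, hs.2.2.2.le⟩) ?_
    refine IsClosed.inter ?_ (IsClosed.inter ?_ (IsClosed.inter ?_ ?_))
    · exact isClosed_le continuous_const Complex.continuous_re
    · exact isClosed_le Complex.continuous_re continuous_const
    · exact isClosed_le continuous_const Complex.continuous_im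
    · exact isClosed_le Complex.continuous_im continuous_const
  have hfr : ∀ s ∈ frontier U, SL (w s • F s) η := by
    intro s hs
    rw [hUo.frontier_eq] at hs
    obtain ⟨h1, h2, h3, h4⟩ := hUc hs.1
    have hn := hs.2
    have hs2 : s.im ^ 2 ≤ Y ^ 2 := by gcongr
    by_cases him : s.im = 0
    · have h5 : s = (s.re : ℂ) := by
        apply Complex.ext <;> simp [him]
      have h6 := (hx s.re).smul (hw0 s)
      rw [← h5] at h6
      refine h6.mono (by positivity) ?_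
      have h7 : ‖w s‖ ≤ 1 := by
        rw [hwn, him, Real.exp_le_one_iff]
        have : 0 ≤ δ * s.re ^ 2 := by positivity
        nlinarith
      nlinarith
    · have h5 := (hb s h3 h4).smul (hw0 s)
      refine h5.mono (by positivity) ?_
      by_cases him' : s.im = Y
      · calc ‖w s‖ * ((K + 1) * Real.exp (κ / 2 * (1 + Y))) ≤
              (2 * Real.exp (-(κ * Y))) * ((K + 1) * Real.exp (κ / 2 * (1 + Y))) := by
              have h6 : ‖w s‖ ≤ 2 * Real.exp (-(κ * Y)) := by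
                calc ‖w s‖ ≤ Real.exp (δ * Y ^ 2 + -(κ * Y)) := by
                      rw [hwn, Real.exp_le_exp, him']
                      have : 0 ≤ δ * s.re ^ 2 := by positivity
                      nlinarith
                  _ = Real.exp (δ * Y ^ 2) * Real.exp (-(κ * Y)) := Real.exp_add _ _
                  _ ≤ _ := by gcongr
              gcongr
          _ ≤ η := by linarith
      · have him0 : 0 < s.im := lt_of_le_of_ne h3 (Ne.symm him)
        have hre : s.re ^ 2 = L ^ 2 := by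
          have h6 : s.re = L ∨ s.re = -L := by
            by_contra hcon
            push Not at hcon
            apply hn
            exact ⟨lt_of_le_of_ne h1 (Ne.symm hcon.2), lt_of_le_of_ne h2 hcon.1, him0,
              lt_of_le_of_ne h4 him'⟩
          rcases h6 with h6 | h6 <;> rw [h6] <;> ring
        calc ‖w s‖ * ((K + 1) * Real.exp (κ / 2 * (1 + Y))) ≤
              (2 * Real.exp (-(δ * L ^ 2))) * ((K + 1) * Real.exp (κ / 2 * (1 + Y))) := by
              have h6 : ‖w s‖ ≤ 2 * Real.exp (-(δ * L ^ 2)) := by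
                calc ‖w s‖ ≤ Real.exp (δ * Y ^ 2 + -(δ * L ^ 2)) := by
                      rw [hwn, Real.exp_le_exp, hre]
                      have : 0 ≤ κ * s.im := by positivity
                      have : δ * s.im ^ 2 ≤ δ * Y ^ 2 := by gcongr
                      nlinarith
                  _ = Real.exp (δ * Y ^ 2) * Real.exp (-(δ * L ^ 2)) := Real.exp_add _ _
                  _ ≤ _ := by gcongr
              gcongr
          _ ≤ η := by linarith
  by_cases ht0 : t.im = 0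
  · have h5 : t = (t.re : ℂ) := by
      apply Complex.ext <;> simp [ht0]
    rw [h5]
    exact (hx t.re).mono hη.le hη'.le
  have htU : t ∈ U := by
    have h1 := abs_lt.1 (show |t.re| < L by linarith)
    exact ⟨h1.1, h1.2, lt_of_le_of_ne ht (Ne.symm ht0), by linarith⟩
  have h1 := SL_max hG hUb hη hfr (subset_closure htU)
  have h2 := h1.smul (inv_ne_zero (hw0 t))
  rw [inv_smul_smul₀ (hw0 t)] at h2
  refine h2.mono (by positivity) ?_
  rw [norm_inv, hwn, ← Real.exp_neg, ← hl, mul_comm]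
  gcongr
  have : 0 ≤ δ * t.im ^ 2 := by positivity
  nlinarith

theorem strip' {F : ℂ → A} (hF : Differentiable ℂ F)
    (hper : ∀ (t : ℂ) (η : ℝ), 0 < η → (SL (F (t + 1)) η ↔ SL (F t) η))
    (hgr : ∀ ε : ℝ, 0 < ε → ∃ K : ℝ, ∀ t, ‖F t‖ ≤ K * Real.exp (ε * ‖t‖)) {η : ℝ} (hη : 0 < η)
    (hx : ∀ x : ℝ, SL (F x) η) (t : ℂ) {η' : ℝ} (hη' : η < η') : SL (F t) η' := by
  rcases le_total 0 t.im with h | h
  · exact strip hF hper hgr hη hx h hη'
  · have h1 := strip (F := fun s => F (-s)) (hF.comp differentiable_neg) ?_ ?_ hη ?_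
      (t := -t) (by simpa using h) hη'
    · simpa using h1
    · intro s η hη
      have h2 := hper (-(s + 1)) η hη
      rw [show -(s + 1) + 1 = -s by ring] at h2
      exact h2.symm
    · intro ε hε
      obtain ⟨K, hK⟩ := hgr ε hε
      exact ⟨K, fun s => by simpa using hK (-s)⟩
    · intro x
      have := hx (-x)
      simpa using this

end Alg

end Pool.Agent.H109F.LK
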