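import Mathlib
import Pool.Agent.H109F.LK.Spec
import Pool.Agent.H109F.LK.Lom

/-!
# Entire families of compact operators with a quasi-periodic spectrum
-/

set_option autoImplicit false

open Filter Topology Metric Set

namespace Pool.Agent.H109F.LK

variable {X : Type} [NormedAddCommGroup X] [NormedSpace ℂ X]

/-- `μ` is an eigenvalue of `C` -/
def EV (C : X →L[ℂ] X) (μ : ℂ) : Prop := ∃ v : X, v ≠ 0 ∧ C v = μ • v

theorem pow_apply_eigen {C : X →L[ℂ] X} {μ : ℂ} {v : X} (h : C v = μ • v) (n : ℕ) :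
    (C ^ n) v = μ ^ n • v := by
  induction n with
  | zero => simp
  | succ n ih =>
    rw [pow_succ]
    show (C ^ n) (C v) = _
    rw [h, map_smul, ih, smul_smul, pow_succ, mul_comm]

theorem EV.lt {C : X →L[ℂ] X} {μ : ℂ} (h : EV C μ) {η : ℝ} (hη : 0 ≤ η) (hs : SL C η) : ‖μ‖ < η := by
  obtain ⟨v, hv, h⟩ := h
  obtain ⟨n, hn, hs⟩ := hs
  have hv' : 0 < ‖v‖ := norm_pos_iff.2 hv
  have h1 : ‖μ‖ ^ n * ‖v‖ ≤ ‖C ^ n‖ * ‖v‖ := by
    have h2 := (C ^ n).le_opNorm v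
    rwa [pow_apply_eigen h, norm_smul, norm_pow] at h2
  have h2 : ‖μ‖ ^ n ≤ ‖C ^ n‖ := le_of_mul_le_mul_right h1 hv'
  exact lt_of_pow_lt_pow_left₀ n hη (h2.trans_lt hs)

/-- functionals -/
theorem func_lt {C : X →L[ℂ] X} {μ : ℂ} {ξ : X →L[ℂ] ℂ} (hξ : ξ ≠ 0) (h : ξ ∘L C = μ • ξ) {η : ℝ}
    (hη : 0 ≤ η) (hs : SL C η) : ‖μ‖ < η := by
  obtain ⟨n, hn, hs⟩ := hs
  have hv' : 0 < ‖ξ‖ := norm_pos_iff.2 hξ
  have hpow : ∀ n : ℕ, ξ ∘L (C ^ n) = μ ^ n • ξ := by
    intro n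
    induction n with
    | zero => ext x; simp
    | succ n ih =>
      rw [pow_succ, ContinuousLinearMap.mul_def, ← ContinuousLinearMap.comp_assoc, ih,
        ContinuousLinearMap.smul_comp, h, smul_smul, pow_succ]
  have h1 : ‖μ‖ ^ n * ‖ξ‖ ≤ ‖C ^ n‖ * ‖ξ‖ := by
    have h2 := ContinuousLinearMap.opNorm_comp_le ξ (C ^ n)
    rw [hpow, norm_smul, norm_pow] at h2
    linarith
  have h2 : ‖μ‖ ^ n ≤ ‖C ^ n‖ := le_of_mul_le_mul_right h1 hv'
  exact lt_of_pow_lt_pow_left₀ n hη (h2.trans_lt hs)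

variable [CompleteSpace X]

theorem SL_of_spectrum [Nontrivial X] {a : X →L[ℂ] X} {η : ℝ} (hη : 0 < η)
    (h : ∀ μ ∈ spectrum ℂ a, ‖μ‖ < η) : SL a η := by
  have hr : spectralRadius ℂ a < (Real.toNNReal η : NNReal) := by
    refine spectrum.spectralRadius_lt_of_forall_lt a fun z hz => ?_
    rw [← NNReal.coe_lt_coe, Real.coe_toNNReal _ hη.le]
    exact h z hz
  have hlim := spectrum.pow_norm_pow_one_div_tendsto_nhds_spectralRadius a
  have hr' : spectralRadius ℂ a < ENNReal.ofReal η := hr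
  obtain ⟨n, hn1, hn2⟩ := ((hlim.eventually (gt_mem_nhds hr')).and (eventually_gt_atTop 0)).exists
  refine ⟨n, hn2, ?_⟩
  have h3 : ‖a ^ n‖ ^ (1 / n : ℝ) < η := (ENNReal.ofReal_lt_ofReal_iff hη).1 hn1
  have h5 := pow_lt_pow_left₀ h3 (by positivity) (by omega : n ≠ 0)
  rwa [← Real.rpow_natCast (‖a ^ n‖ ^ (1 / n : ℝ)) n, ← Real.rpow_mul (norm_nonneg _),
    one_div_mul_cancel (by positivity : (n : ℝ) ≠ 0), Real.rpow_one] at h5

theorem EV_of_spectrum {C : X →L[ℂ] X} (hC : IsCompactOperator C) {μ : ℂ} (hμ : μ ≠ 0)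
    (h : μ ∈ spectrum ℂ C) : EV C μ := by
  obtain ⟨v, hv⟩ := ((IsCompactOperator.hasEigenvalue_iff_mem_spectrum hC hμ).2 h).exists_hasEigenvector
  exact ⟨v, hv.2, by simpa using hv.apply_eq_smul⟩

theorem SL_of_EV [Nontrivial X] {C : X →L[ℂ] X} (hC : IsCompactOperator C) {η : ℝ} (hη : 0 < η)
    (h : ∀ μ : ℂ, μ ≠ 0 → EV C μ → ‖μ‖ < η) : SL C η := by
  refine SL_of_spectrum hη fun μ hμ => ?_
  by_cases h0 : μ = 0
  · rw [h0, norm_zero]; exact hη
  · exact h μ h0 (EV_of_spectrum hC h0 hμ)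

/-- two numbers in a disc -/
theorem add_lt {ρ : ℝ} {μ ν : ℂ} (hμ : ‖μ‖ = ρ) (hν : ‖ν‖ ≤ ρ) (hne : ν ≠ μ) :
    ‖ν + μ‖ < 2 * ρ := by
  have h1 : ‖ν + μ‖ ≤ ‖ν‖ + ‖μ‖ := norm_add_le _ _
  rcases lt_or_eq_of_le hν with h | h
  · linarith
  · refine lt_of_le_of_ne (by linarith) fun h2 => hne ?_
    have h3 : ‖ν + μ‖ = ‖ν‖ + ‖μ‖ := by rw [h2, h, hμ]; ring
    have h4 : SameRay ℝ ν μ := sameRay_iff_norm_add.2 h3
    exact h4.eq_of_norm_eq (by rw [h, hμ])

/-- the peripheral spectrum is constant -/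
theorem periph [Nontrivial X] {F : ℂ → X →L[ℂ] X} (hF : Differentiable ℂ F)
    (hc : ∀ t, IsCompactOperator (F t)) {ρ : ℝ} (hρ : 0 < ρ) (hSL : ∀ t (η : ℝ), ρ < η → SL (F t) η)
    {t₀ μ : ℂ} (hμ : ‖μ‖ = ρ) (hev : EV (F t₀) μ) (t : ℂ) : EV (F t) μ := by
  have hμ0 : μ ≠ 0 := by
    rw [← norm_pos_iff, hμ]; exact hρ
  let G : ℂ → X →L[ℂ] X := fun t => F t + μ • 1
  have hG : Differentiable ℂ G := hF.add (differentiable_const _)
  have hspec : ∀ t, ∀ ν ∈ spectrum ℂ (G t), ν - μ ∈ spectrum ℂ (F t) := by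
    intro t ν hν
    have h1 := spectrum.add_singleton_eq (R := ℂ) (F t) μ
    rw [Algebra.algebraMap_eq_smul_one] at h1
    rw [show G t = F t + μ • 1 from rfl, ← h1] at hν
    obtain ⟨x, hx, y, hy, hxy⟩ := Set.mem_add.1 hν
    rw [Set.mem_singleton_iff.1 hy] at hxy
    rwa [← hxy, add_sub_cancel_right]
  have hle : ∀ t ν, ν ≠ 0 → EV (F t) ν → ‖ν‖ ≤ ρ := by
    intro t ν _ hν
    refine le_of_forall_gt fun η hη => ?_
    exact hν.lt (hρ.trans hη).le (hSL t η hη)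
  -- the two cases
  have hno : ∀ t, ¬ EV (F t) μ → SL (G t) (2 * ρ) := by
    intro t ht
    refine SL_of_spectrum (by positivity) fun ν hν => ?_
    have h1 := hspec t ν hν
    have h2 : ν = (ν - μ) + μ := by ring
    rw [h2]
    by_cases h0 : ν - μ = 0
    · rw [h0, zero_add, hμ]; linarith
    · have h3 := EV_of_spectrum (hc t) h0 h1
      exact add_lt hμ (hle t _ h0 h3) fun h4 => ht (h4 ▸ h3)
  have hyes : ∀ t, EV (F t) μ → ¬ SL (G t) (2 * ρ) := by
    rintro t ⟨v, hv, h⟩ hs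
    have h1 : EV (G t) (2 * μ) := ⟨v, hv, by
      show F t v + μ • v = (2 * μ) • v
      rw [h, ← add_smul]; congr 1; ring⟩
    have h2 := h1.lt (by positivity) hs
    rw [norm_mul, hμ, Complex.norm_ofNat] at h2
    exact lt_irrefl _ h2
  have hall : ∀ t (η : ℝ), 2 * ρ < η → SL (G t) η := by
    intro t η hη
    refine SL_of_spectrum (by linarith) fun ν hν => ?_
    have h1 := hspec t ν hν
    have h2 : ν = (ν - μ) + μ := by ring
    rw [h2]
    refine (norm_add_le _ _).trans_lt ?_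
    rw [hμ]
    by_cases h0 : ν - μ = 0
    · rw [h0, norm_zero]; linarith
    · have := hle t _ h0 (EV_of_spectrum (hc t) h0 h1)
      linarith
  -- the set of the parameters is closed
  let Γ : Set ℂ := {t | EV (F t) μ}
  have hΓ : IsClosed Γ := by
    rw [← isOpen_compl_iff, isOpen_iff_mem_nhds]
    intro t ht
    obtain ⟨n, hn, h1⟩ := hno t ht
    have hcont : Continuous fun t => ‖G t ^ n‖ := (hG.continuous.pow n).norm
    filter_upwards [hcont.continuousAt.eventually (gt_mem_nhds h1)] with s hs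
    intro hs'
    exact hyes s hs' ⟨n, hn, hs⟩
  by_contra hcon
  have hcon' : t ∉ Γ := hcon
  -- the nearest point
  obtain ⟨t₀, ht₀, hd⟩ := hΓ.exists_infDist_eq_dist ⟨t₀, hev⟩ t
  obtain ⟨d, hd'⟩ : ∃ d, d = dist t t₀ := ⟨_, rfl⟩
  have hd0 : 0 < d := by
    rw [hd', dist_pos]
    rintro rfl
    exact hcon' ht₀
  have hball : ∀ s, dist t s < d → ¬ EV (F s) μ := by
    intro s hs hs'
    have h1 : infDist t Γ ≤ dist t s := infDist_le_dist_of_mem hs'
    rw [hd, ← hd'] at h1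
    linarith
  obtain ⟨e, he⟩ : ∃ e : ℂ, e = (t - t₀) / d := ⟨_, rfl⟩
  have hdC : (d : ℂ) ≠ 0 := Complex.ofReal_ne_zero.2 hd0.ne'
  have hen : ‖e‖ = 1 := by
    rw [he, norm_div, Complex.norm_real, Real.norm_eq_abs, abs_of_pos hd0, ← dist_eq_norm, ← hd',
      div_self hd0.ne']
  have he0 : e ≠ 0 := by
    rw [← norm_pos_iff, hen]; exact one_pos
  have hte : t - t₀ = d * e := by rw [he]; field_simp
  let τ : ℂ → ℂ := fun s => (s - t₀) / e
  have hτn : ∀ s, ‖τ s‖ = dist s t₀ := by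
    intro s
    show ‖(s - t₀) / e‖ = _
    rw [norm_div, hen, div_one, dist_eq_norm]
  have hτd : ∀ s, ‖τ s - d‖ = dist t s := by
    intro s
    have h1 : τ s - d = (s - t) / e := by
      show (s - t₀) / e - d = _
      rw [eq_div_iff he0, sub_mul, div_mul_cancel₀ _ he0, ← hte]
      ring
    rw [h1, norm_div, hen, div_one, dist_comm, dist_eq_norm]
  let h : ℂ → ℝ := fun s => (τ s + τ s ^ 2 / d).re
  have hhc : Continuous h := by
    show Continuous fun s => ((s - t₀) / e + ((s - t₀) / e) ^ 2 / d).re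
    exact Complex.continuous_re.comp (by fun_prop)
  have hhe : ∀ s, h s = (τ s).re + ((τ s).re ^ 2 - (τ s).im ^ 2) / d := by
    intro s
    show (τ s + τ s ^ 2 / d).re = _
    rw [Complex.add_re, Complex.div_ofReal_re, pow_two (τ s), Complex.mul_re]
    ring
  have hnsq : ∀ z : ℂ, ‖z‖ ^ 2 = z.re ^ 2 + z.im ^ 2 := by
    intro z
    rw [← Complex.normSq_eq_norm_sq, Complex.normSq_apply]
    ring
  have hgeo : ∀ s, dist s t₀ = d / 4 → 0 ≤ h s → dist t s < d := by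
    intro s hs hh
    rw [hhe] at hh
    have h1 : (τ s).re ^ 2 + (τ s).im ^ 2 = (d / 4) ^ 2 := by
      rw [← hnsq, hτn, hs]
    rw [← hτd]
    refine lt_of_pow_lt_pow_left₀ 2 hd0.le ?_
    rw [hnsq]
    simp only [Complex.sub_re, Complex.ofReal_re, Complex.sub_im, Complex.ofReal_im, sub_zero]
    generalize (τ s).re = ξ at *
    generalize (τ s).im = ζ at *
    have h2 : 0 ≤ ξ * d + (ξ ^ 2 - ζ ^ 2) := by
      have := mul_nonneg hh hd0.le
      rwa [add_mul, div_mul_cancel₀ _ hd0.ne'] at this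
    have hξ1 : ξ ≤ d / 4 := by nlinarith [sq_nonneg ζ]
    have hξ2 : -(d / 4) ≤ ξ := by nlinarith [sq_nonneg ζ]
    have hξ0 : 0 < ξ := by
      by_contra hcon
      push Not at hcon
      have h3 : ξ * (d + ξ) ≤ 0 := mul_nonpos_of_nonpos_of_nonneg hcon (by linarith)
      have h4 : ζ ^ 2 ≤ 0 := by nlinarith
      have h5 : ζ = 0 := by nlinarith [sq_nonneg ζ]
      subst h5
      have h6 : 0 ≤ ξ * (d + ξ) := by nlinarith
      have h7 : ξ * (d + ξ) = 0 := le_antisymm h3 h6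
      rcases mul_eq_zero.1 h7 with h8 | h8
      · subst h8; nlinarith
      · nlinarith
    nlinarith
  -- the two arcs
  have hZ : IsCompact ({s | dist s t₀ = d / 4} ∩ {s | 0 ≤ h s}) := by
    have h1 : IsCompact {s : ℂ | dist s t₀ = d / 4} := isCompact_sphere t₀ (d / 4)
    exact h1.inter_right (isClosed_le continuous_const hhc)
  obtain ⟨η₀, hη0, hη1, hη2⟩ := SL_compact' hG.continuous hZ (show (0 : ℝ) < 2 * ρ by positivity)
    (fun s hs => hno s (hball s (hgeo s hs.1 hs.2)))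
  have hhb : ∀ s, dist s t₀ = d / 4 → h s ≤ d := by
    intro s hs
    rw [hhe]
    have h1 : (τ s).re ^ 2 + (τ s).im ^ 2 = (d / 4) ^ 2 := by
      rw [← hnsq, hτn, hs]
    have h2 : (τ s).re ≤ d / 4 := by nlinarith [sq_nonneg (τ s).im]
    have h3 : ((τ s).re ^ 2 - (τ s).im ^ 2) / d ≤ d / 4 := by
      rw [div_le_iff₀ hd0]
      nlinarith [sq_nonneg (τ s).im]
    linarith
  obtain ⟨κ, hκ0, hκ⟩ : ∃ κ : ℝ, 0 < κ ∧ Real.exp (κ * d) * η₀ ≤ 2 * ρ := by
    refine ⟨Real.log (2 * ρ / η₀) / d, ?_, ?_⟩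
    · have : 0 < Real.log (2 * ρ / η₀) := Real.log_pos ((one_lt_div hη0).2 hη1)
      positivity
    · rw [div_mul_cancel₀ _ hd0.ne', Real.exp_log (by positivity), div_mul_cancel₀ _ hη0.ne']
  let W : ℂ → ℂ := fun s => Complex.exp (κ * (τ s + τ s ^ 2 / d))
  have hW0 : ∀ s, W s ≠ 0 := fun s => Complex.exp_ne_zero _
  have hWn : ∀ s, ‖W s‖ = Real.exp (κ * h s) := by
    intro s
    show ‖Complex.exp _‖ = _
    rw [Complex.norm_exp, Complex.re_ofReal_mul]
  have hWd : Differentiable ℂ W := by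
    show Differentiable ℂ fun s => Complex.exp (κ * ((s - t₀) / e + ((s - t₀) / e) ^ 2 / d))
    exact Complex.differentiable_exp.comp (by fun_prop)
  have hWG : Differentiable ℂ fun s => W s • G s := hWd.fun_smul hG
  have hfin := SL_max hWG (U := ball t₀ (d / 4)) isBounded_ball (show (0 : ℝ) < 2 * ρ by positivity)
    (by
      intro s hs
      rw [frontier_ball _ (by positivity), mem_sphere] at hs
      rcases le_or_gt 0 (h s) with hh | hh
      · refine ((hη2 s ⟨hs, hh⟩).smul (hW0 s)).mono (by positivity) ?_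
        rw [hWn]
        refine le_trans ?_ hκ
        gcongr
        exact hhb s hs
      · have hlt : ‖W s‖ < 1 := by
          rw [hWn, Real.exp_lt_one_iff]
          exact mul_neg_of_pos_of_neg hκ0 hh
        have hpos : 0 < ‖W s‖ := norm_pos_iff.2 (hW0 s)
        have h1 : 2 * ρ < 2 * ρ / ‖W s‖ := by
          rw [lt_div_iff₀ hpos]
          nlinarith
        have h2 := (hall s _ h1).smul (hW0 s)
        rwa [mul_div_cancel₀ _ hpos.ne'] at h2)
    (t := t₀) (subset_closure (mem_ball_self (by positivity)))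
  have hW1 : W t₀ = 1 := by
    show Complex.exp (κ * ((t₀ - t₀) / e + ((t₀ - t₀) / e) ^ 2 / d)) = 1
    simp
  rw [hW1, one_smul] at hfin
  exact hyes t₀ ht₀ hfin

omit [CompleteSpace X] in
/-- a compact operator does not have infinitely many eigenvalues of the same modulus -/
theorem no_infinite {C : X →L[ℂ] X} (hC : IsCompactOperator C) {ρ : ℝ} (hρ : 0 < ρ) {m : ℕ → ℂ}
    (hinj : Function.Injective m) (hm : ∀ n, ‖m n‖ = ρ) (hev : ∀ n, EV C (m n)) : False := by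
  classical
  choose v hv0 hv using hev
  have hli : LinearIndependent ℂ v := by
    refine Module.End.eigenvectors_linearIndependent' (C : X →ₗ[ℂ] X) m hinj v fun n => ?_
    exact ⟨Module.End.mem_eigenspace_iff.2 (hv n), hv0 n⟩
  let E : ℕ → Submodule ℂ X := fun n => Submodule.span ℂ (v '' {i | i < n})
  have hEfin : ∀ n, FiniteDimensional ℂ (E n) := fun n =>
    FiniteDimensional.span_of_finite ℂ ((Set.finite_lt_nat n).image v)
  have hmono : ∀ {a b}, a ≤ b → E a ≤ E b := by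
    intro a b hab
    exact Submodule.span_mono (Set.image_mono fun i (hi : i < a) => lt_of_lt_of_le hi hab)
  have hvE : ∀ n, v n ∈ E (n + 1) := fun n => Submodule.subset_span ⟨n, Nat.lt_succ_self n, rfl⟩
  have hvnE : ∀ n, v n ∉ E n := by
    intro n hn
    exact hli.notMem_span_image (s := {i | i < n}) (x := n) (by simp) hn
  have hCE : ∀ n, ∀ x ∈ E n, C x ∈ E n := by
    intro n
    have hle : E n ≤ (E n).comap (C : X →ₗ[ℂ] X) := by
      refine Submodule.span_le.2 ?_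
      rintro _ ⟨i, hi, rfl⟩
      show C (v i) ∈ E n
      rw [hv]
      exact (E n).smul_mem _ (Submodule.subset_span ⟨i, hi, rfl⟩)
    exact fun x hx => hle hx
  have hCE' : ∀ n, ∀ x ∈ E (n + 1), C x - m n • x ∈ E n := by
    intro n
    have hle : E (n + 1) ≤ (E n).comap ((C - m n • 1 : X →L[ℂ] X) : X →ₗ[ℂ] X) := by
      refine Submodule.span_le.2 ?_
      rintro _ ⟨i, hi, rfl⟩
      show C (v i) - m n • v i ∈ E n
      rw [hv, ← sub_smul]
      rcases Nat.lt_succ_iff_lt_or_eq.1 hi with h | h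
      · exact (E n).smul_mem _ (Submodule.subset_span ⟨i, h, rfl⟩)
      · rw [h, sub_self, zero_smul]; exact (E n).zero_mem
    exact fun x hx => hle hx
  -- Riesz lemma
  have hR : ∀ n, ∃ x ∈ E (n + 1), ‖x‖ ≤ 3 ∧ ∀ y ∈ E n, 1 ≤ ‖x - y‖ := by
    intro n
    have h1 : IsClosed (((E n).comap (E (n + 1)).subtype : Submodule ℂ (E (n + 1))) : Set (E (n + 1))) :=
      (E n).closed_of_finiteDimensional.preimage continuous_subtype_val
    have h2 : ∃ x : E (n + 1), x ∉ (E n).comap (E (n + 1)).subtype :=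
      ⟨⟨v n, hvE n⟩, hvnE n⟩
    obtain ⟨⟨x, hx⟩, hxn, hxy⟩ := riesz_lemma_of_norm_lt (c := (2 : ℂ)) (R := 3) (by simp) (by norm_num) h1 h2
    refine ⟨x, hx, hxn, fun y hy => ?_⟩
    exact hxy ⟨y, hmono (Nat.le_succ n) hy⟩ hy
  choose x hxE hx3 hxd using hR
  have hsep : ∀ a b, a < b → ρ ≤ ‖C (x b) - C (x a)‖ := by
    intro a b hab
    have hmb : m b ≠ 0 := by
      rw [← norm_pos_iff, hm]; exact hρ
    have h1 : C (x b) - C (x a) = m b • (x b - (m b)⁻¹ • (C (x a) - (C (x b) - m b • x b))) := by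
      rw [smul_sub, smul_inv_smul₀ hmb]
      abel
    rw [h1, norm_smul, hm]
    have h2 : (m b)⁻¹ • (C (x a) - (C (x b) - m b • x b)) ∈ E b := by
      refine (E b).smul_mem _ ((E b).sub_mem ?_ (hCE' b _ (hxE b)))
      exact hmono (show a + 1 ≤ b from hab) (hCE (a + 1) _ (hxE a))
    have h3 := hxd b _ h2
    nlinarith
  have hC' : IsCompactOperator (C : X →ₗ[ℂ] X) := hC
  obtain ⟨L, hL, hL'⟩ := hC'.image_closedBall_subset_compact (f := (C : X →ₗ[ℂ] X)) 3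
  obtain ⟨w, -, φ, hφ, hw⟩ := hL.tendsto_subseq (x := fun n => C (x n))
    (fun n => hL' ⟨x n, by simpa using hx3 n, rfl⟩)
  have hcau := hw.cauchySeq
  rw [Metric.cauchySeq_iff'] at hcau
  obtain ⟨N, hN⟩ := hcau ρ hρ
  have h1 := hN (N + 1) (Nat.le_succ N)
  rw [dist_eq_norm] at h1
  exact absurd h1 (not_lt.2 (hsep _ _ (hφ (Nat.lt_succ_self N))))

/-- **families with a shift**: `S F t = λ F (t + 1) S` with `λ` not a root of unity -/
theorem shift_family [Nontrivial X] {F : ℂ → X →L[ℂ] X} (hF : Differentiable ℂ F)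
    (hc : ∀ t, IsCompactOperator (F t))
    (hgr : ∀ ε : ℝ, 0 < ε → ∃ K : ℝ, ∀ t, ‖F t‖ ≤ K * Real.exp (ε * ‖t‖)) {S : X →L[ℂ] X}
    (hinj : ∀ x, S x = 0 → x = 0) (hden : ∀ ξ : X →L[ℂ] ℂ, ξ ∘L S = 0 → ξ = 0) {l : ℂ}
    (hl : ‖l‖ = 1) (hS : ∀ t, S * F t = l • (F (t + 1) * S)) :
    (∀ (t : ℂ) (η : ℝ), 0 < η → (SL (F (t + 1)) η ↔ SL (F t) η)) ∧
      ((∀ n : ℕ, 1 ≤ n → l ^ n ≠ 1) → ∀ t μ : ℂ, μ ≠ 0 → ¬ EV (F t) μ) := by
  have hl0 : l ≠ 0 := by
    rw [← norm_pos_iff, hl]; exact one_pos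
  have hmove : ∀ t μ, EV (F t) μ → EV (F (t + 1)) (l⁻¹ * μ) := by
    rintro t μ ⟨v, hv, h⟩
    refine ⟨S v, fun h0 => hv (hinj v h0), ?_⟩
    have h1 : S (F t v) = l • F (t + 1) (S v) := congrArg (fun Z : X →L[ℂ] X => Z v) (hS t)
    rw [h, map_smul] at h1
    rw [mul_smul, h1, inv_smul_smul₀ hl0]
  have hper : ∀ (t : ℂ) (η : ℝ), 0 < η → (SL (F (t + 1)) η ↔ SL (F t) η) := by
    intro t η hη
    constructor
    · intro h
      refine SL_of_EV (hc t) hη fun μ _ hμ => ?_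
      have h1 := (hmove t μ hμ).lt hη.le h
      rwa [norm_mul, norm_inv, hl, inv_one, one_mul] at h1
    · intro h
      refine SL_of_EV (hc (t + 1)) hη fun μ hμ0 hμ => ?_
      obtain ⟨v, hv, hv2⟩ := hμ
      have hcomp : IsCompactOperator (μ⁻¹ • F (t + 1) : X →L[ℂ] X) := (hc (t + 1)).smul μ⁻¹
      obtain ⟨ξ, hξ0, hξ⟩ := fixed_functional hcomp hv (by
        show μ⁻¹ • F (t + 1) v = v
        rw [hv2, inv_smul_smul₀ hμ0])
      have hξ' : ξ ∘L F (t + 1) = μ • ξ := by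
        rw [ContinuousLinearMap.comp_smul] at hξ
        rw [← hξ, smul_inv_smul₀ hμ0, hξ]
      have h1 : (ξ ∘L S) ∘L F t = (l * μ) • (ξ ∘L S) := by
        ext x
        have h2 : S (F t x) = l • F (t + 1) (S x) := congrArg (fun Z : X →L[ℂ] X => Z x) (hS t)
        have h3 : ξ (F (t + 1) (S x)) = μ • ξ (S x) :=
          congrArg (fun Z : X →L[ℂ] ℂ => Z (S x)) hξ'
        show ξ (S (F t x)) = (l * μ) • ξ (S x)
        rw [h2, map_smul, h3, smul_smul]
      have h2 := func_lt (fun h0 => hξ0 (hden ξ h0)) h1 hη.le h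
      rwa [norm_mul, hl, one_mul] at h2
  refine ⟨hper, fun hroot t₁ μ₁ hμ₁ hev₁ => ?_⟩
  -- periods
  have hperN : ∀ (n : ℕ) (t : ℂ) (η : ℝ), 0 < η → (SL (F (t + n)) η ↔ SL (F t) η) := by
    intro n
    induction n with
    | zero => intro t η _; simp
    | succ n ih =>
      intro t η hη
      rw [← ih t η hη, ← hper (t + n) η hη]
      push_cast
      rw [add_assoc]
  have hperZ : ∀ (n : ℤ) (t : ℂ) (η : ℝ), 0 < η → (SL (F (t + n)) η ↔ SL (F t) η) := by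
    intro n t η hη
    obtain ⟨m, rfl | rfl⟩ := n.eq_nat_or_neg
    · exact_mod_cast hperN m t η hη
    · rw [← hperN m (t + ((-(m : ℤ) : ℤ) : ℂ)) η hη]
      push_cast
      rw [neg_add_cancel_right]
  have hreal : ∀ η : ℝ, 0 < η → (∀ x ∈ Icc (0 : ℝ) 1, SL (F (x : ℂ)) η) → ∀ x : ℝ, SL (F (x : ℂ)) η := by
    intro η hη h x
    rw [← hperZ (-⌊x⌋) x η hη]
    have h3 : ((x : ℂ) + ((-⌊x⌋ : ℤ) : ℂ)) = ((Int.fract x : ℝ) : ℂ) := by
      rw [← Int.self_sub_floor]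
      push_cast
      ring
    rw [h3]
    exact h _ ⟨Int.fract_nonneg _, (Int.fract_lt_one _).le⟩
  have hKc : IsCompact ((fun x : ℝ => (x : ℂ)) '' Icc (0 : ℝ) 1) :=
    isCompact_Icc.image Complex.continuous_ofReal
  -- the optimal radius
  let R : Set ℝ := {η | 0 < η ∧ ∀ x ∈ Icc (0 : ℝ) 1, SL (F (x : ℂ)) η}
  have hRne : R.Nonempty := by
    obtain ⟨K, hK⟩ := hgr 1 one_pos
    have hK0 : 0 ≤ K := by
      have h1 := hK 0
      rw [norm_zero, mul_zero, Real.exp_zero, mul_one] at h1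
      exact (norm_nonneg _).trans h1
    refine ⟨(K + 1) * Real.exp 1, by positivity, fun x hx => SL_of_norm ?_⟩
    calc ‖F (x : ℂ)‖ ≤ K * Real.exp (1 * ‖(x : ℂ)‖) := hK _
      _ ≤ K * Real.exp 1 := by
          gcongr
          rw [one_mul, Complex.norm_real, Real.norm_eq_abs, abs_of_nonneg hx.1]
          exact hx.2
      _ < (K + 1) * Real.exp 1 := mul_lt_mul_of_pos_right (by linarith) (Real.exp_pos _)
  have hRlow : ∀ η ∈ R, ∀ t μ, EV (F t) μ → ‖μ‖ ≤ η := by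
    intro η hη t μ hμ
    refine le_of_forall_gt fun η' hη' => ?_
    exact hμ.lt (hη.1.trans hη').le (strip' hF hper hgr hη.1 (hreal η hη.1 hη.2) t hη')
  obtain ⟨ρ, hρ⟩ : ∃ ρ, ρ = sInf R := ⟨_, rfl⟩
  have hμ1 : 0 < ‖μ₁‖ := norm_pos_iff.2 hμ₁
  have hρ1 : ‖μ₁‖ ≤ ρ := by
    rw [hρ]
    exact le_csInf hRne fun η hη => hRlow η hη t₁ μ₁ hev₁
  have hρ0 : 0 < ρ := hμ1.trans_le hρ1
  have hRup : ∀ η, ρ < η → η ∈ R := by
    intro η hη
    rw [hρ] at hη
    obtain ⟨η', hη', hlt⟩ := exists_lt_of_csInf_lt hRne hη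
    exact ⟨hη'.1.trans hlt, fun x hx => (hη'.2 x hx).mono hη'.1.le hlt.le⟩
  have hSLall : ∀ t (η : ℝ), ρ < η → SL (F t) η := by
    intro t η hη
    obtain ⟨η', h1, h2⟩ := exists_between hη
    have h3 := hRup η' h1
    exact strip' hF hper hgr h3.1 (hreal η' h3.1 h3.2) t h2
  -- the radius is attained
  obtain ⟨x₀, hx₀, hns⟩ : ∃ x₀ ∈ Icc (0 : ℝ) 1, ¬ SL (F (x₀ : ℂ)) ρ := by
    by_contra hcon
    push Not at hcon
    obtain ⟨η₀, h1, h2, h3⟩ := SL_compact' hF.continuous hKc hρ0 (by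
      rintro _ ⟨x, hx, rfl⟩
      exact hcon x hx)
    have h4 : ρ ≤ η₀ := by
      rw [hρ]
      refine csInf_le ⟨0, fun η hη => hη.1.le⟩ ⟨h1, fun x hx => h3 _ ⟨x, hx, rfl⟩⟩
    linarith
  obtain ⟨μ, hμ0, hμev, hμ⟩ : ∃ μ : ℂ, μ ≠ 0 ∧ EV (F (x₀ : ℂ)) μ ∧ ρ ≤ ‖μ‖ := by
    by_contra hcon
    push Not at hcon
    exact hns (SL_of_EV (hc _) hρ0 hcon)
  have hμρ : ‖μ‖ = ρ := by
    refine le_antisymm (le_of_forall_gt fun η hη => ?_) hμ
    exact hμev.lt (hρ0.trans hη).le (hSLall _ η hη)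
  have hall := periph hF hc hρ0 hSLall hμρ hμev
  -- infinitely many eigenvalues
  have hmany : ∀ (n : ℕ) (t ν : ℂ), EV (F t) ν → EV (F (t + n)) (l⁻¹ ^ n * ν) := by
    intro n
    induction n with
    | zero => intro t ν h; simpa using h
    | succ n ih =>
      intro t ν h
      have h1 := hmove _ _ (ih t ν h)
      rw [← mul_assoc, ← pow_succ'] at h1
      push_cast
      rwa [← add_assoc]
  refine no_infinite (hc 0) hρ0 (m := fun n => l⁻¹ ^ n * μ) ?_ ?_ ?_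
  · intro a b hab
    have h1 : l⁻¹ ^ a = l⁻¹ ^ b := mul_right_cancel₀ hμ0 hab
    have hli : l⁻¹ ≠ 0 := inv_ne_zero hl0
    have key : ∀ a b : ℕ, a < b → l⁻¹ ^ a ≠ l⁻¹ ^ b := by
      intro a b hlt h2
      obtain ⟨c, rfl⟩ : ∃ c, b = a + c := ⟨b - a, by omega⟩
      rw [pow_add] at h2
      have h3 : l⁻¹ ^ c = 1 := by
        have := mul_left_cancel₀ (pow_ne_zero a hli) ((mul_one (l⁻¹ ^ a)).trans h2)
        exact this.symm
      rw [inv_pow, inv_eq_one] at h3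
      exact hroot c (by omega) h3
    rcases lt_trichotomy a b with h | h | h
    · exact absurd h1 (key a b h)
    · exact h
    · exact absurd h1.symm (key b a h)
  · intro n
    rw [norm_mul, norm_pow, norm_inv, hl, inv_one, one_pow, one_mul, hμρ]
  · intro n
    have h1 := hmany n (-(n : ℂ)) μ (hall _)
    rwa [neg_add_cancel] at h1

end Pool.Agent.H109F.LK
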