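import Mathlib
import Pool.Agent.H109F.LK.Bimod
import Pool.Agent.H109F.LK.Periph
import Pool.Agent.H109F.LK.Bin

/-!
# Tangents of modulus one
-/

set_option autoImplicit false

open Polynomial Finset Filter Topology

namespace Pool.Agent.H109F.LK

open Pool.Agent.H875.QN

section PS

variable {X : Type} [NormedAddCommGroup X] [NormedSpace ℂ X] [CompleteSpace X]

/-- power series in a quasinilpotent operator -/
noncomputable def ps (S : X →L[ℂ] X) (c : ℕ → ℂ) : X →L[ℂ] X := ∑' n, c n • S ^ n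

theorem ps_summable {S : X →L[ℂ] X} (hS : spectrum ℂ S ⊆ {0}) {c : ℕ → ℂ} {C B : ℝ} (hC : 0 ≤ C)
    (hB : 0 < B) (hc : ∀ n, ‖c n‖ ≤ C * B ^ n) : Summable fun n => c n • S ^ n := by
  obtain ⟨M, hM, h⟩ := pow_bound hS (ε := 1 / (2 * B)) (by positivity)
  refine Summable.of_norm_bounded (g := fun n : ℕ => C * M * (1 / 2 : ℝ) ^ n) ?_ fun n => ?_
  · exact (summable_geometric_of_lt_one (by norm_num) (by norm_num)).mul_left _
  · rw [norm_smul]
    calc ‖c n‖ * ‖S ^ n‖ ≤ (C * B ^ n) * (M * (1 / (2 * B)) ^ n) := by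
          gcongr
          · exact hc n
          · exact h n
      _ = C * M * (B * (1 / (2 * B))) ^ n := by rw [mul_pow B]; ring
      _ = _ := by
          congr 2
          field_simp

theorem ps_commute {S : X →L[ℂ] X} (hS : spectrum ℂ S ⊆ {0}) {c : ℕ → ℂ} {C B : ℝ} (hC : 0 ≤ C)
    (hB : 0 < B) (hc : ∀ n, ‖c n‖ ≤ C * B ^ n) {Q : X →L[ℂ] X} (hQ : Q * S = S * Q) :
    Q * ps S c = ps S c * Q := by
  have h0 := ps_summable hS hC hB hc
  unfold ps
  rw [← h0.tsum_mul_left, ← h0.tsum_mul_right]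
  refine tsum_congr fun n => ?_
  have : Commute Q (S ^ n) := (show Commute Q S from hQ).pow_right n
  rw [mul_smul_comm, smul_mul_assoc, this.eq]

end PS

section Mat

variable {X : Type} [NormedAddCommGroup X] [NormedSpace ℂ X] {m : ℕ}

/-- diagonal operators on `X ^ (m + 1)` -/
noncomputable def dg (m : ℕ) (Q : X →L[ℂ] X) : (Fin (m + 1) → X) →L[ℂ] (Fin (m + 1) → X) :=
  ContinuousLinearMap.pi fun i => Q ∘L (ContinuousLinearMap.proj (R := ℂ) (φ := fun _ : Fin (m + 1) => X) i)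

@[simp] theorem dg_apply (Q : X →L[ℂ] X) (w : Fin (m + 1) → X) (i : Fin (m + 1)) :
    dg m Q w i = Q (w i) := rfl

theorem dg_mul (Q R : X →L[ℂ] X) : dg m Q * dg m R = dg m (Q * R) := by
  ext w i
  rfl

theorem dg_pow (Q : X →L[ℂ] X) (n : ℕ) : dg m Q ^ n = dg m (Q ^ n) := by
  induction n with
  | zero => rfl
  | succ n ih => rw [pow_succ, pow_succ, ih, dg_mul]

theorem dg_norm (Q : X →L[ℂ] X) : ‖dg m Q‖ ≤ ‖Q‖ := by
  refine ContinuousLinearMap.opNorm_le_bound _ (norm_nonneg _) fun w => ?_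
  refine (pi_norm_le_iff_of_nonneg (by positivity)).2 fun i => ?_
  exact (Q.le_opNorm _).trans (by gcongr; exact norm_le_pi_norm w i)

/-- coordinate embeddings -/
noncomputable def em (m : ℕ) (i : Fin (m + 1)) : X →L[ℂ] (Fin (m + 1) → X) :=
  ContinuousLinearMap.single ℂ (fun _ : Fin (m + 1) => X) i

theorem em_apply (i : Fin (m + 1)) (x : X) : em m i x = Pi.single i x := rfl

theorem sum_em (w : Fin (m + 1) → X) : ∑ i, em m i (w i) = w := by
  simp only [em_apply]
  exact Finset.univ_sum_single w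

/-- the companion matrix -/
noncomputable def cm (ψ : Fin (m + 1) → (X →L[ℂ] X)) : (Fin (m + 1) → X) →L[ℂ] (Fin (m + 1) → X) :=
  ContinuousLinearMap.pi fun i =>
    (Fin.cases 0 (fun j : Fin m =>
      ContinuousLinearMap.proj (R := ℂ) (φ := fun _ : Fin (m + 1) => X) j.castSucc) i :
      (Fin (m + 1) → X) →L[ℂ] X) +
    ψ i ∘L (ContinuousLinearMap.proj (R := ℂ) (φ := fun _ : Fin (m + 1) => X) (Fin.last m))

theorem cm_zero (ψ : Fin (m + 1) → (X →L[ℂ] X)) (w : Fin (m + 1) → X) :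
    cm ψ w 0 = ψ 0 (w (Fin.last m)) := by
  show (0 : (Fin (m + 1) → X) →L[ℂ] X) w + ψ 0 (w (Fin.last m)) = _
  simp

theorem cm_succ (ψ : Fin (m + 1) → (X →L[ℂ] X)) (w : Fin (m + 1) → X) (j : Fin m) :
    cm ψ w j.succ = w j.castSucc + ψ j.succ (w (Fin.last m)) := rfl

theorem dg_cm {ψ : Fin (m + 1) → (X →L[ℂ] X)} {Q : X →L[ℂ] X} (h : ∀ i, Q * ψ i = ψ i * Q) :
    dg m Q * cm ψ = cm ψ * dg m Q := by
  have h' : ∀ i x, Q (ψ i x) = ψ i (Q x) := fun i x => congrArg (fun Z : X →L[ℂ] X => Z x) (h i)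
  ext w i
  show Q (cm ψ w i) = cm ψ (dg m Q w) i
  refine Fin.cases ?_ (fun j => ?_) i
  · rw [cm_zero, cm_zero, h']
    rfl
  · rw [cm_succ, cm_succ, map_add, h']
    rfl

theorem cm_em_castSucc (ψ : Fin (m + 1) → (X →L[ℂ] X)) (j : Fin m) (x : X) :
    cm ψ (em m j.castSucc x) = em m j.succ x := by
  have hlast : em m j.castSucc x (Fin.last m) = 0 := by
    rw [em_apply, Pi.single_eq_of_ne]
    exact (Fin.castSucc_lt_last j).ne'
  funext i
  refine Fin.cases ?_ (fun i => ?_) i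
  · rw [cm_zero, hlast, map_zero, em_apply, Pi.single_eq_of_ne]
    exact (Fin.succ_ne_zero j).symm
  · rw [cm_succ, hlast, map_zero, add_zero, em_apply, em_apply]
    by_cases hij : i = j
    · subst hij; simp
    · rw [Pi.single_eq_of_ne, Pi.single_eq_of_ne]
      · exact fun h => hij (Fin.succ_injective _ h)
      · exact fun h => hij (Fin.castSucc_injective _ h)

theorem cm_em_last (ψ : Fin (m + 1) → (X →L[ℂ] X)) (x : X) :
    cm ψ (em m (Fin.last m) x) = ∑ i, em m i (ψ i x) := by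
  rw [sum_em (fun i => ψ i x)]
  have hlast : em m (Fin.last m) x (Fin.last m) = x := by
    rw [em_apply, Pi.single_eq_same]
  funext i
  refine Fin.cases ?_ (fun i => ?_) i
  · rw [cm_zero, hlast]
  · rw [cm_succ, hlast, em_apply, Pi.single_eq_of_ne, zero_add]
    exact (Fin.castSucc_lt_last i).ne

theorem cm_pow_em (ψ : Fin (m + 1) → (X →L[ℂ] X)) (x : X) :
    ∀ (n : ℕ) (hn : n < m + 1), (cm ψ ^ n) (em m 0 x) = em m ⟨n, hn⟩ x := by
  intro n
  induction n with
  | zero => intro _; rfl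
  | succ n ih =>
    intro hn
    rw [pow_succ']
    show cm ψ ((cm ψ ^ n) (em m 0 x)) = _
    rw [ih (by omega)]
    exact cm_em_castSucc ψ ⟨n, by omega⟩ x

/-- the companion matrix is a root of its polynomial -/
theorem cm_relation {ψ : Fin (m + 1) → (X →L[ℂ] X)} (h : ∀ i j, ψ i * ψ j = ψ j * ψ i) :
    cm ψ ^ (m + 1) = ∑ i : Fin (m + 1), dg m (ψ i) * cm ψ ^ (i : ℕ) := by
  obtain ⟨T, hT⟩ : ∃ T : (Fin (m + 1) → X) →L[ℂ] (Fin (m + 1) → X),
    T = cm ψ ^ (m + 1) - ∑ i : Fin (m + 1), dg m (ψ i) * cm ψ ^ (i : ℕ) := ⟨_, rfl⟩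
  have hcomm : ∀ i, Commute (dg m (ψ i)) (cm ψ) := fun i => dg_cm (h i)
  have hTc : Commute T (cm ψ) := by
    rw [hT]
    refine Commute.sub_left ((Commute.refl _).pow_left _) ?_
    refine Finset.sum_induction _ (fun Z => Commute Z (cm ψ)) (fun a b => Commute.add_left)
      (Commute.zero_left _) fun i _ => ?_
    exact (hcomm i).mul_left ((Commute.refl _).pow_left _)
  have hT0 : ∀ x, T (em m 0 x) = 0 := by
    intro x
    rw [hT]
    show (cm ψ ^ (m + 1)) (em m 0 x) -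
      (∑ i : Fin (m + 1), dg m (ψ i) * cm ψ ^ (i : ℕ)) (em m 0 x) = 0
    rw [pow_succ', _root_.sum_apply, sub_eq_zero]
    show cm ψ ((cm ψ ^ m) (em m 0 x)) = _
    rw [cm_pow_em ψ x m (by omega)]
    rw [show (⟨m, by omega⟩ : Fin (m + 1)) = Fin.last m from rfl, cm_em_last]
    refine Finset.sum_congr rfl fun i _ => ?_
    show _ = dg m (ψ i) ((cm ψ ^ (i : ℕ)) (em m 0 x))
    rw [cm_pow_em ψ x i i.2]
    funext j
    rw [dg_apply, em_apply, em_apply]
    by_cases hij : j = i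
    · subst hij; simp
    · rw [Pi.single_eq_of_ne hij, Pi.single_eq_of_ne hij, map_zero]
  have hTz : T = 0 := by
    ext1 w
    rw [← sum_em w, map_sum]
    rw [_root_.zero_apply]
    refine Finset.sum_eq_zero fun i _ => ?_
    have h1 : em m i (w i) = (cm ψ ^ (i : ℕ)) (em m 0 (w i)) := (cm_pow_em ψ (w i) i i.2).symm
    rw [h1]
    have h2 : T * cm ψ ^ (i : ℕ) = cm ψ ^ (i : ℕ) * T := (hTc.pow_right _).eq
    have h3 : T ((cm ψ ^ (i : ℕ)) (em m 0 (w i))) = (cm ψ ^ (i : ℕ)) (T (em m 0 (w i))) :=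
      congrArg (fun Z : (Fin (m + 1) → X) →L[ℂ] (Fin (m + 1) → X) => Z (em m 0 (w i))) h2
    rw [h3, hT0, map_zero]
  rw [hT, sub_eq_zero] at hTz
  exact hTz

/-- the row operator -/
noncomputable def row (C : Fin (m + 1) → (X →L[ℂ] X)) : (Fin (m + 1) → X) →L[ℂ] X :=
  ∑ i, C i ∘L (ContinuousLinearMap.proj (R := ℂ) (φ := fun _ : Fin (m + 1) => X) i)

theorem row_apply (C : Fin (m + 1) → (X →L[ℂ] X)) (w : Fin (m + 1) → X) :
    row C w = ∑ i, C i (w i) := by
  unfold row
  rw [_root_.sum_apply]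
  rfl

theorem row_relation {S K : X →L[ℂ] X} {ψ : Fin (m + 1) → (X →L[ℂ] X)}
    (h : S ^ (m + 1) * K = ∑ i : Fin (m + 1), S ^ (i : ℕ) * K * S ^ (m + 1 - i) * ψ i) :
    S ∘L row (fun i : Fin (m + 1) => S ^ (i : ℕ) * K * S ^ (m - i)) =
      row (fun i : Fin (m + 1) => S ^ (i : ℕ) * K * S ^ (m - i)) ∘L (dg m S * cm ψ) := by
  ext w
  show S (row _ w) = row _ (dg m S (cm ψ w))
  rw [row_apply, row_apply, map_sum]
  simp only [dg_apply]
  have h1 : S ((S ^ m * K * S ^ (m - m)) (w (Fin.last m))) = ∑ i : Fin (m + 1),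
      (S ^ (i : ℕ) * K * S ^ (m - i)) (S (ψ i (w (Fin.last m)))) := by
    have h2 := congrArg (fun Z : X →L[ℂ] X => Z (w (Fin.last m))) h
    simp only [_root_.sum_apply] at h2
    rw [Nat.sub_self, pow_zero, mul_one]
    have h3 : S ((S ^ m * K) (w (Fin.last m))) = (S ^ (m + 1) * K) (w (Fin.last m)) := by
      rw [pow_succ']; rfl
    rw [h3, h2]
    refine Finset.sum_congr rfl fun i _ => ?_
    have h4 : m + 1 - i = (m - i) + 1 := by have := i.2; omega
    rw [h4, pow_succ]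
    rfl
  rw [Fin.sum_univ_castSucc]
  simp only [Fin.val_castSucc, Fin.val_last]
  rw [h1, Fin.sum_univ_succ (fun i : Fin (m + 1) => (S ^ (i : ℕ) * K * S ^ (m - i)) (S (cm ψ w i))),
    Fin.sum_univ_succ (fun i : Fin (m + 1) => (S ^ (i : ℕ) * K * S ^ (m - i)) (S (ψ i (w (Fin.last m)))))]
  simp only [cm_zero, cm_succ, map_add, Finset.sum_add_distrib]
  have h5 : ∀ j : Fin m, S ((S ^ (j : ℕ) * K * S ^ (m - j)) (w j.castSucc)) =
      (S ^ ((j.succ : Fin (m + 1)) : ℕ) * K * S ^ (m - (j.succ : Fin (m + 1)))) (S (w j.castSucc)) := by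
    intro j
    have h6 : m - j = (m - (j.succ : Fin (m + 1))) + 1 := by
      have := j.2
      simp only [Fin.val_succ]
      omega
    rw [h6, Fin.val_succ, pow_succ' S j, pow_succ]
    rfl
  simp only [h5]
  abel

end Mat

section Main

variable {X : Type} [NormedAddCommGroup X] [NormedSpace ℂ X] [CompleteSpace X]

/-- roots of quasinilpotent elements -/
theorem QN_of_pow {A : Type*} [NormedRing A] [NormedAlgebra ℂ A] {N S T : A} {k : ℕ} (hk : 1 ≤ k)
    (hS : QN S) (hc : S * T = T * S) (h : N ^ k = S * T) : QN N := by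
  intro ε hε
  obtain ⟨C, hC, hCb⟩ := hS (ε ^ k / (‖T‖ + 1)) (by positivity)
  have hpow : ∀ q : ℕ, ‖(N ^ k) ^ q‖ ≤ C * (1 + ‖(1 : A)‖) * (ε ^ k) ^ q := by
    intro q
    rw [h, (show Commute S T from hc).mul_pow]
    rcases q with _ | q
    · simp only [pow_zero, mul_one]
      have h1 := hCb 0
      simp only [pow_zero, mul_one] at h1
      nlinarith [norm_nonneg (1 : A)]
    · have hT : ‖T ^ (q + 1)‖ ≤ (‖T‖ + 1) ^ (q + 1) :=
        (norm_pow_le' _ (by omega)).trans (pow_le_pow_left₀ (norm_nonneg _) (by linarith) _)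
      calc ‖S ^ (q + 1) * T ^ (q + 1)‖ ≤ ‖S ^ (q + 1)‖ * ‖T ^ (q + 1)‖ := norm_mul_le _ _
        _ ≤ (C * (ε ^ k / (‖T‖ + 1)) ^ (q + 1)) * (‖T‖ + 1) ^ (q + 1) := by
            gcongr
            exact hCb _
        _ = C * (ε ^ k) ^ (q + 1) := by
            rw [div_pow, mul_assoc, div_mul_cancel₀ _ (by positivity)]
        _ ≤ _ := by
            have h1 : 0 ≤ C * (ε ^ k) ^ (q + 1) := by positivity
            have h2 : 0 ≤ C * ‖(1 : A)‖ * (ε ^ k) ^ (q + 1) := by positivity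
            nlinarith
  obtain ⟨M, hM⟩ : ∃ M : ℝ, M = ∑ r ∈ range k, ‖N ^ r‖ / ε ^ r := ⟨_, rfl⟩
  have hM0 : 0 ≤ M := by rw [hM]; positivity
  refine ⟨C * (1 + ‖(1 : A)‖) * M, by positivity, fun n => ?_⟩
  have hn : n = k * (n / k) + n % k := (Nat.div_add_mod n k).symm
  have hr : n % k < k := Nat.mod_lt _ (by omega)
  have h1 : ‖N ^ (n % k)‖ ≤ M * ε ^ (n % k) := by
    have h2 : ‖N ^ (n % k)‖ / ε ^ (n % k) ≤ M := by
      rw [hM]
      exact Finset.single_le_sum (f := fun r => ‖N ^ r‖ / ε ^ r) (fun _ _ => by positivity)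
        (mem_range.2 hr)
    rwa [div_le_iff₀ (by positivity)] at h2
  calc ‖N ^ n‖ = ‖(N ^ k) ^ (n / k) * N ^ (n % k)‖ := by rw [← pow_mul, ← pow_add, ← hn]
    _ ≤ ‖(N ^ k) ^ (n / k)‖ * ‖N ^ (n % k)‖ := norm_mul_le _ _
    _ ≤ (C * (1 + ‖(1 : A)‖) * (ε ^ k) ^ (n / k)) * (M * ε ^ (n % k)) := by
        gcongr
        exact hpow _
    _ = C * (1 + ‖(1 : A)‖) * M * (ε ^ (k * (n / k)) * ε ^ (n % k)) := by
        rw [pow_mul]; ring
    _ = _ := by rw [← pow_add, ← hn]

theorem typeC {S K : X →L[ℂ] X} (hS : ¬ HasHyper S) (hS0 : S ≠ 0) (hq : spectrum ℂ S ⊆ {0})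
    (hK : IsCompactOperator K) {U : ℕ → ℂ[X]} (hU : IsGerm U) {l : ℂ} (hl : ‖l‖ = 1)
    (hroot : ∀ n : ℕ, 1 ≤ n → l ^ n ≠ 1) (m : ℕ) (hU0 : ∀ n < m + 1, U n = 0)
    (hUm : U (m + 1) = rp (Multiset.replicate (m + 1) l))
    (hdeg : ∀ n, m + 1 < n → (U n).degree < (m + 1 : ℕ)) (h : act U (seq S K) 0 0 = 0) : K = 0 := by
  by_contra hK0
  have hl0 : l ≠ 0 := by rw [← norm_pos_iff, hl]; exact one_pos
  have hX : Nontrivial X := by
    by_contra hcon
    rw [not_nontrivial_iff_subsingleton] at hcon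
    exact hK0 (ContinuousLinearMap.ext fun x => Subsingleton.elim _ _)
  obtain ⟨C, B, hC, hB, hUb⟩ := hU.bd
  -- the coefficients
  have hcb : ∀ i n : ℕ, ‖(U (m + 1 + 1 + n)).coeff i‖ ≤ (C * B ^ (m + 1 + 1)) * B ^ n := by
    intro i n
    have h1 := norm_coeff_le (θ := 1) zero_le_one (U (m + 1 + 1 + n)) i
    rw [one_pow, mul_one] at h1
    refine h1.trans ((hUb _).trans (le_of_eq ?_))
    rw [pow_add]; ring
  let Θ : Fin (m + 1) → (X →L[ℂ] X) := fun i => ps S fun n => (U (m + 1 + 1 + n)).coeff i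
  let ψ : Fin (m + 1) → (X →L[ℂ] X) := fun i => -((U (m + 1)).coeff i • 1 + S * Θ i)
  have hΘc : ∀ i (Q : X →L[ℂ] X), Q * S = S * Q → Q * Θ i = Θ i * Q := fun i Q hQ =>
    ps_commute hq (by positivity) hB (hcb i) hQ
  have hΘS : ∀ i, S * Θ i = Θ i * S := fun i => hΘc i S rfl
  have hψc : ∀ i (Q : X →L[ℂ] X), Q * S = S * Q → Q * ψ i = ψ i * Q := by
    intro i Q hQ
    show Q * -((U (m + 1)).coeff i • 1 + S * Θ i) = -((U (m + 1)).coeff i • 1 + S * Θ i) * Q
    rw [mul_neg, neg_mul, mul_add, add_mul, mul_smul_comm, smul_mul_assoc, mul_one, one_mul,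
      ← mul_assoc, hQ, mul_assoc S Q, hΘc i Q hQ, ← mul_assoc]
  have hψS : ∀ i, ψ i * S = S * ψ i := fun i => (hψc i S rfl).symm
  have hψψ : ∀ i j, ψ i * ψ j = ψ j * ψ i := fun i j => hψc j (ψ i) (hψS i)
  -- the relation in Weierstrass form
  have hmonic : (U (m + 1)).coeff (m + 1) = 1 := by
    rw [hUm]
    have h1 := rp_monic (Multiset.replicate (m + 1) l)
    have h2 := rp_natDegree (Multiset.replicate (m + 1) l)
    rw [Multiset.card_replicate] at h2
    rw [Polynomial.Monic, leadingCoeff, h2] at h1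
    exact h1
  have hrel : S ^ (m + 1) * K = ∑ i : Fin (m + 1), S ^ (i : ℕ) * K * S ^ (m + 1 - i) * ψ i := by
    have hs := hU.summable (seq_SE hq K) 0 0
    have h1 := hs.sum_add_tsum_nat_add (m + 1 + 1)
    have h2 : ∑ i ∈ range (m + 1 + 1), hact i (U i) (seq S K) 0 0 =
        S ^ (m + 1) * K + ∑ i : Fin (m + 1), (U (m + 1)).coeff i • (S ^ (i : ℕ) * K * S ^ (m + 1 - i)) := by
      rw [Finset.sum_range_succ, Finset.sum_eq_zero, zero_add]
      · unfold hact
        rw [Finset.Nat.sum_antidiagonal_eq_sum_range_succ_mk, Nat.succ_eq_add_one,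
          Finset.sum_range_succ]
        simp only [zero_add]
        rw [hmonic, one_smul, Nat.sub_self, add_comm,
          ← Fin.sum_univ_eq_sum_range (fun i => (U (m + 1)).coeff i • seq S K i (m + 1 - i))]
        congr 1
      · intro i hi
        rw [mem_range] at hi
        rw [hU0 i hi, hact_zero]
    have h3 : ∑' n, hact (n + (m + 1 + 1)) (U (n + (m + 1 + 1))) (seq S K) 0 0 =
        ∑ i : Fin (m + 1), S ^ (i : ℕ) * K * S ^ (m + 1 - i) * (S * Θ i) := by
      have h4 : ∀ n, hact (n + (m + 1 + 1)) (U (n + (m + 1 + 1))) (seq S K) 0 0 =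
          ∑ i : Fin (m + 1), S ^ (i : ℕ) * K * S ^ (m + 1 - i) * (S * ((U (m + 1 + 1 + n)).coeff i • S ^ n)) := by
        intro n
        unfold hact
        rw [Finset.Nat.sum_antidiagonal_eq_sum_range_succ_mk, Nat.succ_eq_add_one]
        simp only [zero_add]
        have h5 : ∑ i ∈ range (n + (m + 1 + 1) + 1), (U (n + (m + 1 + 1))).coeff i •
            seq S K i (n + (m + 1 + 1) - i) = ∑ i ∈ range (m + 1), (U (n + (m + 1 + 1))).coeff i •
            seq S K i (n + (m + 1 + 1) - i) := by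
          symm
          refine Finset.sum_subset (Finset.range_mono (by omega)) fun i _ hi => ?_
          rw [mem_range, not_lt] at hi
          rw [coeff_eq_zero_of_degree_lt, zero_smul]
          refine (hdeg _ (by omega)).trans_le ?_
          exact_mod_cast hi
        rw [h5, ← Fin.sum_univ_eq_sum_range
          (fun i => (U (n + (m + 1 + 1))).coeff i • seq S K i (n + (m + 1 + 1) - i))]
        refine Finset.sum_congr rfl fun i _ => ?_
        unfold seq
        have hi := i.2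
        rw [show n + (m + 1 + 1) - (i : ℕ) = (m + 1 - i) + (1 + n) by omega, pow_add, pow_add, pow_one,
          show n + (m + 1 + 1) = m + 1 + 1 + n by ring, mul_smul_comm, mul_smul_comm]
        simp only [mul_assoc]
      rw [tsum_congr h4, Summable.tsum_finsetSum]
      · refine Finset.sum_congr rfl fun i _ => ?_
        have hsum := ps_summable hq (by positivity) hB (hcb i)
        show _ = S ^ (i : ℕ) * K * S ^ (m + 1 - i) * (S * ps S fun n => (U (m + 1 + 1 + n)).coeff i)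
        unfold ps
        rw [← hsum.tsum_mul_left, ← (hsum.mul_left S).tsum_mul_left]
      · intro i _
        exact ((ps_summable hq (by positivity) hB (hcb i)).mul_left S).mul_left _
    have h5 : ∑' n, hact n (U n) (seq S K) 0 0 = 0 := h
    rw [h2, h3, h5, add_assoc, ← Finset.sum_add_distrib] at h1
    rw [eq_neg_of_add_eq_zero_left h1, ← Finset.sum_neg_distrib]
    refine Finset.sum_congr rfl fun i _ => ?_
    show _ = S ^ (i : ℕ) * K * S ^ (m + 1 - i) * -((U (m + 1)).coeff i • 1 + S * Θ i)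
    rw [mul_neg, mul_add, mul_smul_comm, mul_one]
  -- Lomonosov's lemma
  have hK1 : K * S ^ m ≠ 0 := by
    intro h0
    exact hK0 (pow_dense_of hS hS0 _ h0)
  obtain ⟨A, hA, y, hy, hAy⟩ := lomonosov hS (K := K * S ^ m) (hK.comp_clm (S ^ m)) hK1
  let R := row (fun i : Fin (m + 1) => S ^ (i : ℕ) * K * S ^ (m - i))
  let A' : X →L[ℂ] (Fin (m + 1) → X) := em m 0 ∘L A
  let D : (Fin (m + 1) → X) →L[ℂ] (Fin (m + 1) → X) := A' ∘L R
  let P : (Fin (m + 1) → X) →L[ℂ] (Fin (m + 1) → X) := cm ψ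
  have hRc : IsCompactOperator R := by
    have hfin : ∀ {ι : Type} (t : Finset ι) (f : ι → (Fin (m + 1) → X) →L[ℂ] X),
        (∀ i ∈ t, IsCompactOperator (f i)) →
        IsCompactOperator (∑ i ∈ t, f i : (Fin (m + 1) → X) →L[ℂ] X) := by
      classical
      intro ι t f
      induction t using Finset.induction_on with
      | empty =>
        intro _
        rw [Finset.sum_empty]
        exact isCompactOperator_zero
      | insert i t hi ih =>
        intro h
        rw [Finset.sum_insert hi]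
        exact (h i (mem_insert_self i t)).add (ih fun j hj => h j (mem_insert_of_mem hj))
    refine hfin _ _ fun i _ => ?_
    have h1 : IsCompactOperator (S ^ (i : ℕ) * K * S ^ (m - i)) :=
      (hK.clm_comp (S ^ (i : ℕ))).comp_clm (S ^ (m - (i : ℕ)))
    exact h1.comp_clm _
  have hDc : IsCompactOperator D := hRc.clm_comp A'
  -- the shift relation
  have hA' : dg m S ∘L A' = A' ∘L S := by
    ext x i
    show S ((em m 0 (A x)) i) = (em m 0 (A (S x))) i
    have h1 : A (S x) = S (A x) := congrArg (fun Z : X →L[ℂ] X => Z x) hA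
    rw [h1, em_apply, em_apply]
    by_cases hi : i = 0
    · subst hi; simp
    · rw [Pi.single_eq_of_ne hi, Pi.single_eq_of_ne hi, map_zero]
  have hSP : dg m S * P = P * dg m S := dg_cm fun i => hψc i S rfl
  have hshift : dg m S * D = D * (dg m S * P) := by
    show dg m S ∘L (A' ∘L R) = (A' ∘L R) ∘L (dg m S * P)
    rw [← ContinuousLinearMap.comp_assoc, hA', ContinuousLinearMap.comp_assoc, row_relation hrel]
    rfl
  -- the unipotent part
  have hmn : ∀ Y Z : (Fin (m + 1) → X) →L[ℂ] (Fin (m + 1) → X), Y * (-Z) = -(Y * Z) :=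
    fun Y Z => mul_neg Y Z
  have hnm : ∀ Y Z : (Fin (m + 1) → X) →L[ℂ] (Fin (m + 1) → X), (-Y) * Z = -(Y * Z) :=
    fun Y Z => neg_mul Y Z
  obtain ⟨Q, hQ⟩ : ∃ Q : (Fin (m + 1) → X) →L[ℂ] (Fin (m + 1) → X), Q = l⁻¹ • P - 1 := ⟨_, rfl⟩
  have hPQ : P = l • (1 + Q) := by
    rw [hQ, add_sub_cancel, smul_inv_smul₀ hl0]
  have hPl : (P - l • 1) ^ (m + 1) = dg m S * (-(∑ i : Fin (m + 1), dg m (Θ i) * P ^ (i : ℕ))) := by
    have h1 : (P - l • 1) ^ (m + 1) = aeval P (U (m + 1)) := by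
      rw [hUm]
      have : rp (Multiset.replicate (m + 1) l) = (Polynomial.X - Polynomial.C l) ^ (m + 1) := by
        unfold rp
        rw [Multiset.map_replicate, Multiset.prod_replicate]
      rw [this, map_pow, map_sub, aeval_X, aeval_C, Algebra.algebraMap_eq_smul_one]
    have h2 : (U (m + 1)).natDegree < m + 1 + 1 := by
      rw [hUm, rp_natDegree, Multiset.card_replicate]; omega
    rw [h1, aeval_eq_sum_range' h2, Finset.sum_range_succ, hmonic, one_smul,
      cm_relation hψψ, ← Fin.sum_univ_eq_sum_range (fun i => (U (m + 1)).coeff i • P ^ i),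
      ← Finset.sum_add_distrib, hmn, Finset.mul_sum, ← Finset.sum_neg_distrib]
    refine Finset.sum_congr rfl fun i _ => ?_
    have h3 : dg m (ψ i) = -((U (m + 1)).coeff i • 1 + dg m S * dg m (Θ i)) := by
      rw [dg_mul]
      ext w j
      rfl
    rw [h3, hnm, add_mul, smul_mul_assoc, one_mul, mul_assoc]
    show (U (m + 1)).coeff i • P ^ (i : ℕ) + -((U (m + 1)).coeff i • P ^ (i : ℕ) + dg m S * (dg m (Θ i) * P ^ (i : ℕ))) = _
    abel
  have hSd : QN (dg m S) := by
    intro ε hε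
    obtain ⟨C, hC, h1⟩ := pow_bound hq hε
    refine ⟨C, hC, fun n => ?_⟩
    rw [dg_pow]
    exact (dg_norm _).trans (h1 n)
  have hSS : dg m S * (-(∑ i : Fin (m + 1), dg m (Θ i) * P ^ (i : ℕ))) =
      (-(∑ i : Fin (m + 1), dg m (Θ i) * P ^ (i : ℕ))) * dg m S := by
    rw [hmn, hnm, Finset.mul_sum, Finset.sum_mul]
    congr 1
    refine Finset.sum_congr rfl fun i _ => ?_
    have h1 : dg m S * dg m (Θ i) = dg m (Θ i) * dg m S := by
      rw [dg_mul, dg_mul, hΘS]
    have h2 : dg m S * P ^ (i : ℕ) = P ^ (i : ℕ) * dg m S :=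
      ((show Commute (dg m S) P from hSP).pow_right _).eq
    rw [← mul_assoc, h1, mul_assoc, h2, mul_assoc]
  have hQN : QN Q := by
    have h1 : Q ^ (m + 1) = dg m S * (l⁻¹ ^ (m + 1) • (-(∑ i : Fin (m + 1), dg m (Θ i) * P ^ (i : ℕ)))) := by
      have h2 : Q = l⁻¹ • (P - l • 1) := by
        rw [hQ, smul_sub, inv_smul_smul₀ hl0]
      rw [h2, _root_.smul_pow, hPl, mul_smul_comm]
    refine QN_of_pow (k := m + 1) (by omega) hSd ?_ h1
    rw [mul_smul_comm, smul_mul_assoc, hSS]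
  have hSQ : Q * dg m S = dg m S * Q := by
    rw [hQ, sub_mul, mul_sub, smul_mul_assoc, mul_smul_comm, hSP, one_mul, mul_one]
  -- the family
  let F : ℂ → (Fin (m + 1) → X) →L[ℂ] (Fin (m + 1) → X) := fun t => D * pw Q t
  have hFd : Differentiable ℂ F := (differentiable_const D).mul (pw_differentiable hQN)
  have hFc : ∀ t, IsCompactOperator (F t) := fun t => hDc.comp_clm (pw Q t)
  have hFg : ∀ ε : ℝ, 0 < ε → ∃ K : ℝ, ∀ t, ‖F t‖ ≤ K * Real.exp (ε * ‖t‖) := by
    intro ε hε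
    obtain ⟨K, hK⟩ := pw_growth hQN hε
    refine ⟨‖D‖ * K, fun t => ?_⟩
    calc ‖D * pw Q t‖ ≤ ‖D‖ * ‖pw Q t‖ := norm_mul_le _ _
      _ ≤ ‖D‖ * (K * Real.exp (ε * ‖t‖)) := by
          gcongr
          exact hK t
      _ = _ := by ring
  have hFs : ∀ t, dg m S * F t = l • (F (t + 1) * dg m S) := by
    intro t
    show dg m S * (D * pw Q t) = l • (D * pw Q (t + 1) * dg m S)
    rw [← mul_assoc, hshift, mul_assoc D (pw Q (t + 1)), pw_commute hQN hSQ, pw_succ hQN,
      mul_assoc, mul_assoc]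
    have h1 : P * pw Q t = l • (pw Q t * (1 + Q)) := by
      rw [hPQ, smul_mul_assoc]
      congr 1
      rw [add_mul, mul_add, one_mul, mul_one, pw_commute hQN rfl]
    rw [h1, mul_smul_comm, mul_smul_comm]
  have hinj : ∀ w : Fin (m + 1) → X, dg m S w = 0 → w = 0 := by
    intro w hw
    funext i
    exact injective_of hS hS0 (congrFun hw i)
  have hden : ∀ ξ : (Fin (m + 1) → X) →L[ℂ] ℂ, ξ ∘L dg m S = 0 → ξ = 0 := by
    intro ξ hξ
    have h1 : ∀ i, ξ ∘L em m i = 0 := by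
      intro i
      refine dense_of hS hS0 (ξ := ξ ∘L em m i) ?_
      ext x
      have h2 : dg m S (em m i x) = em m i (S x) := by
        funext j
        rw [dg_apply, em_apply, em_apply]
        by_cases hj : j = i
        · subst hj; simp
        · rw [Pi.single_eq_of_ne hj, Pi.single_eq_of_ne hj, map_zero]
      show ξ (em m i (S x)) = 0
      rw [← h2]
      exact congrArg (fun Z : (Fin (m + 1) → X) →L[ℂ] ℂ => Z (em m i x)) hξ
    ext1 w
    rw [← sum_em w, map_sum]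
    rw [_root_.zero_apply]
    exact Finset.sum_eq_zero fun i _ => congrArg (fun Z : X →L[ℂ] ℂ => Z (w i)) (h1 i)
  have hfin := (shift_family hFd hFc hFg hinj hden hl hFs).2 hroot 0 1 one_ne_zero
  apply hfin
  refine ⟨em m 0 (A y), ?_, ?_⟩
  · intro h0
    have h1 : A y = 0 := by
      have := congrFun h0 0
      rwa [em_apply, Pi.single_eq_same] at this
    have h2 : (K * S ^ m) (A y) = y := hAy
    rw [h1, map_zero] at h2
    exact hy h2.symm
  · show (D * pw Q 0) (em m 0 (A y)) = (1 : ℂ) • em m 0 (A y)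
    rw [pw_zero, mul_one, one_smul]
    show em m 0 (A (R (em m 0 (A y)))) = em m 0 (A y)
    have h1 : R (em m 0 (A y)) = y := by
      show row _ _ = y
      rw [row_apply, Finset.sum_eq_single 0]
      · rw [em_apply, Pi.single_eq_same]
        simpa using hAy
      · intro i _ hi
        rw [em_apply, Pi.single_eq_of_ne hi, map_zero]
      · intro h0; exact absurd (mem_univ _) h0
    rw [h1]

end Main

end Pool.Agent.H109F.LK
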