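import Mathlib
import Pool.Agent.H109F.LK.TypeC
import Pool.Agent.H109F.LK.Orb

/-!
# Tails of power series and resolvents
-/

set_option autoImplicit false

open Filter Topology Finset

namespace Pool.Agent.H109F.LK

/-- geometric bounds -/
structure GB (f : ℕ → ℂ) (C B : ℝ) : Prop where
  hC : 0 ≤ C
  hB : 0 < B
  h : ∀ n, ‖f n‖ ≤ C * B ^ n

/-- tails -/
noncomputable def T (f : ℕ → ℂ) (y : ℂ) (b : ℕ) : ℂ := ∑' a, f (a + b) * y ^ a

section scalar

variable {f : ℕ → ℂ} {C B : ℝ}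

theorem T_term (hf : GB f C B) {y : ℂ} (hy : B * ‖y‖ ≤ 1 / 2) (b a : ℕ) :
    ‖f (a + b) * y ^ a‖ ≤ C * B ^ b * (1 / 2 : ℝ) ^ a := by
  have hC := hf.hC
  have hB := hf.hB
  rw [norm_mul, norm_pow]
  calc ‖f (a + b)‖ * ‖y‖ ^ a ≤ (C * B ^ (a + b)) * ‖y‖ ^ a := by
        gcongr
        exact hf.h _
    _ = C * B ^ b * (B * ‖y‖) ^ a := by rw [pow_add, mul_pow]; ring
    _ ≤ C * B ^ b * (1 / 2 : ℝ) ^ a := by gcongr

theorem T_summable (hf : GB f C B) {y : ℂ} (hy : B * ‖y‖ ≤ 1 / 2) (b : ℕ) :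
    Summable fun a => f (a + b) * y ^ a :=
  Summable.of_norm_bounded ((summable_geometric_of_lt_one (by norm_num) (by norm_num)).mul_left _)
    fun a => T_term hf hy b a

theorem T_bound (hf : GB f C B) {y : ℂ} (hy : B * ‖y‖ ≤ 1 / 2) (b : ℕ) :
    ‖T f y b‖ ≤ 2 * C * B ^ b := by
  have h1 := tsum_of_norm_bounded ((hasSum_geometric_of_lt_one (r := (1 / 2 : ℝ)) (by norm_num)
    (by norm_num)).mul_left (C * B ^ b)) (fun a => T_term hf hy b a)
  refine h1.trans (le_of_eq ?_)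
  norm_num
  ring

theorem T_succ (hf : GB f C B) {y : ℂ} (hy : B * ‖y‖ ≤ 1 / 2) (b : ℕ) :
    T f y b = f b + y * T f y (b + 1) := by
  unfold T
  rw [(T_summable hf hy b).tsum_eq_zero_add, ← (T_summable hf hy (b + 1)).tsum_mul_left]
  simp only [zero_add, pow_zero, mul_one]
  congr 1
  refine tsum_congr fun a => ?_
  rw [show a + 1 + b = a + (b + 1) by ring, pow_succ]
  ring

theorem T_GB (hf : GB f C B) {y : ℂ} (hy : B * ‖y‖ ≤ 1 / 2) :
    GB (fun b => T f y (b + 1)) (2 * C * B) B := by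
  have hC := hf.hC
  have hB := hf.hB
  refine ⟨by positivity, hf.hB, fun n => (T_bound hf hy _).trans (le_of_eq ?_)⟩
  rw [pow_succ]; ring

theorem T_zero (b : ℕ) : T f 0 b = f b := by
  unfold T
  rw [tsum_eq_single 0]
  · simp
  · intro n hn
    rw [zero_pow hn, mul_zero]

theorem T_sum (hf : GB f C B) {y : ℂ} (hy : B * ‖y‖ ≤ 1 / 2) (n : ℕ) :
    T f y 0 = ∑ i ∈ range n, f i * y ^ i + y ^ n * T f y n := by
  induction n with
  | zero => simp
  | succ n ih =>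
    rw [ih, sum_range_succ, T_succ hf hy n]
    ring

theorem T_differentiable (hf : GB f C B) {y : ℂ} (hy : B * ‖y‖ < 1 / 2) :
    DifferentiableAt ℂ (fun y => T f y 0) y := by
  have hopen : IsOpen {s : ℂ | B * ‖s‖ < 1 / 2} := isOpen_lt (by fun_prop) continuous_const
  have h1 : DifferentiableOn ℂ (fun s => ∑' a, f (a + 0) * s ^ a) {s : ℂ | B * ‖s‖ < 1 / 2} := by
    refine Complex.differentiableOn_tsum_of_summable_norm
      (u := fun a : ℕ => C * B ^ 0 * (1 / 2 : ℝ) ^ a) ?_ ?_ hopen ?_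
    · exact (summable_geometric_of_lt_one (by norm_num) (by norm_num)).mul_left _
    · intro n
      fun_prop
    · intro n s hs
      exact T_term hf (le_of_lt hs) 0 n
  exact (h1 y hy).differentiableAt (hopen.mem_nhds hy)

/-- a parabolic germ -/
theorem PG_of {k : ℕ} {c : ℂ} (hf : GB f C B) (hk : 1 ≤ k) (h0 : f 0 = 0) (h1 : f 1 = 1)
    (hm : ∀ n, 2 ≤ n → n ≤ k → f n = 0) (hc : f (k + 1) = c) (hc0 : c ≠ 0) :
    ∃ ρ A : ℝ, B * ρ ≤ 1 / 2 ∧
      PG (fun y => T f y 0) (fun y => T (fun b => T f y (b + 1)) y 0) k c ρ A := by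
  have hC := hf.hC
  have hB := hf.hB
  have hF : ∀ y : ℂ, B * ‖y‖ ≤ 1 / 2 → T f y 0 - y - c * y ^ (k + 1) = y ^ (k + 2) * T f y (k + 2) := by
    intro y hy
    rw [T_sum hf hy (k + 2), sum_range_succ, hc, sum_eq_single 1]
    · rw [h1]; ring
    · intro i hi hi1
      have hi' := mem_range.1 hi
      rcases Nat.eq_zero_or_pos i with rfl | hi0
      · rw [h0, zero_mul]
      · rw [hm i (by omega) (by omega), zero_mul]
    · intro h
      exact absurd (mem_range.2 (by omega)) h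
  have hTk : ∀ y : ℂ, B * ‖y‖ ≤ 1 / 2 → ∀ i, i + 1 ≤ k →
      T f y (k + 1 - i) = y ^ i * (c + y * T f y (k + 2)) := by
    intro y hy i
    induction i with
    | zero =>
      intro _
      rw [Nat.sub_zero, T_succ hf hy (k + 1), hc]
      ring
    | succ i ih =>
      intro hi
      have h2 : k + 1 - (i + 1) + 1 = k + 1 - i := by omega
      rw [T_succ hf hy, h2, ih (by omega), hm _ (by omega) (by omega)]
      ring
  have hF1 : ∀ y : ℂ, B * ‖y‖ ≤ 1 / 2 → T (fun b => T f y (b + 1)) y 0 - 1 - (k + 1) * c * y ^ k =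
      y ^ (k + 1) * ((k + 1) * T f y (k + 2) + T (fun b => T f y (b + 1)) y (k + 1)) := by
    intro y hy
    rw [T_sum (T_GB hf hy) hy (k + 1), sum_range_succ']
    have h2 : ∀ b ∈ range k, T f y (b + 1 + 1) * y ^ (b + 1) = y ^ k * (c + y * T f y (k + 2)) := by
      intro b hb
      have hb' := mem_range.1 hb
      have h3 : b + 1 + 1 = k + 1 - (k - (b + 1)) := by omega
      rw [h3, hTk y hy _ (by omega)]
      have h4 : k = (k - (b + 1)) + (b + 1) := by omega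
      calc y ^ (k - (b + 1)) * (c + y * T f y (k + 2)) * y ^ (b + 1) =
            y ^ ((k - (b + 1)) + (b + 1)) * (c + y * T f y (k + 2)) := by rw [pow_add]; ring
        _ = _ := by rw [← h4]
    rw [sum_congr rfl h2, sum_const, card_range, nsmul_eq_mul]
    have h5 : T f y (0 + 1) = 1 + y ^ k * (c + y * T f y (k + 2)) := by
      rw [zero_add, T_succ hf hy 1, h1]
      obtain ⟨j, hj⟩ : ∃ j, k = j + 1 := ⟨k - 1, by omega⟩
      have h6 := hTk y hy (k - 1) (by omega)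
      have h7 : k + 1 - (k - 1) = 1 + 1 := by omega
      rw [h7] at h6
      rw [h6]
      have h8 : y * (y ^ (k - 1) * (c + y * T f y (k + 2))) = y ^ (k - 1 + 1) * (c + y * T f y (k + 2)) := by
        ring
      rw [h8, Nat.sub_add_cancel hk]
    rw [h5]
    ring
  -- the inverse
  obtain ⟨ρ₁, hρ₁⟩ : ∃ ρ₁ : ℝ, ρ₁ = min (1 / (4 * B)) (min 1 (1 / (2 * (‖c‖ + 2 * C * B ^ (k + 2)) + 1))) := ⟨_, rfl⟩
  have hρ₁0 : 0 < ρ₁ := by rw [hρ₁]; positivity
  have hρ₁B : B * ρ₁ < 1 / 2 := by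
    have h2 : ρ₁ ≤ 1 / (4 * B) := by rw [hρ₁]; exact min_le_left _ _
    rw [le_div_iff₀ (by positivity)] at h2
    linarith
  have hρ₁1 : ρ₁ ≤ 1 := by rw [hρ₁]; exact (min_le_right _ _).trans (min_le_left _ _)
  have hρ₁c : ρ₁ * (‖c‖ + 2 * C * B ^ (k + 2)) ≤ 1 / 2 := by
    have h2 : ρ₁ ≤ 1 / (2 * (‖c‖ + 2 * C * B ^ (k + 2)) + 1) := by
      rw [hρ₁]; exact (min_le_right _ _).trans (min_le_right _ _)
    rw [le_div_iff₀ (by positivity)] at h2
    linarith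
  have hhalf : ∀ y : ℂ, ‖y‖ < ρ₁ → ‖T f y 0 - y‖ ≤ ‖y‖ / 2 := by
    intro y hy
    have hyB : B * ‖y‖ ≤ 1 / 2 := (mul_le_mul_of_nonneg_left hy.le hB.le).trans hρ₁B.le
    have hy1 : ‖y‖ ≤ 1 := hy.le.trans hρ₁1
    have h2 : T f y 0 - y = c * y ^ (k + 1) + y ^ (k + 2) * T f y (k + 2) := by
      rw [← hF y hyB]; ring
    rw [h2]
    have hp : ∀ j, 2 ≤ j → ‖y‖ ^ j ≤ ρ₁ * ‖y‖ := by
      intro j hj
      calc ‖y‖ ^ j ≤ ‖y‖ ^ 2 := pow_le_pow_of_le_one (norm_nonneg _) hy1 hj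
        _ = ‖y‖ * ‖y‖ := by ring
        _ ≤ ρ₁ * ‖y‖ := by gcongr
    calc ‖c * y ^ (k + 1) + y ^ (k + 2) * T f y (k + 2)‖ ≤
          ‖c‖ * ‖y‖ ^ (k + 1) + ‖y‖ ^ (k + 2) * ‖T f y (k + 2)‖ := by
          refine (norm_add_le _ _).trans ?_
          rw [norm_mul, norm_mul, norm_pow, norm_pow]
      _ ≤ ‖c‖ * (ρ₁ * ‖y‖) + (ρ₁ * ‖y‖) * (2 * C * B ^ (k + 2)) := by
          gcongr
          · exact hp _ (by omega)
          · exact hp _ (by omega)
          · exact T_bound hf hyB _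
      _ = (ρ₁ * (‖c‖ + 2 * C * B ^ (k + 2))) * ‖y‖ := by ring
      _ ≤ 1 / 2 * ‖y‖ := by gcongr
      _ = _ := by ring
  have hopen : IsOpen {s : ℂ | B * ‖s‖ < 1 / 2} := isOpen_lt (by fun_prop) continuous_const
  have h0m : (0 : ℂ) ∈ {s : ℂ | B * ‖s‖ < 1 / 2} := by simp
  have han : AnalyticAt ℂ (fun y => T f y 0) 0 := by
    have hd : DifferentiableOn ℂ (fun y => T f y 0) {s : ℂ | B * ‖s‖ < 1 / 2} := fun s hs =>
      (T_differentiable hf hs).differentiableWithinAt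
    exact hd.analyticAt (hopen.mem_nhds h0m)
  have hder : HasDerivAt (fun y => T f y 0) 1 0 := by
    rw [hasDerivAt_iff_isLittleO]
    simp only [T_zero, h0, sub_zero, smul_eq_mul, mul_one]
    rw [Asymptotics.isLittleO_iff]
    intro ε hε
    have hev : ∀ᶠ y : ℂ in 𝓝 0, ‖y‖ < min ρ₁ (ε / (‖c‖ + 2 * C * B ^ (k + 2) + 1)) := by
      have : Tendsto (fun y : ℂ => ‖y‖) (𝓝 0) (𝓝 0) := by
        simpa using (continuous_norm.tendsto (0 : ℂ))
      exact this.eventually (gt_mem_nhds (by positivity))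
    filter_upwards [hev] with y hy
    have hyρ : ‖y‖ < ρ₁ := hy.trans_le (min_le_left _ _)
    have hyε : ‖y‖ * (‖c‖ + 2 * C * B ^ (k + 2) + 1) ≤ ε := by
      have := (hy.trans_le (min_le_right _ _)).le
      rwa [le_div_iff₀ (by positivity)] at this
    have hyB : B * ‖y‖ ≤ 1 / 2 := (mul_le_mul_of_nonneg_left hyρ.le hB.le).trans hρ₁B.le
    have hy1 : ‖y‖ ≤ 1 := hyρ.le.trans hρ₁1
    have h2 : T f y 0 - y = c * y ^ (k + 1) + y ^ (k + 2) * T f y (k + 2) := by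
      rw [← hF y hyB]; ring
    rw [h2]
    have hp : ∀ j, 2 ≤ j → ‖y‖ ^ j ≤ ‖y‖ * ‖y‖ := by
      intro j hj
      calc ‖y‖ ^ j ≤ ‖y‖ ^ 2 := pow_le_pow_of_le_one (norm_nonneg _) hy1 hj
        _ = ‖y‖ * ‖y‖ := by ring
    calc ‖c * y ^ (k + 1) + y ^ (k + 2) * T f y (k + 2)‖ ≤
          ‖c‖ * ‖y‖ ^ (k + 1) + ‖y‖ ^ (k + 2) * ‖T f y (k + 2)‖ := by
          refine (norm_add_le _ _).trans ?_
          rw [norm_mul, norm_mul, norm_pow, norm_pow]
      _ ≤ ‖c‖ * (‖y‖ * ‖y‖) + (‖y‖ * ‖y‖) * (2 * C * B ^ (k + 2)) := by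
          gcongr
          · exact hp _ (by omega)
          · exact hp _ (by omega)
          · exact T_bound hf hyB _
      _ = (‖y‖ * (‖c‖ + 2 * C * B ^ (k + 2))) * ‖y‖ := by ring
      _ ≤ ε * ‖y‖ := by
          gcongr
          have := norm_nonneg y
          linarith
  have hstrict : HasStrictDerivAt (fun y => T f y 0) 1 0 := by
    have h2 := han.hasStrictDerivAt
    rwa [hder.deriv] at h2
  have hmap := hstrict.map_nhds_eq one_ne_zero
  simp only [T_zero, h0] at hmap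
  have himg : (fun y => T f y 0) '' Metric.ball 0 ρ₁ ∈ 𝓝 (0 : ℂ) := by
    have h2 : (fun y => T f y 0) '' Metric.ball 0 ρ₁ ∈ map (fun y => T f y 0) (𝓝 (0 : ℂ)) :=
      image_mem_map (Metric.ball_mem_nhds 0 hρ₁0)
    rwa [hmap] at h2
  obtain ⟨ρ₂, hρ₂, hρ₂i⟩ := Metric.mem_nhds_iff.1 himg
  obtain ⟨ρ, hρ⟩ : ∃ ρ : ℝ, ρ = min ρ₁ (ρ₂ / 2) := ⟨_, rfl⟩
  have hρ0 : 0 < ρ := by rw [hρ]; positivity
  have hρρ₁ : ρ ≤ ρ₁ := by rw [hρ]; exact min_le_left _ _
  have hρρ₂ : ρ ≤ ρ₂ / 2 := by rw [hρ]; exact min_le_right _ _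
  have hBρ : B * ρ ≤ 1 / 2 := (mul_le_mul_of_nonneg_left hρρ₁ hB.le).trans hρ₁B.le
  have hyBρ : ∀ y : ℂ, ‖y‖ ≤ ρ → B * ‖y‖ ≤ 1 / 2 := fun y hy =>
    (mul_le_mul_of_nonneg_left hy hB.le).trans hBρ
  refine ⟨ρ, 2 * C * B ^ (k + 2) * (k + 2) + 2 * (2 * C * B) * B ^ (k + 1), hBρ, hk, hc0, hρ0, by positivity,
    fun y hy => ?_, fun y hy => ?_, fun z hz => ?_⟩
  · have hyB := hyBρ y hy
    rw [hF y hyB, norm_mul, norm_pow, mul_comm]
    gcongr
    refine (T_bound hf hyB _).trans ?_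
    have h2 : 0 ≤ 2 * C * B ^ (k + 2) * k := by positivity
    have h3 : 0 ≤ 2 * (2 * C * B) * B ^ (k + 1) := by positivity
    have h4 : 0 ≤ 2 * C * B ^ (k + 2) := by positivity
    calc 2 * C * B ^ (k + 2) ≤ 2 * C * B ^ (k + 2) + (2 * C * B ^ (k + 2) * k + 2 * C * B ^ (k + 2)) +
          2 * (2 * C * B) * B ^ (k + 1) := by linarith
      _ = _ := by ring
  · have hyB := hyBρ y hy
    rw [hF1 y hyB, norm_mul, norm_pow, mul_comm]
    gcongr
    refine (norm_add_le _ _).trans ?_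
    have hk3 : ‖(k : ℂ) + 1‖ = k + 1 := by
      have := Complex.norm_natCast (k + 1)
      push_cast at this
      exact this
    rw [norm_mul, hk3]
    have h4 : 0 ≤ 2 * C * B ^ (k + 2) := by positivity
    calc ((k : ℝ) + 1) * ‖T f y (k + 2)‖ + ‖T (fun b => T f y (b + 1)) y (k + 1)‖ ≤
          (k + 1) * (2 * C * B ^ (k + 2)) + 2 * (2 * C * B) * B ^ (k + 1) := by
          gcongr
          · exact T_bound hf hyB _
          · exact T_bound (T_GB hf hyB) hyB _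
      _ ≤ _ := by linarith
  · have hz' : z ∈ Metric.ball (0 : ℂ) ρ₂ := by
      rw [mem_ball_zero_iff]
      linarith
    obtain ⟨y, hy, hyz⟩ := hρ₂i hz'
    rw [mem_ball_zero_iff] at hy
    refine ⟨y, ?_, hyz⟩
    have h2 := hhalf y hy
    have hyz' : T f y 0 = z := hyz
    rw [hyz'] at h2
    have h3 : ‖y‖ ≤ ‖z‖ + ‖z - y‖ := by
      have : y = z - (z - y) := by ring
      calc ‖y‖ = ‖z - (z - y)‖ := by rw [← this]
        _ ≤ _ := norm_sub_le _ _
    linarith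

end scalar

section operator

variable {X : Type} [NormedAddCommGroup X] [NormedSpace ℂ X] [CompleteSpace X]
variable {S : X →L[ℂ] X} {f g : ℕ → ℂ} {C B C' B' : ℝ}

theorem GB.sum (hS : spectrum ℂ S ⊆ {0}) (hf : GB f C B) : Summable fun n => f n • S ^ n :=
  ps_summable hS hf.hC hf.hB hf.h

theorem GB.comm (hS : spectrum ℂ S ⊆ {0}) (hf : GB f C B) {Q : X →L[ℂ] X} (hQ : Q * S = S * Q) :
    Q * ps S f = ps S f * Q := ps_commute hS hf.hC hf.hB hf.h hQ

theorem ps_shift (hS : spectrum ℂ S ⊆ {0}) (hf : GB f C B) :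
    ps S f = f 0 • 1 + S * ps S (fun n => f (n + 1)) := by
  have h0 := hf.sum hS
  have h1 : GB (fun n => f (n + 1)) (C * B) B := by
    have := hf.hC
    have := hf.hB
    refine ⟨by positivity, hf.hB, fun n => (hf.h _).trans (le_of_eq ?_)⟩
    rw [pow_succ]; ring
  unfold ps
  rw [h0.tsum_eq_zero_add, pow_zero, ← (h1.sum hS).tsum_mul_left]
  congr 1
  refine tsum_congr fun n => ?_
  rw [pow_succ', mul_smul_comm]

theorem ps_add (hS : spectrum ℂ S ⊆ {0}) (hf : GB f C B) (hg : GB g C' B') :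
    ps S (fun n => f n + g n) = ps S f + ps S g := by
  unfold ps
  rw [← (hf.sum hS).tsum_add (hg.sum hS)]
  exact tsum_congr fun n => add_smul _ _ _

theorem ps_smul (hS : spectrum ℂ S ⊆ {0}) (hf : GB f C B) (y : ℂ) :
    ps S (fun n => y * f n) = y • ps S f := by
  unfold ps
  rw [← (hf.sum hS).tsum_const_smul]
  exact tsum_congr fun n => mul_smul _ _ _

theorem GB.mulc (hf : GB f C B) (y : ℂ) : GB (fun n => y * f n) (‖y‖ * C) B :=
  ⟨mul_nonneg (norm_nonneg _) hf.hC, hf.hB, fun n => by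
    rw [norm_mul, mul_assoc]
    exact mul_le_mul_of_nonneg_left (hf.h n) (norm_nonneg _)⟩

/-- the divided difference -/
theorem ps_T (hS : spectrum ℂ S ⊆ {0}) (hf : GB f C B) {y : ℂ} (hy : B * ‖y‖ ≤ 1 / 2) :
    y • ps S (fun b => T f y (b + 1)) - S * ps S (fun b => T f y (b + 1)) =
      T f y 0 • 1 - ps S f := by
  have hg := T_GB hf hy
  have h1 : GB (fun b => T f y b) (2 * C) B :=
    ⟨mul_nonneg (by norm_num) hf.hC, hf.hB, fun n => T_bound hf hy n⟩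
  have h2 := ps_shift hS h1
  have h3 : ps S (fun b => T f y b) = ps S f + y • ps S (fun b => T f y (b + 1)) := by
    rw [← ps_smul hS hg, ← ps_add hS hf (hg.mulc y)]
    congr 1
    funext b
    exact T_succ hf hy b
  rw [h3] at h2
  rw [sub_eq_sub_iff_add_eq_add]
  rw [add_comm, h2]

/-- uniform bounds -/
theorem ps_bound (hS : spectrum ℂ S ⊆ {0}) (hB : 0 < B) : ∃ K : ℝ, 0 ≤ K ∧
    ∀ (f : ℕ → ℂ) (C : ℝ), GB f C B → ‖ps S f‖ ≤ C * K := by
  obtain ⟨M, hM, h⟩ := pow_bound hS (ε := 1 / (2 * B)) (by positivity)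
  refine ⟨M * 2, by positivity, fun f C hf => ?_⟩
  have hC := hf.hC
  have h1 : ∀ n, ‖f n • S ^ n‖ ≤ C * M * (1 / 2 : ℝ) ^ n := by
    intro n
    rw [norm_smul]
    calc ‖f n‖ * ‖S ^ n‖ ≤ (C * B ^ n) * (M * (1 / (2 * B)) ^ n) := by
          gcongr
          · exact hf.h n
          · exact h n
      _ = C * M * (B * (1 / (2 * B))) ^ n := by rw [mul_pow B]; ring
      _ = _ := by
          congr 2
          field_simp
  have h2 := tsum_of_norm_bounded ((hasSum_geometric_of_lt_one (r := (1 / 2 : ℝ)) (by norm_num)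
    (by norm_num)).mul_left (C * M)) h1
  refine h2.trans (le_of_eq ?_)
  norm_num
  ring

/-- the resolvent -/
noncomputable def Rv (S : X →L[ℂ] X) (y : ℂ) : X →L[ℂ] X := y⁻¹ • ps S (fun n => (y⁻¹) ^ n)

theorem GB_inv {y : ℂ} (hy : y ≠ 0) : GB (fun n => (y⁻¹) ^ n) 1 ‖y⁻¹‖ :=
  ⟨zero_le_one, norm_pos_iff.2 (inv_ne_zero hy), fun n => by rw [norm_pow, one_mul]⟩

theorem Rv_comm (hS : spectrum ℂ S ⊆ {0}) {y : ℂ} (hy : y ≠ 0) {Q : X →L[ℂ] X} (hQ : Q * S = S * Q) :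
    Q * Rv S y = Rv S y * Q := by
  unfold Rv
  rw [mul_smul_comm, smul_mul_assoc, (GB_inv hy).comm hS hQ]

theorem Rv_mul (hS : spectrum ℂ S ⊆ {0}) {y : ℂ} (hy : y ≠ 0) :
    S * Rv S y = y • Rv S y - 1 := by
  have h1 := ps_shift hS (GB_inv hy)
  have h2 : (fun n => (y⁻¹) ^ (n + 1)) = fun n => y⁻¹ * (y⁻¹) ^ n := by
    funext n; rw [pow_succ']
  rw [h2, ps_smul hS (GB_inv hy), pow_zero, one_smul, mul_smul_comm] at h1
  unfold Rv
  rw [mul_smul_comm, smul_smul, mul_inv_cancel₀ hy, one_smul, eq_sub_iff_add_eq, add_comm]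
  exact h1.symm

theorem Rv_mul' (hS : spectrum ℂ S ⊆ {0}) {y : ℂ} (hy : y ≠ 0) :
    Rv S y * S = y • Rv S y - 1 := by
  rw [← Rv_comm hS hy rfl, Rv_mul hS hy]

/-- the intertwining relation of the resolvents -/
theorem rel2 (hS : spectrum ℂ S ⊆ {0}) (hf : GB f C B) (hu : IsUnit (ps S fun n => f (n + 1)))
    {D : X →L[ℂ] X} (hD : S * D = D * ps S f) :
    ∃ (r H : ℝ), 0 < r ∧ B * r ≤ 1 / 2 ∧ 0 ≤ H ∧ ∀ y : ℂ, y ≠ 0 → ‖y‖ ≤ r → T f y 0 ≠ 0 →
      ∃ E : X →L[ℂ] X, ‖E‖ ≤ H ∧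
        T (fun b => T f y (b + 1)) y 0 • (Rv S (T f y 0) * D) = D * Rv S y + D * E := by
  have hC := hf.hC
  have hB := hf.hB
  obtain ⟨U, hU⟩ := hu
  obtain ⟨K, hK, hKb⟩ := ps_bound hS hB
  -- the inverse is bounded near `U`
  obtain ⟨δ, hδ, hδU⟩ : ∃ δ : ℝ, 0 < δ ∧ ∀ Q : X →L[ℂ] X, ‖Q - U‖ < δ → IsUnit Q ∧
      ‖Ring.inverse Q‖ ≤ ‖Ring.inverse (U : X →L[ℂ] X)‖ + 1 := by
    have h1 := (NormedRing.inverse_continuousAt U).norm.eventually (gt_mem_nhds (lt_add_one _))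
    have h2 := h1.and (Units.nhds U)
    obtain ⟨δ, hδ, h3⟩ := Metric.eventually_nhds_iff.1 h2
    exact ⟨δ, hδ, fun Q hQ => ⟨(h3 (by rw [dist_eq_norm]; exact hQ)).2,
      (h3 (by rw [dist_eq_norm]; exact hQ)).1.le⟩⟩
  obtain ⟨M, hM⟩ : ∃ M : ℝ, M = ‖Ring.inverse (U : X →L[ℂ] X)‖ + 1 := ⟨_, rfl⟩
  have hM0 : 0 ≤ M := by rw [hM]; positivity
  obtain ⟨r, hr⟩ : ∃ r : ℝ, r = min (1 / (2 * B)) (δ / (2 * (2 * C * B ^ 2 * K + 1))) := ⟨_, rfl⟩
  have hr0 : 0 < r := by rw [hr]; positivity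
  have hrB : B * r ≤ 1 / 2 := by
    have h2 : r ≤ 1 / (2 * B) := by rw [hr]; exact min_le_left _ _
    rw [le_div_iff₀ (by positivity)] at h2
    linarith
  have hrδ : r * (2 * (2 * C * B ^ 2 * K + 1)) ≤ δ := by
    have h2 : r ≤ δ / (2 * (2 * C * B ^ 2 * K + 1)) := by rw [hr]; exact min_le_right _ _
    rwa [le_div_iff₀ (by positivity)] at h2
  refine ⟨r, (2 * (2 * C * B) * B) * K * M, hr0, hrB, by positivity, fun y hy hyr hFy => ?_⟩
  have hyB : B * ‖y‖ ≤ 1 / 2 := (mul_le_mul_of_nonneg_left hyr hB.le).trans hrB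
  have hg := T_GB hf hyB
  have hgg := T_GB hg hyB
  obtain ⟨g, hgd⟩ : ∃ g : ℕ → ℂ, g = fun b => T f y (b + 1) := ⟨_, rfl⟩
  rw [← hgd] at hg hgg ⊢
  obtain ⟨q, hq⟩ : ∃ q, q = ps S g := ⟨_, rfl⟩
  obtain ⟨p, hp⟩ : ∃ p, p = ps S (fun b => T g y (b + 1)) := ⟨_, rfl⟩
  have e1 : y • q - S * q = T f y 0 • 1 - ps S f := by
    rw [hq, hgd]; exact ps_T hS hf hyB
  have e2 : y • p - S * p = T g y 0 • 1 - q := by
    rw [hq, hp]; exact ps_T hS hg hyB
  have hqS : S * q = q * S := by rw [hq]; exact hg.comm hS rfl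
  have hpS : S * p = p * S := by rw [hp]; exact hgg.comm hS rfl
  have hqR : q * Rv S y = Rv S y * q := Rv_comm hS hy hqS.symm
  have hpR : p * Rv S y = Rv S y * p := Rv_comm hS hy hpS.symm
  -- `D R(y) = R(F y) D q(y)`
  have e3 : D * Rv S y = Rv S (T f y 0) * D * q := by
    have h1 : (T f y 0 • 1 - S) * D = D * (y • q - S * q) := by
      rw [e1, sub_mul, hD, mul_sub, smul_mul_assoc, one_mul, mul_smul_comm, mul_one]
    have h2 : (y • q - S * q) * Rv S y = q := by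
      have h3 := Rv_mul hS hy
      rw [sub_mul, smul_mul_assoc, hqS, mul_assoc, h3, mul_sub, mul_smul_comm, mul_one]
      abel
    have h4 : Rv S (T f y 0) * (T f y 0 • 1 - S) = 1 := by
      rw [mul_sub, Rv_mul' hS hFy, mul_smul_comm, mul_one]
      abel
    have h5 : D = Rv S (T f y 0) * (D * (y • q - S * q)) := by
      rw [← h1, ← mul_assoc, h4, one_mul]
    calc D * Rv S y = Rv S (T f y 0) * (D * (y • q - S * q)) * Rv S y := by rw [← h5]
      _ = Rv S (T f y 0) * (D * ((y • q - S * q) * Rv S y)) := by simp only [mul_assoc]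
      _ = Rv S (T f y 0) * D * q := by rw [h2, ← mul_assoc]
  -- `F1 R(y) = R(y) q + p`
  have e4 : T g y 0 • Rv S y = Rv S y * q + p := by
    have h3 := Rv_mul' hS hy
    have h6 : Rv S y * (y • p - S * p) = p := by
      rw [mul_sub, mul_smul_comm, ← mul_assoc, h3, sub_mul, smul_mul_assoc, one_mul]
      abel
    rw [e2, mul_sub, mul_smul_comm, mul_one, sub_eq_iff_eq_add] at h6
    rw [h6, add_comm]
  -- `q` is invertible
  have hqU : ‖q - U‖ < δ := by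
    have h1 : q = ps S (fun n => f (n + 1)) + y • ps S (fun n => T f y (n + 2)) := by
      have hf1 : GB (fun n => f (n + 1)) (C * B) B :=
        ⟨by positivity, hB, fun n => (hf.h _).trans (le_of_eq (by rw [pow_succ]; ring))⟩
      have hf2 : GB (fun n => T f y (n + 2)) (2 * C * B ^ 2) B :=
        ⟨by positivity, hB, fun n => (T_bound hf hyB _).trans (le_of_eq (by rw [pow_add]; ring))⟩
      rw [← ps_smul hS hf2, ← ps_add hS hf1 (hf2.mulc y), hq, hgd]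
      congr 1
      funext b
      exact T_succ hf hyB (b + 1)
    have hf2 : GB (fun n => T f y (n + 2)) (2 * C * B ^ 2) B :=
      ⟨by positivity, hB, fun n => (T_bound hf hyB _).trans (le_of_eq (by rw [pow_add]; ring))⟩
    rw [h1, hU, add_sub_cancel_left, norm_smul]
    have h2 := hKb _ _ hf2
    have h7 : 0 ≤ 2 * C * B ^ 2 * K := by positivity
    calc ‖y‖ * ‖ps S (fun n => T f y (n + 2))‖ ≤ r * (2 * C * B ^ 2 * K) := by gcongr
      _ < r * (2 * (2 * C * B ^ 2 * K + 1)) := by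
          have : 2 * C * B ^ 2 * K < 2 * (2 * C * B ^ 2 * K + 1) := by linarith
          exact mul_lt_mul_of_pos_left this hr0
      _ ≤ δ := hrδ
  obtain ⟨hqu, hqi⟩ := hδU q hqU
  rw [← hM] at hqi
  have hqq : q * Ring.inverse q = 1 := Ring.mul_inverse_cancel q hqu
  refine ⟨p * Ring.inverse q, ?_, ?_⟩
  · refine (norm_mul_le _ _).trans ?_
    have h1 := hKb _ _ hgg
    rw [hp]
    gcongr
  · have h1 : D * Rv S y * Ring.inverse q = Rv S (T f y 0) * D := by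
      rw [e3, mul_assoc, hqq, mul_one]
    calc T g y 0 • (Rv S (T f y 0) * D) = D * (T g y 0 • Rv S y) * Ring.inverse q := by
          rw [← h1, mul_smul_comm, smul_mul_assoc]
      _ = D * Rv S y * (q * Ring.inverse q) + D * (p * Ring.inverse q) := by
          rw [e4]; simp only [mul_add, add_mul, mul_assoc]
      _ = _ := by rw [hqq, mul_one]

end operator

end Pool.Agent.H109F.LK
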