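import Mathlib
import Pool.Agent.H109F.LK.Tail

/-!
# Composition of power series
-/

set_option autoImplicit false

open Filter Topology Finset

namespace Pool.Agent.H109F.LK

/-- coefficients of the powers of a power series -/
noncomputable def cp (f : ℕ → ℂ) : ℕ → ℕ → ℂ
  | 0 => fun m => if m = 0 then 1 else 0
  | j + 1 => fun m => ∑ kl ∈ antidiagonal m, f kl.1 * cp f j kl.2

theorem cp_zero {f : ℕ → ℂ} (h0 : f 0 = 0) (j : ℕ) : cp f (j + 1) 0 = 0 := by
  simp [cp, h0]

theorem cp_one {f : ℕ → ℂ} (h0 : f 0 = 0) (j : ℕ) : cp f (j + 1) 1 = f 1 * cp f j 0 := by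
  simp [cp, Finset.Nat.antidiagonal_succ, h0]

theorem half_sum (m : ℕ) : ∑ k ∈ range m, (1 / 2 : ℝ) ^ (k + 1) ≤ 1 := by
  have h : ∑ k ∈ range m, (1 / 2 : ℝ) ^ (k + 1) = 1 - (1 / 2 : ℝ) ^ m := by
    induction m with
    | zero => simp
    | succ m ih => rw [sum_range_succ, ih, pow_succ]; ring
  rw [h]
  have : (0 : ℝ) ≤ (1 / 2 : ℝ) ^ m := by positivity
  linarith

theorem cp_bound {f : ℕ → ℂ} (h0 : f 0 = 0) {q R : ℝ} (hq : 0 < q) (hR : 0 < R)
    (hf : ∀ i, ‖f (i + 1)‖ ≤ q * (R * (1 / 2)) ^ (i + 1)) (j : ℕ) :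
    ∀ m, ‖cp f j m‖ ≤ q ^ j * R ^ m := by
  induction j with
  | zero =>
    intro m
    by_cases hm : m = 0
    · subst hm; simp [cp]
    · simp only [cp, if_neg hm, norm_zero]
      positivity
  | succ j ih =>
    intro m
    have h1 : cp f (j + 1) m = ∑ k ∈ range (m + 1), f k * cp f j (m - k) :=
      Finset.Nat.sum_antidiagonal_eq_sum_range_succ (fun a b => f a * cp f j b) m
    rw [h1, sum_range_succ', h0, zero_mul, add_zero]
    have h2 : ∀ k ∈ range m, ‖f (k + 1) * cp f j (m - (k + 1))‖ ≤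
        q ^ (j + 1) * R ^ m * (1 / 2 : ℝ) ^ (k + 1) := by
      intro k hk
      have hk' := mem_range.1 hk
      rw [norm_mul]
      calc ‖f (k + 1)‖ * ‖cp f j (m - (k + 1))‖ ≤
            (q * (R * (1 / 2)) ^ (k + 1)) * (q ^ j * R ^ (m - (k + 1))) := by
            gcongr
            · exact hf k
            · exact ih _
        _ = q ^ (j + 1) * R ^ ((k + 1) + (m - (k + 1))) * (1 / 2 : ℝ) ^ (k + 1) := by
            rw [mul_pow, pow_add]; ring
        _ = _ := by
            congr 3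
            omega
    refine (norm_sum_le _ _).trans ((Finset.sum_le_sum h2).trans ?_)
    rw [← mul_sum]
    exact mul_le_of_le_one_right (by positivity) (half_sum m)

section operator

variable {X : Type} [NormedAddCommGroup X] [NormedSpace ℂ X] [CompleteSpace X]
variable {S : X →L[ℂ] X} {f g : ℕ → ℂ} {C B C' B' : ℝ}

theorem GB.nsum (hS : spectrum ℂ S ⊆ {0}) (hf : GB f C B) : Summable fun n => ‖f n • S ^ n‖ := by
  have hC := hf.hC
  have hB := hf.hB
  obtain ⟨M, hM, h⟩ := pow_bound hS (ε := 1 / (2 * B)) (by positivity)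
  refine Summable.of_nonneg_of_le (fun n => norm_nonneg _) (fun n => ?_)
    ((summable_geometric_of_lt_one (r := (1 / 2 : ℝ)) (by norm_num) (by norm_num)).mul_left (C * M))
  rw [norm_smul]
  calc ‖f n‖ * ‖S ^ n‖ ≤ (C * B ^ n) * (M * (1 / (2 * B)) ^ n) := by
        gcongr
        · exact hf.h n
        · exact h n
    _ = C * M * (B * (1 / (2 * B))) ^ n := by rw [mul_pow B]; ring
    _ = _ := by
        congr 2
        field_simp

theorem cp_ps (hS : spectrum ℂ S ⊆ {0}) (hf : GB f C B) (h0 : f 0 = 0) {q R : ℝ} (hq : 0 < q)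
    (hR : 0 < R) (hfb : ∀ i, ‖f (i + 1)‖ ≤ q * (R * (1 / 2)) ^ (i + 1)) (j : ℕ) :
    ps S (cp f j) = ps S f ^ j := by
  induction j with
  | zero =>
    unfold ps
    rw [tsum_eq_single 0]
    · simp [cp]
    · intro n hn
      simp [cp, hn]
  | succ j ih =>
    rw [pow_succ', ← ih]
    have hg : GB (cp f j) (q ^ j) R := ⟨by positivity, hR, cp_bound h0 hq hR hfb j⟩
    unfold ps
    rw [tsum_mul_tsum_eq_tsum_sum_antidiagonal_of_summable_norm (hf.nsum hS) (hg.nsum hS)]
    refine tsum_congr fun n => ?_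
    show (∑ kl ∈ antidiagonal n, f kl.1 * cp f j kl.2) • S ^ n = _
    rw [Finset.sum_smul]
    refine Finset.sum_congr rfl fun kl hkl => ?_
    rw [smul_mul_smul_comm, ← pow_add, mem_antidiagonal.1 hkl]

/-- composition of power series -/
theorem comp_ps (hS : spectrum ℂ S ⊆ {0}) (hf : GB f C B) (h0 : f 0 = 0) (hg : GB g C' B') :
    ∃ (h : ℕ → ℂ) (C'' B'' : ℝ), GB h C'' B'' ∧ h 0 = g 0 ∧ h 1 = g 1 * f 1 ∧
      ∀ K : X →L[ℂ] X, S * K = K * ps S f → ps S g * K = K * ps S h := by
  have hC := hf.hC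
  have hB := hf.hB
  have hC' := hg.hC
  have hB' := hg.hB
  obtain ⟨q, hq⟩ : ∃ q : ℝ, q = 1 / (2 * B') := ⟨_, rfl⟩
  have hq0 : 0 < q := by rw [hq]; positivity
  obtain ⟨R, hR⟩ : ∃ R : ℝ, R = 2 * (B * (1 + C / q)) := ⟨_, rfl⟩
  have hR0 : 0 < R := by rw [hR]; positivity
  have hfb : ∀ i, ‖f (i + 1)‖ ≤ q * (R * (1 / 2)) ^ (i + 1) := by
    intro i
    have h1 : R * (1 / 2) = B * (1 + C / q) := by rw [hR]; ring
    rw [h1, mul_pow]
    have h2 : 1 + C / q ≤ (1 + C / q) ^ (i + 1) := by
      refine le_self_pow₀ ?_ (by omega)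
      have : 0 ≤ C / q := by positivity
      linarith
    calc ‖f (i + 1)‖ ≤ C * B ^ (i + 1) := hf.h _
      _ = q * (B ^ (i + 1) * (C / q)) := by field_simp
      _ ≤ q * (B ^ (i + 1) * (1 + C / q)) := by
          gcongr
          linarith
      _ ≤ q * (B ^ (i + 1) * (1 + C / q) ^ (i + 1)) := by gcongr
  have hcp := fun j => cp_bound h0 hq0 hR0 hfb j
  have hterm : ∀ j m, ‖g j * cp f j m‖ ≤ C' * R ^ m * (1 / 2 : ℝ) ^ j := by
    intro j m
    rw [norm_mul]
    calc ‖g j‖ * ‖cp f j m‖ ≤ (C' * B' ^ j) * (q ^ j * R ^ m) := by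
          gcongr
          · exact hg.h j
          · exact hcp j m
      _ = C' * R ^ m * (B' * q) ^ j := by rw [mul_pow]; ring
      _ = _ := by
          congr 2
          rw [hq]
          field_simp
  have hsm : ∀ m, Summable fun j => g j * cp f j m := fun m =>
    Summable.of_norm_bounded ((summable_geometric_of_lt_one (by norm_num) (by norm_num)).mul_left _)
      fun j => hterm j m
  obtain ⟨h, hh⟩ : ∃ h : ℕ → ℂ, h = fun m => ∑' j, g j * cp f j m := ⟨_, rfl⟩
  have hhb : GB h (2 * C') R := by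
    refine ⟨by positivity, hR0, fun m => ?_⟩
    rw [hh]
    have h1 := tsum_of_norm_bounded ((hasSum_geometric_of_lt_one (r := (1 / 2 : ℝ)) (by norm_num)
      (by norm_num)).mul_left (C' * R ^ m)) (fun j => hterm j m)
    refine h1.trans (le_of_eq ?_)
    norm_num
    ring
  refine ⟨h, 2 * C', R, hhb, ?_, ?_, fun K hK => ?_⟩
  · rw [hh]
    show ∑' j, g j * cp f j 0 = g 0
    rw [tsum_eq_single 0]
    · simp [cp]
    · intro j hj
      obtain ⟨i, rfl⟩ : ∃ i, j = i + 1 := ⟨j - 1, by omega⟩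
      rw [cp_zero h0, mul_zero]
  · rw [hh]
    show ∑' j, g j * cp f j 1 = g 1 * f 1
    rw [tsum_eq_single 1]
    · rw [cp_one h0]
      simp [cp]
    · intro j hj
      rcases j with _ | j
      · simp [cp]
      · obtain ⟨i, rfl⟩ : ∃ i, j = i + 1 := ⟨j - 1, by omega⟩
        rw [cp_one h0, cp_zero h0, mul_zero, mul_zero]
  · -- the operator identity
    have hSp : ∀ j : ℕ, S ^ j * K = K * ps S f ^ j := by
      intro j
      induction j with
      | zero => simp
      | succ j ih => rw [pow_succ', mul_assoc, ih, ← mul_assoc, hK, mul_assoc, ← pow_succ']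
    obtain ⟨M, hM, hpb⟩ := pow_bound hS (ε := 1 / (2 * R)) (by positivity)
    have hdouble : Summable fun p : ℕ × ℕ => (g p.1 * cp f p.1 p.2) • S ^ p.2 := by
      refine Summable.of_norm_bounded (g := fun p : ℕ × ℕ => (C' * (1 / 2 : ℝ) ^ p.1) * (M * (1 / 2 : ℝ) ^ p.2)) ?_
        fun p => ?_
      · refine Summable.mul_of_nonneg (f := fun n : ℕ => C' * (1 / 2 : ℝ) ^ n) (g := fun n : ℕ => M * (1 / 2 : ℝ) ^ n)
          ?_ ?_ (fun _ => by positivity) (fun _ => by positivity)
        · exact (summable_geometric_of_lt_one (by norm_num) (by norm_num)).mul_left _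
        · exact (summable_geometric_of_lt_one (by norm_num) (by norm_num)).mul_left _
      · rw [norm_smul]
        calc ‖g p.1 * cp f p.1 p.2‖ * ‖S ^ p.2‖ ≤
              (C' * R ^ p.2 * (1 / 2 : ℝ) ^ p.1) * (M * (1 / (2 * R)) ^ p.2) := by
              gcongr
              · exact hterm _ _
              · exact hpb _
          _ = (C' * (1 / 2 : ℝ) ^ p.1) * (M * (R * (1 / (2 * R))) ^ p.2) := by
              rw [mul_pow R]; ring
          _ = _ := by
              congr 3
              field_simp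
    have hin : ∀ j, ∑' m, (g j * cp f j m) • S ^ m = g j • ps S f ^ j := by
      intro j
      have hgj : GB (cp f j) (q ^ j) R := ⟨by positivity, hR0, hcp j⟩
      rw [← cp_ps hS hf h0 hq0 hR0 hfb j]
      unfold ps
      rw [← (hgj.sum hS).tsum_const_smul]
      exact tsum_congr fun m => mul_smul _ _ _
    have hsj : Summable fun j => g j • ps S f ^ j := by
      have h1 := hdouble.prod
      exact h1.congr fun j => (hin j)
    have hps : ps S h = ∑' j, g j • ps S f ^ j := by
      have h1 : ps S h = ∑' m, ∑' j, (g j * cp f j m) • S ^ m := by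
        unfold ps
        refine tsum_congr fun m => ?_
        rw [hh]
        exact ((hsm m).tsum_smul_const (S ^ m)).symm
      rw [h1, Summable.tsum_comm (f := fun j m => (g j * cp f j m) • S ^ m) hdouble]
      exact tsum_congr hin
    rw [hps, ← hsj.tsum_mul_left]
    unfold ps
    rw [← (hg.sum hS).tsum_mul_right]
    refine tsum_congr fun j => ?_
    rw [smul_mul_assoc, hSp, mul_smul_comm]
    rfl

end operator

end Pool.Agent.H109F.LK
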