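import Mathlib
import Pool.Agent.H109F.LK.Act

/-!
# Factorization of convergent power series in two variables
-/

set_option autoImplicit false

open Polynomial Finset Filter Topology

namespace Pool.Agent.H109F.LK

theorem sum_inv_sq (n : ℕ) : ∑ i ∈ range n, 1 / ((i : ℝ) + 1) ^ 2 ≤ 2 := by
  have h : ∀ n : ℕ, ∑ i ∈ range (n + 1), 1 / ((i : ℝ) + 1) ^ 2 ≤ 2 - 1 / ((n : ℝ) + 1) := by
    intro n
    induction n with
    | zero => simp; norm_num
    | succ n ih =>
      rw [Finset.sum_range_succ]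
      have h1 : 1 / (((n + 1 : ℕ) : ℝ) + 1) ^ 2 ≤ 1 / ((n : ℝ) + 1) - 1 / (((n + 1 : ℕ) : ℝ) + 1) := by
        push_cast
        rw [div_sub_div _ _ (by positivity) (by positivity), div_le_div_iff₀ (by positivity) (by positivity)]
        ring_nf
        nlinarith
      linarith
  rcases n with _ | n
  · simp
  · have h1 := h n
    have h2 : 0 ≤ 1 / ((n : ℝ) + 1) := by positivity
    linarith

theorem conv_inv_sq (n : ℕ) :
    ∑ i ∈ range n, 1 / ((i : ℝ) + 1) ^ 2 * (1 / ((n : ℝ) - i) ^ 2) ≤ 8 / ((n : ℝ) + 1) ^ 2 := by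
  have h1 : ∀ i ∈ range n, 1 / ((i : ℝ) + 1) ^ 2 * (1 / ((n : ℝ) - i) ^ 2) ≤
      2 / ((n : ℝ) + 1) ^ 2 * (1 / ((i : ℝ) + 1) ^ 2 + 1 / ((n : ℝ) - i) ^ 2) := by
    intro i hi
    rw [mem_range] at hi
    have hi' : (i : ℝ) + 1 ≤ n := by exact_mod_cast hi
    have ha : 0 < (i : ℝ) + 1 := by positivity
    have hb : 0 < (n : ℝ) - i := by linarith
    have hab : (n : ℝ) + 1 = ((i : ℝ) + 1) + ((n : ℝ) - i) := by ring
    rw [hab]
    generalize (i : ℝ) + 1 = x at *
    generalize (n : ℝ) - i = y at *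
    rw [div_mul_div_comm, div_add_div _ _ (by positivity) (by positivity), div_mul_div_comm,
      div_le_div_iff₀ (by positivity) (by positivity)]
    have : 0 ≤ (x - y) ^ 2 := sq_nonneg _
    have hxy : (x + y) ^ 2 ≤ 2 * (y ^ 2 + x ^ 2) := by nlinarith
    nlinarith [mul_pos (pow_pos ha 2) (pow_pos hb 2)]
  refine (Finset.sum_le_sum h1).trans ?_
  rw [← Finset.mul_sum, Finset.sum_add_distrib]
  have h2 : ∑ i ∈ range n, 1 / ((n : ℝ) - i) ^ 2 = ∑ i ∈ range n, 1 / ((i : ℝ) + 1) ^ 2 := by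
    rw [← Finset.sum_range_reflect]
    refine Finset.sum_congr rfl fun i hi => ?_
    rw [mem_range] at hi
    have : ((n - 1 - i : ℕ) : ℝ) = (n : ℝ) - 1 - i := by
      rw [Nat.cast_sub (by omega), Nat.cast_sub (by omega)]
      simp
    rw [this]
    congr 2
    ring
  rw [h2]
  have h3 := sum_inv_sq n
  calc 2 / ((n : ℝ) + 1) ^ 2 * (∑ i ∈ range n, 1 / ((i : ℝ) + 1) ^ 2 +
        ∑ i ∈ range n, 1 / ((i : ℝ) + 1) ^ 2) ≤ 2 / ((n : ℝ) + 1) ^ 2 * (2 + 2) := by gcongr
    _ = _ := by ring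

theorem nrm_le_pow {θ : ℝ} (hθ : 1 ≤ θ) {p : ℂ[X]} {n : ℕ} (hp : p.natDegree ≤ n) :
    nrm θ p ≤ θ ^ n * nrm 1 p := by
  rw [nrm_eq (Nat.lt_succ_of_le hp), nrm_eq (Nat.lt_succ_of_le hp), Finset.mul_sum]
  refine Finset.sum_le_sum fun i hi => ?_
  rw [mem_range] at hi
  rw [one_pow, mul_one, mul_comm]
  exact mul_le_mul_of_nonneg_right (pow_le_pow_right₀ hθ (by omega)) (norm_nonneg _)

theorem nrm_one_le {θ : ℝ} (hθ : 1 ≤ θ) (p : ℂ[X]) : nrm 1 p ≤ nrm θ p := by
  rw [nrm_eq (Nat.lt_succ_self _), nrm_eq (Nat.lt_succ_self _)]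
  refine Finset.sum_le_sum fun i _ => ?_
  rw [one_pow]
  exact mul_le_mul_of_nonneg_left (one_le_pow₀ hθ) (norm_nonneg _)

/-- bounded solution of the linearized equation -/
theorem solve {θ : ℝ} (hθ0 : 0 ≤ θ) {s : Multiset ℂ} (hs : ∀ z ∈ s, ‖z‖ < θ) {v : ℂ[X]} {b : ℕ} (hv : v.natDegree ≤ b)
    (hco : IsCoprime (rp s) v) : ∃ M : ℝ, 1 ≤ M ∧ ∀ (n : ℕ) (G : ℂ[X]), G.natDegree ≤ s.card + b + n →
      ∃ AB : ℂ[X] × ℂ[X], AB.1.degree < s.card ∧ AB.1.natDegree ≤ s.card + n ∧
        AB.2.natDegree ≤ b + n ∧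
        rp s * AB.2 + AB.1 * v = G ∧ nrm θ AB.1 ≤ M * nrm θ G ∧ nrm θ AB.2 ≤ M * nrm θ G := by
  obtain ⟨M0, hM0, hdiv⟩ := div_rp hθ0 s hs
  obtain ⟨p, t, hpt⟩ := hco
  have ht := nrm_nonneg hθ0 t
  have hp := nrm_nonneg hθ0 p
  have hv' := nrm_nonneg hθ0 v
  refine ⟨1 + M0 * nrm θ t + nrm θ p + nrm θ v * (M0 * nrm θ t), ?_, fun n G hG => ?_⟩
  · have : 0 ≤ M0 * nrm θ t := by positivity
    have : 0 ≤ nrm θ v * (M0 * nrm θ t) := by positivity
    linarith
  · obtain ⟨q, A, h1, h2, h3, h4⟩ := hdiv (t * G)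
    have hG0 := nrm_nonneg hθ0 G
    have htG : nrm θ (t * G) ≤ nrm θ t * nrm θ G := nrm_mul_le hθ0 _ _
    have hAd : A.natDegree ≤ s.card := natDegree_le_of_degree_le h2.le
    have heq : rp s * (p * G + v * q) + A * v = G := by
      have h5 : A = t * G - rp s * q := by rw [h1]; ring
      rw [h5]
      calc _ = (p * rp s + t * v) * G := by ring
        _ = G := by rw [hpt, one_mul]
    refine ⟨(A, p * G + v * q), h2, ?_, ?_, heq, ?_, ?_⟩
    · simp only; omega
    · simp only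
      by_cases hB : p * G + v * q = 0
      · rw [hB]; simp
      · have h6 : (rp s * (p * G + v * q)).natDegree = s.card + (p * G + v * q).natDegree := by
          rw [(rp_monic s).natDegree_mul' hB, rp_natDegree]
        have h7 : rp s * (p * G + v * q) = G - A * v := eq_sub_of_add_eq heq
        have h8 : (G - A * v).natDegree ≤ s.card + b + n := by
          refine (natDegree_sub_le _ _).trans (max_le hG ?_)
          refine natDegree_mul_le.trans ?_
          omega
        rw [h7] at h6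
        omega
    · simp only
      have h9 : nrm θ A ≤ M0 * (nrm θ t * nrm θ G) := h4.trans (by gcongr)
      have h10 : 0 ≤ (1 + nrm θ p + nrm θ v * (M0 * nrm θ t)) * nrm θ G := by positivity
      nlinarith
    · simp only
      have h9 : nrm θ q ≤ M0 * (nrm θ t * nrm θ G) := h3.trans (by gcongr)
      have h10 : nrm θ (p * G + v * q) ≤ nrm θ p * nrm θ G + nrm θ v * (M0 * (nrm θ t * nrm θ G)) := by
        refine (nrm_add_le hθ0 _ _).trans (add_le_add (nrm_mul_le hθ0 _ _) ?_)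
        refine (nrm_mul_le hθ0 _ _).trans ?_
        gcongr
      have h11 : 0 ≤ (1 + M0 * nrm θ t) * nrm θ G := by positivity
      nlinarith

/-- the recursion -/
noncomputable def hrec (sol : ℕ → ℂ[X] → ℂ[X] × ℂ[X]) (u v : ℂ[X]) (P : ℕ → ℂ[X]) : ℕ → ℂ[X] × ℂ[X]
  | 0 => (u, v)
  | n + 1 => sol (n + 1) (P (n + 1) - ∑ i : Fin n,
      (hrec sol u v P (i + 1)).1 * (hrec sol u v P (n - i)).2)
decreasing_by
  · have := i.2; omega
  · omega

theorem hensel {P : ℕ → ℂ[X]} (hP : IsGerm P) {θ : ℝ} (hθ : 1 ≤ θ) {s : Multiset ℂ}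
    (hs : ∀ z ∈ s, ‖z‖ < θ) {v : ℂ[X]}
    {b : ℕ} (hv : v.natDegree ≤ b) (hco : IsCoprime (rp s) v)
    (hP0 : ∀ n < s.card + b, P n = 0) (hPk : P (s.card + b) = rp s * v) :
    ∃ U V : ℕ → ℂ[X], IsGerm U ∧ IsGerm V ∧ (∀ n < s.card, U n = 0) ∧ U s.card = rp s ∧
      (∀ n < b, V n = 0) ∧ V b = v ∧ gmul U V = P ∧ ∀ n, s.card < n → (U n).degree < s.card := by
  have hθ0 : 0 ≤ θ := zero_le_one.trans hθ
  obtain ⟨M, hM, hsol⟩ := solve hθ0 hs hv hco
  obtain ⟨C, B0, hC, hB0, hPb⟩ : ∃ C B : ℝ, 0 ≤ C ∧ 0 < B ∧ ∀ n, nrm θ (P n) ≤ C * B ^ n := by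
    obtain ⟨C, B, hC, hB, h⟩ := hP.bd
    refine ⟨C, θ * B, hC, by positivity, fun n => ?_⟩
    have h1 := nrm_le_pow hθ (hP.deg n)
    calc nrm θ (P n) ≤ θ ^ n * nrm 1 (P n) := h1
      _ ≤ θ ^ n * (C * B ^ n) := by
          gcongr
          exact h n
      _ = _ := by rw [mul_pow]; ring
  have hM0 : 0 < M := by linarith
  have hex : ∀ (n : ℕ) (G : ℂ[X]), ∃ AB : ℂ[X] × ℂ[X], G.natDegree ≤ s.card + b + n →
      (AB.1.degree < s.card ∧ AB.1.natDegree ≤ s.card + n ∧ AB.2.natDegree ≤ b + n ∧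
        rp s * AB.2 + AB.1 * v = G ∧ nrm θ AB.1 ≤ M * nrm θ G ∧ nrm θ AB.2 ≤ M * nrm θ G) := by
    intro n G
    by_cases hG : G.natDegree ≤ s.card + b + n
    · obtain ⟨AB, h⟩ := hsol n G hG
      exact ⟨AB, fun _ => h⟩
    · exact ⟨0, fun h => absurd h hG⟩
  choose sol hsolp using hex
  obtain ⟨F, hF⟩ : ∃ F : ℕ → ℂ[X] × ℂ[X], F = hrec sol (rp s) v (fun n => P (s.card + b + n)) := ⟨_, rfl⟩
  obtain ⟨G, hG⟩ : ∃ G : ℕ → ℂ[X], G = fun n => P (s.card + b + (n + 1)) - ∑ i : Fin n,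
      (F (i + 1)).1 * (F (n - i)).2 := ⟨_, rfl⟩
  have hF0 : F 0 = (rp s, v) := by rw [hF, hrec]
  have hFs : ∀ n, F (n + 1) = sol (n + 1) (G n) := by
    intro n
    rw [hG, hF]
    conv_lhs => rw [hrec]
  -- degrees
  have hdeg : ∀ n, (F n).1.natDegree ≤ s.card + n ∧ (F n).2.natDegree ≤ b + n := by
    intro n
    induction n using Nat.strong_induction_on with
    | _ n ih =>
      rcases n with _ | n
      · rw [hF0]
        exact ⟨by simp only; rw [rp_natDegree]; omega, by simp only; omega⟩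
      · have hGd : (G n).natDegree ≤ s.card + b + (n + 1) := by
          rw [hG]
          refine (natDegree_sub_le _ _).trans (max_le (hP.deg _) ?_)
          refine natDegree_sum_le_of_forall_le _ _ fun i _ => ?_
          have h1 := (ih (i + 1) (by have := i.2; omega)).1
          have h2 := (ih (n - i) (by omega)).2
          refine natDegree_mul_le.trans ?_
          have := i.2
          omega
        have := hsolp (n + 1) (G n) hGd
        rw [hFs]
        exact ⟨this.2.1, this.2.2.1⟩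
  have hGd : ∀ n, (G n).natDegree ≤ s.card + b + (n + 1) := by
    intro n
    rw [hG]
    refine (natDegree_sub_le _ _).trans (max_le (hP.deg _) ?_)
    refine natDegree_sum_le_of_forall_le _ _ fun i _ => ?_
    have h1 := (hdeg (i + 1)).1
    have h2 := (hdeg (n - i)).2
    refine natDegree_mul_le.trans ?_
    have := i.2
    omega
  have hsolF := fun n => hsolp (n + 1) (G n) (hGd n)
  simp only [← hFs] at hsolF
  -- norms
  obtain ⟨β, hβ⟩ : ∃ β : ℝ, β = 1 / (16 * M) := ⟨_, rfl⟩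
  have hβ0 : 0 < β := by rw [hβ]; positivity
  obtain ⟨B1, hB1, hB1'⟩ : ∃ B1 : ℝ, 1 ≤ B1 ∧ B0 ≤ B1 := ⟨max 1 B0, le_max_left _ _, le_max_right _ _⟩
  obtain ⟨L, hL1, hL2⟩ : ∃ L : ℝ, 1 ≤ L ∧ 2 * M * C * B1 ^ (s.card + b) ≤ β * L := by
    refine ⟨1 + 2 * M * C * B1 ^ (s.card + b) / β, ?_, ?_⟩
    · have : 0 ≤ 2 * M * C * B1 ^ (s.card + b) / β := by positivity
      linarith
    · rw [mul_add, mul_div_cancel₀ _ hβ0.ne']
      linarith
  obtain ⟨E, hE⟩ : ∃ E : ℝ, E = 4 * B1 * L := ⟨_, rfl⟩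
  have hE1 : 1 ≤ E := by
    rw [hE]
    have : 1 ≤ B1 * L := one_le_mul_of_one_le_of_one_le hB1 hL1
    linarith
  have hE0 : 0 < E := by linarith
  have hEn : ∀ n : ℕ, M * nrm θ (P (s.card + b + (n + 1))) ≤ 1 / 2 * (β * E ^ (n + 1) / ((n : ℝ) + 1) ^ 2) := by
    intro n
    have h1 : ((n : ℝ) + 1) ^ 2 ≤ 4 ^ (n + 1) := by
      have h2 : (n : ℝ) + 1 ≤ 2 ^ (n + 1) := by
        have : n + 1 < 2 ^ (n + 1) := Nat.lt_two_pow_self
        exact_mod_cast this.le
      calc ((n : ℝ) + 1) ^ 2 ≤ (2 ^ (n + 1)) ^ 2 := by gcongr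
        _ = 4 ^ (n + 1) := by rw [← pow_mul, mul_comm, pow_mul]; norm_num
    have h3 : L ≤ L ^ (n + 1) := le_self_pow₀ hL1 (by omega)
    rw [mul_div_assoc', le_div_iff₀ (by positivity)]
    calc M * nrm θ (P (s.card + b + (n + 1))) * ((n : ℝ) + 1) ^ 2
        ≤ M * (C * B1 ^ (s.card + b + (n + 1))) * 4 ^ (n + 1) := by
          gcongr
          exact (hPb _).trans (by gcongr)
      _ = 1 / 2 * (2 * M * C * B1 ^ (s.card + b)) * (4 ^ (n + 1) * B1 ^ (n + 1)) := by
          rw [pow_add B1]; ring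
      _ ≤ 1 / 2 * (β * L ^ (n + 1)) * (4 ^ (n + 1) * B1 ^ (n + 1)) := by
          have : 2 * M * C * B1 ^ (s.card + b) ≤ β * L ^ (n + 1) := hL2.trans (by gcongr)
          gcongr
      _ = 1 / 2 * (β * E ^ (n + 1)) := by
          rw [hE, mul_pow, mul_pow]; ring
  have hnrm : ∀ n, nrm θ (F (n + 1)).1 ≤ β * E ^ (n + 1) / ((n : ℝ) + 1) ^ 2 ∧
      nrm θ (F (n + 1)).2 ≤ β * E ^ (n + 1) / ((n : ℝ) + 1) ^ 2 := by
    intro n
    induction n using Nat.strong_induction_on with
    | _ n ih =>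
      have hsum : nrm θ (∑ i : Fin n, (F (i + 1)).1 * (F (n - i)).2) ≤
          β ^ 2 * E ^ (n + 1) * (8 / ((n : ℝ) + 1) ^ 2) := by
        rw [← Finset.sum_range (fun i => (F (i + 1)).1 * (F (n - i)).2)]
        refine (nrm_sum_le hθ0 _ _).trans ?_
        have h1 : ∀ i ∈ range n, nrm θ ((F (i + 1)).1 * (F (n - i)).2) ≤
            β ^ 2 * E ^ (n + 1) * (1 / ((i : ℝ) + 1) ^ 2 * (1 / ((n : ℝ) - i) ^ 2)) := by
          intro i hi
          rw [mem_range] at hi
          obtain ⟨j, hj⟩ : ∃ j, n - i = j + 1 := ⟨n - i - 1, by omega⟩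
          have h2 := (ih i hi).1
          have h3 := (ih j (by omega)).2
          have h4 : (n : ℝ) - i = (j : ℝ) + 1 := by
            have : n = j + 1 + i := by omega
            rw [this]; push_cast; ring
          rw [hj, h4]
          refine (nrm_mul_le hθ0 _ _).trans ?_
          calc nrm θ (F (i + 1)).1 * nrm θ (F (j + 1)).2 ≤
                (β * E ^ (i + 1) / ((i : ℝ) + 1) ^ 2) * (β * E ^ (j + 1) / ((j : ℝ) + 1) ^ 2) :=
                mul_le_mul h2 h3 (nrm_nonneg hθ0 _) (by positivity)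
            _ = β ^ 2 * E ^ (n + 1) * (1 / ((i : ℝ) + 1) ^ 2 * (1 / ((j : ℝ) + 1) ^ 2)) := by
                have : n + 1 = (i + 1) + (j + 1) := by omega
                rw [this, pow_add E]
                ring
        refine (Finset.sum_le_sum h1).trans ?_
        rw [← Finset.mul_sum]
        exact mul_le_mul_of_nonneg_left (conv_inv_sq n) (by positivity)
      have hGn : M * nrm θ (G n) ≤ β * E ^ (n + 1) / ((n : ℝ) + 1) ^ 2 := by
        have h1 : nrm θ (G n) ≤ nrm θ (P (s.card + b + (n + 1))) +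
            nrm θ (∑ i : Fin n, (F (i + 1)).1 * (F (n - i)).2) := by
          rw [hG]
          simp only
          rw [sub_eq_add_neg]
          refine (nrm_add_le hθ0 _ _).trans ?_
          rw [nrm_neg]
        have h2 : M * (β ^ 2 * E ^ (n + 1) * (8 / ((n : ℝ) + 1) ^ 2)) =
            1 / 2 * (β * E ^ (n + 1) / ((n : ℝ) + 1) ^ 2) := by
          have : M * β ^ 2 = β / 16 := by
            rw [hβ]; field_simp
          calc _ = (M * β ^ 2) * (E ^ (n + 1) * (8 / ((n : ℝ) + 1) ^ 2)) := by ring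
            _ = _ := by rw [this]; ring
        calc M * nrm θ (G n) ≤ M * (nrm θ (P (s.card + b + (n + 1))) +
              nrm θ (∑ i : Fin n, (F (i + 1)).1 * (F (n - i)).2)) := by gcongr
          _ = M * nrm θ (P (s.card + b + (n + 1))) +
              M * nrm θ (∑ i : Fin n, (F (i + 1)).1 * (F (n - i)).2) := by ring
          _ ≤ 1 / 2 * (β * E ^ (n + 1) / ((n : ℝ) + 1) ^ 2) +
              M * (β ^ 2 * E ^ (n + 1) * (8 / ((n : ℝ) + 1) ^ 2)) :=
              add_le_add (hEn n) (mul_le_mul_of_nonneg_left hsum hM0.le)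
          _ = _ := by rw [h2]; ring
      exact ⟨(hsolF n).2.2.2.2.1.trans hGn, (hsolF n).2.2.2.2.2.trans hGn⟩
  have hle : ∀ n : ℕ, β * E ^ (n + 1) / ((n : ℝ) + 1) ^ 2 ≤ β * E ^ (n + 1) := by
    intro n
    apply div_le_self (by positivity)
    have : (1 : ℝ) ≤ (n : ℝ) + 1 := by
      have : (0 : ℝ) ≤ n := Nat.cast_nonneg n
      linarith
    nlinarith
  -- products
  have hprod : ∀ n, ∑ ij ∈ antidiagonal n, (F ij.1).1 * (F ij.2).2 = P (s.card + b + n) := by
    intro n
    rw [Finset.Nat.sum_antidiagonal_eq_sum_range_succ_mk]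
    rcases n with _ | n
    · simp only [Nat.succ_eq_add_one, zero_add, Finset.range_one, Finset.sum_singleton, hF0]
      rw [add_zero, hPk]
    · rw [Nat.succ_eq_add_one, Finset.sum_range_succ, Finset.sum_range_succ']
      simp only [hF0, Nat.sub_self, Nat.sub_zero]
      have h1 := (hsolF n).2.2.2.1
      have h2 : ∑ i ∈ range n, (F (i + 1)).1 * (F (n + 1 - (i + 1))).2 =
          ∑ i : Fin n, (F (i + 1)).1 * (F (n - i)).2 := by
        rw [← Finset.sum_range (fun i => (F (i + 1)).1 * (F (n - i)).2)]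
        refine Finset.sum_congr rfl fun i _ => ?_
        rw [show n + 1 - (i + 1) = n - i by omega]
      rw [h2, add_assoc, h1, hG]
      simp only
      ring
  refine ⟨fun n => if n < s.card then 0 else (F (n - s.card)).1,
    fun n => if n < b then 0 else (F (n - b)).2, ?_, ?_, ?_, ?_, ?_, ?_, ?_, ?_⟩
  · refine ⟨fun n => ?_, nrm θ (rp s) + β, E, by have := nrm_nonneg hθ0 (rp s); positivity, hE0, fun n => ?_⟩
    · split_ifs with h
      · simp
      · have := (hdeg (n - s.card)).1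
        omega
    · refine (nrm_one_le hθ _).trans ?_
      have h0 := nrm_nonneg hθ0 (rp s)
      split_ifs with h
      · rw [nrm_zero]; positivity
      · obtain ⟨m, rfl⟩ : ∃ m, n = s.card + m := ⟨n - s.card, by omega⟩
        rw [Nat.add_sub_cancel_left]
        have hEm : E ^ m ≤ E ^ (s.card + m) := pow_le_pow_right₀ hE1 (by omega)
        rcases m with _ | m
        · rw [hF0]
          have : 1 ≤ E ^ (s.card + 0) := one_le_pow₀ hE1
          simp only
          nlinarith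
        · have h1 := (hnrm m).1.trans (hle m)
          have h2 : β * E ^ (m + 1) ≤ β * E ^ (s.card + (m + 1)) := mul_le_mul_of_nonneg_left hEm hβ0.le
          have h3 : 0 ≤ nrm θ (rp s) * E ^ (s.card + (m + 1)) := by positivity
          rw [add_mul]
          linarith
  · refine ⟨fun n => ?_, nrm θ v + β, E, by have := nrm_nonneg hθ0 v; positivity, hE0, fun n => ?_⟩
    · split_ifs with h
      · simp
      · have := (hdeg (n - b)).2
        omega
    · refine (nrm_one_le hθ _).trans ?_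
      have h0 := nrm_nonneg hθ0 v
      split_ifs with h
      · rw [nrm_zero]; positivity
      · obtain ⟨m, rfl⟩ : ∃ m, n = b + m := ⟨n - b, by omega⟩
        rw [Nat.add_sub_cancel_left]
        have hEm : E ^ m ≤ E ^ (b + m) := pow_le_pow_right₀ hE1 (by omega)
        rcases m with _ | m
        · rw [hF0]
          have : 1 ≤ E ^ (b + 0) := one_le_pow₀ hE1
          simp only
          nlinarith
        · have h1 := (hnrm m).2.trans (hle m)
          have h2 : β * E ^ (m + 1) ≤ β * E ^ (b + (m + 1)) := mul_le_mul_of_nonneg_left hEm hβ0.le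
          have h3 : 0 ≤ nrm θ v * E ^ (b + (m + 1)) := by positivity
          rw [add_mul]
          linarith
  · intro n hn
    simp only
    rw [if_pos hn]
  · simp only
    rw [if_neg (lt_irrefl _), Nat.sub_self, hF0]
  · intro n hn
    simp only
    rw [if_pos hn]
  · simp only
    rw [if_neg (lt_irrefl _), Nat.sub_self, hF0]
  · funext n
    unfold gmul
    simp only
    rcases lt_or_ge n (s.card + b) with hn | hn
    · rw [hP0 n hn]
      refine Finset.sum_eq_zero fun ij hij => ?_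
      rw [HasAntidiagonal.mem_antidiagonal] at hij
      by_cases h1 : ij.1 < s.card
      · rw [if_pos h1, zero_mul]
      · rw [if_pos (show ij.2 < b by omega), mul_zero]
    · obtain ⟨m, rfl⟩ : ∃ m, n = s.card + b + m := ⟨n - (s.card + b), by omega⟩
      rw [← hprod m]
      symm
      refine Finset.sum_of_injOn (fun ij => (s.card + ij.1, b + ij.2)) ?_ ?_ ?_ ?_
      · rintro ⟨i, j⟩ _ ⟨i', j'⟩ _ h
        simp only [Prod.mk.injEq] at h ⊢
        omega
      · rintro ⟨i, j⟩ hij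
        rw [mem_coe, HasAntidiagonal.mem_antidiagonal] at hij ⊢
        simp only at hij ⊢
        omega
      · rintro ⟨i, j⟩ hij hne
        rw [HasAntidiagonal.mem_antidiagonal] at hij
        simp only at hij ⊢
        by_cases h1 : i < s.card
        · rw [if_pos h1, zero_mul]
        · by_cases h2 : j < b
          · rw [if_pos h2, mul_zero]
          · exfalso
            apply hne
            refine ⟨(i - s.card, j - b), ?_, ?_⟩
            · rw [mem_coe, HasAntidiagonal.mem_antidiagonal]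
              simp only
              omega
            · simp only [Prod.mk.injEq]
              omega
      · rintro ⟨i, j⟩ _
        simp only
        rw [if_neg (by omega), if_neg (by omega), Nat.add_sub_cancel_left, Nat.add_sub_cancel_left]
  · intro n hn
    simp only
    obtain ⟨m, rfl⟩ : ∃ m, n = s.card + (m + 1) := ⟨n - s.card - 1, by omega⟩
    rw [if_neg (by omega), Nat.add_sub_cancel_left]
    exact (hsolF m).1

end Pool.Agent.H109F.LK
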