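import Mathlib
import Pool.Agent.H109F.LK.Bimod
import Pool.Agent.H109F.LK.Hensel

/-!
# The general case
-/

set_option autoImplicit false

open Polynomial Finset Filter Topology

namespace Pool.Agent.H109F.LK

open Pool.Agent.H875.QN

theorem coprime_X_sub_C {z : ℂ} {s : Multiset ℂ} (h : ∀ w ∈ s, z ≠ w) : IsCoprime (X - C z) (rp s) := by
  induction s using Multiset.induction_on with
  | empty =>
    have : rp (0 : Multiset ℂ) = 1 := by simp [rp]
    rw [this]
    exact isCoprime_one_right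
  | cons w s ih =>
    have h8 : rp (w ::ₘ s) = (X - C w) * rp s := by simp [rp]
    rw [h8]
    refine IsCoprime.mul_right ?_ (ih fun w' hw' => h w' (Multiset.mem_cons_of_mem hw'))
    refine isCoprime_X_sub_C_of_isUnit_sub ?_
    rw [isUnit_iff_ne_zero, sub_ne_zero]
    exact h w (Multiset.mem_cons_self w s)

theorem coprime_rp {s t : Multiset ℂ} (h : ∀ z ∈ s, ∀ w ∈ t, z ≠ w) : IsCoprime (rp s) (rp t) := by
  induction s using Multiset.induction_on with
  | empty =>
    have : rp (0 : Multiset ℂ) = 1 := by simp [rp]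
    rw [this]
    exact isCoprime_one_left
  | cons w s ih =>
    have h8 : rp (w ::ₘ s) = (X - C w) * rp s := by simp [rp]
    rw [h8]
    exact IsCoprime.mul_left (coprime_X_sub_C (h w (Multiset.mem_cons_self w s)))
      (ih fun w' hw' => h w' (Multiset.mem_cons_of_mem hw'))

theorem rp_root {s : Multiset ℂ} {z : ℂ} (h : (rp s).IsRoot z) : z ∈ s := by
  have h1 : z ∈ (rp s).roots := (mem_roots (rp_monic s).ne_zero).2 h
  rwa [rp, roots_multiset_prod_X_sub_C] at h1

variable {X : Type} [NormedAddCommGroup X] [NormedSpace ℂ X] [CompleteSpace X]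

theorem main {S K : X →L[ℂ] X} (hS : ¬ HasHyper S) (hS0 : S ≠ 0) (hq : spectrum ℂ S ⊆ {0})
    (hK : IsCompactOperator K) {P : ℕ → ℂ[X]} (hP : IsGerm P) {k : ℕ} (hP0 : ∀ n < k, P n = 0)
    (hk : ∀ z : ℂ, ‖z‖ = 1 → (P k).eval z ≠ 0) (h : act P (seq S K) 0 0 = 0) : K = 0 := by
  classical
  have hPk0 : P k ≠ 0 := by
    intro h0
    apply hk 1 (by simp)
    rw [h0, eval_zero]
  have hlc : (P k).leadingCoeff ≠ 0 := leadingCoeff_ne_zero.2 hPk0
  obtain ⟨s, hs⟩ : ∃ s : Multiset ℂ, s = (P k).roots.filter (fun z => ‖z‖ < 1) := ⟨_, rfl⟩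
  obtain ⟨t, ht⟩ : ∃ t : Multiset ℂ, t = (P k).roots.filter (fun z => ¬ ‖z‖ < 1) := ⟨_, rfl⟩
  have hs1 : ∀ z ∈ s, ‖z‖ < 1 := by
    intro z hz
    rw [hs, Multiset.mem_filter] at hz
    exact hz.2
  have ht1 : ∀ z ∈ t, 1 < ‖z‖ := by
    intro z hz
    rw [ht, Multiset.mem_filter] at hz
    have h1 : (P k).eval z = 0 := (mem_roots hPk0).1 hz.1
    rcases lt_trichotomy ‖z‖ 1 with h2 | h2 | h2
    · exact absurd h2 hz.2
    · exact absurd h1 (hk z h2)
    · exact h2
  have hst : (P k).roots = s + t := by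
    rw [hs, ht]
    exact (Multiset.filter_add_not _ _).symm
  have hcard : (P k).natDegree = s.card + t.card := by
    rw [(IsAlgClosed.splits (P k)).natDegree_eq_card_roots, hst, Multiset.card_add]
  have hdeg := hP.deg k
  obtain ⟨b, hb⟩ : ∃ b, k = s.card + b := ⟨k - s.card, by omega⟩
  obtain ⟨v, hv⟩ : ∃ v : ℂ[X], v = C (P k).leadingCoeff * rp t := ⟨_, rfl⟩
  have hvd : v.natDegree = t.card := by
    rw [hv, natDegree_C_mul hlc, rp_natDegree]
  have hfac : P k = rp s * v := by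
    have h1 := (IsAlgClosed.splits (P k)).eq_prod_roots
    have h2 : ((P k).roots.map fun z => (Polynomial.X : ℂ[X]) - C z).prod = rp s * rp t := by
      rw [hst, Multiset.map_add, Multiset.prod_add]
      rfl
    rw [h2] at h1
    rw [hv]
    exact h1.trans (by ring)
  have hco : IsCoprime (rp s) v := by
    rw [hv]
    refine IsCoprime.mul_right ?_ (coprime_rp ?_)
    · refine ⟨0, C (P k).leadingCoeff⁻¹, ?_⟩
      rw [zero_mul, zero_add, ← C_mul, inv_mul_cancel₀ hlc, C_1]
    · intro z hz w hw hzw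
      have h1 := hs1 z hz
      have h2 := ht1 w hw
      rw [hzw] at h1
      linarith
  obtain ⟨U, V, hU, hV, hU0, hUs, hV0, hVb, hUV, -⟩ := hensel hP le_rfl hs1 (v := v) (b := b) (by omega) hco
    (by intro n hn; exact hP0 n (by omega)) (by rw [← hb]; exact hfac)
  -- the first factor
  obtain ⟨K1, hK1⟩ : ∃ K1 : X →L[ℂ] X, K1 = act V (seq S K) 0 0 := ⟨_, rfl⟩
  have hK1c : IsCompactOperator K1 := by
    rw [hK1]
    exact act_compact hq hK hV
  have h1 : act U (seq S K1) 0 0 = 0 := by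
    rw [hK1, ← act_seq hq K hV, act_gmul hU hV (seq_SE hq K), hUV]
    exact h
  have hK10 : K1 = 0 := by
    refine typeA hS hS0 hq hK1c hU hU0 ?_ ?_ ?_ h1
    · rw [hUs, rp_natDegree]
    · rw [hUs]; exact (rp_monic s).ne_zero
    · intro z hz
      rw [hUs] at hz
      exact hs1 z (rp_root hz)
  -- the second factor
  refine typeB hS hS0 hq hK hV hV0 ?_ ?_ ?_ (hK1 ▸ hK10)
  · rw [hVb]
    refine le_antisymm ?_ (le_natDegree_of_ne_zero ?_)
    · refine natDegree_le_iff_coeff_eq_zero.2 fun N hN => ?_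
      rw [coeff_reflect, revAt_eq_self_of_lt hN]
      exact coeff_eq_zero_of_natDegree_lt (by omega)
    · rw [coeff_reflect, revAt_le le_rfl, Nat.sub_self, coeff_zero_eq_eval_zero, hv, eval_mul, eval_C]
      refine mul_ne_zero hlc fun h0 => ?_
      have := ht1 0 (rp_root h0)
      simp at this
      linarith
  · rw [hVb, hv]
    exact mul_ne_zero (C_ne_zero.2 hlc) (rp_monic t).ne_zero
  · intro z hz
    rw [hVb] at hz
    by_cases hz0 : z = 0
    · rw [hz0]; simp
    · have hzi : z⁻¹ ≠ 0 := inv_ne_zero hz0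
      haveI : Invertible z⁻¹ := invertibleOfNonzero hzi
      have h2 := eval₂_reflect_eq_zero_iff (RingHom.id ℂ) z⁻¹ b v (by omega)
      have h3 : ⅟(z⁻¹) = z := by rw [invOf_eq_inv, inv_inv]
      rw [h3] at h2
      have h4 : eval₂ (RingHom.id ℂ) z⁻¹ v = 0 := h2.1 (by simpa [eval₂_id] using hz)
      rw [eval₂_id, hv, eval_mul, eval_C] at h4
      have h5 : (rp t).IsRoot z⁻¹ := (mul_eq_zero.1 h4).resolve_left hlc
      have h6 := ht1 _ (rp_root h5)
      rw [norm_inv] at h6
      have hz' : 0 < ‖z‖ := norm_pos_iff.2 hz0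
      rw [lt_inv_comm₀ one_pos hz', inv_one] at h6
      exact h6

end Pool.Agent.H109F.LK
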