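import Mathlib
import Pool.Agent.H109F.LK.Main
import Pool.Agent.H109F.LK.TypeC

/-!
# Relations whose tangents are not roots of unity
-/

set_option autoImplicit false

open Polynomial Finset Filter Topology

namespace Pool.Agent.H109F.LK

open Pool.Agent.H875.QN

variable {X : Type} [NormedAddCommGroup X] [NormedSpace ℂ X] [CompleteSpace X]

theorem main2_aux {S K : X →L[ℂ] X} (hS : ¬ HasHyper S) (hS0 : S ≠ 0) (hq : spectrum ℂ S ⊆ {0})
    (hK : IsCompactOperator K) (d : ℕ) : ∀ {P : ℕ → ℂ[X]} (_ : IsGerm P) {k : ℕ}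
    (_ : ∀ n < k, P n = 0) (_ : (P k).natDegree < d)
    (_ : ∀ z : ℂ, (∃ n : ℕ, 1 ≤ n ∧ z ^ n = 1) → (P k).eval z ≠ 0)
    (_ : act P (seq S K) 0 0 = 0), K = 0 := by
  classical
  induction d with
  | zero =>
    intro P _ k _ hd _ _
    exact absurd hd (by omega)
  | succ d ih =>
    intro P hP k hP0 hd hk h
    by_cases hun : ∃ z : ℂ, ‖z‖ = 1 ∧ (P k).eval z = 0
    · obtain ⟨l, hl, hl0⟩ := hun
      have hroot : ∀ n : ℕ, 1 ≤ n → l ^ n ≠ 1 := fun n hn h1 => hk l ⟨n, hn, h1⟩ hl0
      have hPk0 : P k ≠ 0 := by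
        intro h0
        apply hk 1 ⟨1, le_rfl, one_pow 1⟩
        rw [h0, eval_zero]
      obtain ⟨v, hv, hnd⟩ := Polynomial.exists_eq_pow_rootMultiplicity_mul_and_not_dvd (P k) hPk0 l
      have hμ : 0 < (P k).rootMultiplicity l := (rootMultiplicity_pos hPk0).2 hl0
      obtain ⟨m, hm⟩ : ∃ m, (P k).rootMultiplicity l = m + 1 := ⟨(P k).rootMultiplicity l - 1, by omega⟩
      rw [hm] at hv
      have hv0 : v ≠ 0 := by
        rintro rfl
        rw [mul_zero] at hv
        exact hPk0 hv
      have hnat : (P k).natDegree = m + 1 + v.natDegree := by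
        rw [hv, natDegree_mul (pow_ne_zero _ (X_sub_C_ne_zero l)) hv0, natDegree_pow, natDegree_X_sub_C,
          mul_one]
      have hdeg := hP.deg k
      obtain ⟨b, hb⟩ : ∃ b, k = m + 1 + b := ⟨k - (m + 1), by omega⟩
      have hrp : rp (Multiset.replicate (m + 1) l) = (Polynomial.X - C l) ^ (m + 1) := by
        unfold rp
        rw [Multiset.map_replicate, Multiset.prod_replicate]
      have hcard : (Multiset.replicate (m + 1) l).card = m + 1 := Multiset.card_replicate _ _
      have hs2 : ∀ z ∈ Multiset.replicate (m + 1) l, ‖z‖ < 2 := by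
        intro z hz
        rw [Multiset.eq_of_mem_replicate hz, hl]
        norm_num
      have hco : IsCoprime (rp (Multiset.replicate (m + 1) l)) v := by
        rw [hrp]
        exact IsCoprime.pow_left (((irreducible_X_sub_C l).coprime_iff_not_dvd).2 hnd)
      obtain ⟨U, V, hU, hV, hU0, hUs, hV0, hVb, hUV, hUd⟩ := hensel hP (θ := 2) (by norm_num) hs2
        (v := v) (b := b) (by omega) hco
        (by intro n hn; rw [hcard] at hn; exact hP0 n (by omega))
        (by rw [hcard, hrp, ← hb]; exact hv)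
      rw [hcard] at hU0 hUs hUd
      obtain ⟨K1, hK1⟩ : ∃ K1 : X →L[ℂ] X, K1 = act V (seq S K) 0 0 := ⟨_, rfl⟩
      have hK1c : IsCompactOperator K1 := by
        rw [hK1]
        exact act_compact hq hK hV
      have h1 : act U (seq S K1) 0 0 = 0 := by
        rw [hK1, ← act_seq hq K hV, act_gmul hU hV (seq_SE hq K), hUV]
        exact h
      have hK10 : K1 = 0 := typeC hS hS0 hq hK1c hU hl hroot m hU0 hUs hUd h1
      refine ih hV hV0 ?_ ?_ (hK1 ▸ hK10)
      · rw [hVb]; omega
      · intro z hz hz0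
        apply hk z hz
        rw [hVb] at hz0
        rw [hv, eval_mul, hz0, mul_zero]
    · push Not at hun
      exact main hS hS0 hq hK hP hP0 hun h

/-- an operator with a nonzero compact solution of a relation whose tangents are not roots of
unity has a nontrivial hyperinvariant subspace -/
theorem main2 {S K : X →L[ℂ] X} (hS : ¬ HasHyper S) (hS0 : S ≠ 0) (hq : spectrum ℂ S ⊆ {0})
    (hK : IsCompactOperator K) {P : ℕ → ℂ[X]} (hP : IsGerm P) {k : ℕ} (hP0 : ∀ n < k, P n = 0)
    (hk : ∀ z : ℂ, (∃ n : ℕ, 1 ≤ n ∧ z ^ n = 1) → (P k).eval z ≠ 0)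
    (h : act P (seq S K) 0 0 = 0) : K = 0 :=
  main2_aux hS hS0 hq hK _ hP hP0 (Nat.lt_succ_self _) hk h

end Pool.Agent.H109F.LK
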