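import Mathlib
import Pool.Agent.H109F.LK.Main2
import Pool.Agent.H875.QN.Split

/-!
# From double power series to the graded form
-/

set_option autoImplicit false

open Polynomial Finset Filter Topology

namespace Pool.Agent.H109F.LK

open Pool.Agent.H875.QN

/-- the dehomogenized homogeneous parts of a double power series -/
noncomputable def gr (p : ℕ → ℕ → ℂ) : ℕ → ℂ[X] := fun n =>
  ∑ i ∈ range (n + 1), Polynomial.monomial i (p i (n - i))

theorem gr_coeff (p : ℕ → ℕ → ℂ) {n i : ℕ} (hi : i ≤ n) : (gr p n).coeff i = p i (n - i) := by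
  unfold gr
  rw [finsetSum_coeff, Finset.sum_eq_single i]
  · rw [coeff_monomial, if_pos rfl]
  · intro j _ hj
    rw [coeff_monomial, if_neg hj]
  · intro h
    exact absurd (mem_range.2 (by omega)) h

theorem gr_coeff_zero (p : ℕ → ℕ → ℂ) {n i : ℕ} (hi : n < i) : (gr p n).coeff i = 0 := by
  unfold gr
  rw [finsetSum_coeff, Finset.sum_eq_zero]
  intro j hj
  rw [mem_range] at hj
  rw [coeff_monomial, if_neg (by omega)]

theorem gr_deg (p : ℕ → ℕ → ℂ) (n : ℕ) : (gr p n).natDegree ≤ n :=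
  natDegree_le_iff_coeff_eq_zero.2 fun _ hN => gr_coeff_zero p hN

theorem gr_eval (p : ℕ → ℕ → ℂ) (n : ℕ) (z : ℂ) :
    (gr p n).eval z = ∑ i ∈ range (n + 1), p i (n - i) * z ^ i := by
  unfold gr
  rw [eval_finsetSum]
  exact Finset.sum_congr rfl fun i _ => by rw [eval_monomial]

theorem gr_zero {p : ℕ → ℕ → ℂ} {k : ℕ} (h : ∀ i j, i + j < k → p i j = 0) {n : ℕ} (hn : n < k) :
    gr p n = 0 := by
  unfold gr
  refine Finset.sum_eq_zero fun i hi => ?_
  rw [mem_range] at hi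
  rw [h i (n - i) (by omega), monomial_zero_right]

theorem gr_germ {p : ℕ → ℕ → ℂ} {B : ℝ} (h : ∀ i j, ‖p i j‖ ≤ B ^ (i + j + 1)) : IsGerm (gr p) := by
  refine ⟨gr_deg p, |B|, 2 * (|B| + 1), abs_nonneg _, by positivity, fun n => ?_⟩
  rw [nrm_eq (n := n + 1) (by have := gr_deg p n; omega)]
  have h1 : ∀ i ∈ range (n + 1), ‖(gr p n).coeff i‖ * (1 : ℝ) ^ i ≤ |B| * (|B| + 1) ^ n := by
    intro i hi
    rw [mem_range] at hi
    rw [gr_coeff p (by omega), one_pow, mul_one]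
    refine (h i (n - i)).trans ?_
    have h2 : i + (n - i) + 1 = n + 1 := by omega
    rw [h2]
    calc B ^ (n + 1) ≤ |B ^ (n + 1)| := le_abs_self _
      _ = |B| * |B| ^ n := by rw [abs_pow, pow_succ']
      _ ≤ |B| * (|B| + 1) ^ n := by
          gcongr
          linarith
  refine (Finset.sum_le_sum h1).trans ?_
  rw [Finset.sum_const, card_range, nsmul_eq_mul, mul_pow]
  have h3 : ((n + 1 : ℕ) : ℝ) ≤ 2 ^ n := by
    have : n + 1 ≤ 2 ^ n := Nat.lt_two_pow_self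
    exact_mod_cast this
  calc ((n + 1 : ℕ) : ℝ) * (|B| * (|B| + 1) ^ n) ≤ 2 ^ n * (|B| * (|B| + 1) ^ n) := by
        gcongr
    _ = _ := by ring

variable {X : Type} [NormedAddCommGroup X] [NormedSpace ℂ X] [CompleteSpace X]

theorem act_gr {S K : X →L[ℂ] X} (p : ℕ → ℕ → ℂ)
    (h : HasSum (fun ij : ℕ × ℕ => p ij.1 ij.2 • (S ^ ij.1 * K * S ^ ij.2)) 0) :
    act (gr p) (seq S K) 0 0 = 0 := by
  have h1 := ((Finset.HasAntidiagonal.sigmaAntidiagonalEquivProd (A := ℕ)).hasSum_iff).2 h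
  have h2 := h1.sigma (fun n => hasSum_fintype _)
  unfold act
  refine Eq.trans (tsum_congr fun n => ?_) h2.tsum_eq
  unfold hact
  rw [← Finset.sum_coe_sort]
  refine Finset.sum_congr rfl fun ij _ => ?_
  have h3 := ij.2
  rw [HasAntidiagonal.mem_antidiagonal] at h3
  rw [gr_coeff p (by omega : ij.1.1 ≤ n)]
  have h4 : n - ij.1.1 = ij.1.2 := by omega
  rw [h4]
  simp [seq, Finset.HasAntidiagonal.sigmaAntidiagonalEquivProd]

omit [CompleteSpace X] in
theorem hyper_sub {T : X →L[ℂ] X} {c : ℂ} (h : HasHyper (T - c • (1 : X →L[ℂ] X))) : HasHyper T := by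
  obtain ⟨V, hV, h0, h1, hQ⟩ := h
  refine ⟨V, hV, h0, h1, fun Q hc v hv => hQ Q ?_ v hv⟩
  rw [mul_sub, sub_mul, hc, mul_smul_comm, smul_mul_assoc, mul_one, one_mul]

/-- the theorem for double power series -/
theorem final {T K : X →L[ℂ] X} (hT : ∀ c : ℂ, T ≠ c • (1 : X →L[ℂ] X))
    (hσ : IsTotallyDisconnected (spectrum ℂ T)) (hK0 : K ≠ 0) (hK : IsCompactOperator K)
    (h : ∀ c ∈ spectrum ℂ T, ∃ (p : ℕ → ℕ → ℂ) (B : ℝ) (k : ℕ), (∀ i j, ‖p i j‖ ≤ B ^ (i + j + 1)) ∧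
      (∀ i j, i + j < k → p i j = 0) ∧
      (∀ z : ℂ, (∃ n : ℕ, 1 ≤ n ∧ z ^ n = 1) → ∑ i ∈ range (k + 1), p i (k - i) * z ^ i ≠ 0) ∧
      HasSum (fun ij : ℕ × ℕ => p ij.1 ij.2 •
        ((T - c • (1 : X →L[ℂ] X)) ^ ij.1 * K * (T - c • (1 : X →L[ℂ] X)) ^ ij.2)) 0) : HasHyper T := by
  by_contra hcon
  have : Nontrivial X := by
    by_contra hX
    rw [not_nontrivial_iff_subsingleton] at hX
    exact hK0 (ContinuousLinearMap.ext fun x => Subsingleton.elim _ _)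
  obtain ⟨c, hc⟩ := spectrum.nonempty T
  have hsp : spectrum ℂ T = {c} := by
    refine Set.Subset.antisymm (fun z hz => ?_) (by simpa using hc)
    by_contra hne
    exact hcon (hyper_of_td T hσ hz hc hne)
  obtain ⟨p, B, k, hB, hk, hz, hs⟩ := h c hc
  refine hK0 (main2 (fun h' => hcon (hyper_sub h')) (sub_ne_zero.2 (hT c)) (spec_sub T hsp).le hK
    (gr_germ hB) (k := k) (fun n hn => gr_zero hk hn) (fun z hzr => ?_) (act_gr p hs))
  rw [gr_eval]
  exact hz z hzr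

end Pool.Agent.H109F.LK
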