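import Mathlib
import Pool.Agent.H109F.LK.Periph

/-!
# Bilinear relations between elements of the bicommutant
-/

set_option autoImplicit false

open Filter Topology Metric Set

namespace Pool.Agent.H109F.LK

open Pool.Agent.H875.QN

section Basic

variable {X : Type} [NormedAddCommGroup X] [NormedSpace ℂ X]

/-- the bicommutant -/
def Bic (T P : X →L[ℂ] X) : Prop := ∀ R : X →L[ℂ] X, R * T = T * R → R * P = P * R

theorem Bic.lin {T P Q : X →L[ℂ] X} (hP : Bic T P) (hQ : Bic T Q) (s t : ℂ) :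
    Bic T (s • P + t • Q) := by
  intro R hR
  rw [mul_add, add_mul, mul_smul_comm, mul_smul_comm, smul_mul_assoc, smul_mul_assoc, hP R hR, hQ R hR]

theorem Bic.comm {T P Q : X →L[ℂ] X} (hP : Bic T P) (hQ : Bic T Q) : P * Q = Q * P :=
  hQ P (hP T rfl).symm

theorem Bic.inj {T P : X →L[ℂ] X} (hT : ¬ HasHyper T) (hP : Bic T P) (h0 : P ≠ 0) {x : X}
    (h : P x = 0) : x = 0 := by
  by_contra hx
  exact hT (hyper_of_ker h0 hx h hP)

theorem Bic.dense {Z : Type} [NormedAddCommGroup Z] [NormedSpace ℂ Z] {T P : X →L[ℂ] X}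
    (hT : ¬ HasHyper T) (hP : Bic T P) (h0 : P ≠ 0) {ξ : X →L[ℂ] Z} (h : ξ ∘L P = 0) : ξ = 0 := by
  set V : Submodule ℂ X := (LinearMap.range (P : X →ₗ[ℂ] X)).topologicalClosure with hV
  have hVt : V = ⊤ := by
    by_contra hne
    refine hT ⟨V, Submodule.isClosed_topologicalClosure _, ?_, hne, ?_⟩
    · intro hbot
      apply h0
      ext x
      have h1 : P x ∈ V := Submodule.le_topologicalClosure _ ⟨x, rfl⟩
      rw [hbot, Submodule.mem_bot] at h1
      simpa using h1
    · intro Q hQ v hv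
      have hle : V ≤ V.comap (Q : X →ₗ[ℂ] X) := by
        refine Submodule.topologicalClosure_minimal _ ?_
          ((Submodule.isClosed_topologicalClosure _).preimage Q.continuous)
        rintro _ ⟨x, rfl⟩
        refine Submodule.le_topologicalClosure _ ⟨Q x, ?_⟩
        exact (congrArg (fun Z : X →L[ℂ] X => Z x) (hP Q hQ)).symm
      exact hle hv
  ext x
  have hle : V ≤ LinearMap.ker (ξ : X →ₗ[ℂ] Z) := by
    refine Submodule.topologicalClosure_minimal _ ?_ ?_
    · rintro _ ⟨x, rfl⟩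
      rw [LinearMap.mem_ker]
      exact congrArg (fun f : X →L[ℂ] Z => f x) h
    · have : ((LinearMap.ker (ξ : X →ₗ[ℂ] Z) : Submodule ℂ X) : Set X) = ξ ⁻¹' {0} := by
        ext v; simp
      rw [this]
      exact isClosed_singleton.preimage ξ.continuous
  have hx : x ∈ V := by rw [hVt]; trivial
  simpa using hle hx

/-- rank one relations -/
theorem rank_one {T P Q K : X →L[ℂ] X} (hT : ¬ HasHyper T) (hP : Bic T P) (hP0 : P ≠ 0)
    (hQ : Bic T Q) (hQ0 : Q ≠ 0) (h : P * K * Q = 0) : K = 0 := by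
  have h1 : P * K = 0 := hQ.dense hT hQ0 h
  ext x
  exact hP.inj hT hP0 (congrArg (fun Z : X →L[ℂ] X => Z x) h1)

/-- the eigenspace for the eigenvalue one of a compact operator -/
theorem fin_eig {B : X →L[ℂ] X} (hB : IsCompactOperator B) {E : Submodule ℂ X}
    (hE : IsClosed (E : Set X)) (h : ∀ x ∈ E, B x = x) : FiniteDimensional ℂ E := by
  have hm : ∀ x ∈ E, (B : X →ₗ[ℂ] X) x ∈ E := by
    intro x hx
    show B x ∈ E
    rw [h x hx]; exact hx
  have h1 : IsCompactOperator ((B : X →ₗ[ℂ] X).restrict hm) :=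
    IsCompactOperator.restrict (f := (B : X →ₗ[ℂ] X)) hB hm hE
  have h2 : (id : E → E) = (B : X →ₗ[ℂ] X).restrict hm := by
    funext x
    exact Subtype.ext (h x x.2).symm
  refine FiniteDimensional.of_isCompactOperator_id (𝕜 := ℂ) ?_
  rw [h2]
  exact h1

end Basic

variable {X : Type} [NormedAddCommGroup X] [NormedSpace ℂ X] [CompleteSpace X]

omit [CompleteSpace X] in
/-- the case `|λ| ≤ 1` of the diagonal relation -/
theorem diag_aux {T P Q K : X →L[ℂ] X} (hT : ¬ HasHyper T) (hP : Bic T P) (hQ : Bic T Q)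
    (hli : ∀ s t : ℂ, s • P + t • Q = 0 → s = 0 ∧ t = 0) (hK : IsCompactOperator K) {l : ℂ}
    (hl0 : l ≠ 0) (hl1 : ‖l‖ ≤ 1) (h : P * K * Q = l • (Q * K * P)) : K = 0 := by
  by_contra hK0
  have hP0 : P ≠ 0 := fun h0 => one_ne_zero (hli 1 0 (by rw [h0, smul_zero, zero_smul, zero_add])).1
  have hQ0 : Q ≠ 0 := fun h0 => one_ne_zero (hli 0 1 (by rw [h0, smul_zero, zero_smul, zero_add])).2
  have hKQ : K * Q ≠ 0 := fun h0 => hK0 (hQ.dense hT hQ0 h0)
  obtain ⟨A, hA, y, hy, hAy⟩ := lomonosov hT (K := K * Q) (hK.comp_clm Q) hKQ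
  obtain ⟨C, hC⟩ : ∃ C, C = A * K := ⟨_, rfl⟩
  have hrel : P * C * Q = l • (Q * C * P) := by
    have e1 : P * C * Q = A * (P * K * Q) := by
      rw [hC, ← mul_assoc, ← hP A hA]; simp only [mul_assoc]
    have e2 : Q * C * P = A * (Q * K * P) := by
      rw [hC, ← mul_assoc, ← hQ A hA]; simp only [mul_assoc]
    rw [e1, e2, h, mul_smul_comm]
  have hCc : IsCompactOperator C := by
    rw [hC]; exact hK.clm_comp A
  have hMc : IsCompactOperator (C * Q) := hCc.comp_clm Q
  have hx0 : (C * Q) (A y) = A y := by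
    rw [hC]
    show A ((K * Q) (A y)) = A y
    rw [hAy]
  have hx1 : A y ≠ 0 := by
    intro h0
    rw [h0, map_zero] at hAy
    exact hy hAy.symm
  -- the eigenvectors move
  have hstep : ∀ x : X, Q (C (P x)) = l⁻¹ • P (C (Q x)) := by
    intro x
    have h1 : P (C (Q x)) = l • Q (C (P x)) := congrArg (fun Z : X →L[ℂ] X => Z x) hrel
    rw [h1, inv_smul_smul₀ hl0]
  have hmove : ∀ μ : ℂ, μ ≠ 0 → EV (C * Q) μ → EV (C * Q) (l⁻¹ * μ) := by
    rintro μ hμ ⟨x, hx, h1⟩
    have h1' : C (Q x) = μ • x := h1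
    have h2 : Q (C (P x)) = (l⁻¹ * μ) • P x := by
      rw [hstep, h1', map_smul, smul_smul]
    refine ⟨C (P x), ?_, ?_⟩
    · intro h0
      rw [h0, map_zero] at h2
      have h3 : P x = 0 := (smul_eq_zero.1 h2.symm).resolve_left (mul_ne_zero (inv_ne_zero hl0) hμ)
      exact hx (hP.inj hT hP0 h3)
    · show C (Q (C (P x))) = _
      rw [h2, map_smul]
  have hall : ∀ n : ℕ, EV (C * Q) (l⁻¹ ^ n) := by
    intro n
    induction n with
    | zero => exact ⟨A y, hx1, by rw [pow_zero, one_smul]; exact hx0⟩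
    | succ n ih =>
      rw [pow_succ']
      exact hmove _ (pow_ne_zero _ (inv_ne_zero hl0)) ih
  by_cases hroot : ∃ n : ℕ, 1 ≤ n ∧ l ^ n = 1
  · obtain ⟨n, hn, hln⟩ := hroot
    obtain ⟨m, rfl⟩ : ∃ m, n = m + 1 := ⟨n - 1, by omega⟩
    -- the operators `M = CQ` and `R = CP`
    have hRM : (C * P) * (C * Q) = l • ((C * Q) * (C * P)) := by
      have : (C * P) * (C * Q) = C * (P * C * Q) := by simp only [mul_assoc]
      rw [this, hrel, mul_smul_comm]
      simp only [mul_assoc]
    have hRMn : ∀ n : ℕ, (C * P) * (C * Q) ^ n = l ^ n • ((C * Q) ^ n * (C * P)) := by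
      intro n
      induction n with
      | zero => simp
      | succ n ih =>
        rw [pow_succ, ← mul_assoc, ih, smul_mul_assoc, mul_assoc, hRM, mul_smul_comm, smul_smul,
          ← mul_assoc, pow_succ l]
    have hcomm : (C * P) * (C * Q) ^ (m + 1) = (C * Q) ^ (m + 1) * (C * P) := by
      rw [hRMn, hln, one_smul]
    obtain ⟨B, hB⟩ : ∃ B, B = (C * Q) ^ (m + 1) := ⟨_, rfl⟩
    obtain ⟨N, hN⟩ : ∃ N, N = (C * P) * (C * Q) ^ m := ⟨_, rfl⟩
    have hNB : N * B = B * N := by
      rw [hN, hB, mul_assoc, ← pow_add, show m + (m + 1) = (m + 1) + m by omega, pow_add, ← mul_assoc,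
        hcomm, mul_assoc]
    have hBc : IsCompactOperator B := by
      rw [hB, pow_succ']
      exact hMc.comp_clm ((C * Q) ^ m)
    let E : Submodule ℂ X := LinearMap.ker ((B - 1 : X →L[ℂ] X) : X →ₗ[ℂ] X)
    have hmemE : ∀ x, x ∈ E ↔ B x = x := by
      intro x
      show (B - 1) x = 0 ↔ _
      rw [_root_.sub_apply, sub_eq_zero]
      rfl
    have hEc : IsClosed (E : Set X) := by
      have : (E : Set X) = (B - 1 : X →L[ℂ] X) ⁻¹' {0} := by
        ext v; rfl
      rw [this]
      exact isClosed_singleton.preimage (B - 1 : X →L[ℂ] X).continuous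
    have hfin : FiniteDimensional ℂ E := fin_eig hBc hEc fun x hx => (hmemE x).1 hx
    have hNE : ∀ x ∈ E, N x ∈ E := by
      intro x hx
      rw [hmemE] at hx ⊢
      have h1 : N (B x) = B (N x) := congrArg (fun Z : X →L[ℂ] X => Z x) hNB
      rw [← h1, hx]
    have hne : Nontrivial E := by
      refine ⟨⟨⟨A y, ?_⟩, 0, ?_⟩⟩
      · rw [hmemE, hB]
        have h1 := pow_apply_eigen (C := C * Q) (μ := 1) (v := A y) (by rw [one_smul]; exact hx0) (m + 1)
        rw [h1, one_pow, one_smul]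
      · intro h0
        exact hx1 (congrArg Subtype.val h0)
    obtain ⟨κ, hκ⟩ := Module.End.exists_eigenvalue ((N : X →ₗ[ℂ] X).restrict (p := E) (q := E) hNE)
    obtain ⟨z, hz⟩ := hκ.exists_hasEigenvector
    have hz0 : (z : X) ≠ 0 := fun h0 => hz.2 (Subtype.ext h0)
    have hzN : N (z : X) = κ • (z : X) := congrArg Subtype.val hz.apply_eq_smul
    have hzB : B (z : X) = z := (hmemE _).1 z.2
    have hfinal : Q (N (z : X)) = l⁻¹ • P (z : X) := by
      have h1 : N (z : X) = C (P (((C * Q) ^ m) (z : X))) := by rw [hN]; rfl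
      have h2 : C (Q (((C * Q) ^ m) (z : X))) = B (z : X) := by rw [hB, pow_succ']; rfl
      rw [h1, hstep, h2, hzB]
    rw [hzN, map_smul] at hfinal
    have hker : (l⁻¹ • P + (-κ) • Q) (z : X) = 0 := by
      show l⁻¹ • P (z : X) + (-κ) • Q (z : X) = 0
      rw [← hfinal, neg_smul, add_neg_cancel]
    have hne0 : l⁻¹ • P + (-κ) • Q ≠ 0 := fun h0 => inv_ne_zero hl0 (hli _ _ h0).1
    exact hz0 ((hP.lin hQ _ _).inj hT hne0 hker)
  · push Not at hroot
    have hli0 : l⁻¹ ≠ 0 := inv_ne_zero hl0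
    rcases lt_or_eq_of_le hl1 with hlt | heq
    · -- unbounded eigenvalues
      have h1 : 1 < ‖l⁻¹‖ := by
        rw [norm_inv]
        exact (one_lt_inv₀ (norm_pos_iff.2 hl0)).2 hlt
      obtain ⟨n, hn⟩ := pow_unbounded_of_one_lt ‖C * Q‖ h1
      have h2 := (hall n).lt (η := ‖l⁻¹‖ ^ n) (by positivity) (SL_of_norm hn)
      rw [norm_pow] at h2
      exact lt_irrefl _ h2
    · refine no_infinite hMc one_pos (m := fun n => l⁻¹ ^ n) ?_ ?_ hall
      · intro a b hab
        have h1 : l⁻¹ ^ a = l⁻¹ ^ b := hab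
        have key : ∀ a b : ℕ, a < b → l⁻¹ ^ a ≠ l⁻¹ ^ b := by
          intro a b hlt h2
          obtain ⟨c, rfl⟩ : ∃ c, b = a + c := ⟨b - a, by omega⟩
          rw [pow_add] at h2
          have h3 : l⁻¹ ^ c = 1 := by
            have := mul_left_cancel₀ (pow_ne_zero a hli0) ((mul_one (l⁻¹ ^ a)).trans h2)
            exact this.symm
          rw [inv_pow, inv_eq_one] at h3
          exact hroot c (by omega) h3
        rcases lt_trichotomy a b with h | h | h
        · exact absurd h1 (key a b h)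
        · exact h
        · exact absurd h1.symm (key b a h)
      · intro n
        rw [norm_pow, norm_inv, heq, inv_one, one_pow]

omit [CompleteSpace X] in
/-- the diagonal relation -/
theorem diag {T P Q K : X →L[ℂ] X} (hT : ¬ HasHyper T) (hP : Bic T P) (hQ : Bic T Q)
    (hli : ∀ s t : ℂ, s • P + t • Q = 0 → s = 0 ∧ t = 0) (hK : IsCompactOperator K) {l : ℂ}
    (hl0 : l ≠ 0) (h : P * K * Q = l • (Q * K * P)) : K = 0 := by
  rcases le_total ‖l‖ 1 with h1 | h1
  · exact diag_aux hT hP hQ hli hK hl0 h1 h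
  · refine diag_aux hT hQ hP (fun s t hst => (hli t s ((add_comm _ _).trans hst)).symm) hK
      (inv_ne_zero hl0) ?_ (by rw [h, inv_smul_smul₀ hl0])
    rw [norm_inv]
    exact inv_le_one_of_one_le₀ h1

/-- the parabolic relation -/
theorem jordan {T P Q K : X →L[ℂ] X} (hT : ¬ HasHyper T) (hP : Bic T P) (hP0 : P ≠ 0) (hQ : Bic T Q)
    (hK : IsCompactOperator K) (h : P * K * Q = (Q + P) * K * P) : K = 0 := by
  by_contra hK0
  have hKP : K * P ≠ 0 := fun h0 => hK0 (hP.dense hT hP0 h0)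
  obtain ⟨A, hA, y, hy, hAy⟩ := lomonosov hT (K := K * P) (hK.comp_clm P) hKP
  have : Nontrivial X := ⟨⟨y, 0, hy⟩⟩
  obtain ⟨C, hC⟩ : ∃ C, C = A * K := ⟨_, rfl⟩
  have hrel : P * C * Q = (Q + P) * C * P := by
    have e1 : P * C * Q = A * (P * K * Q) := by
      rw [hC, ← mul_assoc, ← hP A hA]; simp only [mul_assoc]
    have e2 : (Q + P) * C * P = A * ((Q + P) * K * P) := by
      have e3 : A * (Q + P) = (Q + P) * A := by rw [mul_add, add_mul, hP A hA, hQ A hA]
      rw [hC, ← mul_assoc, ← e3]; simp only [mul_assoc]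
    rw [e1, e2, h]
  have hCc : IsCompactOperator C := by
    rw [hC]; exact hK.clm_comp A
  let F : ℂ → X →L[ℂ] X := fun t => C * (Q + t • P)
  have hFd : Differentiable ℂ F := by
    have h1 : Differentiable ℂ fun t : ℂ => Q + t • P :=
      (differentiable_const Q).add (differentiable_id.smul_const P)
    exact (differentiable_const C).mul h1
  have hFc : ∀ t, IsCompactOperator (F t) := fun t => hCc.comp_clm (Q + t • P)
  have hshift : ∀ t : ℂ, P * C * (Q + t • P) = (Q + (t + 1) • P) * C * P := by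
    intro t
    rw [mul_add, mul_smul_comm, hrel, add_mul, add_mul, add_mul, add_mul, smul_mul_assoc,
      smul_mul_assoc, add_smul, one_smul]
    abel
  -- the spectrum is periodic
  have hper : ∀ (t : ℂ) (η : ℝ), 0 < η → (SL (F (t + 1)) η ↔ SL (F t) η) := by
    intro t η hη
    have hs : ∀ x, P (C ((Q + t • P) x)) = (Q + (t + 1) • P) (C (P x)) := fun x =>
      congrArg (fun Z : X →L[ℂ] X => Z x) (hshift t)
    constructor
    · intro h
      refine SL_of_EV (hFc t) hη fun μ hμ0 hμ => ?_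
      obtain ⟨x, hx, hx2⟩ := hμ
      have hx3 : C ((Q + t • P) x) = μ • x := hx2
      have h1 : (Q + (t + 1) • P) (C (P x)) = μ • P x := by
        rw [← hs, hx3, map_smul]
      refine EV.lt ⟨C (P x), ?_, ?_⟩ hη.le h
      · intro h0
        rw [h0, map_zero] at h1
        exact hx (hP.inj hT hP0 ((smul_eq_zero.1 h1.symm).resolve_left hμ0))
      · show C ((Q + (t + 1) • P) (C (P x))) = _
        rw [h1, map_smul]
    · intro h
      refine SL_of_EV (hFc (t + 1)) hη fun μ hμ0 hμ => ?_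
      obtain ⟨v, hv, hv2⟩ := hμ
      have hcomp : IsCompactOperator (μ⁻¹ • F (t + 1) : X →L[ℂ] X) := (hFc (t + 1)).smul μ⁻¹
      obtain ⟨ξ, hξ0, hξ⟩ := fixed_functional hcomp hv (by
        show μ⁻¹ • F (t + 1) v = v
        rw [hv2, inv_smul_smul₀ hμ0])
      have hξ' : ∀ x, ξ (C ((Q + (t + 1) • P) x)) = μ * ξ x := by
        intro x
        have h1 : ξ (μ⁻¹ • C ((Q + (t + 1) • P) x)) = ξ x :=
          congrArg (fun Z : X →L[ℂ] ℂ => Z x) hξ
        rw [map_smul, smul_eq_mul] at h1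
        rw [← h1, mul_inv_cancel_left₀ hμ0]
      refine func_lt (C := F t) (μ := μ) (ξ := ξ ∘L (C * P)) ?_ ?_ hη.le h
      · intro h0
        have h1 : ξ ∘L C = 0 := hP.dense hT hP0 h0
        apply hξ0
        ext x
        have h2 : ξ (C ((Q + (t + 1) • P) x)) = 0 :=
          congrArg (fun Z : X →L[ℂ] ℂ => Z ((Q + (t + 1) • P) x)) h1
        rw [hξ' x] at h2
        simpa using (mul_eq_zero.1 h2).resolve_left hμ0
      · ext x
        show ξ (C (P (C ((Q + t • P) x)))) = μ • ξ (C (P x))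
        rw [hs, hξ', smul_eq_mul]
  have hgr : ∀ ε : ℝ, 0 < ε → ∃ K : ℝ, ∀ t, ‖F t‖ ≤ K * Real.exp (ε * ‖t‖) := by
    intro ε hε
    refine ⟨‖C‖ * (‖Q‖ + ‖P‖ / ε), fun t => ?_⟩
    have h1 : ‖F t‖ ≤ ‖C‖ * (‖Q‖ + ‖t‖ * ‖P‖) := by
      refine (norm_mul_le _ _).trans ?_
      gcongr
      refine (norm_add_le _ _).trans ?_
      rw [norm_smul]
    have h2 : ε * ‖t‖ ≤ Real.exp (ε * ‖t‖) := by
      have := Real.add_one_le_exp (ε * ‖t‖)
      linarith
    have h3 : 1 ≤ Real.exp (ε * ‖t‖) := Real.one_le_exp (by positivity)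
    have h4 : ‖t‖ * ‖P‖ ≤ ‖P‖ / ε * Real.exp (ε * ‖t‖) := by
      calc ‖t‖ * ‖P‖ = ‖P‖ / ε * (ε * ‖t‖) := by field_simp
        _ ≤ _ := by gcongr
    have h5 : ‖Q‖ ≤ ‖Q‖ * Real.exp (ε * ‖t‖) := le_mul_of_one_le_right (norm_nonneg _) h3
    calc ‖F t‖ ≤ ‖C‖ * (‖Q‖ + ‖t‖ * ‖P‖) := h1
      _ ≤ ‖C‖ * (‖Q‖ * Real.exp (ε * ‖t‖) + ‖P‖ / ε * Real.exp (ε * ‖t‖)) := by gcongr
      _ = _ := by ring
  -- a bound on the real axis
  obtain ⟨η, hη, hx⟩ : ∃ η : ℝ, 0 < η ∧ ∀ x : ℝ, SL (F x) η := by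
    obtain ⟨K₀, hK₀⟩ := hgr 1 one_pos
    have hK0' : 0 ≤ K₀ := by
      have h1 := hK₀ 0
      rw [norm_zero, mul_zero, Real.exp_zero, mul_one] at h1
      exact (norm_nonneg _).trans h1
    refine ⟨(K₀ + 1) * Real.exp 1, by positivity, fun x => ?_⟩
    have hperN : ∀ (n : ℕ) (t : ℂ) (η : ℝ), 0 < η → (SL (F (t + n)) η ↔ SL (F t) η) := by
      intro n
      induction n with
      | zero => intro t η _; simp
      | succ n ih =>
        intro t η hη
        rw [← ih t η hη, ← hper (t + n) η hη]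
        push_cast
        rw [add_assoc]
    have hperZ : ∀ (n : ℤ) (t : ℂ) (η : ℝ), 0 < η → (SL (F (t + n)) η ↔ SL (F t) η) := by
      intro n t η hη
      obtain ⟨m, rfl | rfl⟩ := n.eq_nat_or_neg
      · exact_mod_cast hperN m t η hη
      · rw [← hperN m (t + ((-(m : ℤ) : ℤ) : ℂ)) η hη]
        push_cast
        rw [neg_add_cancel_right]
    rw [← hperZ (-⌊x⌋) x _ (by positivity)]
    have h3 : ((x : ℂ) + ((-⌊x⌋ : ℤ) : ℂ)) = ((Int.fract x : ℝ) : ℂ) := by
      rw [← Int.self_sub_floor]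
      push_cast
      ring
    rw [h3]
    apply SL_of_norm
    calc ‖F ((Int.fract x : ℝ) : ℂ)‖ ≤ K₀ * Real.exp (1 * ‖((Int.fract x : ℝ) : ℂ)‖) := hK₀ _
      _ ≤ K₀ * Real.exp 1 := by
          gcongr
          rw [one_mul, Complex.norm_real, Real.norm_eq_abs, abs_of_nonneg (Int.fract_nonneg _)]
          exact (Int.fract_lt_one _).le
      _ < (K₀ + 1) * Real.exp 1 := mul_lt_mul_of_pos_right (by linarith) (Real.exp_pos _)
  have hall : ∀ t : ℂ, SL (F t) (η + 1) := fun t => strip' hFd hper hgr hη hx t (by linarith)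
  -- the leading coefficient is quasinilpotent
  have hG : Differentiable ℂ fun z : ℂ => C * (z • Q + P) := by
    have h1 : Differentiable ℂ fun z : ℂ => z • Q + P :=
      (differentiable_id.smul_const Q).add (differentiable_const P)
    exact (differentiable_const C).mul h1
  have hsmall : ∀ r : ℝ, 0 < r → SL (C * P) (r * (η + 1)) := by
    intro r hr
    have h1 := SL_max hG (U := ball (0 : ℂ) r) isBounded_ball (η := r * (η + 1)) (by positivity) (by
      intro z hz
      rw [frontier_ball _ hr.ne', mem_sphere, dist_zero_right] at hz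
      have hz0 : z ≠ 0 := by
        rw [← norm_pos_iff, hz]; exact hr
      have h2 := (hall z⁻¹).smul hz0
      rw [hz] at h2
      have h3 : z • F z⁻¹ = C * (z • Q + P) := by
        show z • (C * (Q + z⁻¹ • P)) = _
        rw [← mul_smul_comm, smul_add, smul_inv_smul₀ hz0]
      rwa [h3] at h2) (t := 0) (subset_closure (mem_ball_self hr))
    simpa using h1
  have hev : EV (C * P) 1 := by
    refine ⟨A y, ?_, ?_⟩
    · intro h0
      rw [h0, map_zero] at hAy
      exact hy hAy.symm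
    · rw [hC, one_smul]
      show A ((K * P) (A y)) = A y
      rw [hAy]
  have h1 := hev.lt (η := 1 / (2 * (η + 1)) * (η + 1)) (by positivity)
    (hsmall (1 / (2 * (η + 1))) (by positivity))
  have h2 : 1 / (2 * (η + 1)) * (η + 1) = 1 / 2 := by field_simp
  rw [h2, norm_one] at h1
  norm_num at h1

/-- bilinear relations without the last term -/
theorem bil0 {T P Q K : X →L[ℂ] X} (hT : ¬ HasHyper T) (hP : Bic T P) (hQ : Bic T Q)
    (hli : ∀ s t : ℂ, s • P + t • Q = 0 → s = 0 ∧ t = 0) (hK : IsCompactOperator K) {a b c : ℂ}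
    (hne : ¬ (a = 0 ∧ b = 0 ∧ c = 0))
    (h : a • (P * K * P) + b • (P * K * Q) + c • (Q * K * P) = 0) : K = 0 := by
  have hP0 : P ≠ 0 := fun h0 => one_ne_zero (hli 1 0 (by rw [h0, smul_zero, zero_smul, zero_add])).1
  by_cases hb : b = 0
  · refine rank_one hT (P := a • P + c • Q) (Q := P) (hP.lin hQ a c) ?_ hP hP0 ?_
    · intro h0
      obtain ⟨h1, h2⟩ := hli _ _ h0
      exact hne ⟨h1, hb, h2⟩
    · rw [hb, zero_smul, add_zero] at h
      rw [← h]
      simp only [add_mul, smul_mul_assoc]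
  by_cases hc : c = 0
  · refine rank_one hT (P := P) (Q := a • P + b • Q) hP hP0 (hP.lin hQ a b) ?_ ?_
    · intro h0
      exact hb (hli _ _ h0).2
    · rw [hc, zero_smul, add_zero] at h
      rw [← h]
      simp only [mul_add, mul_smul_comm]
  have hrel : P * K * Q = (-(c / b)) • (Q * K * P) + (-(a / b)) • (P * K * P) := by
    have h1 : b • (P * K * Q) = (-c) • (Q * K * P) + (-a) • (P * K * P) := by
      rw [← sub_eq_zero, ← h]
      module
    rw [← inv_smul_smul₀ hb (P * K * Q), h1, smul_add, smul_smul, smul_smul]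
    congr 2 <;> ring
  by_cases hl : -(c / b) = 1
  · rw [hl, one_smul] at hrel
    by_cases ha : a = 0
    · refine diag hT hP hQ hli hK one_ne_zero (l := 1) ?_
      rw [hrel, ha, zero_div, neg_zero, zero_smul, add_zero, one_smul]
    · have hk : -(a / b) ≠ 0 := neg_ne_zero.2 (div_ne_zero ha hb)
      have hP2 : Bic T ((-(a / b)) • P) := by
        have := hP.lin hQ (-(a / b)) 0
        rwa [zero_smul, add_zero] at this
      refine jordan hT hP2 (smul_ne_zero hk hP0) hQ hK ?_
      simp only [smul_mul_assoc, mul_smul_comm, add_mul, smul_add]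
      rw [hrel, smul_add]
  · have hl' : 1 - -(c / b) ≠ 0 := sub_ne_zero.2 (Ne.symm hl)
    obtain ⟨e, he⟩ : ∃ e : ℂ, e = (a / b) / (1 - -(c / b)) := ⟨_, rfl⟩
    have he' : e * (1 - -(c / b)) = a / b := by rw [he, div_mul_cancel₀ _ hl']
    have hQ2 : Bic T (Q + e • P) := by
      have := hP.lin hQ e 1
      rwa [one_smul, add_comm] at this
    refine diag hT hP hQ2 (fun s t hst => ?_) hK (neg_ne_zero.2 (div_ne_zero hc hb)) ?_
    · have h1 : (s + t * e) • P + t • Q = 0 := by
        rw [← hst]; module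
      obtain ⟨h2, h3⟩ := hli _ _ h1
      rw [h3, zero_mul, add_zero] at h2
      exact ⟨h2, h3⟩
    · simp only [mul_add, add_mul, smul_mul_assoc, mul_smul_comm]
      rw [hrel]
      have h4 : e = a / b + e * (-(c / b)) := by rw [← he']; ring
      rw [← sub_eq_zero]
      have h5 : (-(c / b)) • (Q * K * P) + (-(a / b)) • (P * K * P) + e • (P * K * P) -
          (-(c / b)) • (Q * K * P + e • (P * K * P)) =
          (e - (a / b + e * (-(c / b)))) • (P * K * P) := by module
      rw [h5, ← h4, sub_self, zero_smul]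

/-- **bilinear relations**: a compact operator satisfying a nontrivial bilinear relation with respect to
two linearly independent elements of the bicommutant of an operator without hyperinvariant subspaces
vanishes -/
theorem bilinear {T P Q K : X →L[ℂ] X} (hT : ¬ HasHyper T) (hP : Bic T P) (hQ : Bic T Q)
    (hli : ∀ s t : ℂ, s • P + t • Q = 0 → s = 0 ∧ t = 0) (hK : IsCompactOperator K) {a b c d : ℂ}
    (hne : ¬ (a = 0 ∧ b = 0 ∧ c = 0 ∧ d = 0))
    (h : a • (P * K * P) + b • (P * K * Q) + c • (Q * K * P) + d • (Q * K * Q) = 0) : K = 0 := by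
  by_cases ha : a = 0
  · refine bil0 hT hQ hP (fun s t hst => (hli t s ((add_comm _ _).trans hst)).symm) hK
      (a := d) (b := c) (c := b) ?_ ?_
    · rintro ⟨h1, h2, h3⟩
      exact hne ⟨ha, h3, h2, h1⟩
    · rw [← h, ha]
      module
  · obtain ⟨s, hs⟩ : ∃ s : ℂ, a * (s * s) + (b + c) * s + d = 0 := by
      obtain ⟨r, hr⟩ := IsAlgClosed.exists_eq_mul_self (discrim a (b + c) d)
      exact exists_quadratic_eq_zero ha ⟨r, hr⟩
    have hP2 : Bic T (P - s • Q) := by
      have := hP.lin hQ 1 (-s)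
      rwa [one_smul, neg_smul, ← sub_eq_add_neg] at this
    refine bil0 hT hP2 hQ (fun u v huv => ?_) hK (a := a) (b := a * s + b) (c := a * s + c) ?_ ?_
    · have h1 : u • P + (v - u * s) • Q = 0 := by
        rw [← huv]; module
      obtain ⟨h2, h3⟩ := hli _ _ h1
      rw [h2, zero_mul, sub_zero] at h3
      exact ⟨h2, h3⟩
    · rintro ⟨h1, -, -⟩
      exact ha h1
    · simp only [sub_mul, mul_sub, smul_mul_assoc, mul_smul_comm]
      have h5 : a • (P * K * P - s • (P * K * Q) - s • (Q * K * P - s • (Q * K * Q))) +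
          (a * s + b) • (P * K * Q - s • (Q * K * Q)) + (a * s + c) • (Q * K * P - s • (Q * K * Q)) =
          (a • (P * K * P) + b • (P * K * Q) + c • (Q * K * P) + d • (Q * K * Q)) -
            (a * (s * s) + (b + c) * s + d) • (Q * K * Q) := by module
      rw [h, hs, zero_smul, sub_zero] at h5
      rw [← h5]
      module

end Pool.Agent.H109F.LK
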