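import Mathlib
import Pool.Agent.H109F.LK.Periph
import Pool.Agent.H109F.LK.Lom

/-!
# Functionals of a compact operator which do not vanish on a fixed vector
-/

set_option autoImplicit false

open Filter Topology Metric Set

namespace Pool.Agent.H109F.LK

variable {X : Type} [NormedAddCommGroup X] [NormedSpace ℂ X] [CompleteSpace X]

/-- a fixed vector of a compact operator is detected by a generalized fixed functional -/
theorem jord_func {C : X →L[ℂ] X} (hC : IsCompactOperator C) {y : X} (hy : y ≠ 0) (hCy : C y = y) :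
    ∃ (p : ℕ) (ξ : X →L[ℂ] ℂ), ξ ∘L ((C - 1) ^ p) = 0 ∧ ξ y ≠ 0 := by
  classical
  obtain ⟨R, hR⟩ : ∃ R : X →L[ℂ] X, R = C - 1 := ⟨_, rfl⟩
  rw [← hR]
  have hRx : ∀ x, R x = C x - x := fun x => by rw [hR]; rfl
  have hRC : R * C = C * R := by rw [hR]; noncomm_ring
  let W : ℕ → Submodule ℂ X := fun p => (LinearMap.range ((R ^ p : X →L[ℂ] X) : X →ₗ[ℂ] X)).topologicalClosure
  have hWc : ∀ p, IsClosed (W p : Set X) := fun p => Submodule.isClosed_topologicalClosure _
  have hRW : ∀ p x, (R ^ p) x ∈ W p := fun p x => Submodule.le_topologicalClosure _ ⟨x, rfl⟩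
  have hcl : ∀ p (Q : X →L[ℂ] X) (V : Submodule ℂ X), IsClosed (V : Set X) → (∀ x, Q ((R ^ p) x) ∈ V) →
      ∀ x ∈ W p, Q x ∈ V := by
    intro p Q V hV h x hx
    have hle : W p ≤ V.comap (Q : X →ₗ[ℂ] X) := by
      refine Submodule.topologicalClosure_minimal _ ?_ (hV.preimage Q.continuous)
      rintro _ ⟨z, rfl⟩
      exact h z
    exact hle hx
  have hWR : ∀ p, ∀ x ∈ W p, R x ∈ W (p + 1) := by
    intro p
    refine hcl p R _ (hWc _) fun x => ?_
    have : R ((R ^ p) x) = (R ^ (p + 1)) x := by rw [pow_succ']; rfl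
    rw [this]
    exact hRW _ _
  have hWC : ∀ p, ∀ x ∈ W p, C x ∈ W p := by
    intro p
    refine hcl p C _ (hWc _) fun x => ?_
    have h1 : C * R ^ p = R ^ p * C := ((show Commute R C from hRC).pow_left p).eq.symm
    have : C ((R ^ p) x) = (R ^ p) (C x) := congrArg (fun Z : X →L[ℂ] X => Z x) h1
    rw [this]
    exact hRW _ _
  have hWs : ∀ p, W (p + 1) ≤ W p := by
    intro p x hx
    refine hcl (p + 1) 1 (W p) (hWc p) (fun x => ?_) x hx
    have : (R ^ (p + 1)) x = (R ^ p) (R x) := by rw [pow_succ]; rfl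
    show (R ^ (p + 1)) x ∈ W p
    rw [this]
    exact hRW _ _
  have hanti : ∀ {a b}, a ≤ b → W b ≤ W a := by
    intro a b hab
    induction b, hab using Nat.le_induction with
    | base => exact le_rfl
    | succ b _ ih => exact (hWs b).trans ih
  -- stabilization
  obtain ⟨p, hp⟩ : ∃ p, W p ≤ W (p + 1) := by
    by_contra hcon
    push Not at hcon
    have hRl : ∀ n, ∃ x ∈ W n, ‖x‖ ≤ 3 ∧ ∀ y ∈ W (n + 1), 1 ≤ ‖x - y‖ := by
      intro n
      have h1 : IsClosed (((W (n + 1)).comap (W n).subtype : Submodule ℂ (W n)) : Set (W n)) :=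
        (hWc (n + 1)).preimage continuous_subtype_val
      obtain ⟨v, hv1, hv2⟩ := Set.not_subset.1 (hcon n)
      have h2 : ∃ x : W n, x ∉ (W (n + 1)).comap (W n).subtype := ⟨⟨v, hv1⟩, hv2⟩
      obtain ⟨⟨x, hx⟩, hxn, hxy⟩ := riesz_lemma_of_norm_lt (c := (2 : ℂ)) (R := 3) (by simp) (by norm_num) h1 h2
      refine ⟨x, hx, hxn, fun y hy => ?_⟩
      exact hxy ⟨y, hWs n hy⟩ hy
    choose x hxE hx3 hxd using hRl
    have hsep : ∀ a b, a < b → 1 ≤ ‖C (x b) - C (x a)‖ := by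
      intro a b hab
      have h1 : C (x b) - C (x a) = -(x a - (C (x b) - R (x a))) := by
        rw [hRx]
        abel
      rw [h1, norm_neg]
      refine hxd a _ ((W (a + 1)).sub_mem ?_ (hWR a _ (hxE a)))
      exact hanti (show a + 1 ≤ b from hab) (hWC b _ (hxE b))
    have hC' : IsCompactOperator (C : X →ₗ[ℂ] X) := hC
    obtain ⟨L, hL, hL'⟩ := hC'.image_closedBall_subset_compact (f := (C : X →ₗ[ℂ] X)) 3
    obtain ⟨w, -, φ, hφ, hw⟩ := hL.tendsto_subseq (x := fun n => C (x n))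
      (fun n => hL' ⟨x n, by simpa using hx3 n, rfl⟩)
    have hcau := hw.cauchySeq
    rw [Metric.cauchySeq_iff'] at hcau
    obtain ⟨N, hN⟩ := hcau 1 one_pos
    have h1 := hN (N + 1) (Nat.le_succ N)
    rw [dist_eq_norm] at h1
    exact absurd h1 (not_lt.2 (hsep _ _ (hφ (Nat.lt_succ_self N))))
  by_cases hyW : y ∈ W p
  · -- impossible
    exfalso
    obtain ⟨V, hV⟩ : ∃ V : Submodule ℂ X, V = W p := ⟨_, rfl⟩
    have hVc : IsClosed (V : Set X) := by rw [hV]; exact hWc p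
    have hVcomp : CompleteSpace V := hVc.completeSpace_coe
    have hinv : ∀ x ∈ V, (C : X →ₗ[ℂ] X) x ∈ V := fun x hx => by
      rw [hV] at hx ⊢
      exact hWC p x hx
    have h1 : IsCompactOperator ((C : X →ₗ[ℂ] X).restrict hinv) :=
      IsCompactOperator.restrict (f := (C : X →ₗ[ℂ] X)) hC hinv hVc
    have hcont : Continuous ((C : X →ₗ[ℂ] X).restrict hinv) :=
      (C.continuous.comp continuous_subtype_val).subtype_mk _
    obtain ⟨C', hC'⟩ : ∃ C' : V →L[ℂ] V, C' = ⟨(C : X →ₗ[ℂ] X).restrict hinv, hcont⟩ := ⟨_, rfl⟩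
    have hCa : ∀ v : V, ((C' v : V) : X) = C v := fun v => by rw [hC']; rfl
    have hC'c : IsCompactOperator C' := by rw [hC']; exact h1
    have hyV : y ∈ V := by rw [hV]; exact hyW
    obtain ⟨ξ, hξ0, hξ⟩ := fixed_functional hC'c (y := ⟨y, hyV⟩) (by
      intro h; exact hy (congrArg Subtype.val h)) (Subtype.ext (by rw [hCa]; exact hCy))
    apply hξ0
    -- `ξ` vanishes on a dense subspace
    have hRV : ∀ x, (R ^ (p + 1)) x ∈ V := fun x => by
      rw [hV]; exact hWs p (hRW _ _)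
    have hvan : ∀ x, ξ ⟨(R ^ (p + 1)) x, hRV x⟩ = 0 := by
      intro x
      have h2 : (R ^ p) x ∈ V := by rw [hV]; exact hRW _ _
      have h3 : (⟨(R ^ (p + 1)) x, hRV x⟩ : V) = C' ⟨(R ^ p) x, h2⟩ - ⟨(R ^ p) x, h2⟩ := by
        refine Subtype.ext ?_
        show (R ^ (p + 1)) x = ((C' ⟨(R ^ p) x, h2⟩ : V) : X) - (R ^ p) x
        rw [hCa, pow_succ']
        show R ((R ^ p) x) = _
        rw [hRx]
      rw [h3, map_sub, sub_eq_zero]
      exact congrArg (fun g : V →L[ℂ] ℂ => g ⟨(R ^ p) x, h2⟩) hξ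
    have hdense : Dense (Set.range fun x => (⟨(R ^ (p + 1)) x, hRV x⟩ : V)) := by
      intro v
      rw [Topology.IsInducing.subtypeVal.closure_eq_preimage_closure_image]
      show (v : X) ∈ closure _
      have hVW : V ≤ W p := by rw [hV]
      have h2 : (v : X) ∈ W (p + 1) := hp (hVW v.2)
      have h3 : (v : X) ∈ closure (LinearMap.range ((R ^ (p + 1) : X →L[ℂ] X) : X →ₗ[ℂ] X) : Set X) := h2
      refine closure_mono ?_ h3
      rintro _ ⟨x, rfl⟩
      exact ⟨⟨(R ^ (p + 1)) x, hRV x⟩, ⟨x, rfl⟩, rfl⟩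
    have h4 : (ξ : V → ℂ) = ((0 : V →L[ℂ] ℂ) : V → ℂ) := by
      refine Continuous.ext_on hdense ξ.continuous (0 : V →L[ℂ] ℂ).continuous ?_
      rintro _ ⟨x, rfl⟩
      exact hvan x
    exact DFunLike.coe_injective h4
  · have hc := hWc p
    have hxq : ((W p).mkQ y) ≠ 0 := by
      rw [Submodule.mkQ_apply, Ne, Submodule.Quotient.mk_eq_zero]
      exact hyW
    obtain ⟨g, -, hg⟩ := exists_dual_vector ℂ ((W p).mkQ y) (norm_ne_zero_iff.2 hxq)
    refine ⟨p, g ∘L (W p).mkQL, ?_, ?_⟩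
    · ext z
      show g ((W p).mkQ ((R ^ p) z)) = 0
      have h1 : (W p).mkQ ((R ^ p) z) = 0 := by
        rw [Submodule.mkQ_apply, Submodule.Quotient.mk_eq_zero]
        exact hRW p z
      rw [h1, map_zero]
    · show g ((W p).mkQ y) ≠ 0
      rw [hg]
      exact fun h => hxq (norm_eq_zero.1 (RCLike.ofReal_eq_zero.1 h))

/-- coefficients of an entire function which is `o(|u|^k)` -/
theorem coeff_zero {b : ℕ → ℂ} {k : ℕ} (hb : ∀ ε : ℝ, 0 < ε → ∃ C : ℝ, 0 ≤ C ∧ ∀ n, ‖b n‖ ≤ C * ε ^ n)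
    (h : Tendsto (fun u : ℂ => (u⁻¹) ^ k * ∑' n, b n * u ^ n) (cocompact ℂ) (𝓝 0)) :
    ∀ m, k ≤ m → b m = 0 := by
  have hsum : ∀ (m : ℕ) (u : ℂ), Summable fun n => b (n + m) * u ^ n := by
    intro m u
    obtain ⟨C, hC, hCb⟩ := hb (1 / (2 * (‖u‖ + 1))) (by positivity)
    refine Summable.of_norm_bounded (g := fun n : ℕ => C * (1 / (2 * (‖u‖ + 1))) ^ m * (1 / 2 : ℝ) ^ n) ?_
      fun n => ?_
    · exact (summable_geometric_of_lt_one (by norm_num) (by norm_num)).mul_left _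
    · rw [norm_mul, norm_pow]
      have hu := norm_nonneg u
      calc ‖b (n + m)‖ * ‖u‖ ^ n ≤ (C * (1 / (2 * (‖u‖ + 1))) ^ (n + m)) * (‖u‖ + 1) ^ n := by
            gcongr
            · exact hCb _
            · linarith
        _ = C * (1 / (2 * (‖u‖ + 1))) ^ m * ((1 / (2 * (‖u‖ + 1))) * (‖u‖ + 1)) ^ n := by
            rw [pow_add, mul_pow (1 / (2 * (‖u‖ + 1)))]; ring
        _ = _ := by
            congr 2
            field_simp
  have hdiff : ∀ m, Differentiable ℂ fun u => ∑' n, b (n + m) * u ^ n := by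
    intro m u
    have hopen : IsOpen {s : ℂ | ‖s‖ < ‖u‖ + 1} := isOpen_lt continuous_norm continuous_const
    have hu := norm_nonneg u
    obtain ⟨C, hC, hCb⟩ := hb (1 / (2 * (‖u‖ + 1))) (by positivity)
    have h1 : DifferentiableOn ℂ (fun s => ∑' n, b (n + m) * s ^ n) {s : ℂ | ‖s‖ < ‖u‖ + 1} := by
      refine Complex.differentiableOn_tsum_of_summable_norm
        (u := fun n : ℕ => C * (1 / (2 * (‖u‖ + 1))) ^ m * (1 / 2 : ℝ) ^ n) ?_ ?_ hopen ?_
      · exact (summable_geometric_of_lt_one (by norm_num) (by norm_num)).mul_left _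
      · intro n
        fun_prop
      · intro n s hs
        have hs' : ‖s‖ ≤ ‖u‖ + 1 := le_of_lt hs
        rw [norm_mul, norm_pow]
        calc ‖b (n + m)‖ * ‖s‖ ^ n ≤ (C * (1 / (2 * (‖u‖ + 1))) ^ (n + m)) * (‖u‖ + 1) ^ n := by
              gcongr
              exact hCb _
          _ = C * (1 / (2 * (‖u‖ + 1))) ^ m * ((1 / (2 * (‖u‖ + 1))) * (‖u‖ + 1)) ^ n := by
              rw [pow_add, mul_pow (1 / (2 * (‖u‖ + 1)))]; ring
          _ = _ := by
              congr 2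
              field_simp
    exact (h1 u (by show ‖u‖ < ‖u‖ + 1; linarith)).differentiableAt (hopen.mem_nhds (by show ‖u‖ < ‖u‖ + 1; linarith))
  have hinv : Tendsto (fun u : ℂ => u⁻¹) (cocompact ℂ) (𝓝 0) :=
    Metric.cobounded_eq_cocompact (α := ℂ) ▸ Filter.tendsto_inv₀_cobounded
  intro m hm
  have hne : ∀ᶠ u : ℂ in cocompact ℂ, u ≠ 0 := by
    have := (isCompact_singleton (x := (0 : ℂ))).compl_mem_cocompact
    filter_upwards [this] with u hu
    simpa using hu
  -- `∑ b (n + m) u ^ n` tends to `0` or to a constant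
  have hlim : Tendsto (fun u : ℂ => ∑' n, b (n + m) * u ^ n - (if m = k then 0 else 0)) (cocompact ℂ) (𝓝 0) := by
    have h1 : ∀ u : ℂ, u ≠ 0 → ∑' n, b (n + m) * u ^ n =
        (u⁻¹) ^ (m - k) * ((u⁻¹) ^ k * ∑' n, b n * u ^ n) - ∑ i ∈ Finset.range m, b i * (u⁻¹) ^ (m - i) := by
      intro u hu
      have h2 : ∑' n, b n * u ^ n = ∑ i ∈ Finset.range m, b i * u ^ i + u ^ m * ∑' n, b (n + m) * u ^ n := by
        have h3 := (hsum 0 u).sum_add_tsum_nat_add m
        simp only [add_zero] at h3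
        rw [← h3, ← (hsum m u).tsum_mul_left]
        congr 1
        refine tsum_congr fun n => ?_
        rw [pow_add]; ring
      rw [h2, ← mul_assoc, ← pow_add, Nat.sub_add_cancel hm, mul_add, ← mul_assoc, ← mul_pow,
        inv_mul_cancel₀ hu, one_pow, one_mul, Finset.mul_sum]
      have h4 : ∑ i ∈ Finset.range m, (u⁻¹) ^ m * (b i * u ^ i) =
          ∑ i ∈ Finset.range m, b i * (u⁻¹) ^ (m - i) := by
        refine Finset.sum_congr rfl fun i hi => ?_
        have hi' := Finset.mem_range.1 hi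
        have h5 : m = (m - i) + i := by omega
        have h6 : (u⁻¹) ^ m = (u⁻¹) ^ (m - i) * (u⁻¹) ^ i := by rw [← pow_add]; congr 1
        rw [h6]
        have h7 : (u⁻¹) ^ i * u ^ i = 1 := by rw [← mul_pow, inv_mul_cancel₀ hu, one_pow]
        calc (u⁻¹) ^ (m - i) * (u⁻¹) ^ i * (b i * u ^ i) = b i * (u⁻¹) ^ (m - i) * ((u⁻¹) ^ i * u ^ i) := by ring
          _ = _ := by rw [h7, mul_one]
      rw [h4]
      ring
    have h2 : Tendsto (fun u : ℂ => (u⁻¹) ^ (m - k) * ((u⁻¹) ^ k * ∑' n, b n * u ^ n) -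
        ∑ i ∈ Finset.range m, b i * (u⁻¹) ^ (m - i)) (cocompact ℂ) (𝓝 (0 ^ (m - k) * 0 - ∑ i ∈ Finset.range m, b i * 0 ^ (m - i))) := by
      refine ((hinv.pow _).mul h).sub (tendsto_finsetSum _ fun i _ => (hinv.pow _).const_mul _)
    have h3 : (0 : ℂ) ^ (m - k) * 0 - ∑ i ∈ Finset.range m, b i * 0 ^ (m - i) = 0 := by
      rw [mul_zero, Finset.sum_eq_zero, sub_zero]
      intro i hi
      have hi' := Finset.mem_range.1 hi
      rw [zero_pow (by omega), mul_zero]
    rw [h3] at h2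
    refine h2.congr' ?_
    filter_upwards [hne] with u hu
    rw [h1 u hu]
    simp
  simp only [ite_self, sub_zero] at hlim
  have h4 := (hdiff m).apply_eq_of_tendsto_cocompact 0 hlim
  have h5 : ∑' n, b (n + m) * (0 : ℂ) ^ n = b m := by
    rw [tsum_eq_single 0]
    · simp
    · intro n hn
      rw [zero_pow hn, mul_zero]
  rw [← h5]
  exact h4

end Pool.Agent.H109F.LK
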