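import Mathlib
import Pool.Agent.H109F.LK.Periph

/-!
# Limits along orbits
-/

set_option autoImplicit false

open Filter Topology Metric Set

namespace Pool.Agent.H109F.LK

section UC

variable {Y : Type} [NormedAddCommGroup Y] [NormedSpace ℂ Y]

/-- compactness, in terms of ultrafilters -/
def UC (D : Y →L[ℂ] Y) : Prop := ∀ (z : ℕ → Y), (∀ n, ‖z n‖ ≤ 1) → ∀ U : Ultrafilter ℕ,
  ∃ w, Tendsto (fun n => D (z n)) U (𝓝 w)

theorem UC_of_compact {D : Y →L[ℂ] Y} (hD : IsCompactOperator D) : UC D := by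
  intro z hz U
  have hD' : IsCompactOperator (D : Y →ₗ[ℂ] Y) := hD
  obtain ⟨L, hL, hL'⟩ := hD'.image_closedBall_subset_compact (f := (D : Y →ₗ[ℂ] Y)) 1
  obtain ⟨w, -, hw⟩ := hL.ultrafilter_le_nhds (U.map fun n => D (z n)) (by
    rw [le_principal_iff]
    refine mem_of_superset (show (fun n => D (z n)) '' Set.univ ∈ (U.map fun n => D (z n)) from ?_) ?_
    · exact image_mem_map univ_mem
    · rintro _ ⟨n, -, rfl⟩
      exact hL' ⟨z n, by simpa using hz n, rfl⟩)
  exact ⟨w, hw⟩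

/-- the adjoint -/
noncomputable def dual (D : Y →L[ℂ] Y) : (Y →L[ℂ] ℂ) →L[ℂ] (Y →L[ℂ] ℂ) :=
  (ContinuousLinearMap.compL ℂ Y Y ℂ).flip D

theorem dual_apply (D : Y →L[ℂ] Y) (ξ : Y →L[ℂ] ℂ) : dual D ξ = ξ ∘L D := rfl

theorem UC_dual {D : Y →L[ℂ] Y} (hD : IsCompactOperator D) : UC (dual D) := by
  intro η hη U
  -- the weak limit
  obtain ⟨w, -, hw⟩ := (WeakDual.isCompact_closedBall (𝕜 := ℂ) (E := Y) 0 1).ultrafilter_le_nhds
    (U.map fun n => StrongDual.toWeakDual (η n)) (by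
      rw [le_principal_iff]
      refine mem_of_superset (image_mem_map (univ_mem (f := (U : Filter ℕ)))) ?_
      rintro _ ⟨n, -, rfl⟩
      simpa using hη n)
  have hpt : ∀ y : Y, Tendsto (fun n => η n y) U (𝓝 ((WeakDual.toStrongDual w) y)) := by
    intro y
    have h1 : Tendsto (fun n => StrongDual.toWeakDual (η n)) U (𝓝 w) := hw
    exact ((WeakDual.eval_continuous y).tendsto w).comp h1
  obtain ⟨g, hg⟩ : ∃ g : Y →L[ℂ] ℂ, ∀ y : Y, Tendsto (fun n => η n y) U (𝓝 (g y)) :=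
    ⟨WeakDual.toStrongDual w, hpt⟩
  have hgn : ‖g‖ ≤ 1 := by
    refine ContinuousLinearMap.opNorm_le_bound _ zero_le_one fun y => ?_
    refine le_of_tendsto (hg y).norm (Eventually.of_forall fun n => ?_)
    exact ((η n).le_opNorm y).trans (mul_le_mul_of_nonneg_right (hη n) (norm_nonneg _))
  refine ⟨g ∘L D, ?_⟩
  rw [Metric.tendsto_nhds]
  intro ε hε
  have hc : IsCompact (closure (D '' closedBall (0 : Y) 1)) :=
    IsCompactOperator.isCompact_closure_image_closedBall (𝕜₁ := ℂ) (f := (D : Y →ₗ[ℂ] Y)) hD 1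
  obtain ⟨t, htf, ht⟩ := Metric.totallyBounded_iff.1 hc.totallyBounded (ε / 8) (by positivity)
  have h1 : ∀ᶠ n in (U : Filter ℕ), ∀ y ∈ t, ‖η n y - g y‖ ≤ ε / 4 := by
    rw [Filter.eventually_all_finite htf]
    intro y hy
    filter_upwards [(Metric.tendsto_nhds.1 (hg y)) (ε / 4) (by positivity)] with n hn
    rw [dist_eq_norm] at hn
    exact hn.le
  filter_upwards [h1] with n hn
  rw [dist_eq_norm]
  have h2 : ‖dual D (η n) - g ∘L D‖ ≤ ε / 2 := by
    refine ContinuousLinearMap.opNorm_le_of_unit_norm (by positivity) fun x hx => ?_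
    have h3 : D x ∈ ⋃ y ∈ t, ball y (ε / 8) :=
      ht (subset_closure ⟨x, mem_closedBall_zero_iff.2 hx.le, rfl⟩)
    obtain ⟨y, hy, h4⟩ := Set.mem_iUnion₂.1 h3
    rw [mem_ball, dist_eq_norm] at h4
    have h5 : (dual D (η n) - g ∘L D) x = (η n y - g y) + (η n (D x - y) - g (D x - y)) := by
      show η n (D x) - g (D x) = _
      rw [map_sub, map_sub]; abel
    rw [h5]
    refine (norm_add_le _ _).trans ?_
    have h6 : ‖η n (D x - y) - g (D x - y)‖ ≤ ε / 8 + ε / 8 := by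
      refine (norm_sub_le _ _).trans (add_le_add ?_ ?_)
      · calc ‖η n (D x - y)‖ ≤ ‖η n‖ * ‖D x - y‖ := (η n).le_opNorm _
          _ ≤ 1 * (ε / 8) := mul_le_mul (hη n) h4.le (norm_nonneg _) zero_le_one
          _ = _ := one_mul _
      · calc ‖g (D x - y)‖ ≤ ‖g‖ * ‖D x - y‖ := g.le_opNorm _
          _ ≤ 1 * (ε / 8) := mul_le_mul hgn h4.le (norm_nonneg _) zero_le_one
          _ = _ := one_mul _
    have := hn y hy
    linarith
  linarith

/-- **limits along orbits** -/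
theorem lim_zero {D S : Y →L[ℂ] Y} (hD : UC D) (hS : ∀ x, S x = 0 → x = 0) {z a b : ℕ → Y}
    {M t : ℕ → ℂ} (hM : Tendsto M atTop (𝓝 1)) (ht : Tendsto t atTop (𝓝 0))
    (ha : Tendsto a atTop (𝓝 0)) (hb : Tendsto b atTop (𝓝 0))
    (h1 : ∀ n, z (n + 1) = M n • (D (z n) + a n)) (h2 : ∀ n, S (z n) = t n • z n + b n) :
    Tendsto z atTop (𝓝 0) := by
  let p : ℕ → ℝ := fun n => partialSups (fun n => max 1 ‖z n‖) n
  have hpz : ∀ n, ‖z n‖ ≤ p n := fun n => (le_max_right _ _).trans (le_partialSups (fun n => max 1 ‖z n‖) n)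
  have hp1 : ∀ n, 1 ≤ p n := fun n => (le_max_left _ _).trans (le_partialSups (fun n => max 1 ‖z n‖) n)
  have hp0 : ∀ n, 0 < p n := fun n => one_pos.trans_le (hp1 n)
  have hpm : ∀ n, p n ≤ p (n + 1) := fun n => (partialSups _).monotone (Nat.le_succ n)
  have hps : ∀ n, p (n + 1) = max (p n) (max 1 ‖z (n + 1)‖) := fun n => partialSups_succ _ n
  have hinv : ∀ n, ‖(((p n)⁻¹ : ℝ) : ℂ)‖ = (p n)⁻¹ := fun n => by
    rw [Complex.norm_real, Real.norm_eq_abs, abs_of_pos (inv_pos.2 (hp0 n))]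
  have hinv1 : ∀ n, (p n)⁻¹ ≤ 1 := fun n => inv_le_one_of_one_le₀ (hp1 n)
  let w : ℕ → Y := fun n => (((p n)⁻¹ : ℝ) : ℂ) • z n
  have hw1 : ∀ n, ‖w n‖ ≤ 1 := by
    intro n
    show ‖(((p n)⁻¹ : ℝ) : ℂ) • z n‖ ≤ 1
    rw [norm_smul, hinv, inv_mul_le_iff₀ (hp0 n), mul_one]
    exact hpz n
  have hw : Tendsto (fun n => w (n + 1)) atTop (𝓝 0) := by
    by_contra hcon
    rw [not_tendsto_iff_exists_frequently_notMem] at hcon
    obtain ⟨s, hs, hfr⟩ := hcon
    obtain ⟨ε, hε, hεs⟩ := Metric.mem_nhds_iff.1 hs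
    have hne : (atTop ⊓ 𝓟 {n | w (n + 1) ∉ s}).NeBot := by
      rw [inf_principal_neBot_iff]
      intro A hA
      obtain ⟨n, hn1, hn2⟩ := (hfr.and_eventually hA).exists
      exact ⟨n, hn2, hn1⟩
    obtain ⟨U, hU⟩ := Ultrafilter.exists_le (atTop ⊓ 𝓟 {n | w (n + 1) ∉ s})
    have hU1 : (U : Filter ℕ) ≤ atTop := hU.trans inf_le_left
    have hU2 : ∀ᶠ n in (U : Filter ℕ), w (n + 1) ∉ s := hU.trans inf_le_right (mem_principal_self _)
    obtain ⟨e, he⟩ := hD (fun n => (((p (n + 1))⁻¹ : ℝ) : ℂ) • z n) (fun n => by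
      rw [norm_smul, hinv, inv_mul_le_iff₀ (hp0 _), mul_one]
      exact (hpz n).trans (hpm n)) U
    have hwe : Tendsto (fun n => w (n + 1)) U (𝓝 e) := by
      have h3 : ∀ n, w (n + 1) = M n • (D ((((p (n + 1))⁻¹ : ℝ) : ℂ) • z n) +
          (((p (n + 1))⁻¹ : ℝ) : ℂ) • a n) := by
        intro n
        show (((p (n + 1))⁻¹ : ℝ) : ℂ) • z (n + 1) = _
        rw [h1, map_smul, ← smul_add, smul_comm]
      have h4 : Tendsto (fun n => (((p (n + 1))⁻¹ : ℝ) : ℂ) • a n) U (𝓝 0) := by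
        refine squeeze_zero_norm (fun n => ?_) (tendsto_zero_iff_norm_tendsto_zero.1 (ha.mono_left hU1))
        rw [norm_smul, hinv]
        exact mul_le_of_le_one_left (norm_nonneg _) (hinv1 _)
      have h5 := (hM.mono_left hU1).smul (he.add h4)
      rw [one_smul, add_zero] at h5
      exact h5.congr fun n => (h3 n).symm
    have hSe : S e = 0 := by
      have h3 : Tendsto (fun n => S (w (n + 1))) U (𝓝 (S e)) := (S.continuous.tendsto e).comp hwe
      have h4 : Tendsto (fun n => S (w (n + 1))) U (𝓝 0) := by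
        have h5 : ∀ n, S (w (n + 1)) = t (n + 1) • w (n + 1) + (((p (n + 1))⁻¹ : ℝ) : ℂ) • b (n + 1) := by
          intro n
          show S ((((p (n + 1))⁻¹ : ℝ) : ℂ) • z (n + 1)) = _
          rw [map_smul, h2, smul_add, smul_comm]
        have ht' : Tendsto (fun n => t (n + 1)) U (𝓝 0) :=
          ((tendsto_add_atTop_iff_nat 1).2 ht).mono_left hU1
        have hb' : Tendsto (fun n => b (n + 1)) U (𝓝 0) :=
          ((tendsto_add_atTop_iff_nat 1).2 hb).mono_left hU1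
        have h6 : Tendsto (fun n => (((p (n + 1))⁻¹ : ℝ) : ℂ) • b (n + 1)) U (𝓝 0) := by
          refine squeeze_zero_norm (fun n => ?_) (tendsto_zero_iff_norm_tendsto_zero.1 hb')
          rw [norm_smul, hinv]
          exact mul_le_of_le_one_left (norm_nonneg _) (hinv1 _)
        have h7 := (ht'.smul hwe).add h6
        rw [zero_smul, add_zero] at h7
        exact h7.congr fun n => (h5 n).symm
      exact tendsto_nhds_unique h3 h4
    have he0 := hS e hSe
    rw [he0] at hwe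
    obtain ⟨n, hn1, hn2⟩ := (hU2.and (hwe hs)).exists
    exact hn1 hn2
  have hw' : Tendsto w atTop (𝓝 0) := (tendsto_add_atTop_iff_nat 1).1 hw
  obtain ⟨n₀, hn₀⟩ := (Metric.tendsto_atTop.1 hw') (1 / 2) (by norm_num)
  have hzn : ∀ n, ‖z n‖ = p n * ‖w n‖ := by
    intro n
    show _ = p n * ‖(((p n)⁻¹ : ℝ) : ℂ) • z n‖
    rw [norm_smul, hinv, mul_inv_cancel_left₀ (hp0 n).ne']
  have hconst : ∀ n, n₀ ≤ n → p n = p n₀ := by
    intro n hn
    induction n, hn using Nat.le_induction with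
    | base => rfl
    | succ n hn ih =>
      rw [← ih, hps]
      have h3 := hn₀ (n + 1) (by omega)
      rw [dist_zero_right] at h3
      have h4 : ‖z (n + 1)‖ ≤ p (n + 1) / 2 := by
        rw [hzn]
        have := hp0 (n + 1)
        nlinarith
      refine max_eq_left (max_le (hp1 n) ?_)
      by_contra hcon
      push Not at hcon
      have h5 : p (n + 1) = max 1 ‖z (n + 1)‖ := by
        rw [hps]
        exact max_eq_right (hcon.le.trans (le_max_right _ _))
      have h6 : max 1 ‖z (n + 1)‖ = ‖z (n + 1)‖ := max_eq_right ((hp1 n).trans hcon.le)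
      rw [h5, h6] at h4
      have := (hp0 n).trans hcon
      linarith
  rw [tendsto_zero_iff_norm_tendsto_zero] at hw' ⊢
  have h3 : Tendsto (fun n => p n₀ * ‖w n‖) atTop (𝓝 0) := by
    simpa using hw'.const_mul (p n₀)
  refine h3.congr' ?_
  filter_upwards [eventually_ge_atTop n₀] with n hn
  rw [hzn, hconst n hn]

end UC

/-- summation along orbits -/
theorem sum_orbit {φ σ : ℕ → ℝ} {C κ η : ℝ} (hC : 0 ≤ C) (hκ : 0 ≤ κ) (hσ : ∀ n, 0 ≤ σ n)
    (hs : ∀ n, ∑ i ∈ Finset.range n, σ i ≤ η) (hφ0 : ∀ n, 0 ≤ φ n)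
    (h : ∀ n, φ n ≤ (1 + C * σ n) * (φ (n + 1) + κ * σ n)) (hφ : Tendsto φ atTop (𝓝 0)) :
    φ 0 ≤ Real.exp (C * η) * (κ * η) := by
  have key : ∀ n, φ 0 ≤ Real.exp (C * ∑ i ∈ Finset.range n, σ i) * (φ n + κ * ∑ i ∈ Finset.range n, σ i) := by
    intro n
    induction n with
    | zero => simp
    | succ n ih =>
      refine ih.trans ?_
      rw [Finset.sum_range_succ]
      have hS0 : 0 ≤ ∑ i ∈ Finset.range n, σ i := Finset.sum_nonneg fun i _ => hσ i
      set s0 := ∑ i ∈ Finset.range n, σ i with hs0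
      have h1 : 1 + C * σ n ≤ Real.exp (C * σ n) := by
        have := Real.add_one_le_exp (C * σ n); linarith
      have h1' : 1 ≤ Real.exp (C * σ n) := Real.one_le_exp (mul_nonneg hC (hσ n))
      have h2 : φ n + κ * s0 ≤ Real.exp (C * σ n) * (φ (n + 1) + κ * (s0 + σ n)) := by
        have h3 : φ n ≤ Real.exp (C * σ n) * (φ (n + 1) + κ * σ n) :=
          (h n).trans (mul_le_mul_of_nonneg_right h1
            (add_nonneg (hφ0 _) (mul_nonneg hκ (hσ n))))
        have h4 : κ * s0 ≤ Real.exp (C * σ n) * (κ * s0) :=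
          le_mul_of_one_le_left (mul_nonneg hκ hS0) h1'
        calc φ n + κ * s0 ≤ Real.exp (C * σ n) * (φ (n + 1) + κ * σ n) +
              Real.exp (C * σ n) * (κ * s0) := add_le_add h3 h4
          _ = _ := by ring
      calc Real.exp (C * s0) * (φ n + κ * s0) ≤
            Real.exp (C * s0) * (Real.exp (C * σ n) * (φ (n + 1) + κ * (s0 + σ n))) := by gcongr
        _ = _ := by
            rw [← mul_assoc, ← Real.exp_add]
            congr 2
            ring
  have h2 : ∀ n, φ 0 ≤ Real.exp (C * η) * (φ n + κ * η) := by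
    intro n
    refine (key n).trans ?_
    have h4 := hs n
    have h3 := hφ0 n
    have h5 : 0 ≤ ∑ i ∈ Finset.range n, σ i := Finset.sum_nonneg fun i _ => hσ i
    have h6 : 0 ≤ φ n + κ * ∑ i ∈ Finset.range n, σ i := add_nonneg h3 (mul_nonneg hκ h5)
    gcongr
  have h3 : Tendsto (fun n => Real.exp (C * η) * (φ n + κ * η)) atTop (𝓝 (Real.exp (C * η) * (κ * η))) := by
    have := (hφ.add_const (κ * η)).const_mul (Real.exp (C * η))
    rwa [zero_add] at this
  exact ge_of_tendsto h3 (Eventually.of_forall h2)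

end Pool.Agent.H109F.LK
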