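import Mathlib
import Pool.Agent.H109F.LK.Tail
import Pool.Agent.H109F.LK.LimZ
import Pool.Agent.H109F.LK.Fix

/-!
# The chain of functionals
-/

set_option autoImplicit false

open Filter Topology Finset

namespace Pool.Agent.H109F.LK

variable {X : Type} [NormedAddCommGroup X] [NormedSpace ℂ X] [CompleteSpace X]

theorem ps_func {S : X →L[ℂ] X} {f : ℕ → ℂ} {C B : ℝ} (hS : spectrum ℂ S ⊆ {0}) (hf : GB f C B)
    (ξ : X →L[ℂ] ℂ) (x : X) : ξ (ps S f x) = ∑' n, f n * ξ ((S ^ n) x) := by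
  have h1 := (ξ ∘L (ContinuousLinearMap.apply ℂ X x)).map_tsum (hf.sum hS)
  have h2 : (ξ ∘L (ContinuousLinearMap.apply ℂ X x)) (∑' n, f n • S ^ n) = ξ (ps S f x) := rfl
  rw [← h2, h1]
  refine tsum_congr fun n => ?_
  show ξ (f n • (S ^ n) x) = _
  rw [map_smul, smul_eq_mul]

/-- operators which preserve annihilators of cyclic vectors -/
def KK (S B : X →L[ℂ] X) : Prop := ∀ (ξ : X →L[ℂ] ℂ) (z : X), (∀ n : ℕ, ξ ((S ^ n) z) = 0) →
  ∀ n : ℕ, ξ ((S ^ n) (B z)) = 0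

section KK

variable {S B B' : X →L[ℂ] X}

omit [CompleteSpace X] in
theorem KK.one : KK S 1 := fun _ _ h => h

omit [CompleteSpace X] in
theorem KK.self : KK S S := fun ξ z h n => by
  have := h (n + 1)
  rwa [pow_succ] at this

omit [CompleteSpace X] in
theorem KK.add (h : KK S B) (h' : KK S B') : KK S (B + B') := fun ξ z hz n => by
  show ξ ((S ^ n) (B z + B' z)) = 0
  rw [map_add, map_add, h ξ z hz n, h' ξ z hz n, add_zero]

omit [CompleteSpace X] in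
theorem KK.sub (h : KK S B) (h' : KK S B') : KK S (B - B') := fun ξ z hz n => by
  show ξ ((S ^ n) (B z - B' z)) = 0
  rw [map_sub, map_sub, h ξ z hz n, h' ξ z hz n, sub_zero]

omit [CompleteSpace X] in
theorem KK.smul (h : KK S B) (a : ℂ) : KK S (a • B) := fun ξ z hz n => by
  show ξ ((S ^ n) (a • B z)) = 0
  rw [map_smul, map_smul, h ξ z hz n, smul_zero]

omit [CompleteSpace X] in
theorem KK.mul (h : KK S B) (h' : KK S B') : KK S (B * B') := fun ξ z hz n =>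
  h ξ (B' z) (h' ξ z hz) n

omit [CompleteSpace X] in
theorem KK.pow (h : KK S B) (n : ℕ) : KK S (B ^ n) := by
  induction n with
  | zero => rw [pow_zero]; exact KK.one
  | succ n ih => rw [pow_succ]; exact ih.mul h

theorem KK.tsum (h : KK S B) {a : ℕ → ℂ} (hs : Summable fun n => a n • B ^ n) :
    KK S (∑' n, a n • B ^ n) := by
  intro ξ z hz n
  have h1 := ((ξ ∘L (S ^ n)) ∘L (ContinuousLinearMap.apply ℂ X z)).map_tsum hs
  have h2 : ((ξ ∘L (S ^ n)) ∘L (ContinuousLinearMap.apply ℂ X z)) (∑' n, a n • B ^ n) =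
    ξ ((S ^ n) ((∑' n, a n • B ^ n) z)) := rfl
  rw [← h2, h1]
  have h3 : ∀ m, ((ξ ∘L (S ^ n)) ∘L (ContinuousLinearMap.apply ℂ X z)) (a m • B ^ m) = 0 := by
    intro m
    exact ((h.pow m).smul (a m)) ξ z hz n
  simp only [h3, tsum_zero]

theorem KK.ps {f : ℕ → ℂ} {C B : ℝ} (hS : spectrum ℂ S ⊆ {0}) (hf : GB f C B) : KK S (ps S f) :=
  KK.self.tsum (hf.sum hS)

end KK

/-- the data -/
structure Dat (S D : X →L[ℂ] X) (x0 : X) (F F1 : ℂ → ℂ) (k : ℕ) (r H Cm : ℝ) : Prop where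
  hS : spectrum ℂ S ⊆ {0}
  hinj : ∀ x, S x = 0 → x = 0
  hdual : ∀ ξ : X →L[ℂ] ℂ, ξ ∘L S = 0 → ξ = 0
  hD : IsCompactOperator D
  hDx : D x0 = x0
  hr : 0 < r
  hH : 0 ≤ H
  hCm : 0 ≤ Cm
  hm : ∀ y : ℂ, y ≠ 0 → ‖y‖ ≤ r → F y ≠ 0 ∧ F1 y ≠ 0 ∧
    ‖F1 y * y ^ (k + 1) / F y ^ (k + 1) - 1‖ ≤ Cm * ‖y‖ ^ (k + 1)
  hrel : ∀ y : ℂ, y ≠ 0 → ‖y‖ ≤ r → ∃ E : X →L[ℂ] X, ‖E‖ ≤ H ∧
    F1 y • (Rv S (F y) * D) = D * Rv S y + D * E
  horb : ∀ η : ℝ, 0 < η → ∃ ε : ℝ, 0 < ε ∧ ∀ y : ℂ, y ≠ 0 → ‖y‖ < ε → ∃ t : ℕ → ℂ, t 0 = y ∧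
    (∀ n, t n ≠ 0) ∧ (∀ n, ‖t n‖ ≤ r) ∧ Tendsto t atTop (𝓝 0) ∧
    (∀ n, ∑ i ∈ range n, ‖t i‖ ^ (k + 1) ≤ η) ∧
    ((∀ n, t (n + 1) = F (t n)) ∨ (∀ n, F (t (n + 1)) = t n))

section chain

variable {S D : X →L[ℂ] X} {x0 : X} {F F1 : ℂ → ℂ} {k : ℕ} {r H Cm : ℝ}

theorem pow_lim {t : ℕ → ℂ} (ht : Tendsto t atTop (𝓝 0)) (k : ℕ) :
    Tendsto (fun n => ‖t n‖ ^ (k + 1)) atTop (𝓝 0) := by
  have h1 := (tendsto_zero_iff_norm_tendsto_zero.1 ht).pow (k + 1)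
  rwa [zero_pow (by omega)] at h1

/-- limits of the resolvent along attracting orbits -/
theorem Dat.attr (h : Dat S D x0 F F1 k r H Cm) {t : ℕ → ℂ} (ht0 : ∀ n, t n ≠ 0)
    (htr : ∀ n, ‖t n‖ ≤ r) (ht : Tendsto t atTop (𝓝 0)) (hor : ∀ n, t (n + 1) = F (t n)) :
    Tendsto (fun n => t n ^ (k + 1) • Rv S (t n) x0) atTop (𝓝 0) := by
  choose E hE1 hE2 using fun n => h.hrel (t n) (ht0 n) (htr n)
  have hp := pow_lim ht k
  have hm1 : Tendsto (fun n => F1 (t n) * t n ^ (k + 1) / F (t n) ^ (k + 1)) atTop (𝓝 1) := by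
    rw [tendsto_iff_norm_sub_tendsto_zero]
    refine squeeze_zero (fun n => norm_nonneg _) (fun n => (h.hm (t n) (ht0 n) (htr n)).2.2) ?_
    simpa using hp.const_mul Cm
  have hM : Tendsto (fun n => (F1 (t n) * t n ^ (k + 1) / F (t n) ^ (k + 1))⁻¹) atTop (𝓝 1) := by
    simpa using hm1.inv₀ one_ne_zero
  refine lim_zero (D := D) (S := S) (UC_of_compact h.hD) h.hinj
    (M := fun n => (F1 (t n) * t n ^ (k + 1) / F (t n) ^ (k + 1))⁻¹) (t := t)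
    (a := fun n => t n ^ (k + 1) • D (E n x0)) (b := fun n => -(t n ^ (k + 1) • x0)) hM ht ?_ ?_
    (fun n => ?_) (fun n => ?_)
  · refine squeeze_zero_norm (a := fun n => ‖t n‖ ^ (k + 1) * (‖D‖ * (H * ‖x0‖))) (fun n => ?_) ?_
    · rw [norm_smul, norm_pow]
      gcongr
      refine (D.le_opNorm _).trans ?_
      gcongr
      refine ((E n).le_opNorm _).trans ?_
      gcongr
      exact hE1 n
    · simpa using hp.mul_const (‖D‖ * (H * ‖x0‖))
  · refine squeeze_zero_norm (a := fun n => ‖t n‖ ^ (k + 1) * ‖x0‖) (fun n => ?_) ?_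
    · rw [norm_neg, norm_smul, norm_pow]
    · simpa using hp.mul_const ‖x0‖
  · obtain ⟨g1, g2, -⟩ := h.hm (t n) (ht0 n) (htr n)
    have h1 := congrArg (fun Z : X →L[ℂ] X => Z x0) (hE2 n)
    have h2 : F1 (t n) • Rv S (F (t n)) (D x0) = D (Rv S (t n) x0) + D (E n x0) := h1
    rw [h.hDx] at h2
    show t (n + 1) ^ (k + 1) • Rv S (t (n + 1)) x0 = (F1 (t n) * t n ^ (k + 1) / F (t n) ^ (k + 1))⁻¹ •
      (D (t n ^ (k + 1) • Rv S (t n) x0) + t n ^ (k + 1) • D (E n x0))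
    rw [map_smul, ← smul_add, ← h2, hor, smul_smul, smul_smul]
    congr 1
    have h3 : F (t n) ^ (k + 1) ≠ 0 := pow_ne_zero _ g1
    have h4 : t n ^ (k + 1) ≠ 0 := pow_ne_zero _ (ht0 n)
    field_simp
  · have h1 := congrArg (fun Z : X →L[ℂ] X => Z x0) (Rv_mul h.hS (ht0 n))
    have h2 : S (Rv S (t n) x0) = t n • Rv S (t n) x0 - x0 := h1
    show S (t n ^ (k + 1) • Rv S (t n) x0) = t n • t n ^ (k + 1) • Rv S (t n) x0 + -(t n ^ (k + 1) • x0)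
    rw [map_smul, h2, smul_sub, smul_comm (t n)]
    abel

/-- the functional has small resolvents along repelling orbits -/
def G1 (S : X →L[ℂ] X) (F : ℂ → ℂ) (k : ℕ) (r : ℝ) (ξ : X →L[ℂ] ℂ) : Prop :=
  ∀ t : ℕ → ℂ, (∀ n, t n ≠ 0) → (∀ n, ‖t n‖ ≤ r) → Tendsto t atTop (𝓝 0) →
    (∀ n, F (t (n + 1)) = t n) → Tendsto (fun n => t n ^ (k + 1) • (ξ ∘L Rv S (t n))) atTop (𝓝 0)

theorem Dat.rep (h : Dat S D x0 F F1 k r H Cm) {ξ η : X →L[ℂ] ℂ} (hξ : ξ ∘L D = ξ + η)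
    (hη : G1 S F k r η) : G1 S F k r ξ := by
  intro t ht0 htr ht hor
  choose E hE1 hE2 using fun n => h.hrel (t (n + 1)) (ht0 (n + 1)) (htr (n + 1))
  have hp := pow_lim ht k
  have hp1 := (tendsto_add_atTop_iff_nat 1).2 hp
  have hη1 := (tendsto_add_atTop_iff_nat 1).2 (hη t ht0 htr ht hor)
  have hm1 : Tendsto (fun n => F1 (t (n + 1)) * t (n + 1) ^ (k + 1) / F (t (n + 1)) ^ (k + 1)) atTop (𝓝 1) := by
    rw [tendsto_iff_norm_sub_tendsto_zero]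
    refine squeeze_zero (fun n => norm_nonneg _) (fun n => (h.hm (t (n + 1)) (ht0 (n + 1)) (htr (n + 1))).2.2) ?_
    simpa using hp1.const_mul Cm
  refine lim_zero (D := dual D) (S := dual S) (UC_dual h.hD) (fun ζ hζ => h.hdual ζ hζ)
    (M := fun n => F1 (t (n + 1)) * t (n + 1) ^ (k + 1) / F (t (n + 1)) ^ (k + 1)) (t := t)
    (a := fun n => -((F1 (t (n + 1)) * t (n + 1) ^ (k + 1) / F (t (n + 1)) ^ (k + 1))⁻¹ •
      (t (n + 1) ^ (k + 1) • (η ∘L Rv S (t (n + 1))) + t (n + 1) ^ (k + 1) • (ξ ∘L (D * E n)))))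
    (b := fun n => -(t n ^ (k + 1) • ξ)) hm1 ht ?_ ?_ (fun n => ?_) (fun n => ?_)
  · have h1 : Tendsto (fun n => t (n + 1) ^ (k + 1) • (ξ ∘L (D * E n))) atTop (𝓝 0) := by
      refine squeeze_zero_norm (a := fun n => ‖t (n + 1)‖ ^ (k + 1) * (‖ξ‖ * (‖D‖ * H))) (fun n => ?_) ?_
      · rw [norm_smul, norm_pow]
        gcongr
        refine (ContinuousLinearMap.opNorm_comp_le _ _).trans ?_
        gcongr
        refine (norm_mul_le _ _).trans ?_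
        gcongr
        exact hE1 n
      · simpa using hp1.mul_const (‖ξ‖ * (‖D‖ * H))
    have h2 := ((hm1.inv₀ one_ne_zero).smul (hη1.add h1)).neg
    simpa using h2
  · refine squeeze_zero_norm (a := fun n => ‖t n‖ ^ (k + 1) * ‖ξ‖) (fun n => ?_) ?_
    · rw [norm_neg, norm_smul, norm_pow]
    · simpa using hp.mul_const ‖ξ‖
  · obtain ⟨g1, g2, -⟩ := h.hm (t (n + 1)) (ht0 (n + 1)) (htr (n + 1))
    have h3 : F (t (n + 1)) ^ (k + 1) ≠ 0 := pow_ne_zero _ g1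
    have h4 : t (n + 1) ^ (k + 1) ≠ 0 := pow_ne_zero _ (ht0 (n + 1))
    have h5 : F1 (t (n + 1)) * t (n + 1) ^ (k + 1) / F (t (n + 1)) ^ (k + 1) ≠ 0 :=
      div_ne_zero (mul_ne_zero g2 h4) h3
    have h1 : F1 (t (n + 1)) • (ξ ∘L (Rv S (F (t (n + 1))) * D)) =
        (ξ + η) ∘L Rv S (t (n + 1)) + ξ ∘L (D * E n) := by
      rw [← ContinuousLinearMap.comp_smul, hE2 n, ContinuousLinearMap.comp_add]
      congr 1
      rw [← hξ]
      rfl
    show t (n + 1) ^ (k + 1) • (ξ ∘L Rv S (t (n + 1))) =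
      (F1 (t (n + 1)) * t (n + 1) ^ (k + 1) / F (t (n + 1)) ^ (k + 1)) •
      (dual D (t n ^ (k + 1) • (ξ ∘L Rv S (t n))) + -((F1 (t (n + 1)) * t (n + 1) ^ (k + 1) / F (t (n + 1)) ^ (k + 1))⁻¹ •
      (t (n + 1) ^ (k + 1) • (η ∘L Rv S (t (n + 1))) + t (n + 1) ^ (k + 1) • (ξ ∘L (D * E n)))))
    rw [smul_add, smul_neg, smul_inv_smul₀ h5, map_smul, dual_apply, ← hor n, smul_smul,
      div_mul_cancel₀ _ h3, mul_comm (F1 _), mul_smul]
    have h6 : (ξ ∘L Rv S (F (t (n + 1)))) ∘L D = ξ ∘L (Rv S (F (t (n + 1))) * D) := rfl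
    rw [h6, h1, ContinuousLinearMap.add_comp, smul_add, smul_add]
    abel
  · show dual S (t n ^ (k + 1) • (ξ ∘L Rv S (t n))) = t n • t n ^ (k + 1) • (ξ ∘L Rv S (t n)) +
      -(t n ^ (k + 1) • ξ)
    rw [map_smul, dual_apply]
    have h1 : (ξ ∘L Rv S (t n)) ∘L S = t n • (ξ ∘L Rv S (t n)) - ξ := by
      have h2 : (ξ ∘L Rv S (t n)) ∘L S = ξ ∘L (Rv S (t n) * S) := rfl
      rw [h2, Rv_mul' h.hS (ht0 n), ContinuousLinearMap.comp_sub, ContinuousLinearMap.comp_smul]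
      rfl
    rw [h1, smul_sub, smul_comm (t n)]
    abel

/-- the function `y ^ (k + 1) ξ ((y - S)⁻¹ x0)` tends to zero -/
theorem Dat.phi (h : Dat S D x0 F F1 k r H Cm) {ξ η : X →L[ℂ] ℂ} (hξ : ξ ∘L D = ξ + η)
    (hξ1 : G1 S F k r ξ) (hη : ∀ n : ℕ, η ((S ^ n) x0) = 0) {δ : ℝ} (hδ : 0 < δ) :
    ∃ ε : ℝ, 0 < ε ∧ ∀ y : ℂ, y ≠ 0 → ‖y‖ < ε → ‖y ^ (k + 1) * ξ (Rv S y x0)‖ ≤ δ := by
  have hH := h.hH
  have hCm := h.hCm
  obtain ⟨κ, hκ⟩ : ∃ κ : ℝ, κ = ‖ξ‖ * (‖D‖ * (H * ‖x0‖)) := ⟨_, rfl⟩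
  have hκ0 : 0 ≤ κ := by rw [hκ]; positivity
  -- the scalar relation
  have hsc : ∀ y : ℂ, y ≠ 0 → ‖y‖ ≤ r → ∃ e : ℂ, ‖e‖ ≤ κ ∧
      F1 y * ξ (Rv S (F y) x0) = ξ (Rv S y x0) + e := by
    intro y hy hyr
    obtain ⟨E, hE1, hE2⟩ := h.hrel y hy hyr
    refine ⟨ξ (D (E x0)), ?_, ?_⟩
    · rw [hκ]
      refine (ξ.le_opNorm _).trans ?_
      gcongr
      refine (D.le_opNorm _).trans ?_
      gcongr
      exact (E.le_opNorm _).trans (by gcongr)
    · have h1 := congrArg (fun Z : X →L[ℂ] X => ξ (Z x0)) hE2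
      have h2 : ξ (F1 y • Rv S (F y) (D x0)) = ξ (D (Rv S y x0) + D (E x0)) := h1
      rw [h.hDx, map_smul, smul_eq_mul, map_add] at h2
      rw [h2]
      congr 1
      have h3 := congrArg (fun Z : X →L[ℂ] ℂ => Z (Rv S y x0)) hξ
      have h4 : ξ (D (Rv S y x0)) = ξ (Rv S y x0) + η (Rv S y x0) := h3
      have h5 : η (Rv S y x0) = 0 := by
        unfold Rv
        show η (y⁻¹ • (ps S (fun n => (y⁻¹) ^ n)) x0) = 0
        rw [map_smul, ps_func h.hS (GB_inv hy)]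
        have h6 : ∀ n : ℕ, (y⁻¹) ^ n * η ((S ^ n) x0) = 0 := fun n => by rw [hη n, mul_zero]
        simp only [h6, tsum_zero, smul_zero]
      rw [h4, h5, add_zero]
  obtain ⟨η₀, hη₀⟩ : ∃ η₀ : ℝ, η₀ = min (1 / (2 * (Cm + 1))) (δ / (3 * κ + 1)) := ⟨_, rfl⟩
  have hη₀0 : 0 < η₀ := by rw [hη₀]; positivity
  have hη1 : 2 * Cm * η₀ ≤ 1 := by
    have h1 : η₀ ≤ 1 / (2 * (Cm + 1)) := by rw [hη₀]; exact min_le_left _ _
    rw [le_div_iff₀ (by positivity)] at h1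
    linarith
  have hη2 : η₀ * (3 * κ) ≤ δ := by
    have h1 : η₀ ≤ δ / (3 * κ + 1) := by rw [hη₀]; exact min_le_right _ _
    rw [le_div_iff₀ (by positivity)] at h1
    linarith
  obtain ⟨ε, hε, hor⟩ := h.horb η₀ hη₀0
  refine ⟨ε, hε, fun y hy hyε => ?_⟩
  obtain ⟨t, ht0, htn, htr, ht, hts, hcase⟩ := hor y hy hyε
  have hσ : ∀ n, ‖t n‖ ^ (k + 1) ≤ η₀ := by
    intro n
    refine le_trans ?_ (hts (n + 1))
    exact Finset.single_le_sum (f := fun i => ‖t i‖ ^ (k + 1)) (fun _ _ => by positivity)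
      (mem_range.2 (Nat.lt_succ_self n))
  have hfin : ∀ σ : ℕ → ℝ, (∀ n, 0 ≤ σ n) → (∀ n, ∑ i ∈ range n, σ i ≤ η₀) →
      (∀ n, ‖t n ^ (k + 1) * ξ (Rv S (t n) x0)‖ ≤ (1 + 2 * Cm * σ n) *
        (‖t (n + 1) ^ (k + 1) * ξ (Rv S (t (n + 1)) x0)‖ + κ * σ n)) →
      Tendsto (fun n => ‖t n ^ (k + 1) * ξ (Rv S (t n) x0)‖) atTop (𝓝 0) →
      ‖y ^ (k + 1) * ξ (Rv S y x0)‖ ≤ δ := by
    intro σ h1 h2 h3 h4
    have h5 := sum_orbit (φ := fun n => ‖t n ^ (k + 1) * ξ (Rv S (t n) x0)‖) (σ := σ)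
      (show 0 ≤ 2 * Cm by positivity) hκ0 h1 h2 (fun n => norm_nonneg _) h3 h4
    simp only [ht0] at h5
    refine h5.trans ?_
    have h6 : Real.exp (2 * Cm * η₀) ≤ 3 :=
      (Real.exp_le_exp.2 hη1).trans Real.exp_one_lt_three.le
    calc Real.exp (2 * Cm * η₀) * (κ * η₀) ≤ 3 * (κ * η₀) := by gcongr
      _ = η₀ * (3 * κ) := by ring
      _ ≤ δ := hη2
  rcases hcase with hA | hR
  · -- attracting
    refine hfin (fun n => ‖t n‖ ^ (k + 1)) (fun n => by positivity) hts (fun n => ?_) ?_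
    · obtain ⟨g1, g2, g3⟩ := h.hm (t n) (htn n) (htr n)
      obtain ⟨e, he1, he2⟩ := hsc (t n) (htn n) (htr n)
      have h3 : F (t n) ^ (k + 1) ≠ 0 := pow_ne_zero _ g1
      obtain ⟨m, hm⟩ : ∃ m, m = F1 (t n) * t n ^ (k + 1) / F (t n) ^ (k + 1) := ⟨_, rfl⟩
      rw [← hm] at g3
      have hmn : ‖m‖ ≤ 1 + Cm * ‖t n‖ ^ (k + 1) := by
        have : m = 1 + (m - 1) := by ring
        rw [this]
        refine (norm_add_le _ _).trans ?_
        rw [norm_one]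
        linarith
      have h4 : t n ^ (k + 1) * ξ (Rv S (t n) x0) =
          m * (t (n + 1) ^ (k + 1) * ξ (Rv S (t (n + 1)) x0)) - t n ^ (k + 1) * e := by
        have h5 : ξ (Rv S (t n) x0) = F1 (t n) * ξ (Rv S (F (t n)) x0) - e := by rw [he2]; ring
        rw [h5, hA, hm]
        field_simp
      rw [h4]
      have hs0 : 0 ≤ ‖t n‖ ^ (k + 1) := by positivity
      have hφ0 := norm_nonneg (t (n + 1) ^ (k + 1) * ξ (Rv S (t (n + 1)) x0))
      calc ‖m * (t (n + 1) ^ (k + 1) * ξ (Rv S (t (n + 1)) x0)) - t n ^ (k + 1) * e‖ ≤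
            ‖m‖ * ‖t (n + 1) ^ (k + 1) * ξ (Rv S (t (n + 1)) x0)‖ + ‖t n‖ ^ (k + 1) * ‖e‖ := by
            refine (norm_sub_le _ _).trans ?_
            rw [norm_mul m, norm_mul (t n ^ (k + 1)), norm_pow (t n)]
        _ ≤ (1 + Cm * ‖t n‖ ^ (k + 1)) * ‖t (n + 1) ^ (k + 1) * ξ (Rv S (t (n + 1)) x0)‖ +
            ‖t n‖ ^ (k + 1) * κ := by gcongr
        _ ≤ (1 + 2 * Cm * ‖t n‖ ^ (k + 1)) * (‖t (n + 1) ^ (k + 1) * ξ (Rv S (t (n + 1)) x0)‖ +
            κ * ‖t n‖ ^ (k + 1)) := by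
            have e1 : 0 ≤ Cm * ‖t n‖ ^ (k + 1) := by positivity
            have e2 : 0 ≤ Cm * ‖t n‖ ^ (k + 1) * ‖t (n + 1) ^ (k + 1) * ξ (Rv S (t (n + 1)) x0)‖ := by
              positivity
            have e3 : 0 ≤ 2 * Cm * ‖t n‖ ^ (k + 1) * (κ * ‖t n‖ ^ (k + 1)) := by positivity
            nlinarith
    · have h1 := (ξ.continuous.tendsto 0).comp (h.attr htn htr ht hA)
      rw [map_zero] at h1
      have h2 := h1.norm
      rw [norm_zero] at h2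
      refine h2.congr fun n => ?_
      show ‖ξ (t n ^ (k + 1) • Rv S (t n) x0)‖ = _
      rw [map_smul, smul_eq_mul]
  · -- repelling
    refine hfin (fun n => ‖t (n + 1)‖ ^ (k + 1)) (fun n => by positivity) (fun n => ?_) (fun n => ?_) ?_
    · have h1 := hts (n + 1)
      rw [sum_range_succ'] at h1
      have : 0 ≤ ‖t 0‖ ^ (k + 1) := by positivity
      linarith
    · obtain ⟨g1, g2, g3⟩ := h.hm (t (n + 1)) (htn (n + 1)) (htr (n + 1))
      obtain ⟨e, he1, he2⟩ := hsc (t (n + 1)) (htn (n + 1)) (htr (n + 1))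
      have h3 : F (t (n + 1)) ^ (k + 1) ≠ 0 := pow_ne_zero _ g1
      obtain ⟨m, hm⟩ : ∃ m, m = F1 (t (n + 1)) * t (n + 1) ^ (k + 1) / F (t (n + 1)) ^ (k + 1) := ⟨_, rfl⟩
      rw [← hm] at g3
      have hs0 : 0 ≤ ‖t (n + 1)‖ ^ (k + 1) := by positivity
      have hsη := hσ (n + 1)
      have hCs : Cm * ‖t (n + 1)‖ ^ (k + 1) ≤ 1 / 2 := by
        calc Cm * ‖t (n + 1)‖ ^ (k + 1) ≤ Cm * η₀ := by gcongr
          _ ≤ 1 / 2 := by linarith
      have hmn : 1 - Cm * ‖t (n + 1)‖ ^ (k + 1) ≤ ‖m‖ := by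
        have h5 : ‖(1 : ℂ)‖ ≤ ‖m‖ + ‖m - 1‖ := by
          have : (1 : ℂ) = m - (m - 1) := by ring
          calc ‖(1 : ℂ)‖ = ‖m - (m - 1)‖ := by rw [← this]
            _ ≤ _ := norm_sub_le _ _
        rw [norm_one] at h5
        linarith
      have h4 : m * (t n ^ (k + 1) * ξ (Rv S (t n) x0)) =
          t (n + 1) ^ (k + 1) * ξ (Rv S (t (n + 1)) x0) + t (n + 1) ^ (k + 1) * e := by
        have h5 : ξ (Rv S (t (n + 1)) x0) = F1 (t (n + 1)) * ξ (Rv S (F (t (n + 1))) x0) - e := by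
          rw [he2]; ring
        rw [h5, hm, hR]
        rw [hR] at h3
        field_simp
        ring
      have h6 : ‖m‖ * ‖t n ^ (k + 1) * ξ (Rv S (t n) x0)‖ ≤
          ‖t (n + 1) ^ (k + 1) * ξ (Rv S (t (n + 1)) x0)‖ + κ * ‖t (n + 1)‖ ^ (k + 1) := by
        rw [← norm_mul, h4]
        refine (norm_add_le _ _).trans ?_
        rw [norm_mul (t (n + 1) ^ (k + 1)) e, norm_pow (t (n + 1)), mul_comm κ]
        gcongr
      generalize ‖t n ^ (k + 1) * ξ (Rv S (t n) x0)‖ = φ at h6 ⊢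
      have hφ1 := norm_nonneg (t (n + 1) ^ (k + 1) * ξ (Rv S (t (n + 1)) x0))
      generalize ‖t (n + 1) ^ (k + 1) * ξ (Rv S (t (n + 1)) x0)‖ = φ₁ at h6 hφ1 ⊢
      generalize ‖t (n + 1)‖ ^ (k + 1) = s at hs0 hsη hCs hmn h6 ⊢
      generalize ‖m‖ = M at hmn h6
      show φ ≤ (1 + 2 * Cm * s) * (φ₁ + κ * s)
      have e1 : 0 ≤ Cm * s := by positivity
      have hM : 0 < M := by linarith
      have e2 : 1 ≤ (1 + 2 * Cm * s) * M := by
        have : (1 + 2 * (Cm * s)) * (1 - Cm * s) ≤ (1 + 2 * (Cm * s)) * M := by gcongr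
        nlinarith
      by_contra hcon
      push Not at hcon
      have e3 : (1 + 2 * Cm * s) * (M * φ) ≤ (1 + 2 * Cm * s) * (φ₁ + κ * s) := by gcongr
      have hφ : 0 < φ := lt_of_le_of_lt (by positivity) hcon
      have e4 : φ ≤ (1 + 2 * Cm * s) * (M * φ) := by
        rw [← mul_assoc]
        exact le_mul_of_one_le_left hφ.le e2
      linarith
    · have h1 := hξ1 t htn htr ht hR
      rw [tendsto_zero_iff_norm_tendsto_zero] at h1 ⊢
      refine squeeze_zero (fun n => norm_nonneg _) (fun n => ?_) (by simpa using h1.mul_const ‖x0‖)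
      rw [norm_norm]
      have h2 : t n ^ (k + 1) * ξ (Rv S (t n) x0) = (t n ^ (k + 1) • (ξ ∘L Rv S (t n))) x0 := rfl
      rw [h2]
      exact ContinuousLinearMap.le_opNorm _ _

/-- the functional vanishes on `S ^ m x0`, `m ≥ k` -/
theorem Dat.high (h : Dat S D x0 F F1 k r H Cm) {ξ η : X →L[ℂ] ℂ} (hξ : ξ ∘L D = ξ + η)
    (hξ1 : G1 S F k r ξ) (hη : ∀ n : ℕ, η ((S ^ n) x0) = 0) : ∀ m, k ≤ m → ξ ((S ^ m) x0) = 0 := by
  refine coeff_zero (b := fun m => ξ ((S ^ m) x0)) (k := k) (fun ε hε => ?_) ?_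
  · obtain ⟨C, hC, hb⟩ := pow_bound h.hS hε
    refine ⟨‖ξ‖ * (C * ‖x0‖), by positivity, fun n => ?_⟩
    calc ‖ξ ((S ^ n) x0)‖ ≤ ‖ξ‖ * ‖(S ^ n) x0‖ := ξ.le_opNorm _
      _ ≤ ‖ξ‖ * (‖S ^ n‖ * ‖x0‖) := by
          gcongr
          exact (S ^ n).le_opNorm _
      _ ≤ ‖ξ‖ * ((C * ε ^ n) * ‖x0‖) := by
          gcongr
          exact hb n
      _ = _ := by ring
  · rw [Metric.tendsto_nhds]
    intro δ hδ
    obtain ⟨ε, hε, hphi⟩ := h.phi hξ hξ1 hη (δ := δ / 2) (by positivity)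
    have hinv : Tendsto (fun u : ℂ => u⁻¹) (cocompact ℂ) (𝓝 0) :=
      Metric.cobounded_eq_cocompact (α := ℂ) ▸ Filter.tendsto_inv₀_cobounded
    have hne : ∀ᶠ u : ℂ in cocompact ℂ, u ≠ 0 := by
      have := (isCompact_singleton (x := (0 : ℂ))).compl_mem_cocompact
      filter_upwards [this] with u hu
      simpa using hu
    filter_upwards [hne, (Metric.tendsto_nhds.1 hinv) ε hε] with u hu hu2
    rw [dist_zero_right] at hu2 ⊢
    have h1 := hphi u⁻¹ (inv_ne_zero hu) hu2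
    have h2 : (u⁻¹) ^ (k + 1) * ξ (Rv S u⁻¹ x0) = (u⁻¹) ^ k * ∑' n, ξ ((S ^ n) x0) * u ^ n := by
      unfold Rv
      have h3 : ξ ((((u⁻¹)⁻¹ : ℂ) • ps S (fun n => ((u⁻¹)⁻¹) ^ n)) x0) =
          u * ξ (ps S (fun n => ((u⁻¹)⁻¹) ^ n) x0) := by
        show ξ ((u⁻¹)⁻¹ • (ps S (fun n => ((u⁻¹)⁻¹) ^ n)) x0) = _
        rw [map_smul, smul_eq_mul, inv_inv]
      rw [h3, ps_func h.hS (GB_inv (inv_ne_zero hu)), pow_succ, mul_assoc, ← mul_assoc (u⁻¹) u,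
        inv_mul_cancel₀ hu, one_mul]
      congr 1
      refine tsum_congr fun n => ?_
      rw [inv_inv, mul_comm]
    rw [h2] at h1
    linarith

/-- the functional vanishes on all `S ^ m x0`, `m ∈ ℤ` -/
def G2 (S : X →L[ℂ] X) (x0 : X) (ξ : X →L[ℂ] ℂ) : Prop :=
  ∀ (x : X) (i j : ℕ), (S ^ j) x = (S ^ i) x0 → ξ x = 0

theorem inj_pow {S : X →L[ℂ] X} (hinj : ∀ x, S x = 0 → x = 0) (j : ℕ) {x y : X}
    (h : (S ^ j) x = (S ^ j) y) : x = y := by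
  induction j with
  | zero => exact h
  | succ j ih =>
    apply ih
    rw [pow_succ'] at h
    have h1 : S ((S ^ j) x - (S ^ j) y) = 0 := by
      rw [map_sub, sub_eq_zero]; exact h
    exact sub_eq_zero.1 (hinj _ h1)

theorem pow_pow_apply (S : X →L[ℂ] X) (a b : ℕ) (x : X) : (S ^ a) ((S ^ b) x) = (S ^ (a + b)) x := by
  rw [pow_add]; rfl

/-- the algebraic data -/
structure Alg (S C V B1 : X →L[ℂ] X) (k : ℕ) (c : ℂ) : Prop where
  hk : 1 ≤ k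
  hc : c ≠ 0
  hVS : V * S = S * V
  hCS : C * S = S * C * V
  hV : KK S V
  hB1 : KK S B1
  h1 : 1 - V = S ^ k * (c • 1 + S * B1)

variable {C V B1 : X →L[ℂ] X} {c : ℂ}

omit [CompleteSpace X] in
theorem Alg.pow (a : Alg S C V B1 k c) (j : ℕ) :
    ∃ B : X →L[ℂ] X, KK S B ∧ 1 - V ^ j = S ^ k * (((j : ℂ) * c) • 1 + S * B) := by
  induction j with
  | zero =>
    refine ⟨0, fun _ _ _ n => ?_, by simp⟩
    show _ = (0 : ℂ)
    simp
  | succ j ih =>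
    obtain ⟨B, hB, h⟩ := ih
    obtain ⟨k', rfl⟩ : ∃ k', k = k' + 1 := ⟨k - 1, by have := a.hk; omega⟩
    refine ⟨B + V ^ j * B1 - c • (S ^ k' * (((j : ℂ) * c) • 1 + S * B)), ?_, ?_⟩
    · refine (hB.add ((a.hV.pow j).mul a.hB1)).sub (KK.smul ?_ c)
      exact (KK.self.pow k').mul ((KK.one.smul _).add (KK.self.mul hB))
    · have hVj : V ^ j * S = S * V ^ j := ((show Commute V S from a.hVS).pow_left j).eq
      have hVk : V ^ j * S ^ (k' + 1) = S ^ (k' + 1) * V ^ j :=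
        ((show Commute V S from a.hVS).pow_pow j (k' + 1)).eq
      have e1 : 1 - V ^ (j + 1) = (1 - V ^ j) + V ^ j * (1 - V) := by
        rw [pow_succ]; noncomm_ring
      have e2 : V ^ j = 1 - S ^ (k' + 1) * (((j : ℂ) * c) • 1 + S * B) := by
        rw [← h]; abel
      have e3 : V ^ j * (c • 1 + S * B1) = c • 1 + S * (V ^ j * B1 - c • (S ^ k' * (((j : ℂ) * c) • 1 + S * B))) := by
        have e4 : V ^ j * (c • 1 + S * B1) = c • V ^ j + S * (V ^ j * B1) := by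
          rw [mul_add, mul_smul_comm, mul_one, ← mul_assoc, hVj, mul_assoc]
        rw [e4]
        nth_rewrite 1 [e2]
        rw [smul_sub, pow_succ', mul_sub, mul_smul_comm]
        simp only [mul_assoc]
        abel
      rw [e1, a.h1, ← mul_assoc, hVk, mul_assoc, e3, h, ← mul_add]
      congr 1
      push_cast
      rw [add_mul, one_mul, add_smul]
      simp only [mul_add, mul_sub]
      abel

omit [CompleteSpace X] in
theorem Alg.CSn (a : Alg S C V B1 k c) (n : ℕ) : C * S ^ n = S ^ n * C * V ^ n := by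
  induction n with
  | zero => simp
  | succ n ih =>
    have hVj : V ^ n * S = S * V ^ n := ((show Commute V S from a.hVS).pow_left n).eq
    calc C * S ^ (n + 1) = (C * S ^ n) * S := by rw [pow_succ, mul_assoc]
      _ = S ^ n * C * (V ^ n * S) := by rw [ih, mul_assoc]
      _ = S ^ n * (C * S) * V ^ n := by rw [hVj]; simp only [mul_assoc]
      _ = S ^ n * S * C * (V * V ^ n) := by rw [a.hCS]; simp only [mul_assoc]
      _ = _ := by rw [← pow_succ, ← pow_succ']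

/-- preimages -/
theorem Dat.pre (h : Dat S D x0 F F1 k r H Cm) (a : Alg S C V B1 k c) (hD : D = C * S) (j : ℕ) :
    ∃ y, (S ^ j) y = x0 := by
  induction j with
  | zero => exact ⟨x0, rfl⟩
  | succ j ih =>
    obtain ⟨y, hy⟩ := ih
    refine ⟨C ((V ^ (j + 1)) y), ?_⟩
    have h1 := congrArg (fun Z : X →L[ℂ] X => Z y) (a.CSn (j + 1))
    have h2 : C ((S ^ (j + 1)) y) = (S ^ (j + 1)) (C ((V ^ (j + 1)) y)) := h1
    rw [← h2, pow_succ']
    show C (S ((S ^ j) y)) = x0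
    rw [hy]
    have h3 : D x0 = C (S x0) := by rw [hD]; rfl
    rw [← h3, h.hDx]

theorem Dat.DV (h : Dat S D x0 F F1 k r H Cm) (a : Alg S C V B1 k c) (hD : D = C * S) {j : ℕ} {y : X}
    (hy : (S ^ j) y = x0) : D ((V ^ j) y) = y := by
  apply inj_pow h.hinj j
  have h1 := congrArg (fun Z : X →L[ℂ] X => Z y) (a.CSn (j + 1))
  have h2 : C ((S ^ (j + 1)) y) = (S ^ (j + 1)) (C ((V ^ (j + 1)) y)) := h1
  have h3 : D x0 = C (S x0) := by rw [hD]; rfl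
  have h4 : D ((V ^ j) y) = S (C ((V ^ (j + 1)) y)) := by
    have h5 := congrArg (fun Z : X →L[ℂ] X => Z ((V ^ j) y)) a.hCS
    have h6 : C (S ((V ^ j) y)) = S (C (V ((V ^ j) y))) := h5
    rw [hD, pow_succ']
    exact h6
  rw [h4]
  have h5 : (S ^ j) (S (C ((V ^ (j + 1)) y))) = (S ^ (j + 1)) (C ((V ^ (j + 1)) y)) := by
    rw [pow_succ]; rfl
  rw [h5, ← h2, pow_succ']
  show C (S ((S ^ j) y)) = _
  rw [hy, ← h3, h.hDx]

theorem Dat.low (h : Dat S D x0 F F1 k r H Cm) (a : Alg S C V B1 k c) (hD : D = C * S)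
    {ξ η : X →L[ℂ] ℂ} (hξ : ξ ∘L D = ξ + η) (hη : G2 S x0 η)
    (hhigh : ∀ m, k ≤ m → ξ ((S ^ m) x0) = 0) : G2 S x0 ξ := by
  have hP : ∀ j : ℕ, ∀ y : X, (S ^ j) y = x0 → ∀ n : ℕ, ξ ((S ^ n) ((S ^ k) y)) = 0 := by
    intro j
    induction j with
    | zero =>
      intro y hy n
      have hy' : y = x0 := hy
      rw [hy', pow_pow_apply]
      exact hhigh _ (by omega)
    | succ j ih =>
      intro y hy n
      have hSy : (S ^ j) (S y) = x0 := by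
        rw [← hy, pow_succ]; rfl
      have hIH := ih (S y) hSy
      have hIH' : ∀ n : ℕ, ξ ((S ^ (k + 1)) ((S ^ n) y)) = 0 := by
        intro n
        have h1 := hIH n
        have h2 : S y = (S ^ 1) y := by rw [pow_one]
        rw [h2, pow_pow_apply, pow_pow_apply] at h1
        rw [pow_pow_apply, show k + 1 + n = n + (k + 1) by ring]
        exact h1
      rcases n with _ | n
      · show ξ ((S ^ k) y) = 0
        obtain ⟨B, hB, hBV⟩ := a.pow (j + 1)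
        have h1 := h.DV a hD hy
        have h2 := congrArg (fun Z : X →L[ℂ] ℂ => Z ((V ^ (j + 1)) y)) hξ
        have h3 : ξ (D ((V ^ (j + 1)) y)) = ξ ((V ^ (j + 1)) y) + η ((V ^ (j + 1)) y) := h2
        have h4 : η ((V ^ (j + 1)) y) = 0 := by
          refine (a.hV.pow (j + 1)) η y (fun n => hη _ n (j + 1) ?_) 0
          rw [pow_pow_apply, ← hy, pow_pow_apply, add_comm]
        rw [h1, h4, add_zero] at h3
        have h5 := congrArg (fun Z : X →L[ℂ] X => ξ (Z y)) hBV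
        have h6 : ξ (y - (V ^ (j + 1)) y) =
            ξ ((S ^ k) ((((j + 1 : ℕ) : ℂ) * c) • y + S (B y))) := h5
        rw [map_sub, h3, sub_self, map_add, map_smul, map_add, map_smul] at h6
        have h7 : ξ ((S ^ k) (S (B y))) = 0 := by
          have h8 := hB (ξ ∘L (S ^ (k + 1))) y (fun n => hIH' n) 0
          have h9 : (S ^ (k + 1)) (B y) = (S ^ k) (S (B y)) := by rw [pow_succ]; rfl
          rw [← h9]
          exact h8
        rw [h7, add_zero, smul_eq_mul] at h6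
        have h8 : (((j + 1 : ℕ) : ℂ) * c) ≠ 0 :=
          mul_ne_zero (Nat.cast_ne_zero.2 (by omega)) a.hc
        exact (mul_eq_zero.1 h6.symm).resolve_left h8
      · have h1 := hIH' n
        rw [pow_pow_apply] at h1 ⊢
        rw [show n + 1 + k = k + 1 + n by ring]
        exact h1
  intro x i j hx
  obtain ⟨y, hy⟩ := h.pre a hD (j + k)
  have h1 : x = (S ^ i) ((S ^ k) y) := by
    apply inj_pow h.hinj j
    rw [hx, ← hy, pow_pow_apply, pow_pow_apply, pow_pow_apply]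
    congr 2
    ring
  rw [h1]
  exact hP (j + k) y hy i

/-- the contradiction -/
theorem Dat.false (h : Dat S D x0 F F1 k r H Cm) (a : Alg S C V B1 k c) (hD : D = C * S)
    (hx0 : x0 ≠ 0) : False := by
  obtain ⟨p, ξ, hξ, hξx⟩ := jord_func h.hD hx0 h.hDx
  have hgood : ∀ (p : ℕ) (ξ : X →L[ℂ] ℂ), ξ ∘L ((D - 1) ^ p) = 0 → G1 S F k r ξ ∧ G2 S x0 ξ := by
    intro p
    induction p with
    | zero =>
      intro ξ hξ
      have h0 : ξ = 0 := hξ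
      subst h0
      refine ⟨fun t _ _ _ _ => ?_, fun _ _ _ _ => rfl⟩
      have h1 : (fun n => t n ^ (k + 1) • ((0 : X →L[ℂ] ℂ) ∘L Rv S (t n))) = fun _ => 0 := by
        funext n
        ext x
        show t n ^ (k + 1) * (0 : ℂ) = 0
        rw [mul_zero]
      rw [h1]
      exact tendsto_const_nhds
    | succ p ih =>
      intro ξ hξ
      obtain ⟨η, hη⟩ : ∃ η : X →L[ℂ] ℂ, η = ξ ∘L (D - 1) := ⟨_, rfl⟩
      have h1 : η ∘L ((D - 1) ^ p) = 0 := by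
        rw [hη, ← hξ, pow_succ']
        rfl
      obtain ⟨g1, g2⟩ := ih η h1
      have h2 : ξ ∘L D = ξ + η := by
        rw [hη, ContinuousLinearMap.comp_sub]
        have : ξ ∘L (1 : X →L[ℂ] X) = ξ := rfl
        rw [this]
        abel
      have h3 : G1 S F k r ξ := h.rep h2 g1
      have h4 : ∀ n : ℕ, η ((S ^ n) x0) = 0 := fun n => g2 _ n 0 rfl
      exact ⟨h3, h.low a hD h2 g2 (h.high h2 h3 h4)⟩
  exact hξx ((hgood p ξ hξ).2 x0 0 0 rfl)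

end chain

end Pool.Agent.H109F.LK
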