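import Mathlib
import Pool.Agent.H109F.LK.Comp
import Pool.Agent.H109F.LK.Par
import Pool.Agent.H109F.LK.Moeb

/-!
# `S K = K f(S)` with `f'(0)` a root of unity
-/

set_option autoImplicit false

open Filter Topology Finset

namespace Pool.Agent.H109F.LK

open Pool.Agent.H875.QN

variable {X : Type} [NormedAddCommGroup X] [NormedSpace ℂ X] [CompleteSpace X]
variable {S K : X →L[ℂ] X} {f : ℕ → ℂ} {C B : ℝ}

theorem GB.tail (hf : GB f C B) (n : ℕ) : GB (fun i => f (i + n)) (C * B ^ n) B := by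
  have := hf.hC
  have := hf.hB
  exact ⟨by positivity, hf.hB, fun i => (hf.h _).trans (le_of_eq (by rw [pow_add]; ring))⟩

theorem ps_split (hS : spectrum ℂ S ⊆ {0}) (hf : GB f C B) (n : ℕ) :
    ps S f = ∑ i ∈ range n, f i • S ^ i + S ^ n * ps S (fun i => f (i + n)) := by
  induction n with
  | zero => simp
  | succ n ih =>
    rw [ih, sum_range_succ, ps_shift hS (hf.tail n)]
    simp only [zero_add]
    rw [mul_add, mul_smul_comm, mul_one, ← mul_assoc, ← pow_succ, ← add_assoc]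
    have h1 : (fun i => f (i + 1 + n)) = fun i => f (i + (n + 1)) := by
      funext i
      rw [show i + 1 + n = i + (n + 1) by ring]
    rw [h1]

/-- the commuting case -/
theorem res_id (hS : ¬ HasHyper S) (hS0 : S ≠ 0) (hq : spectrum ℂ S ⊆ {0}) (hK : IsCompactOperator K)
    (h : S * K = K * S) : K = 0 := by
  by_contra hK0
  obtain ⟨A, hA, y, hy, hKy⟩ := lomonosov hS hK hK0
  obtain ⟨D, hD⟩ : ∃ D : X →L[ℂ] X, D = K * A := ⟨_, rfl⟩
  have hDc : IsCompactOperator D := by rw [hD]; exact hK.comp_clm A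
  have hDS : D * S = S * D := by
    rw [hD, mul_assoc, hA, ← mul_assoc, ← h, mul_assoc]
  have hDy : D y = y := by rw [hD]; exact hKy
  obtain ⟨E, hE⟩ : ∃ E : Submodule ℂ X, E = LinearMap.ker ((D - 1 : X →L[ℂ] X) : X →ₗ[ℂ] X) := ⟨_, rfl⟩
  have hEm : ∀ x, x ∈ E ↔ D x = x := by
    intro x
    rw [hE, LinearMap.mem_ker]
    show D x - x = 0 ↔ _
    rw [sub_eq_zero]
  have hEc : IsClosed (E : Set X) := by
    have : (E : Set X) = (D - 1 : X →L[ℂ] X) ⁻¹' {0} := by
      ext x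
      rw [SetLike.mem_coe, hEm, Set.mem_preimage, Set.mem_singleton_iff]
      show _ ↔ D x - x = 0
      rw [sub_eq_zero]
    rw [this]
    exact isClosed_singleton.preimage (D - 1 : X →L[ℂ] X).continuous
  have hfin : FiniteDimensional ℂ E := fin_eig hDc hEc fun x hx => (hEm x).1 hx
  have hinv : ∀ x ∈ E, (S : X →ₗ[ℂ] X) x ∈ E := by
    intro x hx
    rw [hEm] at hx ⊢
    have h1 := congrArg (fun Z : X →L[ℂ] X => Z x) hDS
    have h2 : D (S x) = S (D x) := h1
    show D (S x) = S x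
    rw [h2, hx]
  have hnt : Nontrivial E := ⟨⟨⟨y, (hEm y).2 hDy⟩, 0, fun h0 => hy (congrArg Subtype.val h0)⟩⟩
  obtain ⟨μ, hμ⟩ := Module.End.exists_eigenvalue ((S : X →ₗ[ℂ] X).restrict hinv)
  obtain ⟨v, hv⟩ := hμ.exists_hasEigenvector
  have hv1 : S (v : X) = μ • (v : X) := congrArg Subtype.val hv.apply_eq_smul
  have hv0 : (v : X) ≠ 0 := fun h0 => hv.2 (Subtype.ext h0)
  refine hS (hyper_of_eigen (c := μ) hv0 hv1 ?_)
  intro h0
  -- `S` is a scalar, hence zero
  have hX : Nontrivial X := ⟨⟨y, 0, hy⟩⟩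
  have h2 : spectrum ℂ S = {μ} := by
    rw [h0]
    have := spectrum.scalar_eq (A := X →L[ℂ] X) μ
    rwa [Algebra.algebraMap_eq_smul_one] at this
  have h3 : μ = 0 := by
    have : μ ∈ spectrum ℂ S := by rw [h2]; rfl
    exact hq this
  rw [h3, zero_smul] at h0
  exact hS0 h0

/-- the parabolic case -/
theorem res_par (hS : ¬ HasHyper S) (hS0 : S ≠ 0) (hq : spectrum ℂ S ⊆ {0}) (hK : IsCompactOperator K)
    (hf : GB f C B) {k : ℕ} (hk : 1 ≤ k) (h0 : f 0 = 0) (h1 : f 1 = 1)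
    (hm : ∀ n, 2 ≤ n → n ≤ k → f n = 0) (hc : f (k + 1) ≠ 0) (h : S * K = K * ps S f) : K = 0 := by
  by_contra hK0
  have hC := hf.hC
  have hB := hf.hB
  -- Lomonosov's lemma for `K S`
  have hKS0 : K * S ≠ 0 := fun hKS => hK0 (dense_of hS hS0 hKS)
  have hKSc : IsCompactOperator (K * S) := hK.comp_clm S
  obtain ⟨A, hA, y, hy, hKy⟩ := lomonosov hS hKSc hKS0
  obtain ⟨G, hG⟩ : ∃ G : X →L[ℂ] X, G = A * K := ⟨_, rfl⟩
  obtain ⟨D, hD⟩ : ∃ D : X →L[ℂ] X, D = G * S := ⟨_, rfl⟩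
  have hDc : IsCompactOperator D := by
    rw [hD, hG]
    exact (hK.clm_comp A).comp_clm S
  have hDx : D (A y) = A y := by
    rw [hD, hG]
    show A (K (S (A y))) = A y
    exact congrArg A hKy
  have hx0 : A y ≠ 0 := by
    intro h2
    rw [h2, map_zero] at hKy
    exact hy hKy.symm
  -- the power series
  obtain ⟨U, hU⟩ : ∃ U : X →L[ℂ] X, U = ps S (fun n => f (n + 1)) := ⟨_, rfl⟩
  obtain ⟨W, hW⟩ : ∃ W : X →L[ℂ] X, W = ps S (fun n => f (n + 2)) := ⟨_, rfl⟩
  obtain ⟨W0, hW0⟩ : ∃ W0 : X →L[ℂ] X, W0 = ps S (fun n => f (n + (k + 2))) := ⟨_, rfl⟩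
  have hf1 := hf.tail 1
  have hf2 := hf.tail 2
  have hfk := hf.tail (k + 2)
  have hFS : ps S f = S * U := by
    rw [hU, ps_shift hq hf, h0, zero_smul, zero_add]
  have hUW : U = 1 + S * W := by
    rw [hU, ps_shift hq hf1, hW]
    simp only [zero_add]
    rw [h1, one_smul]
  have hUW0 : U = 1 + f (k + 1) • S ^ k + S ^ (k + 1) * W0 := by
    rw [hU, ps_split hq hf1 (k + 1), hW0]
    have e1 : (fun i => f (i + (k + 1) + 1)) = fun n => f (n + (k + 2)) := by
      funext i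
      rw [show i + (k + 1) + 1 = i + (k + 2) by ring]
    rw [e1, sum_range_succ]
    congr 2
    rw [sum_eq_single 0]
    · rw [zero_add, h1, one_smul, pow_zero]
    · intro i hi hi0
      have hi' := mem_range.1 hi
      rw [hm (i + 1) (by omega) (by omega), zero_smul]
    · intro h2
      exact absurd (mem_range.2 (by omega)) h2
  have hUS : U * S = S * U := by rw [hU]; exact (hf1.comm hq rfl).symm
  have hWS : W * S = S * W := by rw [hW]; exact (hf2.comm hq rfl).symm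
  have hW0S : W0 * S = S * W0 := by rw [hW0]; exact (hfk.comm hq rfl).symm
  obtain ⟨N, hN⟩ : ∃ N : X →L[ℂ] X, N = S * W := ⟨_, rfl⟩
  have hNq : QN N := QN_of_pow (N := N) (S := S) (T := W) (k := 1) le_rfl
    (fun ε hε => pow_bound hq hε) hWS.symm (by rw [pow_one, hN])
  have hNS : N * S = S * N := by rw [hN, mul_assoc, hWS]
  obtain ⟨V, hV⟩ : ∃ V : X →L[ℂ] X, V = pw N (-1) := ⟨_, rfl⟩
  have hVU : V * U = 1 := by
    have h2 := pw_succ hNq (-1)
    rw [neg_add_cancel, pw_zero] at h2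
    rw [hV, hUW, ← hN]
    exact h2.symm
  have hVS : V * S = S * V := by rw [hV]; exact pw_commute hNq hNS (-1)
  have hVN : V * N = N * V := by rw [hV]; exact pw_commute hNq rfl (-1)
  have hUV : U * V = 1 := by
    rw [← hVU, hUW, ← hN, add_mul, mul_add, one_mul, mul_one, hVN]
  have hW0V : V * W0 = W0 * V := by
    rw [hW0]
    exact hfk.comm hq hVS
  have hKKN : KK S N := by rw [hN, hW]; exact KK.self.mul (KK.ps hq hf2)
  have hKKV : KK S V := by rw [hV]; exact hKKN.tsum (pw_summable hNq (-1))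
  -- the algebra
  obtain ⟨k', hk'⟩ : ∃ k', k = k' + 1 := ⟨k - 1, by omega⟩
  obtain ⟨B1, hB1⟩ : ∃ B1 : X →L[ℂ] X,
    B1 = W0 * V - f (k + 1) • (S ^ k' * (f (k + 1) • V + S * (W0 * V))) := ⟨_, rfl⟩
  have e1 : 1 - V = S ^ k * (f (k + 1) • V + S * (W0 * V)) := by
    have e2 : 1 - V = (U - 1) * V := by rw [sub_mul, hUV, one_mul]
    rw [e2, hUW0, pow_succ]
    simp only [mul_add, sub_mul, add_mul, one_mul, mul_smul_comm, smul_mul_assoc, mul_assoc]
    abel
  have e3 : 1 - V = S ^ k * (f (k + 1) • 1 + S * B1) := by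
    have e4 : f (k + 1) • V + S * (W0 * V) = f (k + 1) • 1 + S * B1 := by
      have e5 : V = 1 - S ^ k * (f (k + 1) • V + S * (W0 * V)) := by rw [← e1]; abel
      have e6 : f (k + 1) • V = f (k + 1) • 1 - f (k + 1) • (S ^ k * (f (k + 1) • V + S * (W0 * V))) := by
        rw [← smul_sub, ← e5]
      have e7 : S ^ k * (f (k + 1) • V + S * (W0 * V)) =
          S * (S ^ k' * (f (k + 1) • V + S * (W0 * V))) := by
        rw [hk', pow_succ', mul_assoc]
      rw [e7] at e6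
      rw [hB1, mul_sub, mul_smul_comm]
      nth_rewrite 1 [e6]
      abel
    rw [e1, e4]
  have hGS : S * G = G * ps S f := by
    rw [hG, ← mul_assoc, ← hA, mul_assoc, h, mul_assoc]
  have halg : Alg S G V B1 k (f (k + 1)) := by
    refine ⟨hk, hc, hVS, ?_, hKKV, ?_, e3⟩
    · rw [hGS, hFS, mul_assoc, mul_assoc, hUV, mul_one]
    · rw [hB1]
      have hW0K : KK S W0 := by rw [hW0]; exact KK.ps hq hfk
      refine (hW0K.mul hKKV).sub (KK.smul ?_ _)
      exact (KK.self.pow k').mul ((hKKV.smul _).add (KK.self.mul (hW0K.mul hKKV)))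
  have hDS : S * D = D * ps S f := by
    have e8 : S * ps S f = ps S f * S := hf.comm hq rfl
    rw [hD, ← mul_assoc, hGS, mul_assoc, mul_assoc, e8]
  -- the dynamics
  obtain ⟨ρ, a, hBρ, hpg⟩ := PG_of hf hk h0 h1 hm rfl hc
  obtain ⟨r1, Cm, hr1, hr1ρ, hCm, hmult⟩ := hpg.mult
  obtain ⟨r2, H, hr2, hBr2, hH, hrel⟩ := rel2 (D := D) hq hf (hU ▸ ⟨⟨U, V, hUV, hVU⟩, rfl⟩) hDS
  obtain ⟨r, hr⟩ : ∃ r : ℝ, r = min r1 r2 := ⟨_, rfl⟩
  have hr0 : 0 < r := by rw [hr]; exact lt_min hr1 hr2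
  have hrr1 : r ≤ r1 := by rw [hr]; exact min_le_left _ _
  have hrr2 : r ≤ r2 := by rw [hr]; exact min_le_right _ _
  have hdat : Dat S D (A y) (fun y => T f y 0) (fun y => T (fun b => T f y (b + 1)) y 0) k r H Cm := by
    refine ⟨hq, fun x hx => injective_of hS hS0 hx, fun ξ hξ => dense_of hS hS0 hξ, hDc, hDx, hr0, hH, hCm,
      fun z hz hzr => hmult z hz (hzr.trans hrr1), fun z hz hzr => ?_, fun η hη => hpg.orbits hr0 hη⟩
    obtain ⟨g1, -, -⟩ := hmult z hz (hzr.trans hrr1)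
    exact hrel z hz (hzr.trans hrr2) g1
  exact hdat.false halg hD hx0

/-- **tangents which are roots of unity** -/
theorem res (hS : ¬ HasHyper S) (hS0 : S ≠ 0) (hq : spectrum ℂ S ⊆ {0}) (hK : IsCompactOperator K)
    (hf : GB f C B) (h0 : f 0 = 0) {N : ℕ} (hN : 1 ≤ N) (h1 : f 1 ^ N = 1) (h : S * K = K * ps S f) :
    K = 0 := by
  by_contra hK0
  have hKS0 : K * S ≠ 0 := fun hKS => hK0 (dense_of hS hS0 hKS)
  have hKSc : IsCompactOperator (K * S) := hK.comp_clm S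
  obtain ⟨A, hA, y, hy, hKy⟩ := lomonosov hS hKSc hKS0
  obtain ⟨G, hG⟩ : ∃ G : X →L[ℂ] X, G = A * K := ⟨_, rfl⟩
  have hGc : IsCompactOperator G := by rw [hG]; exact hK.clm_comp A
  have hDx : G (S (A y)) = A y := by
    rw [hG]
    exact congrArg A hKy
  have hx0 : A y ≠ 0 := by
    intro h2
    rw [h2, map_zero] at hKy
    exact hy hKy.symm
  have hGS : S * G = G * ps S f := by
    rw [hG, ← mul_assoc, ← hA, mul_assoc, h, mul_assoc]
  have hFSS : ps S f * S = S * ps S f := (hf.comm hq rfl).symm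
  -- the iterates
  have key : ∀ n : ℕ, ∃ (g : ℕ → ℂ) (C' B' : ℝ) (Q : X →L[ℂ] X), GB g C' B' ∧ g 0 = 0 ∧
      g 1 = f 1 ^ (n + 1) ∧ IsCompactOperator Q ∧ S * Q = Q * ps S g ∧ Q (S (A y)) = A y := by
    intro n
    induction n with
    | zero => exact ⟨f, C, B, G, hf, h0, by simp, hGc, hGS, hDx⟩
    | succ n ih =>
      obtain ⟨g, C', B', Q, hg, hg0, hg1, hQc, hQ, hQx⟩ := ih
      obtain ⟨g', C'', B'', hg', hg'0, hg'1, hcomp⟩ := comp_ps hq hg hg0 hf
      refine ⟨g', C'', B'', G * S * Q, hg', hg'0.trans h0, ?_, ?_, ?_, ?_⟩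
      · rw [hg'1, hg1, ← pow_succ']
      · exact hQc.clm_comp (G * S)
      · calc S * (G * S * Q) = (S * G) * S * Q := by simp only [mul_assoc]
          _ = G * (ps S f * S) * Q := by rw [hGS]; simp only [mul_assoc]
          _ = G * S * (ps S f * Q) := by rw [hFSS]; simp only [mul_assoc]
          _ = _ := by rw [hcomp Q hQ]; simp only [mul_assoc]
      · show G (S (Q (S (A y)))) = A y
        rw [hQx, hDx]
  obtain ⟨g, C', B', Q, hg, hg0, hg1, hQc, hQ, hQx⟩ := key (N - 1)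
  rw [Nat.sub_add_cancel hN, h1] at hg1
  have hQ0 : Q ≠ 0 := by
    rintro rfl
    exact hx0 hQx.symm
  by_cases hid : ∀ n, 2 ≤ n → g n = 0
  · -- the iterate is the identity
    apply hQ0
    refine res_id hS hS0 hq hQc ?_
    rw [hQ]
    congr 1
    unfold ps
    rw [tsum_eq_single 1]
    · rw [hg1, one_smul, pow_one]
    · intro n hn
      rcases Nat.eq_zero_or_pos n with rfl | hn0
      · rw [hg0, zero_smul]
      · rw [hid n (by omega), zero_smul]
  · push Not at hid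
    classical
    obtain ⟨n0, hn0, hn0'⟩ := hid
    have hex : ∃ n, 2 ≤ n ∧ g n ≠ 0 := ⟨n0, hn0, hn0'⟩
    obtain ⟨k, hk⟩ : ∃ k, Nat.find hex = k + 1 := ⟨Nat.find hex - 1, by
      have := (Nat.find_spec hex).1
      omega⟩
    have h2 := Nat.find_spec hex
    rw [hk] at h2
    apply hQ0
    refine res_par hS hS0 hq hQc hg (k := k) (by omega) hg0 hg1 (fun n hn2 hnk => ?_) h2.2 hQ
    by_contra hcon
    have h3 := Nat.find_min' hex ⟨hn2, hcon⟩
    omega

end Pool.Agent.H109F.LK
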