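import Mathlib
import Pool.Agent.H109F.LK.Main2
import Pool.Agent.H109F.LK.Res

/-!
# Relations with simple tangents at the roots of unity
-/

set_option autoImplicit false

open Polynomial Finset Filter Topology

namespace Pool.Agent.H109F.LK

open Pool.Agent.H875.QN

variable {X : Type} [NormedAddCommGroup X] [NormedSpace ℂ X] [CompleteSpace X]

/-- the relation of a factor of order one -/
theorem rel_of_act {S K : X →L[ℂ] X} (hq : spectrum ℂ S ⊆ {0}) {U : ℕ → ℂ[X]} (hU : IsGerm U) {l : ℂ}
    (hU0 : U 0 = 0) (hU1 : U 1 = Polynomial.X - C l) (hd : ∀ n, 1 < n → (U n).degree < (1 : ℕ))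
    (h : act U (seq S K) 0 0 = 0) :
    ∃ (f : ℕ → ℂ) (C' B' : ℝ), GB f C' B' ∧ f 0 = 0 ∧ f 1 = l ∧ S * K = K * ps S f := by
  obtain ⟨C', B', hC', hB', hUb⟩ := hU.bd
  obtain ⟨f, hf⟩ : ∃ f : ℕ → ℂ, f = fun n => -(U n).coeff 0 := ⟨_, rfl⟩
  have hf0 : f 0 = 0 := by
    rw [hf]
    show -(U 0).coeff 0 = 0
    rw [hU0]; simp
  have hf1 : f 1 = l := by
    rw [hf]
    show -(U 1).coeff 0 = l
    rw [hU1]; simp
  have hfb : GB f C' B' := by
    refine ⟨hC', hB', fun n => ?_⟩
    rw [hf]
    show ‖-(U n).coeff 0‖ ≤ _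
    rw [norm_neg]
    have h1 := norm_coeff_le (θ := 1) zero_le_one (U n) 0
    rw [one_pow, mul_one] at h1
    exact h1.trans (hUb _)
  refine ⟨f, C', B', hfb, hf0, hf1, ?_⟩
  have hterm : ∀ n, hact n (U n) (seq S K) 0 0 = (if n = 1 then S * K else 0) - K * (f n • S ^ n) := by
    intro n
    rcases n with _ | _ | n
    · rw [hU0, hact_zero, hf0]; simp
    · rw [zero_add, hU1, hact_sub, if_pos rfl, hf1, ← monomial_zero_left, hact_monomial (by omega),
        ← monomial_one_one_eq_X, hact_monomial (by omega)]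
      simp [seq]
    · have h1 : U (n + 1 + 1) = monomial 0 ((U (n + 1 + 1)).coeff 0) := by
        rw [monomial_zero_left]
        refine eq_C_of_degree_le_zero ?_
        have h2 := hd (n + 1 + 1) (by omega)
        exact degree_le_zero_iff.2 (eq_C_of_degree_le_zero (by
          rw [degree_le_iff_coeff_zero]
          intro m hm
          refine coeff_eq_zero_of_degree_lt (h2.trans_le ?_)
          have : 0 < m := by exact_mod_cast hm
          exact_mod_cast this))
      rw [h1, hact_monomial (by omega), if_neg (by omega), zero_sub, hf]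
      simp [seq]
  have hs : Summable fun n => K * (f n • S ^ n) := (hfb.sum hq).mul_left K
  have h1 : act U (seq S K) 0 0 = S * K - K * ps S f := by
    unfold act
    rw [tsum_congr hterm, Summable.tsum_sub (hasSum_ite_eq 1 (S * K)).summable hs, tsum_ite_eq]
    unfold ps
    rw [(hfb.sum hq).tsum_mul_left]
  rw [h] at h1
  exact (sub_eq_zero.1 h1.symm)

theorem main3_aux {S K : X →L[ℂ] X} (hS : ¬ HasHyper S) (hS0 : S ≠ 0) (hq : spectrum ℂ S ⊆ {0})
    (hK : IsCompactOperator K) (d : ℕ) : ∀ {P : ℕ → ℂ[X]} (_ : IsGerm P) {k : ℕ}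
    (_ : ∀ n < k, P n = 0) (_ : (P k).natDegree < d)
    (_ : ∀ z : ℂ, (∃ n : ℕ, 1 ≤ n ∧ z ^ n = 1) → (P k).eval z ≠ 0 ∨ (derivative (P k)).eval z ≠ 0)
    (_ : act P (seq S K) 0 0 = 0), K = 0 := by
  classical
  induction d with
  | zero =>
    intro P _ k _ hd _ _
    exact absurd hd (by omega)
  | succ d ih =>
    intro P hP k hP0 hd hk h
    by_cases hru : ∃ z : ℂ, (∃ n : ℕ, 1 ≤ n ∧ z ^ n = 1) ∧ (P k).eval z = 0
    · obtain ⟨l, ⟨N, hN, hlN⟩, hl0⟩ := hru
      have hder : (derivative (P k)).eval l ≠ 0 :=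
        (hk l ⟨N, hN, hlN⟩).resolve_left (fun h1 => h1 hl0)
      obtain ⟨v, hv⟩ : ∃ v, P k = (Polynomial.X - C l) * v := dvd_iff_isRoot.2 hl0
      have hdv : derivative (P k) = v + (Polynomial.X - C l) * derivative v := by
        rw [hv, derivative_mul, derivative_X_sub_C, one_mul]
      have hvl : v.eval l ≠ 0 := by
        intro h1
        apply hder
        rw [hdv]
        simp [h1]
      have hv0 : v ≠ 0 := by
        rintro rfl
        rw [eval_zero] at hvl
        exact hvl rfl
      have hnat : (P k).natDegree = 1 + v.natDegree := by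
        rw [hv, natDegree_mul (X_sub_C_ne_zero l) hv0, natDegree_X_sub_C]
      have hdeg := hP.deg k
      obtain ⟨b, hb⟩ : ∃ b, k = 1 + b := ⟨k - 1, by omega⟩
      have hrp : rp ({l} : Multiset ℂ) = Polynomial.X - C l := by
        unfold rp
        simp
      have hcard : ({l} : Multiset ℂ).card = 1 := Multiset.card_singleton _
      have hln : ‖l‖ = 1 := by
        have h1 : ‖l‖ ^ N = 1 := by rw [← norm_pow, hlN, norm_one]
        exact (pow_eq_one_iff_of_nonneg (norm_nonneg _) (by omega)).1 h1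
      have hs2 : ∀ z ∈ ({l} : Multiset ℂ), ‖z‖ < 2 := by
        intro z hz
        rw [Multiset.mem_singleton.1 hz, hln]
        norm_num
      have hco : IsCoprime (rp ({l} : Multiset ℂ)) v := by
        rw [hrp]
        refine ((irreducible_X_sub_C l).coprime_iff_not_dvd).2 fun h1 => hvl ?_
        exact dvd_iff_isRoot.1 h1
      obtain ⟨U, V, hU, hV, hU0, hUs, hV0, hVb, hUV, hUd⟩ := hensel hP (θ := 2) (by norm_num) hs2
        (v := v) (b := b) (by omega) hco
        (by intro n hn; rw [hcard] at hn; exact hP0 n (by omega))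
        (by rw [hcard, hrp, ← hb]; exact hv)
      rw [hcard] at hU0 hUs hUd
      obtain ⟨K1, hK1⟩ : ∃ K1 : X →L[ℂ] X, K1 = act V (seq S K) 0 0 := ⟨_, rfl⟩
      have hK1c : IsCompactOperator K1 := by
        rw [hK1]
        exact act_compact hq hK hV
      have h1 : act U (seq S K1) 0 0 = 0 := by
        rw [hK1, ← act_seq hq K hV, act_gmul hU hV (seq_SE hq K), hUV]
        exact h
      have hK10 : K1 = 0 := by
        obtain ⟨f, C', B', hf, hf0, hf1, hrel⟩ := rel_of_act hq hU (hU0 0 (by omega)) (hUs.trans hrp)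
          (fun n hn => hUd n hn) h1
        exact res hS hS0 hq hK1c hf hf0 hN (by rw [hf1, hlN]) hrel
      refine ih hV hV0 ?_ ?_ (hK1 ▸ hK10)
      · rw [hVb]; omega
      · intro z hz
        rw [hVb]
        by_contra hcon
        push Not at hcon
        obtain ⟨c1, c2⟩ := hcon
        rcases hk z hz with h2 | h2
        · apply h2
          rw [hv, eval_mul, c1, mul_zero]
        · apply h2
          rw [hdv, eval_add, eval_mul, c1, c2, mul_zero, add_zero]
    · push Not at hru
      exact main2 hS hS0 hq hK hP hP0 hru h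

/-- an operator with a nonzero compact solution of a relation without multiple tangents at the roots
of unity has a nontrivial hyperinvariant subspace -/
theorem main3 {S K : X →L[ℂ] X} (hS : ¬ HasHyper S) (hS0 : S ≠ 0) (hq : spectrum ℂ S ⊆ {0})
    (hK : IsCompactOperator K) {P : ℕ → ℂ[X]} (hP : IsGerm P) {k : ℕ} (hP0 : ∀ n < k, P n = 0)
    (hk : ∀ z : ℂ, (∃ n : ℕ, 1 ≤ n ∧ z ^ n = 1) → (P k).eval z ≠ 0 ∨ (derivative (P k)).eval z ≠ 0)
    (h : act P (seq S K) 0 0 = 0) : K = 0 :=
  main3_aux hS hS0 hq hK _ hP hP0 (Nat.lt_succ_self _) hk h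

end Pool.Agent.H109F.LK
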