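import Mathlib
import Pool.Agent.H109F.LK.Main3
import Pool.Agent.H109F.LK.Final

/-!
# The theorem for chains of double power series
-/

set_option autoImplicit false

open Polynomial Finset Filter Topology

namespace Pool.Agent.H109F.LK

open Pool.Agent.H875.QN

theorem gr_derivative_eval (p : ℕ → ℕ → ℂ) (n : ℕ) (z : ℂ) :
    (derivative (gr p n)).eval z = ∑ i ∈ range (n + 1), (i : ℂ) * p i (n - i) * z ^ (i - 1) := by
  unfold gr
  rw [derivative_sum, eval_finsetSum]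
  refine Finset.sum_congr rfl fun i _ => ?_
  rw [derivative_monomial, eval_monomial]
  ring

variable {X : Type} [NormedAddCommGroup X] [NormedSpace ℂ X] [CompleteSpace X]

theorem act_gr' {S K K' : X →L[ℂ] X} (p : ℕ → ℕ → ℂ)
    (h : HasSum (fun ij : ℕ × ℕ => p ij.1 ij.2 • (S ^ ij.1 * K * S ^ ij.2)) K') :
    act (gr p) (seq S K) 0 0 = K' := by
  have h1 := ((Finset.HasAntidiagonal.sigmaAntidiagonalEquivProd (A := ℕ)).hasSum_iff).2 h
  have h2 := h1.sigma (fun n => hasSum_fintype _)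
  unfold act
  refine Eq.trans (tsum_congr fun n => ?_) h2.tsum_eq
  unfold hact
  rw [← Finset.sum_coe_sort]
  refine Finset.sum_congr rfl fun ij _ => ?_
  have h3 := ij.2
  rw [HasAntidiagonal.mem_antidiagonal] at h3
  rw [gr_coeff p (by omega : ij.1.1 ≤ n)]
  have h4 : n - ij.1.1 = ij.1.2 := by omega
  rw [h4]
  simp [seq, Finset.HasAntidiagonal.sigmaAntidiagonalEquivProd]

/-- one step of a chain -/
theorem kill {S K K' : X →L[ℂ] X} (hS : ¬ HasHyper S) (hS0 : S ≠ 0) (hq : spectrum ℂ S ⊆ {0})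
    (hK : IsCompactOperator K) {p : ℕ → ℕ → ℂ} {B : ℝ} {k : ℕ} (hB : ∀ i j, ‖p i j‖ ≤ B ^ (i + j + 1))
    (hk : ∀ i j, i + j < k → p i j = 0)
    (hz : ∀ z : ℂ, (∃ n : ℕ, 1 ≤ n ∧ z ^ n = 1) → ∑ i ∈ range (k + 1), p i (k - i) * z ^ i ≠ 0 ∨
      ∑ i ∈ range (k + 1), (i : ℂ) * p i (k - i) * z ^ (i - 1) ≠ 0)
    (h : HasSum (fun ij : ℕ × ℕ => p ij.1 ij.2 • (S ^ ij.1 * K * S ^ ij.2)) K') :
    IsCompactOperator K' ∧ (K' = 0 → K = 0) := by
  have h1 := act_gr' p h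
  refine ⟨?_, fun h0 => ?_⟩
  · rw [← h1]
    exact act_compact hq hK (gr_germ hB)
  · refine main3 hS hS0 hq hK (gr_germ hB) (k := k) (fun n hn => gr_zero hk hn) (fun z hzr => ?_)
      (h1.trans h0)
    rw [gr_eval, gr_derivative_eval]
    exact hz z hzr

/-- reduction to a quasinilpotent operator -/
theorem reduce {T K : X →L[ℂ] X} (hT : ∀ c : ℂ, T ≠ c • (1 : X →L[ℂ] X))
    (hσ : IsTotallyDisconnected (spectrum ℂ T)) (hK0 : K ≠ 0) (hcon : ¬ HasHyper T) :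
    ∃ c ∈ spectrum ℂ T, ¬ HasHyper (T - c • (1 : X →L[ℂ] X)) ∧ T - c • (1 : X →L[ℂ] X) ≠ 0 ∧
      spectrum ℂ (T - c • (1 : X →L[ℂ] X)) ⊆ {0} := by
  have : Nontrivial X := by
    by_contra hX
    rw [not_nontrivial_iff_subsingleton] at hX
    exact hK0 (ContinuousLinearMap.ext fun x => Subsingleton.elim _ _)
  obtain ⟨c, hc⟩ := spectrum.nonempty T
  have hsp : spectrum ℂ T = {c} := by
    refine Set.Subset.antisymm (fun z hz => ?_) (by simpa using hc)
    by_contra hne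
    exact hcon (hyper_of_td T hσ hz hc hne)
  exact ⟨c, hc, fun h' => hcon (hyper_sub h'), sub_ne_zero.2 (hT c), (spec_sub T hsp).le⟩

end Pool.Agent.H109F.LK
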